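import Pool.Agent.Lib.MP_1f4a82_an.Green

/-!
# MP_018119_an, project MX: definitions

Opening gates in a nonremovable curve.  `MPl` is the plane with a modified complex structure along a
closed set, `Gate` is the data of a gate, `GApp` an approximate and `GMap` an exact solution of the
gluing problem, `St` the state of the iteration.
-/

set_option autoImplicit false

open Topology Filter Set Metric

namespace Pool.Agent.MX018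

open Pool.Agent.Lib.MP_1f4a82_an

/-- A modified structure of the plane: the standard one off the closed set `C`, and the one for
which `ψ` is a chart near `C`. -/
structure MPl where
  C : Set ℂ
  N : Set ℂ
  ψ : ℂ → ℂ
  closedC : IsClosed C
  openN : IsOpen N
  sub : C ⊆ N
  cont : ContinuousOn ψ N
  opn : ∀ U ⊆ N, IsOpen U → IsOpen (ψ '' U)
  locinj : ∀ z ∈ N, ∃ U ∈ 𝓝 z, InjOn ψ U
  hol : DifferentiableOn ℂ ψ (N \ C)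

/-- `f` is holomorphic at `z` for the structure `m`. -/
def MHol (m : MPl) (f : ℂ → ℂ) (z : ℂ) : Prop :=
  (z ∉ m.C → AnalyticAt ℂ f z) ∧
    (z ∈ m.C → ∃ g : ℂ → ℂ, AnalyticAt ℂ g (m.ψ z) ∧ ∀ᶠ x in 𝓝 z, f x = g (m.ψ x))

/-- The structure is invariant under the translation by `2πi`. -/
structure MPl.Per (m : MPl) : Prop where
  C : ∀ z, z + 2 * Real.pi * Complex.I ∈ m.C ↔ z ∈ m.C
  N : ∀ z, z + 2 * Real.pi * Complex.I ∈ m.N ↔ z ∈ m.N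
  ψ : ∀ z ∈ m.N, m.ψ (z + 2 * Real.pi * Complex.I) = m.ψ z

/-- The vertical strip `|Re z| < r`. -/
def vst (r : ℝ) : Set ℂ := {z | |z.re| < r}

/-- Green type map of `Y` with pole `q`. -/
structure GF {X : Type} [TopologicalSpace X] [RS X] (Y : Set X) (q : X) (φ : X → ℂ) : Prop where
  hol : ∀ p ∈ Y, HolAt φ p
  zero : φ q = 0
  ne : ∀ p ∈ Y, p ≠ q → φ p ≠ 0
  lt : ∀ p ∈ Y, ‖φ p‖ < 1
  simple : ∀ e ∈ RS.atlas (X := X), q ∈ e.source → ∃ c > 0, ∀ᶠ p in 𝓝 q, c * ‖e p - e q‖ ≤ ‖φ p‖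
  max : ∀ b : X → ℂ, (∀ p ∈ Y, HolAt b p) → (∀ p ∈ Y, ‖b p‖ < 1) → b q = 0 →
    ∀ p ∈ Y, ‖b p‖ ≤ ‖φ p‖

/-- Holomorphy for the structure of the plane which is given by the chart `ψ` along `J`. -/
def WHol (J : Set ℂ) (ψ : ℂ → ℂ) (f : ℂ → ℂ) (w : ℂ) : Prop :=
  (w ∉ J → AnalyticAt ℂ f w) ∧
    (w ∈ J → ∃ g : ℂ → ℂ, AnalyticAt ℂ g (ψ w) ∧ ∀ᶠ x in 𝓝 w, f x = g (ψ x))

/-- Gate data: the structure is modified along `J` without the two points `p`, `q`. -/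
structure Gate (p q : ℂ) (J N : Set ℂ) (ψ : ℂ → ℂ) : Prop where
  ne : p ≠ q
  cpt : IsCompact J
  pJ : p ∈ J
  qJ : q ∈ J
  int : interior J = ∅
  openN : IsOpen N
  sub : J \ {p, q} ⊆ N
  pN : p ∉ N
  qN : q ∉ N
  cont : ContinuousOn ψ N
  inj : InjOn ψ N
  opn : ∀ U ⊆ N, IsOpen U → IsOpen (ψ '' U)
  hol : DifferentiableOn ℂ ψ (N \ J)

/-- The level function `log |(w - p) / (w - q)|`. -/
noncomputable def lv (p q w : ℂ) : ℝ := Real.log ‖(w - p) / (w - q)‖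

/-- The annulus `|lv| < r`. -/
def ann (p q : ℂ) (r : ℝ) : Set ℂ := {w | w ≠ p ∧ w ≠ q ∧ |lv p q w| < r}

/-- Approximate solution of the gluing problem, defined on `ann p q r`. -/
structure GApp (p q : ℂ) (J : Set ℂ) (ψ : ℂ → ℂ) (r : ℝ) (Φ : ℂ → ℂ) : Prop where
  hol : ∀ w ∈ ann p q r, WHol J ψ Φ w
  inj : InjOn Φ (ann p q r)
  inf : Tendsto (fun w => Φ w - w) (cocompact ℂ) (𝓝 0)
  sep : ∃ V W : Set ℂ, IsOpen V ∧ IsOpen W ∧ Disjoint V W ∧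
    (∀ w ∈ ann p q r, lv p q w < 0 → Φ w ∈ V) ∧ (∀ w ∈ ann p q r, 0 < lv p q w → Φ w ∈ W) ∧
    ∀ x, x ∉ V → x ∉ W → ∃ w, w ≠ p ∧ w ≠ q ∧ lv p q w = 0 ∧ Φ w = x

/-- Solution of the gluing problem. -/
structure GMap (p q : ℂ) (J : Set ℂ) (ψ : ℂ → ℂ) (Φ : ℂ → ℂ) : Prop where
  hol : ∀ w, w ≠ p → w ≠ q → WHol J ψ Φ w
  cont : ContinuousOn Φ {p, q}ᶜ
  opn : ∀ U ⊆ ({p, q}ᶜ : Set ℂ), IsOpen U → IsOpen (Φ '' U)
  sep : ∀ η > 0, ∃ δ > 0, ∀ x ∉ ({p, q} : Set ℂ), ∀ y ∉ ({p, q} : Set ℂ), η ≤ dist x y →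
    δ ≤ dist (Φ x) (Φ y)
  inf : Tendsto (fun w => Φ w - w) (cocompact ℂ) (𝓝 0)
  bd : ∀ (c : ℂ) (ρ : ℝ), J ⊆ closedBall c ρ → ∀ w, w ≠ p → w ≠ q → ‖Φ w - w‖ ≤ 10 * ρ

/-- State of the iteration: `F` is an open embedding of the complement of `E`, holomorphic off `K`,
with uniformly continuous inverse. -/
structure St (F : ℂ → ℂ) (E K : Set ℂ) : Prop where
  fin : E.Finite
  sub : E ⊆ K
  cpt : IsCompact K
  cont : ContinuousOn F Eᶜ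
  opn : ∀ U ⊆ Eᶜ, IsOpen U → IsOpen (F '' U)
  sep : ∀ η > 0, ∃ δ > 0, ∀ x ∉ E, ∀ y ∉ E, η ≤ dist x y → δ ≤ dist (F x) (F y)
  hol : DifferentiableOn ℂ F Kᶜ
  inf : Tendsto (fun z => F z - z) (cocompact ℂ) (𝓝 0)

/-- Geometry of a gate `G` with ends `p`, `q` in the compact set `K`. -/
structure GG (E K G : Set ℂ) (p q : ℂ) : Prop where
  ne : p ≠ q
  pK : p ∈ K
  qK : q ∈ K
  pG : p ∉ G
  qG : q ∉ G
  sub : G ⊆ K
  dis : Disjoint (G ∪ {p, q}) E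
  cpt : IsCompact (G ∪ {p, q})
  cl : IsClosed (K \ G)
  int : interior (G ∪ {p, q}) = ∅

/-- Parametrised Jordan arc or Jordan curve. -/
structure Crv (γ : ℝ → ℂ) : Prop where
  cont : ContinuousOn γ (Icc 0 1)
  inj : InjOn γ (Ico 0 1)
  fin : γ 1 = γ 0 ∨ γ 1 ∉ γ '' Ico 0 1

/-- The first `n` gates (parameter side). -/
def gts (s t : ℕ → ℝ) (n : ℕ) : Set ℝ := {x | ∃ k < n, x ∈ Ioo (s k) (t k)}

/-- The ends of the first `n` gates which lie in `B`. -/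
def ends (s t : ℕ → ℝ) (B : Set ℝ) (n : ℕ) : Set ℝ := {x | x ∈ B ∧ ∃ k < n, x = s k ∨ x = t k}

/-- All gates. -/
def gtsI (s t : ℕ → ℝ) : Set ℝ := {x | ∃ k, x ∈ Ioo (s k) (t k)}

/-- All ends in `B`. -/
def endsI (s t : ℕ → ℝ) (B : Set ℝ) : Set ℝ := {x | x ∈ B ∧ ∃ k, x = s k ∨ x = t k}

/-- A sequence of disjoint gates, dense in the curve. -/
structure Gts (s t : ℕ → ℝ) : Prop where
  lt : ∀ n, 0 < s n ∧ s n < t n ∧ t n < 1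
  dis : ∀ m n, m < n → Disjoint (Icc (s m) (t m)) (Icc (s n) (t n))
  dense : ∀ a b : ℝ, 0 ≤ a → a < b → b ≤ 1 → ∃ n, (Ioo a b ∩ Ioo (s n) (t n)).Nonempty

/-- One gate can be opened, the ends in `B` are exceptional points. -/
def Step (γ : ℝ → ℂ) (Q B : Set ℝ) : Prop :=
  ∀ (F : ℂ → ℂ) (E K : Set ℂ) (s t : ℝ), St F E K → s ∈ Q → t ∈ Q → 0 < s → s < t → t < 1 →
    K ⊆ γ '' Icc 0 1 →
    GG E K (γ '' Ioo s t) (γ s) (γ t) → ∃ F' : ℂ → ℂ,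
      St F' (E ∪ γ '' (B ∩ {s, t})) (K \ γ '' Ioo s t) ∧
      ∀ (c : ℂ) (ρ : ℝ), F '' (γ '' Icc s t) ⊆ closedBall c ρ →
        ∀ z ∉ E ∪ γ '' (B ∩ {s, t}), ‖F' z - F z‖ ≤ 10 * ρ

/-- The sequence of maps with more and more gates. -/
structure Tower (γ : ℝ → ℂ) (Q B : Set ℝ) (F : ℕ → ℂ → ℂ) (s t ε : ℕ → ℝ) (ε₀ : ℝ) : Prop where
  g : Gts s t
  mem : ∀ n, s n ∈ Q ∧ t n ∈ Q
  st : ∀ n, St (F n) (γ '' ends s t B n) (γ '' (Icc 0 1 \ gts s t n))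
  close : ∀ n, ∀ z ∉ γ '' ends s t B (n + 1), ‖F (n + 1) z - F n z‖ ≤ ε n
  pos : ∀ n, 0 < ε n
  half : ∀ n, ε (n + 1) ≤ ε n / 2
  zero : ε 0 ≤ ε₀ / 2
  sep : ∀ n, ∀ x ∉ γ '' ends s t B n, ∀ y ∉ γ '' ends s t B n, 1 / ((n : ℝ) + 1) ≤ dist x y →
    6 * ε n ≤ dist (F n x) (F n y)

end Pool.Agent.MX018
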