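import Mathlib

/-!
# MX: decay at infinity
-/

set_option autoImplicit false

open Topology Filter Set Metric

namespace Pool.Agent.MX018

/-- a point near infinity -/
theorem tendsto_inv_shift (c : ℂ) {ρ : ℝ} (hρ : 0 < ρ) :
    Tendsto (fun ζ : ℂ => c + ρ / ζ) (𝓝[≠] 0) (cocompact ℂ) := by
  rw [← Metric.cobounded_eq_cocompact, ← tendsto_norm_atTop_iff_cobounded]
  have h1 : Tendsto (fun ζ : ℂ => ρ * ‖ζ⁻¹‖ + (-‖c‖)) (𝓝[≠] 0) atTop := by
    apply tendsto_atTop_add_const_right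
    apply Tendsto.const_mul_atTop hρ
    exact tendsto_norm_atTop_iff_cobounded.2 tendsto_inv₀_nhdsNE_zero
  refine tendsto_atTop_mono (fun ζ => ?_) h1
  have h2 : ‖(ρ : ℂ) / ζ‖ = ρ * ‖ζ⁻¹‖ := by
    rw [div_eq_mul_inv, norm_mul, Complex.norm_real, Real.norm_eq_abs, abs_of_pos hρ]
  have h3 : ‖(ρ : ℂ) / ζ‖ ≤ ‖c + ρ / ζ‖ + ‖c‖ := by
    have := norm_sub_le (c + (ρ : ℂ) / ζ) c
    rwa [add_sub_cancel_left] at this
  rw [h2] at h3
  linarith

/-- exterior points -/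
theorem shift_mem (c : ℂ) {ρ : ℝ} (hρ : 0 < ρ) {ζ : ℂ} (h0 : ζ ≠ 0) (h1 : ‖ζ‖ < 1) :
    ρ < ‖(c + ρ / ζ) - c‖ := by
  have h2 : 0 < ‖ζ‖ := norm_pos_iff.2 h0
  rw [add_sub_cancel_left, norm_div, Complex.norm_real, Real.norm_eq_abs, abs_of_pos hρ,
    lt_div_iff₀ h2]
  nlinarith

/-- a function which vanishes at infinity, in the disc -/
theorem disc_diff {h : ℂ → ℂ} {c : ℂ} {ρ : ℝ} (hρ : 0 < ρ)
    (hd : DifferentiableOn ℂ h {w | ρ < ‖w - c‖})
    (hinf : Tendsto h (cocompact ℂ) (𝓝 0)) :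
    DifferentiableOn ℂ (fun ζ : ℂ => if ζ = 0 then 0 else h (c + ρ / ζ)) (ball 0 1) := by
  have hop : IsOpen {w : ℂ | ρ < ‖w - c‖} :=
    isOpen_lt continuous_const (by fun_prop)
  have hne : ∀ ζ : ℂ, ζ ≠ 0 → ‖ζ‖ < 1 →
      DifferentiableAt ℂ (fun ζ : ℂ => if ζ = 0 then 0 else h (c + ρ / ζ)) ζ := by
    intro ζ h0 h1
    have h2 : DifferentiableAt ℂ h (c + ρ / ζ) :=
      (hd _ (shift_mem c hρ h0 h1)).differentiableAt (hop.mem_nhds (shift_mem c hρ h0 h1))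
    have h3 : DifferentiableAt ℂ (fun ζ : ℂ => c + ρ / ζ) ζ :=
      (differentiableAt_const _).add ((differentiableAt_const _).div differentiableAt_id h0)
    have h4 : DifferentiableAt ℂ (fun ζ : ℂ => h (c + ρ / ζ)) ζ :=
      DifferentiableAt.comp ζ h2 h3
    refine h4.congr_of_eventuallyEq ?_
    filter_upwards [isOpen_ne.mem_nhds h0] with x hx
    rw [if_neg hx]
  have h0 : AnalyticAt ℂ (fun ζ : ℂ => if ζ = 0 then 0 else h (c + ρ / ζ)) 0 := by
    apply Complex.analyticAt_of_differentiable_on_punctured_nhds_of_continuousAt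
    · have : ball (0 : ℂ) 1 ∈ 𝓝[≠] (0 : ℂ) := mem_nhdsWithin_of_mem_nhds (ball_mem_nhds 0 one_pos)
      filter_upwards [this, self_mem_nhdsWithin] with ζ h1 h2
      exact hne ζ h2 (mem_ball_zero_iff.1 h1)
    · rw [continuousAt_iff_punctured_nhds]
      simp only [if_true]
      refine (hinf.comp (tendsto_inv_shift c hρ)).congr' ?_
      filter_upwards [self_mem_nhdsWithin] with ζ h2
      have h3 : ζ ≠ 0 := h2
      rw [if_neg h3]
      rfl
  intro ζ hζ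
  rcases eq_or_ne ζ 0 with h1 | h1
  · rw [h1]; exact h0.differentiableAt.differentiableWithinAt
  · exact (hne ζ h1 (mem_ball_zero_iff.1 hζ)).differentiableWithinAt

/-- Uniform decay at infinity.
PROOF. `h w = f w - w` is holomorphic on `{ρ < ‖w - c‖}`, bounded by `M`, and tends to `0`; the
function `k ζ = h (c + ρ / ζ)`, `k 0 = 0`, is holomorphic in the unit disc (removable
singularity), `‖k‖ ≤ M`, so by the Schwarz lemma `‖k ζ‖ ≤ M ‖ζ‖`. -/
theorem decay_bound {f : ℂ → ℂ} {c : ℂ} {ρ M : ℝ} (hρ : 0 < ρ)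
    (hd : DifferentiableOn ℂ f {w | ρ < ‖w - c‖})
    (hinf : Tendsto (fun w => f w - w) (cocompact ℂ) (𝓝 0))
    (hM : ∀ w, ρ < ‖w - c‖ → ‖f w - w‖ ≤ M) {w : ℂ} (hw : ρ < ‖w - c‖) :
    ‖f w - w‖ ≤ M * ρ / ‖w - c‖ := by
  have hM0 : 0 ≤ M := (norm_nonneg _).trans (hM w hw)
  have hk := disc_diff (h := fun w => f w - w) (c := c) hρ (hd.sub differentiableOn_id) hinf
  set k : ℂ → ℂ := fun ζ : ℂ => if ζ = 0 then 0 else (fun w => f w - w) (c + ρ / ζ) with hkd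
  have hk0 : k 0 = 0 := by simp [hkd]
  have hwc : 0 < ‖w - c‖ := hρ.trans hw
  have hwc0 : w - c ≠ 0 := norm_pos_iff.1 hwc
  set ζ : ℂ := ρ / (w - c) with hζ
  have hζ0 : ζ ≠ 0 := div_ne_zero (by exact_mod_cast hρ.ne') hwc0
  have hζn : ‖ζ‖ = ρ / ‖w - c‖ := by
    rw [hζ, norm_div, Complex.norm_real, Real.norm_eq_abs, abs_of_pos hρ]
  have hζ1 : ζ ∈ ball (0 : ℂ) 1 := by
    rw [mem_ball_zero_iff, hζn, div_lt_one hwc]; exact hw
  have hmaps : MapsTo k (ball 0 1) (closedBall (k 0) M) := by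
    intro x hx
    rw [hk0, mem_closedBall_zero_iff]
    rcases eq_or_ne x 0 with h1 | h1
    · rw [h1, hk0, norm_zero]; exact hM0
    · simp only [hkd]
      rw [if_neg h1]
      exact hM _ (shift_mem c hρ h1 (mem_ball_zero_iff.1 hx))
  have h1 := Complex.dist_le_div_mul_dist_of_mapsTo_ball hk hmaps hζ1
  rw [hk0, dist_zero_right, dist_zero_right, div_one, hζn] at h1
  have h2 : k ζ = f w - w := by
    simp only [hkd]
    rw [if_neg hζ0]
    have h3 : c + (ρ : ℂ) / ζ = w := by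
      rw [hζ, div_div_cancel₀ (by exact_mod_cast hρ.ne'), add_sub_cancel]
    rw [h3]
  rw [h2] at h1
  rwa [mul_div_assoc]

end Pool.Agent.MX018
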