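import Pool.Agent.Lib.MP_018119_an_MX.KoeB
import Pool.Agent.Lib.MP_018119_an_MX.KoeC
import Pool.Agent.Lib.MP_018119_an_MX.Defs

/-!
# MX: bounds for the approximate solutions
-/

set_option autoImplicit false

open Topology Filter Set Metric

namespace Pool.Agent.MX018

theorem app_aux_log {x X r : ℝ} (hx : 0 < x) (h1 : x ≤ X) (h2 : x⁻¹ ≤ X) (hr : Real.log X < r) :
    |Real.log x| < r := by
  rw [abs_lt]
  have h3 := Real.log_le_log hx h1
  have h4 := Real.log_le_log (inv_pos.2 hx) h2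
  rw [Real.log_inv] at h4
  constructor <;> linarith

theorem app_aux_ratio {ρ ρ' s : ℝ} (h0 : 0 < ρ) (h1 : ρ < ρ') (h2 : ρ' ≤ s) {a b : ℝ}
    (ha' : a ≤ s + ρ) (hb : s - ρ ≤ b) : a / b ≤ (ρ' + ρ) / (ρ' - ρ) := by
  have hs : 0 < s - ρ := by linarith
  have hr : 0 < ρ' - ρ := by linarith
  have hb0 : 0 < b := by linarith
  rw [div_le_div_iff₀ hb0 hr]
  nlinarith [mul_nonneg h0.le (sub_nonneg.2 h2), mul_le_mul_of_nonneg_right ha' hr.le,
    mul_le_mul_of_nonneg_left hb (by linarith : (0 : ℝ) ≤ ρ' + ρ)]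

/-- PROOF. If `ρ' ≤ ‖w - c‖` then `‖w - p‖`, `‖w - q‖` are both in
`[‖w - c‖ - ρ, ‖w - c‖ + ρ]`, so `|lv p q w| ≤ log ((‖w - c‖ + ρ) / (‖w - c‖ - ρ)) ≤
log ((ρ' + ρ) / (ρ' - ρ)) < r` and `w ∈ ann p q r`. Moreover `w ∉ J`, so that `Φ` is analytic at
`w`. Note `0 < ρ` (`J` contains two points). Apply `koe_bound` and `decay_bound` with `ρ'`,
`U = ann p q r`, `u₁ = (p + q) / 2` (`lv p q u₁ = 0`, in `closedBall c ρ`). -/
theorem app_bound {p q : ℂ} {J N : Set ℂ} {ψ : ℂ → ℂ} (hg : Gate p q J N ψ) {r : ℝ} {Φ : ℂ → ℂ}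
    (h : GApp p q J ψ r Φ) {c : ℂ} {ρ ρ' : ℝ} (hJ : J ⊆ closedBall c ρ) (hρ : ρ < ρ')
    (hr : Real.log ((ρ' + ρ) / (ρ' - ρ)) < r) :
    {w | ρ' ≤ ‖w - c‖} ⊆ ann p q r ∧ (∀ w ∈ ann p q r, ‖Φ w - w‖ ≤ 10 * ρ') ∧
      ∀ w, ρ' < ‖w - c‖ → ‖Φ w - w‖ ≤ 10 * ρ' * ρ' / ‖w - c‖ := by
  have hp : ‖p - c‖ ≤ ρ := by
    have := hJ hg.pJ
    rwa [mem_closedBall, dist_eq_norm] at this
  have hq : ‖q - c‖ ≤ ρ := by
    have := hJ hg.qJ
    rwa [mem_closedBall, dist_eq_norm] at this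
  have hρ0 : 0 < ρ := by
    have h1 : 0 < ‖p - q‖ := norm_pos_iff.2 (sub_ne_zero.2 hg.ne)
    have h2 : ‖p - q‖ ≤ ‖p - c‖ + ‖q - c‖ := by
      have : p - q = (p - c) - (q - c) := by ring
      rw [this]; exact norm_sub_le _ _
    linarith
  have hρ' : 0 < ρ' := hρ0.trans hρ
  have hX : 1 ≤ (ρ' + ρ) / (ρ' - ρ) := by
    rw [one_le_div (by linarith)]; linarith
  have hr0 : 0 < r := (Real.log_nonneg hX).trans_lt hr
  have key : ∀ u : ℂ, ‖u - c‖ ≤ ρ → ∀ w : ℂ, ρ' ≤ ‖w - c‖ →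
      ‖w - u‖ ≤ ‖w - c‖ + ρ ∧ ‖w - c‖ - ρ ≤ ‖w - u‖ := by
    intro u hu w _
    constructor
    · have : w - u = (w - c) - (u - c) := by ring
      rw [this]
      exact (norm_sub_le _ _).trans (by linarith)
    · have : w - c = (w - u) + (u - c) := by ring
      have h1 : ‖w - c‖ ≤ ‖w - u‖ + ‖u - c‖ := by
        conv_lhs => rw [this]
        exact norm_add_le _ _
      linarith
  have hsub : {w | ρ' ≤ ‖w - c‖} ⊆ ann p q r := by
    intro w hw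
    have hw' : ρ' ≤ ‖w - c‖ := hw
    obtain ⟨p1, p2⟩ := key p hp w hw'
    obtain ⟨q1, q2⟩ := key q hq w hw'
    have hp0 : 0 < ‖w - p‖ := by linarith
    have hq0 : 0 < ‖w - q‖ := by linarith
    refine ⟨sub_ne_zero.1 (norm_pos_iff.1 hp0), sub_ne_zero.1 (norm_pos_iff.1 hq0), ?_⟩
    rw [lv, norm_div]
    refine app_aux_log (div_pos hp0 hq0) (app_aux_ratio hρ0 hρ hw' p1 q2) ?_ hr
    rw [inv_div]
    exact app_aux_ratio hρ0 hρ hw' q1 p2
  have hsub' : {w | ρ' < ‖w - c‖} ⊆ ann p q r := fun w hw =>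
    hsub (le_of_lt (show ρ' < ‖w - c‖ from hw))
  have hd : DifferentiableOn ℂ Φ {w | ρ' < ‖w - c‖} := by
    intro w hw
    have hw' : ρ' < ‖w - c‖ := hw
    have hwJ : w ∉ J := by
      intro hwJ
      have := hJ hwJ
      rw [mem_closedBall, dist_eq_norm] at this
      linarith
    exact (((h.hol w (hsub' hw)).1 hwJ).differentiableAt).differentiableWithinAt
  have hu1 : (p + q) / 2 ∈ ann p q r := by
    have e1 : (p + q) / 2 - p = (q - p) / 2 := by ring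
    have e2 : (p + q) / 2 - q = -((q - p) / 2) := by ring
    have hne : (q - p) / 2 ≠ 0 := div_ne_zero (sub_ne_zero.2 hg.ne.symm) two_ne_zero
    refine ⟨?_, ?_, ?_⟩
    · intro h'
      rw [← sub_eq_zero, e1] at h'
      exact hne h'
    · intro h'
      rw [← sub_eq_zero, e2, neg_eq_zero] at h'
      exact hne h'
    · rw [lv, e1, e2, norm_div, norm_neg, div_self (norm_ne_zero_iff.2 hne), Real.log_one, abs_zero]
      exact hr0
  have hu2 : ‖(p + q) / 2 - c‖ ≤ ρ' := by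
    have : (p + q) / 2 - c = (1 / 2 : ℂ) * ((p - c) + (q - c)) := by ring
    rw [this, norm_mul]
    have h1 : ‖(1 / 2 : ℂ)‖ = 1 / 2 := by norm_num
    rw [h1]
    have h2 := norm_add_le (p - c) (q - c)
    linarith
  have hb := koe_bound hρ' hsub' h.inj hd h.inf hu1 hu2
  refine ⟨hsub, hb, ?_⟩
  intro w hw
  exact decay_bound hρ' hd h.inf (fun w hw => hb w (hsub' hw)) hw

end Pool.Agent.MX018
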