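import Pool.Agent.Lib.MP_1f4a82_an.Limits

/-!
# MX: convergence of bounded holomorphic functions from convergence on a dense set
-/

set_option autoImplicit false

open Topology Filter Set Metric

open Pool.Agent.Lib.MP_1f4a82_an

namespace Pool.Agent.MX018

/-- Vitali's theorem in an easy case.
PROOF. For `z ∈ ball z₀ R` and a small ball around it (radius `t`, `ball z (2 t) ⊆ ball z₀ R`) the
functions `F n`, `n` large, are Lipschitz on `ball z t` with constant `M / t` (Cauchy estimate for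
the derivative; `lipschitz_of_bounded` in Lib/MP_1f4a82_an/Limits.lean has exactly this). So
`(F n z)` is a Cauchy sequence: compare with a point `d ∈ D` near `z`. Let `g z` be the limit on
`ball z₀ R`. Then `tendstoLocallyUniformlyOn_of_bounded` of Lib/MP_1f4a82_an/Limits.lean (pointwise
convergence and boundedness give locally uniform convergence and holomorphy of the limit). -/
theorem dense_conv {F : ℕ → ℂ → ℂ} {z₀ : ℂ} {R M : ℝ}
    (hF : ∀ᶠ n in atTop, DifferentiableOn ℂ (F n) (ball z₀ R))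
    (hb : ∀ᶠ n in atTop, ∀ z ∈ ball z₀ R, ‖F n z‖ ≤ M) {D : Set ℂ}
    (hD : ball z₀ R ⊆ closure D)
    (hconv : ∀ d ∈ D, d ∈ ball z₀ R → ∃ l : ℂ, Tendsto (fun n => F n d) atTop (𝓝 l)) :
    ∃ g : ℂ → ℂ, DifferentiableOn ℂ g (ball z₀ R) ∧
      TendstoLocallyUniformlyOn F g atTop (ball z₀ R) := by
  have hc : ∀ z ∈ ball z₀ R, ∃ l : ℂ, Tendsto (fun n => F n z) atTop (𝓝 l) := by
    intro z hz
    apply cauchySeq_tendsto_of_complete
    obtain ⟨t', ht', hball⟩ := Metric.isOpen_iff.mp isOpen_ball z hz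
    set t : ℝ := t' / 2 with ht
    have ht0 : 0 < t := by positivity
    have hball' : ball z (2 * t) ⊆ ball z₀ R := by
      have : 2 * t = t' := by rw [ht]; ring
      rw [this]; exact hball
    obtain ⟨n₀, hn₀⟩ := hb.exists
    have hM : 0 ≤ M := (norm_nonneg _).trans (hn₀ z hz)
    have hMt : 0 < M / t + 1 := by positivity
    rw [Metric.cauchySeq_iff']
    intro ε hε
    set δ : ℝ := min t (ε / (4 * (M / t + 1))) with hδ
    have hδ0 : 0 < δ := lt_min ht0 (by positivity)
    obtain ⟨d, hdD, hdz⟩ := Metric.mem_closure_iff.mp (hD hz) δ hδ0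
    have hdt : d ∈ ball z t := by
      rw [mem_ball, dist_comm]
      exact hdz.trans_le (min_le_left _ _)
    have hdR : d ∈ ball z₀ R := hball' (ball_subset_ball (by linarith) hdt)
    obtain ⟨l, hl⟩ := hconv d hdD hdR
    obtain ⟨N₁, hN₁⟩ := Metric.cauchySeq_iff.mp hl.cauchySeq (ε / 4) (by positivity)
    have hev : ∀ᶠ n in atTop, ‖F n z - F n d‖ ≤ M / t * ‖z - d‖ := by
      filter_upwards [hF, hb] with n h1 h2
      exact lipschitz_of_bounded ht0 (h1.mono hball') (fun y hy => h2 y (hball' hy))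
        (mem_ball_self ht0) hdt
    obtain ⟨N₂, hN₂⟩ := eventually_atTop.mp hev
    have hsm : M / t * ‖z - d‖ ≤ ε / 4 := by
      have h2 : ‖z - d‖ ≤ ε / (4 * (M / t + 1)) := by
        rw [← dist_eq_norm]
        exact hdz.le.trans (min_le_right _ _)
      calc M / t * ‖z - d‖ ≤ (M / t + 1) * ‖z - d‖ :=
            mul_le_mul_of_nonneg_right (by linarith) (norm_nonneg _)
        _ ≤ (M / t + 1) * (ε / (4 * (M / t + 1))) := mul_le_mul_of_nonneg_left h2 hMt.le
        _ = ε / 4 := by field_simp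
    refine ⟨max N₁ N₂, fun n hn => ?_⟩
    have a1 : dist (F n d) (F (max N₁ N₂) d) < ε / 4 :=
      hN₁ n ((le_max_left _ _).trans hn) _ (le_max_left _ _)
    have a2 : dist (F n z) (F n d) ≤ ε / 4 := by
      rw [dist_eq_norm]
      exact (hN₂ n ((le_max_right _ _).trans hn)).trans hsm
    have a3 : dist (F (max N₁ N₂) d) (F (max N₁ N₂) z) ≤ ε / 4 := by
      rw [dist_comm, dist_eq_norm]
      exact (hN₂ _ (le_max_right _ _)).trans hsm
    calc dist (F n z) (F (max N₁ N₂) z)
        ≤ dist (F n z) (F n d) + dist (F n d) (F (max N₁ N₂) d) +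
          dist (F (max N₁ N₂) d) (F (max N₁ N₂) z) := dist_triangle4 _ _ _ _
      _ < ε := by linarith
  choose! g hg using hc
  obtain ⟨h1, h2⟩ := tendstoLocallyUniformlyOn_of_bounded isOpen_ball hF hb hg
  exact ⟨g, h2, h1⟩

end Pool.Agent.MX018
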