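import Pool.Agent.Lib.MP_018119_an_MX.ChW
import Pool.Agent.Lib.MP_018119_an_MX.LimA
import Pool.Agent.Lib.MP_018119_an_MX.LimB
import Pool.Agent.Lib.MP_ae5b4e_an_UT.Hurw

/-!
# MX: the limit of the approximate solutions
-/

set_option autoImplicit false

open Topology Filter Set Metric

namespace Pool.Agent.MX018

private theorem LimCa_loc {p q : ℂ} {J N : Set ℂ} {ψ : ℂ → ℂ} (hg : Gate p q J N ψ) {r : ℕ → ℝ}
    {Φ : ℕ → ℂ → ℂ} (hr : Tendsto r atTop atTop) (h : ∀ j, GApp p q J ψ (r j) (Φ j)) {w : ℂ}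
    (hp : w ≠ p) (hq : w ≠ q) : ∃ U : Set ℂ, IsOpen U ∧ w ∈ U ∧ ∃ B : ℝ, ∀ᶠ j in atTop,
      U ⊆ ann p q (r j) ∧ ∀ x ∈ U, ‖Φ j x‖ ≤ B := by
  obtain ⟨ρ, hρ⟩ := hg.cpt.isBounded.subset_closedBall (0 : ℂ)
  have hc : ContinuousAt (lv p q) w := by
    unfold lv
    refine ContinuousAt.log ?_ ?_
    · exact ((continuousAt_id.sub continuousAt_const).div (continuousAt_id.sub continuousAt_const)
        (sub_ne_zero.mpr hq)).norm
    · exact (norm_pos_iff.mpr (div_ne_zero (sub_ne_zero.mpr hp) (sub_ne_zero.mpr hq))).ne'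
  have h1 : ∀ᶠ x in 𝓝 w, |lv p q x| < |lv p q w| + 1 :=
    hc.abs.eventually_lt continuousAt_const (lt_add_one _)
  have h2 : ∀ᶠ x in 𝓝 w, ‖x‖ < ‖w‖ + 1 :=
    continuousAt_id.norm.eventually_lt continuousAt_const (lt_add_one _)
  have h3 : ∀ᶠ x in 𝓝 w, x ≠ p := isOpen_ne.eventually_mem hp
  have h4 : ∀ᶠ x in 𝓝 w, x ≠ q := isOpen_ne.eventually_mem hq
  obtain ⟨U, hU, hUo, hwU⟩ := _root_.mem_nhds_iff.mp (h1.and (h2.and (h3.and h4)))
  refine ⟨U, hUo, hwU, ‖w‖ + 1 + 10 * (ρ + 1), ?_⟩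
  filter_upwards [hr.eventually_ge_atTop (|lv p q w| + 1),
    hr.eventually_gt_atTop (Real.log ((ρ + 1 + ρ) / (ρ + 1 - ρ)))] with j hj1 hj2
  have hsub : U ⊆ ann p q (r j) := fun x hx => by
    obtain ⟨a, -, c, d⟩ := hU hx
    exact ⟨c, d, lt_of_lt_of_le a hj1⟩
  refine ⟨hsub, fun x hx => ?_⟩
  have h5 := (app_bound hg (h j) hρ (lt_add_one ρ) hj2).2.1 x (hsub hx)
  have h6 : ‖x‖ < ‖w‖ + 1 := (hU hx).2.1
  have h7 : ‖Φ j x‖ ≤ ‖Φ j x - x‖ + ‖x‖ := by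
    have := norm_add_le (Φ j x - x) x
    rwa [sub_add_cancel] at this
  linarith

private theorem LimCa_congr {J : Set ℂ} {ψ f f' : ℂ → ℂ} {w : ℂ} (h : WHol J ψ f w)
    (he : ∀ᶠ x in 𝓝 w, f' x = f x) : WHol J ψ f' w := by
  refine ⟨fun hw => (h.1 hw).congr (he.mono fun x hx => hx.symm), fun hw => ?_⟩
  obtain ⟨g, h1, h2⟩ := h.2 hw
  exact ⟨g, h1, by filter_upwards [he, h2] with x a b; rw [a, b]⟩

private theorem LimCa_key {p q : ℂ} {J N : Set ℂ} {ψ : ℂ → ℂ} (hg : Gate p q J N ψ) {r : ℕ → ℝ}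
    {Φ : ℕ → ℂ → ℂ} (hr : Tendsto r atTop atTop) (h : ∀ j, GApp p q J ψ (r j) (Φ j)) {G : ℂ → ℂ}
    (hG : ∀ x, x ∉ J → Tendsto (fun j => Φ j x) atTop (𝓝 (G x))) {w : ℂ} (hp : w ≠ p)
    (hq : w ≠ q) : ∃ (W : Set ℂ) (f : ℂ → ℂ), IsOpen W ∧ w ∈ W ∧ TendstoUniformlyOn Φ f atTop W ∧
      ∀ x ∈ W, WHol J ψ f x := by
  obtain ⟨U₀, hU₀o, hwU₀, B, hB⟩ := LimCa_loc hg hr h hp hq
  obtain ⟨U, χ, hwU, -, hχ⟩ := exists_chW hg hp hq
  have hU₁o : IsOpen (U ∩ U₀) := hχ.openU.inter hU₀o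
  have ho : IsOpen (χ '' (U ∩ U₀)) := hχ.opn _ inter_subset_left hU₁o
  obtain ⟨R, hR, hRs⟩ := Metric.isOpen_iff.mp ho (χ w) ⟨w, ⟨hwU, hwU₀⟩, rfl⟩
  set V : Set ℂ := (U ∩ U₀) ∩ χ ⁻¹' ball (χ w) R with hV
  have hc1 : ContinuousOn χ (U ∩ U₀) := hχ.cont.mono inter_subset_left
  have hVo : IsOpen V := hc1.isOpen_inter_preimage hU₁o isOpen_ball
  have hVU : V ⊆ U := fun x hx => hx.1.1
  have hVU₀ : V ⊆ U₀ := fun x hx => hx.1.2
  have him : χ '' V = ball (χ w) R := by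
    apply Subset.antisymm
    · rintro _ ⟨x, hx, rfl⟩
      exact hx.2
    · intro y hy
      obtain ⟨x, hx, rfl⟩ := hRs hy
      exact ⟨x, ⟨hx, hy⟩, rfl⟩
  have hex : ∀ j, ∃ g : ℂ → ℂ, U₀ ⊆ ann p q (r j) →
      DifferentiableOn ℂ g (χ '' V) ∧ ∀ x ∈ V, Φ j x = g (χ x) := by
    intro j
    by_cases hj : U₀ ⊆ ann p q (r j)
    · obtain ⟨g, h1, h2⟩ := hχ.fac (Φ j) V hVU hVo fun x hx => (h j).hol x (hj (hVU₀ hx))
      exact ⟨g, fun _ => ⟨h1, h2⟩⟩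
    · exact ⟨0, fun h' => absurd h' hj⟩
  choose F hF using hex
  have hJd : Dense Jᶜ := interior_eq_empty_iff_dense_compl.mp hg.int
  obtain ⟨g, hgd, hgl⟩ := dense_conv (F := F) (z₀ := χ w) (R := R) (M := B)
    (D := χ '' (V ∩ Jᶜ))
    (by
      filter_upwards [hB] with j hj
      rw [← him]
      exact (hF j hj.1).1)
    (by
      filter_upwards [hB] with j hj z hz
      rw [← him] at hz
      obtain ⟨x, hx, rfl⟩ := hz
      rw [← (hF j hj.1).2 x hx]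
      exact hj.2 x (hVU₀ hx))
    (by
      intro z hz
      rw [← him] at hz
      obtain ⟨x, hx, rfl⟩ := hz
      have h1 : x ∈ closure (V ∩ Jᶜ) := hJd.open_subset_closure_inter hVo hx
      exact ContinuousWithinAt.mem_closure_image
        ((hχ.cont x (hVU hx)).mono (inter_subset_left.trans hVU)) h1)
    (by
      rintro _ ⟨x, hx, rfl⟩ -
      refine ⟨G x, (hG x hx.2).congr' ?_⟩
      filter_upwards [hB] with j hj
      exact (hF j hj.1).2 x hx.1)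
  have hR2 : closedBall (χ w) (R / 2) ⊆ ball (χ w) R := closedBall_subset_ball (by linarith)
  have hu : TendstoUniformlyOn F g atTop (closedBall (χ w) (R / 2)) :=
    (tendstoLocallyUniformlyOn_iff_forall_isCompact isOpen_ball).mp hgl _ hR2
      (isCompact_closedBall _ _)
  refine ⟨(U ∩ U₀) ∩ χ ⁻¹' ball (χ w) (R / 2), fun x => g (χ x),
    hc1.isOpen_inter_preimage hU₁o isOpen_ball, ⟨⟨hwU, hwU₀⟩, mem_ball_self (by linarith)⟩, ?_, ?_⟩
  · rw [Metric.tendstoUniformlyOn_iff] at hu ⊢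
    intro ε hε
    filter_upwards [hu ε hε, hB] with j hj hj' x hx
    have hxV : x ∈ V := ⟨hx.1, ball_subset_ball (by linarith) hx.2⟩
    rw [(hF j hj'.1).2 x hxV]
    exact hj (χ x) (ball_subset_closedBall hx.2)
  · intro x hx
    have hxV : x ∈ V := ⟨hx.1, ball_subset_ball (by linarith) hx.2⟩
    exact hχ.hol (fun x => g (χ x)) g V hVU hVo (by rw [him]; exact hgd) (fun _ _ => rfl) x hxV

/-- PROOF. Let `J ⊆ closedBall c ρ`, `ρ' = ρ + 1`. For every `w ≠ p, q` there are a neighbourhood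
`U₀` of `w` and `j₀` with `U₀ ⊆ ann p q (r j)` for `j ≥ j₀` (`lv p q` is continuous at `w`), and
`‖Φ j x‖ ≤ ‖x‖ + 10 ρ'` on `U₀` for large `j` (`app_bound`). On the open set `Jᶜ` the functions
`Φ j` are eventually analytic near each point and bounded near each point, so by Montel
(`montel` in Lib/MP_ae5b4e_an_UT/Hurw.lean) there is a subsequence `σ` which converges locally
uniformly on `Jᶜ`. Let now `w ≠ p, q` be arbitrary, `U`, `χ` a chart at `w` (`exists_chW`), and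
choose `R > 0` such that `ball (χ w) R ⊆ χ '' U₁` with `U₁ ⊆ U ∩ U₀` an open neighbourhood of `w`,
`V = U₁ ∩ χ⁻¹ (ball (χ w) R)` (open), `χ '' V = ball (χ w) R`. For large `j` let `g j` be given by
`ChW.fac` for `f = Φ (σ j)` and `V`: holomorphic on the ball, bounded there, and convergent on the
set `D = χ '' (V \ J)`, which is dense in the ball (`J` has empty interior, `χ` is open and
continuous; for `d = χ x`, `x ∈ V \ J`, `g j d = Φ (σ j) x` converges). By `dense_conv` `g j → g`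
locally uniformly on the ball. Define `Φ w = lim Φ (σ j) w` for all `w ≠ p, q`; near `w`:
`Φ x = g (χ x)`, so `WHol` by `ChW.hol`, and the convergence is uniform on
`V ∩ χ⁻¹ (closedBall (χ w) (R / 2))`, a neighbourhood of `w`. (Choose the functions `g j` by cases:
`0` for small `j`.) -/
theorem exists_limit {p q : ℂ} {J N : Set ℂ} {ψ : ℂ → ℂ} (hg : Gate p q J N ψ) {r : ℕ → ℝ}
    {Φ : ℕ → ℂ → ℂ} (hr : Tendsto r atTop atTop) (h : ∀ j, GApp p q J ψ (r j) (Φ j)) :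
    ∃ (σ : ℕ → ℕ) (Φ' : ℂ → ℂ), StrictMono σ ∧
      (∀ w, w ≠ p → w ≠ q → ∃ U ∈ 𝓝 w, TendstoUniformlyOn (fun j => Φ (σ j)) Φ' atTop U) ∧
      ∀ w, w ≠ p → w ≠ q → WHol J ψ Φ' w := by
  have hM : ∀ x ∈ Jᶜ, ∃ t > 0, ∃ M : ℝ, ∀ᶠ j in atTop,
      DifferentiableOn ℂ (Φ j) (ball x t) ∧ ∀ y ∈ ball x t, ‖Φ j y‖ ≤ M := by
    intro x hx
    have hp : x ≠ p := fun h' => hx (h' ▸ hg.pJ)
    have hq : x ≠ q := fun h' => hx (h' ▸ hg.qJ)
    obtain ⟨U, hUo, hxU, B, hB⟩ := LimCa_loc hg hr h hp hq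
    obtain ⟨t, ht, hts⟩ := Metric.isOpen_iff.mp
      (hUo.inter hg.cpt.isClosed.isOpen_compl) x ⟨hxU, hx⟩
    refine ⟨t, ht, B, ?_⟩
    filter_upwards [hB] with j hj
    refine ⟨fun y hy => ?_, fun y hy => hj.2 y (hts hy).1⟩
    exact (((h j).hol y (hj.1 (hts hy).1)).1 (hts hy).2).differentiableAt.differentiableWithinAt
  obtain ⟨σ, G, hσ, -, hG⟩ := Pool.Agent.Lib.MP_ae5b4e_an_UT.montel
    hg.cpt.isClosed.isOpen_compl hM
  have hkey := fun (w : ℂ) (hp : w ≠ p) (hq : w ≠ q) => LimCa_key (r := fun j => r (σ j))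
    (Φ := fun j => Φ (σ j)) hg (hr.comp hσ.tendsto_atTop) (fun j => h (σ j)) (G := G)
    (fun x hx => hG.tendsto_at hx) hp hq
  refine ⟨σ, fun x => limUnder atTop fun j => Φ (σ j) x, hσ, fun w hp hq => ?_,
    fun w hp hq => ?_⟩
  · obtain ⟨W, f, hWo, hwW, hu, -⟩ := hkey w hp hq
    exact ⟨W, hWo.mem_nhds hwW, hu.congr_right fun x hx => (hu.tendsto_at hx).limUnder_eq.symm⟩
  · obtain ⟨W, f, hWo, hwW, hu, hW⟩ := hkey w hp hq
    refine LimCa_congr (hW w hwW) ?_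
    filter_upwards [hWo.mem_nhds hwW] with x hx
    exact (hu.tendsto_at hx).limUnder_eq

end Pool.Agent.MX018
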