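import Pool.Agent.Lib.MP_018119_an_MX.LimA

/-!
# MX: bounds for the limit
-/

set_option autoImplicit false

open Topology Filter Set Metric

namespace Pool.Agent.MX018

/-- Bounds for the limit.
PROOF. Pointwise limit in `app_bound` (for every `ρ' > ρ` and `j` large). The decay for one ball
gives the limit at infinity. -/
theorem limit_bound {p q : ℂ} {J N : Set ℂ} {ψ : ℂ → ℂ} (hg : Gate p q J N ψ) {r : ℕ → ℝ}
    {Φ : ℕ → ℂ → ℂ} (hr : Tendsto r atTop atTop) (h : ∀ j, GApp p q J ψ (r j) (Φ j))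
    {Φ' : ℂ → ℂ} (hl : ∀ w, w ≠ p → w ≠ q → Tendsto (fun j => Φ j w) atTop (𝓝 (Φ' w))) :
    Tendsto (fun w => Φ' w - w) (cocompact ℂ) (𝓝 0) ∧
      ∀ (c : ℂ) (ρ : ℝ), J ⊆ closedBall c ρ → ∀ w, w ≠ p → w ≠ q → ‖Φ' w - w‖ ≤ 10 * ρ := by
  have hlog : ∀ {ρ ρ' : ℝ}, ∀ᶠ j in atTop, Real.log ((ρ' + ρ) / (ρ' - ρ)) < r j :=
    fun {ρ ρ'} => hr.eventually (eventually_gt_atTop _)
  constructor
  · obtain ⟨ρ, hρ⟩ := hg.cpt.isBounded.subset_closedBall (0:ℂ)
    have hρ0 : 0 ≤ ρ := by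
      have h1 := hρ hg.pJ
      rw [mem_closedBall] at h1
      exact dist_nonneg.trans h1
    have hb : ∀ w : ℂ, ρ + 1 < ‖w‖ → ‖Φ' w - w‖ ≤ 10 * (ρ + 1) * (ρ + 1) / ‖w‖ := by
      intro w hw
      have hwp : w ≠ p := by
        rintro rfl
        have h1 := hρ hg.pJ
        rw [mem_closedBall, dist_zero_right] at h1
        linarith
      have hwq : w ≠ q := by
        rintro rfl
        have h1 := hρ hg.qJ
        rw [mem_closedBall, dist_zero_right] at h1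
        linarith
      have h2 : Tendsto (fun j => ‖Φ j w - w‖) atTop (𝓝 ‖Φ' w - w‖) :=
        ((hl w hwp hwq).sub_const w).norm
      refine le_of_tendsto h2 ?_
      filter_upwards [hlog (ρ := ρ) (ρ' := ρ + 1)] with j hj
      have h3 := (app_bound hg (h j) hρ (lt_add_one ρ) hj).2.2 w (by rwa [sub_zero])
      rwa [sub_zero] at h3
    have hlim : Tendsto (fun w : ℂ => 10 * (ρ + 1) * (ρ + 1) / ‖w‖) (cocompact ℂ) (𝓝 0) :=
      tendsto_const_nhds.div_atTop tendsto_norm_cocompact_atTop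
    refine squeeze_zero_norm' ?_ hlim
    filter_upwards [tendsto_norm_cocompact_atTop.eventually (eventually_gt_atTop (ρ + 1))]
      with w hw
    exact hb w hw
  · intro c ρ hJ w hwp hwq
    refine le_of_forall_gt_imp_ge_of_dense fun a ha => ?_
    obtain ⟨ρ', hρ', rfl⟩ : ∃ ρ', ρ < ρ' ∧ 10 * ρ' = a := ⟨a / 10, by linarith, by ring⟩
    have h2 : Tendsto (fun j => ‖Φ j w - w‖) atTop (𝓝 ‖Φ' w - w‖) :=
      ((hl w hwp hwq).sub_const w).norm
    refine le_of_tendsto h2 ?_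
    filter_upwards [hlog (ρ := ρ) (ρ' := ρ'), hr.eventually (eventually_gt_atTop |lv p q w|)]
      with j hj hj'
    exact (app_bound hg (h j) hJ hρ' hj).2.1 w ⟨hwp, hwq, hj'⟩

end Pool.Agent.MX018
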