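import Pool.Agent.Lib.MP_018119_an_MX.ChW
import Pool.Agent.Lib.MP_ae5b4e_an_UT.Hurw

/-!
# MX: the limit is not constant
-/

set_option autoImplicit false

open Topology Filter Set Metric

namespace Pool.Agent.MX018

/-- The limit is nowhere locally constant.
PROOF. The set `Q` of the points `w ≠ p, q` near which `Φ` is constant is open. It is relatively
closed in `{p, q}ᶜ`: let `w ≠ p, q` be in the closure of `Q`, take a chart `χ : U → ℂ` at `w`
(`exists_chW`), a ball `ball (χ w) R ⊆ χ '' U` and `V = U ∩ χ⁻¹ (ball (χ w) R)`,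
`Φ = g ∘ χ` on `V` with `g` holomorphic on the ball; `V` contains a point of `Q`, so `g` is
constant near some point of the ball, hence on the ball (identity theorem), and `Φ` is constant
on `V`. As `{p, q}ᶜ` is connected (complement of a countable set), `Q` is empty or everything; in
the second case `Φ` is locally constant on a connected open set, so constant, which contradicts
`Φ w - w → 0` at infinity. -/
theorem limit_nonconst {p q : ℂ} {J N : Set ℂ} {ψ : ℂ → ℂ} (hg : Gate p q J N ψ) {Φ : ℂ → ℂ}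
    (h : ∀ w, w ≠ p → w ≠ q → WHol J ψ Φ w)
    (hinf : Tendsto (fun w => Φ w - w) (cocompact ℂ) (𝓝 0)) {w : ℂ} (hp : w ≠ p) (hq : w ≠ q) :
    ¬ ∀ᶠ x in 𝓝 w, Φ x = Φ w := by
  intro hw
  set S : Set ℂ := ({p, q} : Set ℂ)ᶜ with hS
  have hSo : IsOpen S := (((finite_singleton q).insert p).isClosed).isOpen_compl
  have hSc : IsPreconnected S := by
    refine (Set.Countable.isConnected_compl_of_one_lt_rank ?_
      ((finite_singleton q).insert p).countable).isPreconnected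
    rw [Complex.rank_real_complex]
    norm_num
  have hmem : ∀ z : ℂ, z ∈ S ↔ z ≠ p ∧ z ≠ q := by
    intro z
    rw [hS, mem_compl_iff, mem_insert_iff, mem_singleton_iff, not_or]
  set Q : Set ℂ := {z | z ∈ S ∧ ∀ᶠ x in 𝓝 z, Φ x = Φ z} with hQ
  have hQo : IsOpen Q := by
    rw [isOpen_iff_mem_nhds]
    rintro z ⟨hz, hz'⟩
    filter_upwards [hSo.mem_nhds hz, hz'.eventually_nhds] with y hy hy'
    refine ⟨hy, ?_⟩
    have hyz := hy'.self_of_nhds
    filter_upwards [hy'] with x hx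
    rw [hx, hyz]
  have hQS : S ⊆ Q := by
    refine hSc.subset_of_closure_inter_subset hQo ⟨w, (hmem w).2 ⟨hp, hq⟩, (hmem w).2 ⟨hp, hq⟩, hw⟩
      ?_
    rintro z ⟨hzc, hzS⟩
    obtain ⟨hzp, hzq⟩ := (hmem z).1 hzS
    obtain ⟨U, χ, hzU, hUS, hχ⟩ := exists_chW hg hzp hzq
    obtain ⟨R, hR, hball⟩ := Metric.isOpen_iff.1 (hχ.opn U Subset.rfl hχ.openU) (χ z)
      (mem_image_of_mem χ hzU)
    have hVo : IsOpen (U ∩ χ ⁻¹' ball (χ z) R) := hχ.cont.isOpen_inter_preimage hχ.openU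
      isOpen_ball
    have hVU : U ∩ χ ⁻¹' ball (χ z) R ⊆ U := inter_subset_left
    have hVim : χ '' (U ∩ χ ⁻¹' ball (χ z) R) = ball (χ z) R := by
      apply Subset.antisymm
      · rintro _ ⟨x, hx, rfl⟩
        exact hx.2
      · intro y hy
        obtain ⟨x, hx, rfl⟩ := hball hy
        exact ⟨x, ⟨hx, hy⟩, rfl⟩
    obtain ⟨g, hgd, hgf⟩ := hχ.fac Φ _ hVU hVo (fun x hx => by
      have h1 := hUS hx.1
      have h2 := (hmem x).1 h1
      exact h x h2.1 h2.2)
    rw [hVim] at hgd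
    have hzV : z ∈ U ∩ χ ⁻¹' ball (χ z) R := ⟨hzU, mem_ball_self hR⟩
    obtain ⟨x₀, hx0V, hx0Q⟩ := mem_closure_iff.1 hzc _ hVo hzV
    obtain ⟨O, hO1, hO2, hO3⟩ := _root_.eventually_nhds_iff.1 hx0Q.2
    have hWo : IsOpen ((U ∩ χ ⁻¹' ball (χ z) R) ∩ O) := hVo.inter hO2
    have hW : χ '' ((U ∩ χ ⁻¹' ball (χ z) R) ∩ O) ∈ 𝓝 (χ x₀) :=
      (hχ.opn _ (inter_subset_left.trans hVU) hWo).mem_nhds
        (mem_image_of_mem χ ⟨hx0V, hO3⟩)
    have hev : g =ᶠ[𝓝 (χ x₀)] fun _ => Φ x₀ := by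
      filter_upwards [hW] with y hy
      obtain ⟨x, hx, rfl⟩ := hy
      rw [← hgf x hx.1]
      exact hO1 x hx.2
    have han : AnalyticOnNhd ℂ g (ball (χ z) R) := hgd.analyticOnNhd isOpen_ball
    have heq := han.eqOn_of_preconnected_of_eventuallyEq analyticOnNhd_const
      (convex_ball _ _).isPreconnected hx0V.2 hev
    have hΦ : ∀ x ∈ U ∩ χ ⁻¹' ball (χ z) R, Φ x = Φ x₀ := by
      intro x hx
      rw [hgf x hx]
      exact heq hx.2
    refine ⟨hzS, ?_⟩
    filter_upwards [hVo.mem_nhds hzV] with x hx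
    rw [hΦ x hx, hΦ z hzV]
  have hder : ∀ z ∈ S, HasDerivAt Φ 0 z := by
    intro z hz
    exact (hasDerivAt_const z (Φ z)).congr_of_eventuallyEq (hQS hz).2
  have hconst : ∀ z ∈ S, Φ z = Φ w := by
    intro z hz
    exact hSo.is_const_of_deriv_eq_zero (𝕜 := ℂ) hSc
      (fun y hy => (hder y hy).differentiableAt.differentiableWithinAt)
      (fun y hy => (hder y hy).deriv) hz ((hmem w).2 ⟨hp, hq⟩)
  have h1 : ∀ᶠ z in cocompact ℂ, ‖Φ z - z‖ < 1 := by
    have := hinf.norm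
    rw [norm_zero] at this
    exact this.eventually (gt_mem_nhds one_pos)
  have h2 : ∀ᶠ z : ℂ in cocompact ℂ, ‖Φ w‖ + 1 + ‖p‖ + ‖q‖ < ‖z‖ :=
    tendsto_norm_cocompact_atTop.eventually (eventually_gt_atTop _)
  obtain ⟨z, hz1, hz2⟩ := (h1.and h2).exists
  have a1 := norm_nonneg p
  have a2 := norm_nonneg q
  have a3 := norm_nonneg (Φ w)
  have hzS : z ∈ S := by
    rw [hmem]
    constructor
    · rintro rfl
      linarith
    · rintro rfl
      linarith
  rw [hconst z hzS] at hz1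
  have h3 : ‖z‖ ≤ ‖Φ w‖ + ‖Φ w - z‖ := by
    have := norm_sub_le (Φ w) (Φ w - z)
    rwa [sub_sub_cancel] at this
  linarith

end Pool.Agent.MX018
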