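import Pool.Agent.Lib.MP_018119_an_MX.ChW
import Pool.Agent.Lib.MP_018119_an_MX.LimDa
import Pool.Agent.Lib.MP_ae5b4e_an_UT.Hurw

/-!
# MX: the limit is injective
-/

set_option autoImplicit false

open Topology Filter Set Metric

namespace Pool.Agent.MX018

/-- The limit is injective.
PROOF. Suppose `Φ w₁ = Φ w₂`, `w₁ ≠ w₂` (both `≠ p, q`). Take a chart `χ : U → ℂ` at `w₁`,
shrink: an open neighbourhood `V ⊆ U` of `w₁` with `w₂ ∉ V`, `χ '' V = ball (χ w₁) R`, contained in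
`ann p q (r j)` for large `j` and such that `Φ j → Φ` uniformly on `V`. `Φ j = g j ∘ χ`,
`Φ = g ∘ χ` on `V` with holomorphic `g j`, `g` on the ball, `g j → g` uniformly on the ball. The
functions `g j - Φ j w₂` converge locally uniformly to `g - Φ w₂`, which vanishes at `χ w₁` and is
not zero near this point (`limit_nonconst`). By `hurwitz_zero` (Lib/MP_ae5b4e_an_UT/Hurw.lean)
for large `j` there is a point `z` in the ball with `g j z = Φ j w₂`; `z = χ x` with `x ∈ V`, so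
`Φ j x = Φ j w₂` with `x ≠ w₂` both in `ann p q (r j)`, a contradiction. -/
theorem limit_inj {p q : ℂ} {J N : Set ℂ} {ψ : ℂ → ℂ} (hg : Gate p q J N ψ) {r : ℕ → ℝ}
    {Φ : ℕ → ℂ → ℂ} (hr : Tendsto r atTop atTop) (h : ∀ j, GApp p q J ψ (r j) (Φ j))
    {Φ' : ℂ → ℂ}
    (hu : ∀ w, w ≠ p → w ≠ q → ∃ U ∈ 𝓝 w, TendstoUniformlyOn Φ Φ' atTop U)
    (hw : ∀ w, w ≠ p → w ≠ q → WHol J ψ Φ' w)
    (hinf : Tendsto (fun w => Φ' w - w) (cocompact ℂ) (𝓝 0)) :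
    InjOn Φ' ({p, q} : Set ℂ)ᶜ := by
  intro w₁ hw₁ w₂ hw₂ hEq
  by_contra hne
  have hp1 : w₁ ≠ p := fun h => hw₁ (by simp [h])
  have hq1 : w₁ ≠ q := fun h => hw₁ (by simp [h])
  have hp2 : w₂ ≠ p := fun h => hw₂ (by simp [h])
  have hq2 : w₂ ≠ q := fun h => hw₂ (by simp [h])
  obtain ⟨U, χ, hwU, hUpq, hχ⟩ := exists_chW hg hp1 hq1
  obtain ⟨U₁, hU₁, hun⟩ := hu w₁ hp1 hq1
  have hlvc : ContinuousAt (lv p q) w₁ := by
    have h1 : w₁ - p ≠ 0 := sub_ne_zero.mpr hp1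
    have h2 : w₁ - q ≠ 0 := sub_ne_zero.mpr hq1
    have h3 : ContinuousAt (fun w : ℂ => (w - p) / (w - q)) w₁ :=
      (continuousAt_id.sub continuousAt_const).div (continuousAt_id.sub continuousAt_const) h2
    exact h3.norm.log (norm_ne_zero_iff.mpr (div_ne_zero h1 h2))
  have hnear : ∀ᶠ x in 𝓝 w₁, |lv p q x| < |lv p q w₁| + 1 :=
    hlvc.abs.eventually_lt_const (by linarith)
  have hall : ∀ᶠ x in 𝓝 w₁, x ∈ U ∧ x ∈ U₁ ∧ x ≠ w₂ ∧ |lv p q x| < |lv p q w₁| + 1 := by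
    have e1 : ∀ᶠ x in 𝓝 w₁, x ∈ U := hχ.openU.mem_nhds hwU
    have e2 : ∀ᶠ x in 𝓝 w₁, x ≠ w₂ := isOpen_ne.mem_nhds hne
    filter_upwards [e1, hU₁, e2, hnear] with x h1 h2 h3 h4
    exact ⟨h1, h2, h3, h4⟩
  obtain ⟨V₁, hV₁, hV₁o, hwV₁⟩ := _root_.eventually_nhds_iff.mp hall
  have hV₁U : V₁ ⊆ U := fun x hx => (hV₁ x hx).1
  obtain ⟨R, hR, hRb⟩ := Metric.isOpen_iff.mp (hχ.opn V₁ hV₁U hV₁o) (χ w₁)
    (mem_image_of_mem _ hwV₁)
  set V : Set ℂ := V₁ ∩ χ ⁻¹' ball (χ w₁) R with hV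
  have hVo : IsOpen V := (hχ.cont.mono hV₁U).isOpen_inter_preimage hV₁o isOpen_ball
  have hVV₁ : V ⊆ V₁ := inter_subset_left
  have hVU : V ⊆ U := hVV₁.trans hV₁U
  have hwV : w₁ ∈ V := ⟨hwV₁, mem_ball_self hR⟩
  have hχV : χ '' V = ball (χ w₁) R := by
    apply Subset.antisymm
    · rintro _ ⟨x, hx, rfl⟩
      exact hx.2
    · intro y hy
      obtain ⟨x, hx, rfl⟩ := hRb hy
      exact ⟨x, ⟨hx, hy⟩, rfl⟩
  have hVpq : ∀ x ∈ V, x ≠ p ∧ x ≠ q := by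
    intro x hx
    have := hUpq (hVU hx)
    exact ⟨fun h => this (by simp [h]), fun h => this (by simp [h])⟩
  have hlarge : ∀ᶠ j in atTop, V ⊆ ann p q (r j) := by
    filter_upwards [hr.eventually_gt_atTop (|lv p q w₁| + 1)] with j hj x hx
    exact ⟨(hVpq x hx).1, (hVpq x hx).2, (hV₁ x (hVV₁ hx)).2.2.2.trans hj⟩
  have hlarge2 : ∀ᶠ j in atTop, w₂ ∈ ann p q (r j) := by
    filter_upwards [hr.eventually_gt_atTop (|lv p q w₂|)] with j hj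
    exact ⟨hp2, hq2, hj⟩
  have hsel : ∀ j, ∃ g : ℂ → ℂ, V ⊆ ann p q (r j) →
      DifferentiableOn ℂ g (χ '' V) ∧ ∀ x ∈ V, Φ j x = g (χ x) := by
    intro j
    by_cases hj : V ⊆ ann p q (r j)
    · obtain ⟨g, hg1, hg2⟩ := hχ.fac (Φ j) V hVU hVo (fun x hx => (h j).hol x (hj hx))
      exact ⟨g, fun _ => ⟨hg1, hg2⟩⟩
    · exact ⟨0, fun h => absurd h hj⟩
  choose g hgj using hsel
  obtain ⟨g', hg1', hg2'⟩ := hχ.fac Φ' V hVU hVo
    (fun x hx => hw x (hVpq x hx).1 (hVpq x hx).2)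
  have hΦw₂ : Tendsto (fun j => Φ j w₂) atTop (𝓝 (Φ' w₂)) := by
    obtain ⟨U₂, hU₂, hun2⟩ := hu w₂ hp2 hq2
    exact hun2.tendsto_at (mem_of_mem_nhds hU₂)
  have hunV : TendstoUniformlyOn (fun j y => g j y - Φ j w₂) (fun y => g' y - Φ' w₂) atTop
      (ball (χ w₁) R) := by
    rw [Metric.tendstoUniformlyOn_iff]
    intro ε hε
    rw [Metric.tendstoUniformlyOn_iff] at hun
    filter_upwards [hun (ε / 2) (by linarith), (Metric.tendsto_nhds.mp hΦw₂) (ε / 2) (by linarith),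
      hlarge] with j h1 h2 h3 y hy
    rw [← hχV] at hy
    obtain ⟨x, hx, rfl⟩ := hy
    rw [← (hgj j h3).2 x hx, ← hg2' x hx]
    have h4 := h1 x (hV₁ x (hVV₁ hx)).2.1
    rw [dist_comm] at h2
    calc dist (Φ' x - Φ' w₂) (Φ j x - Φ j w₂) ≤ dist (Φ' x) (Φ j x) + dist (Φ' w₂) (Φ j w₂) :=
          dist_sub_sub_le _ _ _ _
      _ < ε := by linarith
  have hz0 : g' (χ w₁) - Φ' w₂ = 0 := by
    rw [← hg2' w₁ hwV, hEq, sub_self]
  have hnz : ¬ ∀ᶠ y in 𝓝 (χ w₁), g' y - Φ' w₂ = 0 := by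
    intro hcon
    apply limit_nonconst hg hw hinf hp1 hq1
    have hcχ : ContinuousAt χ w₁ := hχ.cont.continuousAt (hχ.openU.mem_nhds hwU)
    have e1 : ∀ᶠ x in 𝓝 w₁, g' (χ x) - Φ' w₂ = 0 := hcχ hcon
    have e2 : ∀ᶠ x in 𝓝 w₁, x ∈ V := hVo.mem_nhds hwV
    filter_upwards [e1, e2] with x h1 h2
    rw [hg2' x h2, sub_eq_zero.mp h1, hEq]
  have hdiff : ∀ᶠ j in atTop, DifferentiableOn ℂ (fun y => g j y - Φ j w₂) (ball (χ w₁) R) := by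
    filter_upwards [hlarge] with j hj
    have := (hgj j hj).1
    rw [hχV] at this
    exact this.sub_const _
  have hfin := Pool.Agent.Lib.MP_ae5b4e_an_UT.hurwitz_zero isOpen_ball hdiff
    hunV.tendstoLocallyUniformlyOn (mem_ball_self hR) hz0 hnz hR
  obtain ⟨j, ⟨y, -, hyb, hy0⟩, hj1, hj2⟩ := (hfin.and (hlarge.and hlarge2)).exists
  rw [← hχV] at hyb
  obtain ⟨x, hx, rfl⟩ := hyb
  have h5 : Φ j x = Φ j w₂ := by
    rw [(hgj j hj1).2 x hx]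
    exact sub_eq_zero.mp hy0
  have h6 : x = w₂ := (h j).inj (hj1 hx) hj2 h5
  exact (hV₁ x (hVV₁ hx)).2.2.1 h6

end Pool.Agent.MX018
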