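import Pool.Agent.Lib.MP_018119_an_MX.ChW
import Pool.Agent.Lib.MP_ae5b4e_an_UT.Hurw

/-!
# MX: the limit is open
-/

set_option autoImplicit false

open Topology Filter Set Metric

namespace Pool.Agent.MX018

/-- Injective holomorphic maps are open.
PROOF. Let `w ∈ U`; chart `χ` at `w` on `U'`, `V = U ∩ U'`, `Φ = g ∘ χ` on `V`, `g` holomorphic and
injective on the open set `χ '' V`, so `g '' (χ '' V) = Φ '' V` is open
(`isOpen_image_of_injOn` in Lib/MP_1f4a82_an/Basic.lean for the plane). -/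
theorem limit_open {p q : ℂ} {J N : Set ℂ} {ψ : ℂ → ℂ} (hg : Gate p q J N ψ) {Φ : ℂ → ℂ}
    (hw : ∀ w, w ≠ p → w ≠ q → WHol J ψ Φ w) (hi : InjOn Φ ({p, q} : Set ℂ)ᶜ) {U : Set ℂ}
    (hU : U ⊆ ({p, q} : Set ℂ)ᶜ) (hUo : IsOpen U) : IsOpen (Φ '' U) := by
  rw [isOpen_iff_mem_nhds]
  rintro _ ⟨w, hwU, rfl⟩
  have hmem : ∀ z ∈ U, z ≠ p ∧ z ≠ q := by
    intro z hz
    have h1 := hU hz
    rwa [mem_compl_iff, mem_insert_iff, mem_singleton_iff, not_or] at h1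
  obtain ⟨U', χ, hwU', hUS, hχ⟩ := exists_chW hg (hmem w hwU).1 (hmem w hwU).2
  have hVo : IsOpen (U ∩ U') := hUo.inter hχ.openU
  have hVU : U ∩ U' ⊆ U' := inter_subset_right
  obtain ⟨g, hgd, hgf⟩ := hχ.fac Φ (U ∩ U') hVU hVo
    (fun x hx => hw x (hmem x hx.1).1 (hmem x hx.1).2)
  obtain ⟨R, hR, hball⟩ := Metric.isOpen_iff.1 (hχ.opn _ hVU hVo) (χ w)
    (mem_image_of_mem χ ⟨hwU, hwU'⟩)
  have han : AnalyticOnNhd ℂ g (ball (χ w) R) := (hgd.mono hball).analyticOnNhd isOpen_ball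
  have hsub : g '' ball (χ w) R ⊆ Φ '' U := by
    rintro _ ⟨y, hy, rfl⟩
    obtain ⟨x, hx, rfl⟩ := hball hy
    exact ⟨x, hx.1, hgf x hx⟩
  have hopen : IsOpen (g '' ball (χ w) R) := by
    rcases han.is_constant_or_isOpen (convex_ball _ _).isPreconnected with ⟨a, ha⟩ | ho
    · exfalso
      have hy1 : χ w ∈ ball (χ w) R := mem_ball_self hR
      have hy2 : χ w + ((R / 2 : ℝ) : ℂ) ∈ ball (χ w) R := by
        rw [mem_ball, dist_eq_norm, add_sub_cancel_left, Complex.norm_real, Real.norm_eq_abs,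
          abs_of_pos (half_pos hR)]
        linarith
      obtain ⟨x, hx, hxe⟩ := hball hy2
      have h1 : Φ x = Φ w := by
        rw [hgf x hx, hgf w ⟨hwU, hwU'⟩, ha _ hy1, hxe, ha _ hy2]
      have h2 : x = w := hi (hU hx.1) (hU hwU) h1
      rw [h2] at hxe
      have h3 : ((R / 2 : ℝ) : ℂ) = 0 := by linear_combination -hxe
      have h4 : R / 2 = 0 := by exact_mod_cast h3
      linarith
    · exact ho _ Subset.rfl isOpen_ball
  have hmem2 : Φ w ∈ g '' ball (χ w) R := ⟨χ w, mem_ball_self hR, (hgf w ⟨hwU, hwU'⟩).symm⟩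
  exact mem_of_superset (hopen.mem_nhds hmem2) hsub

end Pool.Agent.MX018
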