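import Pool.Agent.Lib.MP_018119_an_MX.Defs

/-!
# MX: separation of the two ends
-/

set_option autoImplicit false

open Topology Filter Set Metric

namespace Pool.Agent.MX018

private theorem LimF_pos {p q w : ℂ} (hp : w ≠ p) (hq : w ≠ q) : 0 < ‖(w - p) / (w - q)‖ :=
  norm_pos_iff.2 (div_ne_zero (sub_ne_zero.2 hp) (sub_ne_zero.2 hq))

private theorem LimF_lo {p q x : ℂ} (hp : x ≠ p) (hq : x ≠ q) (h : lv p q x < -1) :
    2 * ‖x - p‖ < ‖x - q‖ := by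
  unfold lv at h
  rw [Real.log_lt_iff_lt_exp (LimF_pos hp hq), norm_div] at h
  have h1 : 0 < ‖x - q‖ := norm_pos_iff.2 (sub_ne_zero.2 hq)
  rw [div_lt_iff₀ h1] at h
  have h2 := Real.add_one_le_exp (1 : ℝ)
  have h3 : Real.exp (-1) * Real.exp 1 = 1 := by
    rw [← Real.exp_add]
    norm_num
  have h4 := Real.exp_pos (-1)
  have h5 : Real.exp (-1) ≤ 1 / 2 := by nlinarith
  nlinarith

private theorem LimF_hi {p q y : ℂ} (hp : y ≠ p) (hq : y ≠ q) (h : 1 < lv p q y) :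
    2 * ‖y - q‖ < ‖y - p‖ := by
  unfold lv at h
  rw [Real.lt_log_iff_exp_lt (LimF_pos hp hq), norm_div] at h
  have h1 : 0 < ‖y - q‖ := norm_pos_iff.2 (sub_ne_zero.2 hq)
  rw [lt_div_iff₀ h1] at h
  have h2 := Real.add_one_le_exp (1 : ℝ)
  nlinarith

private theorem LimF_zero {p q w : ℂ} (hp : w ≠ p) (hq : w ≠ q) (h : lv p q w = 0) :
    ‖w - p‖ = ‖w - q‖ := by
  unfold lv at h
  have h1 := Real.eq_one_of_pos_of_log_eq_zero (LimF_pos hp hq) h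
  have h2 : ‖w - q‖ ≠ 0 := norm_ne_zero_iff.2 (sub_ne_zero.2 hq)
  rwa [norm_div, div_eq_one_iff_eq h2] at h1

/-- a point of the bisector whose image is on the segment -/
private theorem LimF_mid {p q : ℂ} {J : Set ℂ} {ψ Φ : ℂ → ℂ} {r B : ℝ}
    (h : GApp p q J ψ r Φ) (hr : 0 < r) (hB : ∀ w ∈ ann p q r, ‖Φ w - w‖ ≤ B) {x y : ℂ}
    (hx : x ∈ ann p q r) (hy : y ∈ ann p q r) (hx1 : lv p q x < 0) (hy1 : 0 < lv p q y) :
    ∃ w, ‖w - p‖ = ‖w - q‖ ∧ ‖Φ x - Φ w‖ ≤ ‖Φ x - Φ y‖ ∧ ‖w‖ ≤ ‖x‖ + ‖y‖ + 3 * B := by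
  obtain ⟨V, W, hV, hW, hVW, hxV, hyW, hsep⟩ := h.sep
  have hseg : ∃ s ∈ segment ℝ (Φ x) (Φ y), s ∉ V ∪ W := by
    by_contra hcon
    push Not at hcon
    obtain ⟨s, -, hs⟩ := (convex_segment (Φ x) (Φ y)).isPreconnected V W hV hW hcon
      ⟨Φ x, left_mem_segment ℝ _ _, hxV x hx hx1⟩ ⟨Φ y, right_mem_segment ℝ _ _, hyW y hy hy1⟩
    exact Set.disjoint_left.1 hVW hs.1 hs.2
  obtain ⟨s, hs, hsn⟩ := hseg
  obtain ⟨w, hwp, hwq, hw0, hws⟩ := hsep s (fun h => hsn (Or.inl h)) (fun h => hsn (Or.inr h))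
  obtain ⟨a, b, ha, hb, hab, hsab⟩ := hs
  refine ⟨w, LimF_zero hwp hwq hw0, ?_, ?_⟩
  · rw [hws, ← hsab]
    have h1 : Φ x - (a • Φ x + b • Φ y) = b • (Φ x - Φ y) := by
      have h2 : a = 1 - b := by linarith
      rw [h2, sub_smul, one_smul, smul_sub]
      abel
    rw [h1, norm_smul, Real.norm_of_nonneg hb]
    have h2 := norm_nonneg (Φ x - Φ y)
    nlinarith
  · have h1 : w ∈ ann p q r := ⟨hwp, hwq, by rw [hw0, abs_zero]; exact hr⟩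
    have h2 := hB w h1
    have h3 := hB x hx
    have h4 := hB y hy
    have h5 : ‖w‖ ≤ ‖Φ w‖ + ‖Φ w - w‖ := by
      have := norm_sub_le (Φ w) (Φ w - w)
      rwa [sub_sub_cancel] at this
    have h6 : ‖Φ x‖ ≤ ‖x‖ + ‖Φ x - x‖ := by
      have := norm_add_le x (Φ x - x)
      rwa [add_sub_cancel] at this
    have h7 : ‖Φ y‖ ≤ ‖y‖ + ‖Φ y - y‖ := by
      have := norm_add_le y (Φ y - y)
      rwa [add_sub_cancel] at this
    have h8 : ‖Φ w‖ ≤ ‖Φ x‖ + ‖Φ y‖ := by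
      rw [hws, ← hsab]
      refine (norm_add_le _ _).trans ?_
      rw [norm_smul, norm_smul, Real.norm_of_nonneg ha, Real.norm_of_nonneg hb]
      have h9 := norm_nonneg (Φ x)
      have h10 := norm_nonneg (Φ y)
      nlinarith
    linarith

private theorem LimF_one {p q : ℂ} {J : Set ℂ} {ψ : ℂ → ℂ} (hpq : p ≠ q) {r : ℕ → ℝ}
    {Φ : ℕ → ℂ → ℂ} (hr : Tendsto r atTop atTop) (h : ∀ j, GApp p q J ψ (r j) (Φ j))
    {Φ' : ℂ → ℂ}
    (hu : ∀ w, w ≠ p → w ≠ q → ∃ U ∈ 𝓝 w, TendstoUniformlyOn Φ Φ' atTop U)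
    (hc : ContinuousOn Φ' ({p, q} : Set ℂ)ᶜ)
    {B : ℝ} (hB : ∀ᶠ j in atTop, ∀ w ∈ ann p q (r j), ‖Φ j w - w‖ ≤ B) {x y : ℂ}
    (hxp : x ≠ p) (hxq : x ≠ q) (hyp : y ≠ p) (hyq : y ≠ q) (hx : lv p q x < -1)
    (hy : 1 < lv p q y) :
    ∃ w ∈ {w : ℂ | ‖w - p‖ = ‖w - q‖} ∩ closedBall 0 (‖p‖ + ‖q‖ + 2 * ‖p - q‖ + 3 * B),
      ‖Φ' x - Φ' w‖ ≤ ‖Φ' x - Φ' y‖ := by
  have hxn : ‖x‖ ≤ ‖p‖ + ‖p - q‖ := by
    have h1 := LimF_lo hxp hxq hx
    have h2 : ‖x - q‖ ≤ ‖x - p‖ + ‖p - q‖ := by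
      have := norm_add_le (x - p) (p - q)
      rwa [sub_add_sub_cancel] at this
    have h3 : ‖x‖ ≤ ‖x - p‖ + ‖p‖ := by
      have := norm_add_le (x - p) p
      rwa [sub_add_cancel] at this
    linarith
  have hyn : ‖y‖ ≤ ‖q‖ + ‖p - q‖ := by
    have h1 := LimF_hi hyp hyq hy
    have h2 : ‖y - p‖ ≤ ‖y - q‖ + ‖p - q‖ := by
      have := norm_sub_le (y - q) (p - q)
      rwa [sub_sub_sub_cancel_right] at this
    have h3 : ‖y‖ ≤ ‖y - q‖ + ‖q‖ := by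
      have := norm_add_le (y - q) q
      rwa [sub_add_cancel] at this
    linarith
  have hev : ∀ᶠ j in atTop, ∃ w : ℂ, ‖w - p‖ = ‖w - q‖ ∧
      ‖Φ j x - Φ j w‖ ≤ ‖Φ j x - Φ j y‖ ∧ ‖w‖ ≤ ‖p‖ + ‖q‖ + 2 * ‖p - q‖ + 3 * B := by
    filter_upwards [hr.eventually_gt_atTop |lv p q x|, hr.eventually_gt_atTop |lv p q y|,
      hr.eventually_gt_atTop 0, hB] with j h1 h2 h3 h4
    obtain ⟨w, h5, h6, h7⟩ := LimF_mid (h j) h3 h4 (x := x) (y := y) ⟨hxp, hxq, h1⟩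
      ⟨hyp, hyq, h2⟩ (by linarith) (by linarith)
    exact ⟨w, h5, h6, by linarith⟩
  obtain ⟨w, hw⟩ := hev.choice
  have hle : ((hyperfilter ℕ : Ultrafilter ℕ) : Filter ℕ) ≤ atTop := Nat.hyperfilter_le_atTop
  have hw' := hw.filter_mono hle
  have hcl : IsClosed {w : ℂ | ‖w - p‖ = ‖w - q‖} :=
    isClosed_eq (by fun_prop) (by fun_prop)
  have hL : IsCompact ({w : ℂ | ‖w - p‖ = ‖w - q‖} ∩
      closedBall 0 (‖p‖ + ‖q‖ + 2 * ‖p - q‖ + 3 * B)) :=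
    (isCompact_closedBall _ _).inter_left hcl
  obtain ⟨w₀, hw₀, hlim⟩ := hL.ultrafilter_le_nhds' ((hyperfilter ℕ).map w)
    (hw'.mono fun j hj => ⟨hj.1, mem_closedBall_zero_iff.2 hj.2.2⟩)
  have hlim' : Tendsto w (hyperfilter ℕ : Filter ℕ) (𝓝 w₀) := hlim
  have hw₀p : w₀ ≠ p := by
    rintro rfl
    have h1 : ‖w₀ - w₀‖ = ‖w₀ - q‖ := hw₀.1
    rw [sub_self, norm_zero] at h1
    exact hpq (sub_eq_zero.1 (norm_eq_zero.1 h1.symm))
  have hw₀q : w₀ ≠ q := by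
    rintro rfl
    have h1 : ‖w₀ - p‖ = ‖w₀ - w₀‖ := hw₀.1
    rw [sub_self, norm_zero] at h1
    exact hpq (sub_eq_zero.1 (norm_eq_zero.1 h1)).symm
  have hopen : IsOpen ({p, q} : Set ℂ)ᶜ := (Set.toFinite _).isClosed.isOpen_compl
  have hmem : ∀ z : ℂ, z ≠ p → z ≠ q → z ∈ ({p, q} : Set ℂ)ᶜ := by
    intro z h1 h2 h3
    rcases h3 with h3 | h3
    · exact h1 h3
    · exact h2 h3
  have hpt : ∀ z : ℂ, z ≠ p → z ≠ q →
      Tendsto (fun j => Φ j z) (hyperfilter ℕ : Filter ℕ) (𝓝 (Φ' z)) := by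
    intro z h1 h2
    obtain ⟨U, hU, hUu⟩ := hu z h1 h2
    exact (hUu.tendsto_at (mem_of_mem_nhds hU)).mono_left hle
  have hwt : Tendsto (fun j => Φ j (w j)) (hyperfilter ℕ : Filter ℕ) (𝓝 (Φ' w₀)) := by
    obtain ⟨U, hU, hUu⟩ := hu w₀ hw₀p hw₀q
    refine tendsto_comp_of_locally_uniform_limit
      (hc.continuousAt (hopen.mem_nhds (hmem w₀ hw₀p hw₀q))) hlim' fun u hu' => ?_
    exact ⟨U, hU, (hUu u hu').filter_mono hle⟩
  refine ⟨w₀, hw₀, ?_⟩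
  exact le_of_tendsto_of_tendsto ((hpt x hxp hxq).sub hwt).norm
    ((hpt x hxp hxq).sub (hpt y hyp hyq)).norm (hw'.mono fun j hj => hj.2.1)

/-- The images of small neighbourhoods of `p` and `q` have positive distance.
PROOF. Let `x`, `y` with `lv p q x < -1`, `1 < lv p q y` (`x, y ≠ p, q`). For large `j` both points
are in `ann p q (r j)`, `Φ j x ∈ V j`, `Φ j y ∈ W j` with the sets of `GApp.sep`; the segment
`[Φ j x, Φ j y]` is connected and cannot be covered by the disjoint open sets `V j`, `W j`, so it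
contains a point outside both, `Φ j w_j` with `lv p q w_j = 0`. By the uniform bound
`‖Φ j w - w‖ ≤ B` (`hB`) the points `w_j` are bounded; the set `{w ≠ p, q | lv p q w = 0}` is the
bisector of `p` and `q`, closed. So a subsequence of `w_j` converges to a point `w` of it, and
`Φ j w_j → Φ' w` along it (locally uniform convergence and continuity of `Φ'` at `w`), so `Φ' w` is
on the segment `[Φ' x, Φ' y]` (the distance to the segments, `infDist`, or the parameter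
`θ_j ∈ [0,1]` of the point on the segment, converges along a subsequence), in particular
`‖Φ' x - Φ' w‖ ≤ ‖Φ' x - Φ' y‖`. The points `x`, `y` are bounded (`{lv < -1}`, `{lv > 1}` are discs),
hence `w` (limit of points `w_j` with `‖w_j‖ ≤ ‖Φ j w_j‖ + B ≤ ...`) is in a fixed ball: the compact
set `L = {w | lv p q w = 0, w ≠ p, q, ‖w‖ ≤ R₀}`. For every `w ∈ L` let `t > 0` be such that
`ball w t ⊆ {|lv| < 1}`; `Φ' '' ball w t` is open (`ho`), so it contains a ball of radius `2 δ_w`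
around `Φ' w`, and for `w'` near `w` (continuity) the ball of radius `δ_w` around `Φ' w'`; by
injectivity `‖Φ' x - Φ' w'‖ ≥ δ_w` for all `x` with `lv p q x < -1`. By compactness there is a
common `δ`. -/
theorem limit_sep {p q : ℂ} {J : Set ℂ} {ψ : ℂ → ℂ} (hpq : p ≠ q) {r : ℕ → ℝ}
    {Φ : ℕ → ℂ → ℂ} (hr : Tendsto r atTop atTop) (h : ∀ j, GApp p q J ψ (r j) (Φ j))
    {Φ' : ℂ → ℂ}
    (hu : ∀ w, w ≠ p → w ≠ q → ∃ U ∈ 𝓝 w, TendstoUniformlyOn Φ Φ' atTop U)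
    (hc : ContinuousOn Φ' ({p, q} : Set ℂ)ᶜ) (hi : InjOn Φ' ({p, q} : Set ℂ)ᶜ)
    (ho : ∀ U ⊆ ({p, q}ᶜ : Set ℂ), IsOpen U → IsOpen (Φ' '' U))
    {B : ℝ} (hB : ∀ᶠ j in atTop, ∀ w ∈ ann p q (r j), ‖Φ j w - w‖ ≤ B) :
    ∃ δ > 0, ∀ x y, x ≠ p → x ≠ q → y ≠ p → y ≠ q → lv p q x < -1 → 1 < lv p q y →
      δ ≤ ‖Φ' x - Φ' y‖ := by
  have hopen : IsOpen ({p, q} : Set ℂ)ᶜ := (Set.toFinite _).isClosed.isOpen_compl
  have hmem : ∀ z : ℂ, z ≠ p → z ≠ q → z ∈ ({p, q} : Set ℂ)ᶜ := by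
    intro z h1 h2 h3
    rcases h3 with h3 | h3
    · exact h1 h3
    · exact h2 h3
  have hcl : IsClosed {w : ℂ | ‖w - p‖ = ‖w - q‖} :=
    isClosed_eq (by fun_prop) (by fun_prop)
  have hL : IsCompact ({w : ℂ | ‖w - p‖ = ‖w - q‖} ∩
      closedBall 0 (‖p‖ + ‖q‖ + 2 * ‖p - q‖ + 3 * B)) :=
    (isCompact_closedBall _ _).inter_left hcl
  have key : ∃ δ > 0, ∀ w ∈ ({w : ℂ | ‖w - p‖ = ‖w - q‖} ∩
      closedBall 0 (‖p‖ + ‖q‖ + 2 * ‖p - q‖ + 3 * B)), ∀ x, x ≠ p → x ≠ q → lv p q x < -1 →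
      δ ≤ ‖Φ' x - Φ' w‖ := by
    refine hL.induction_on (p := fun s => ∃ δ > 0, ∀ w ∈ s, ∀ x, x ≠ p → x ≠ q →
      lv p q x < -1 → δ ≤ ‖Φ' x - Φ' w‖) ?_ ?_ ?_ ?_
    · exact ⟨1, one_pos, fun w hw => absurd hw (Set.notMem_empty w)⟩
    · rintro s t hst ⟨δ, hδ, h1⟩
      exact ⟨δ, hδ, fun w hw => h1 w (hst hw)⟩
    · rintro s t ⟨δ, hδ, h1⟩ ⟨δ', hδ', h2⟩
      refine ⟨min δ δ', lt_min hδ hδ', ?_⟩
      rintro w (hw | hw) x h3 h4 h5
      · exact (min_le_left _ _).trans (h1 w hw x h3 h4 h5)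
      · exact (min_le_right _ _).trans (h2 w hw x h3 h4 h5)
    · rintro w ⟨hw, -⟩
      have hw : ‖w - p‖ = ‖w - q‖ := hw
      have hwp : w ≠ p := by
        rintro rfl
        rw [sub_self, norm_zero] at hw
        exact hpq (sub_eq_zero.1 (norm_eq_zero.1 hw.symm))
      have hwq : w ≠ q := by
        rintro rfl
        rw [sub_self, norm_zero] at hw
        exact hpq (sub_eq_zero.1 (norm_eq_zero.1 hw)).symm
      obtain ⟨O, hO⟩ : ∃ O : Set ℂ, O = ({p, q} : Set ℂ)ᶜ ∩ {z | ‖z - q‖ < 2 * ‖z - p‖} :=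
        ⟨_, rfl⟩
      have hOo : IsOpen O := by
        rw [hO]
        exact hopen.inter (isOpen_lt (by fun_prop) (by fun_prop))
      have hwO : w ∈ O := by
        rw [hO]
        refine ⟨hmem w hwp hwq, ?_⟩
        change ‖w - q‖ < 2 * ‖w - p‖
        have h1 : 0 < ‖w - p‖ := norm_pos_iff.2 (sub_ne_zero.2 hwp)
        linarith
      have hOs : O ⊆ ({p, q} : Set ℂ)ᶜ := by
        rw [hO]
        exact Set.inter_subset_left
      obtain ⟨ε, hε, hball⟩ := Metric.isOpen_iff.1 (ho O hOs hOo) (Φ' w) ⟨w, hwO, rfl⟩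
      have hcw : ContinuousAt Φ' w := hc.continuousAt (hopen.mem_nhds (hmem w hwp hwq))
      have hnear : ∀ᶠ w' in 𝓝 w, dist (Φ' w') (Φ' w) < ε / 2 :=
        Metric.tendsto_nhds.1 hcw (ε / 2) (by linarith)
      refine ⟨{w' | dist (Φ' w') (Φ' w) < ε / 2}, mem_nhdsWithin_of_mem_nhds hnear,
        ε / 2, by linarith, ?_⟩
      intro w' hw' x hxp hxq hx
      by_contra hlt
      push Not at hlt
      have h1 : dist (Φ' w') (Φ' w) < ε / 2 := hw'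
      have h2 : Φ' x ∈ ball (Φ' w) ε := by
        rw [mem_ball]
        have h3 := dist_triangle (Φ' x) (Φ' w') (Φ' w)
        rw [← dist_eq_norm] at hlt
        linarith
      obtain ⟨z, hz, hzx⟩ := hball h2
      have h3 : z = x := hi (hOs hz) (hmem x hxp hxq) hzx
      rw [h3, hO] at hz
      have h4 : ‖x - q‖ < 2 * ‖x - p‖ := hz.2
      have h5 := LimF_lo hxp hxq hx
      linarith
  obtain ⟨δ, hδ, hkey⟩ := key
  refine ⟨δ, hδ, fun x y hxp hxq hyp hyq hx hy => ?_⟩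
  obtain ⟨w, hw, hle⟩ := LimF_one hpq hr h hu hc hB hxp hxq hyp hyq hx hy
  exact (hkey w hw x hxp hxq hx).trans hle

end Pool.Agent.MX018
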