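import Pool.Agent.Lib.MP_018119_an_MX.PreM

/-!
# MX: normalization at infinity
-/

set_option autoImplicit false

open Topology Filter Set Metric

namespace Pool.Agent.MX018

/-- Normalization of a reciprocal at infinity.
PROOF. `h t - v₀ = t * s t` with `s = dslope h 0` analytic at `0`, `s 0 = deriv h 0 =: k ≠ 0`.
For `w ≠ 0` near infinity, `t = 1 / w`: `k / (h t - v₀) = (k / s t) / t` and
`(k / s t - 1) / t → - deriv s 0 / k =: -k'` as `t → 0`. -/
theorem norm_inf {h : ℂ → ℂ} {v₀ : ℂ} (h1 : AnalyticAt ℂ h 0) (h2 : h 0 = v₀)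
    (h3 : deriv h 0 ≠ 0) :
    ∃ k' : ℂ, Tendsto (fun w => deriv h 0 / (h (1 / w) - v₀) + k' - w) (cocompact ℂ) (𝓝 0) := by
  set k : ℂ := deriv h 0 with hk
  have hs : AnalyticAt ℂ (dslope h 0) 0 := by
    obtain ⟨q, hq⟩ := h1
    exact ⟨_, hq.has_fpower_series_dslope_fslope⟩
  have hs0 : dslope h 0 0 = k := dslope_same h 0
  set g : ℂ → ℂ := fun t => k / dslope h 0 t with hg
  have hga : AnalyticAt ℂ g 0 := analyticAt_const.div hs (by rw [hs0]; exact h3)
  have hg0 : g 0 = 1 := by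
    simp only [hg]
    rw [hs0, div_self h3]
  refine ⟨- deriv g 0, ?_⟩
  have hsl : Tendsto (fun t => slope g 0 t - deriv g 0) (𝓝[≠] 0) (𝓝 0) := by
    have := (hasDerivAt_iff_tendsto_slope.1 hga.differentiableAt.hasDerivAt).sub_const (deriv g 0)
    rwa [sub_self] at this
  have hinv : Tendsto (fun w : ℂ => w⁻¹) (cocompact ℂ) (𝓝[≠] 0) := by
    rw [← Metric.cobounded_eq_cocompact, ← Filter.inv_cobounded₀]
    exact tendsto_map
  refine (hsl.comp hinv).congr' ?_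
  have hev : ∀ᶠ w in cocompact ℂ, w ≠ 0 := by
    have := hinv.eventually self_mem_nhdsWithin
    filter_upwards [this] with w hw h0
    exact hw (by rw [h0, inv_zero]; rfl)
  filter_upwards [hev] with w hw
  have hwi : w⁻¹ ≠ 0 := inv_ne_zero hw
  simp only [Function.comp]
  rw [slope_def_field, hg0, sub_zero, one_div]
  have e1 : h w⁻¹ - v₀ = w⁻¹ * dslope h 0 w⁻¹ := by
    have := sub_smul_dslope h 0 w⁻¹
    rw [sub_zero, smul_eq_mul, h2] at this
    exact this.symm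
  rw [e1]
  simp only [hg]
  rw [div_inv_eq_mul, sub_mul, one_mul, ← div_div k w⁻¹, div_inv_eq_mul]
  ring

theorem mu_open {V : Set ℂ} (hV : IsOpen V) (v₀ k k' : ℂ) :
    IsOpen {x : ℂ | x ≠ k' ∧ v₀ + k / (x - k') ∈ V} := by
  have hc : ContinuousOn (fun x : ℂ => v₀ + k / (x - k')) {x | x ≠ k'} :=
    continuousOn_const.add (continuousOn_const.div (continuousOn_id.sub continuousOn_const)
      fun x hx => sub_ne_zero.2 hx)
  exact hc.isOpen_inter_preimage isOpen_ne hV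

theorem mu_open' {V : Set ℂ} (hV : IsOpen V) {v₀ k : ℂ} (k' : ℂ) (hk : k ≠ 0) {R : ℝ}
    (hR : ∀ v : ℂ, R < ‖v‖ → v ∈ V) :
    IsOpen ({x : ℂ | x ≠ k' ∧ v₀ + k / (x - k') ∈ V} ∪ {k'}) := by
  rw [isOpen_iff_mem_nhds]
  rintro x (hx | hx)
  · exact mem_of_superset ((mu_open hV v₀ k k').mem_nhds hx) subset_union_left
  · rw [mem_singleton_iff] at hx
    subst hx
    set T : ℝ := max R 0 + ‖v₀‖ + 1 with hT
    have hT0 : 0 < T := by
      have := le_max_right R 0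
      positivity
    have hk0 : 0 < ‖k‖ := norm_pos_iff.2 hk
    filter_upwards [ball_mem_nhds x (div_pos hk0 hT0)] with y hy
    rcases eq_or_ne y x with h | h
    · right; exact h
    · left
      refine ⟨h, hR _ ?_⟩
      have h0 : 0 < ‖y - x‖ := norm_pos_iff.2 (sub_ne_zero.2 h)
      rw [mem_ball, dist_eq_norm, lt_div_iff₀ hT0] at hy
      have h1 : T < ‖k / (y - x)‖ := by
        rw [norm_div, lt_div_iff₀ h0, mul_comm]
        exact hy
      have h2 := norm_sub_le (v₀ + k / (y - x)) v₀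
      rw [add_sub_cancel_left] at h2
      have h3 := le_max_left R 0
      linarith

/-- Normalization.
PROOF. Let `h` be as in `GPre.inf`, `k = deriv h 0`, `k'` as in `norm_inf`, and
`Φ w = k / (Ψ w - v₀) + k'`. `hol`: composition with the function `v ↦ k / (v - v₀) + k'`,
analytic at `v ≠ v₀`. `inj`, `inf`: clear. `sep`: let `V, W, R` be as in `GPre.sep`, `μ⁻¹ x =
v₀ + k / (x - k')` for `x ≠ k'`. Put `V' = {x | x ≠ k' ∧ μ⁻¹ x ∈ V}`, `W' = {x | x ≠ k' ∧
μ⁻¹ x ∈ W}` and add the point `k'` to `V'` if `V` contains a neighbourhood of infinity, to `W'`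
otherwise (the set to which the point is added is open at `k'`, since `‖μ⁻¹ x‖ → ∞` as
`x → k'`). If `x ∉ V'`, `x ∉ W'` then `x ≠ k'`, `v = μ⁻¹ x ≠ v₀` is not in `V`, `W`, so
`v = Ψ w` with `lv p q w = 0`, and `Φ w = x`. -/
theorem exists_app {p q : ℂ} {J N : Set ℂ} {ψ : ℂ → ℂ} (hg : Gate p q J N ψ) {r : ℝ} (hr : 0 < r)
    {Ψ : ℂ → ℂ} {v₀ : ℂ} (h : GPre p q J ψ r Ψ v₀) : ∃ Φ : ℂ → ℂ, GApp p q J ψ r Φ := by
  obtain ⟨h', ha, h0, hd, hev⟩ := h.inf
  obtain ⟨k', hk'⟩ := norm_inf ha h0 hd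
  set k : ℂ := deriv h' 0 with hk
  have hne : ∀ v : ℂ, v ≠ v₀ → k / (v - v₀) ≠ 0 := fun v hv => div_ne_zero hd (sub_ne_zero.2 hv)
  have hmu : ∀ v : ℂ, v ≠ v₀ → v₀ + k / (k / (v - v₀) + k' - k') = v := by
    intro v hv
    rw [add_sub_cancel_right, div_div_cancel₀ hd, add_sub_cancel]
  refine ⟨fun w => k / (Ψ w - v₀) + k', ?_, ?_, ?_, ?_⟩
  · intro w hw
    obtain ⟨h1, h2⟩ := h.hol w hw
    have h3 := h.nev w hw
    refine ⟨fun hJ => ?_, fun hJ => ?_⟩
    · exact (analyticAt_const.div ((h1 hJ).sub analyticAt_const) (sub_ne_zero.2 h3)).add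
        analyticAt_const
    · obtain ⟨g, hg1, hg2⟩ := h2 hJ
      have h4 : g (ψ w) ≠ v₀ := by
        rw [← hg2.self_of_nhds]; exact h3
      refine ⟨fun v => k / (g v - v₀) + k',
        (analyticAt_const.div (hg1.sub analyticAt_const) (sub_ne_zero.2 h4)).add
        analyticAt_const, ?_⟩
      filter_upwards [hg2] with x hx
      rw [hx]
  · intro x hx y hy hxy
    have h1 := h.nev x hx
    have h2 := h.nev y hy
    apply h.inj hx hy
    simp only at hxy
    have h3 := add_right_cancel hxy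
    have h4 := hmu _ h1
    have h5 := hmu _ h2
    rw [h3] at h4
    exact h4.symm.trans h5
  · refine hk'.congr' ?_
    filter_upwards [hev] with w hw
    rw [hw]
  · obtain ⟨V, W, hV, hW, hVW, hv0V, hv0W, hlt, hgt, hex, R, hR⟩ := h.sep
    -- reduction to two open sets
    have key : ∀ VV WW : Set ℂ, IsOpen VV → IsOpen WW → Disjoint VV WW →
        {x : ℂ | x ≠ k' ∧ v₀ + k / (x - k') ∈ V} ⊆ VV →
        {x : ℂ | x ≠ k' ∧ v₀ + k / (x - k') ∈ W} ⊆ WW → (k' ∈ VV ∨ k' ∈ WW) →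
        ∃ V W : Set ℂ, IsOpen V ∧ IsOpen W ∧ Disjoint V W ∧
        (∀ w ∈ ann p q r, lv p q w < 0 → k / (Ψ w - v₀) + k' ∈ V) ∧
        (∀ w ∈ ann p q r, 0 < lv p q w → k / (Ψ w - v₀) + k' ∈ W) ∧
        ∀ x, x ∉ V → x ∉ W → ∃ w, w ≠ p ∧ w ≠ q ∧ lv p q w = 0 ∧ k / (Ψ w - v₀) + k' = x := by
      intro VV WW h1 h2 h3 h4 h5 h6
      refine ⟨VV, WW, h1, h2, h3, fun w hw hl => h4 ⟨?_, ?_⟩, fun w hw hl => h5 ⟨?_, ?_⟩, ?_⟩
      · intro h7
        exact hne _ (h.nev w hw) (add_eq_right.1 h7)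
      · rw [hmu _ (h.nev w hw)]; exact hlt w hw hl
      · intro h7
        exact hne _ (h.nev w hw) (add_eq_right.1 h7)
      · rw [hmu _ (h.nev w hw)]; exact hgt w hw hl
      · intro x hxV hxW
        have hxk : x ≠ k' := by
          rintro rfl
          rcases h6 with h6 | h6
          · exact hxV h6
          · exact hxW h6
        have hxk0 : x - k' ≠ 0 := sub_ne_zero.2 hxk
        obtain ⟨w, hw1, hw2, hw3, hw4⟩ := hex (v₀ + k / (x - k'))
          (fun h7 => div_ne_zero hd hxk0 (add_eq_left.1 h7))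
          (fun h7 => hxV (h4 ⟨hxk, h7⟩)) (fun h7 => hxW (h5 ⟨hxk, h7⟩))
        refine ⟨w, hw1, hw2, hw3, ?_⟩
        rw [hw4, add_sub_cancel_left, div_div_cancel₀ hd, sub_add_cancel]
    have hdis : Disjoint {x : ℂ | x ≠ k' ∧ v₀ + k / (x - k') ∈ V}
        {x : ℂ | x ≠ k' ∧ v₀ + k / (x - k') ∈ W} := by
      rw [disjoint_left]
      intro x hx hy
      exact (disjoint_left.1 hVW) hx.2 hy.2
    rcases hR with hR | hR
    · refine key ({x : ℂ | x ≠ k' ∧ v₀ + k / (x - k') ∈ V} ∪ {k'})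
        {x : ℂ | x ≠ k' ∧ v₀ + k / (x - k') ∈ W} (mu_open' hV k' hd hR) (mu_open hW v₀ k k') ?_
        subset_union_left Subset.rfl (Or.inl (Or.inr rfl))
      rw [disjoint_union_left]
      refine ⟨hdis, ?_⟩
      rw [disjoint_singleton_left]
      exact fun hx => hx.1 rfl
    · refine key {x : ℂ | x ≠ k' ∧ v₀ + k / (x - k') ∈ V}
        ({x : ℂ | x ≠ k' ∧ v₀ + k / (x - k') ∈ W} ∪ {k'}) (mu_open hV v₀ k k')
        (mu_open' hW k' hd hR) ?_ Subset.rfl subset_union_left (Or.inr (Or.inr rfl))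
      rw [disjoint_union_right]
      refine ⟨hdis, ?_⟩
      rw [disjoint_singleton_right]
      exact fun hx => hx.1 rfl

end Pool.Agent.MX018
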