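import Pool.Agent.Lib.MP_018119_an_MX.AutMob

/-!
# MX: fixed points of automorphisms of the disc
-/

set_option autoImplicit false

open Topology Filter Set Metric

namespace Pool.Agent.MX018

theorem inv_aux {u v b : ℂ} (hu : u ≠ 0) (hv : v ≠ 0) :
    (1 / u + -b / v) * (v * u) = v - b * u := by
  field_simp
  ring

/-- Normal forms of an automorphism of the disc without fixed points.
PROOF. `aut_mob` gives `A z = lam * (z - a) / (1 - conj a * z)`. `a ≠ 0` (otherwise `0` is a fixed
point). A complex number `z` with `1 - conj a * z ≠ 0` satisfies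
`lam * (z - a) / (1 - conj a * z) = z` iff `conj a * z ^ 2 + (lam - 1) * z - lam * a = 0`. Let
`α, β` be the two roots (`IsAlgClosed`, quadratic formula): `α * β = - lam * a / conj a` has
modulus one and neither root is in the disc (it would be a fixed point, the denominator is not zero
in the disc), so `‖α‖ = ‖β‖ = 1`; and `α + β = (1 - lam) / conj a`.
If `α ≠ β`: for `z` in the disc
`(A z - α) / (A z - β) = μ * ((z - α) / (z - β))` with `μ = (lam + conj a * α) / (lam + conj a * β)`
(from `A z - α = ((lam + conj a * α) * z - (lam * a + α)) / (1 - conj a * z)` and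
`lam * a + α = (lam + conj a * α) * α`; the factor `lam + conj a * α` is not zero as
`‖conj a * α‖ < 1`), and `μ ≠ 1` since `a ≠ 0`, `α ≠ β`.
If `α = β`: `A z - α = (lam + conj a * α) * (z - α) / (1 - conj a * z)`, hence
`1 / (A z - α) = (1 - conj a * z) / ((lam + conj a * α) * (z - α))
 = (1 - conj a * α) / ((lam + conj a * α) * (z - α)) - conj a / (lam + conj a * α)`
and `1 - conj a * α = lam + conj a * α` (as `2 α = (1 - lam) / conj a`), so `c = - conj a / (lam +
conj a * α) ≠ 0`. -/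
theorem aut_fix (A : ℂ → ℂ) (hd : DifferentiableOn ℂ A (ball 0 1))
    (hb : BijOn A (ball 0 1) (ball 0 1)) (hfix : ∀ z ∈ ball (0 : ℂ) 1, A z ≠ z) :
    (∃ α β μ : ℂ, ‖α‖ = 1 ∧ ‖β‖ = 1 ∧ α ≠ β ∧ μ ≠ 1 ∧
      ∀ z ∈ ball (0 : ℂ) 1, (A z - α) / (A z - β) = μ * ((z - α) / (z - β))) ∨
    (∃ α c : ℂ, ‖α‖ = 1 ∧ c ≠ 0 ∧
      ∀ z ∈ ball (0 : ℂ) 1, 1 / (A z - α) = 1 / (z - α) + c) := by
  obtain ⟨a, lam, ha, hlam, hA⟩ := aut_mob A hd hb
  set b : ℂ := (starRingEnd ℂ) a with hbd
  have hbn : ‖b‖ = ‖a‖ := RCLike.norm_conj a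
  have ha0 : a ≠ 0 := by
    intro h
    apply hfix 0 (mem_ball_self one_pos)
    rw [hA 0 (mem_ball_self one_pos), h]
    simp
  have hb0 : b ≠ 0 := by
    intro h
    rw [h, norm_zero] at hbn
    exact ha0 (norm_eq_zero.1 hbn.symm)
  have hlam0 : lam ≠ 0 := by
    intro h
    rw [h, norm_zero] at hlam
    exact zero_ne_one hlam
  have hden : ∀ z ∈ ball (0 : ℂ) 1, 1 - b * z ≠ 0 := fun z hz =>
    mobT_den ha (mem_ball_zero_iff.1 hz)
  -- the roots
  obtain ⟨s, hs⟩ := IsAlgClosed.exists_pow_nat_eq ((lam - 1) ^ 2 + 4 * b * lam * a) two_pos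
  set α : ℂ := (-(lam - 1) + s) / (2 * b) with hα
  set β : ℂ := (-(lam - 1) - s) / (2 * b) with hβ
  have hsum : b * (α + β) = 1 - lam := by
    rw [hα, hβ]; field_simp; ring
  have hprod : b * (α * β) = - (lam * a) := by
    rw [hα, hβ]
    field_simp
    linear_combination (-1 : ℂ) * hs
  have hrα : b * α ^ 2 + (lam - 1) * α - lam * a = 0 := by
    linear_combination α * hsum - hprod
  have hrβ : b * β ^ 2 + (lam - 1) * β - lam * a = 0 := by
    linear_combination β * hsum - hprod
  -- the roots are not in the disc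
  have hout : ∀ x : ℂ, b * x ^ 2 + (lam - 1) * x - lam * a = 0 → 1 ≤ ‖x‖ := by
    intro x hx
    by_contra hcon
    push Not at hcon
    have hxm : x ∈ ball (0 : ℂ) 1 := mem_ball_zero_iff.2 hcon
    apply hfix x hxm
    rw [hA x hxm, div_eq_iff (hden x hxm)]
    linear_combination hx
  have h1α := hout α hrα
  have h1β := hout β hrβ
  have hnp : ‖α‖ * ‖β‖ = 1 := by
    have h := congrArg norm hprod
    rw [norm_mul, norm_mul, norm_neg, norm_mul, hlam, hbn, one_mul] at h
    have hna : ‖a‖ ≠ 0 := norm_ne_zero_iff.2 ha0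
    exact mul_left_cancel₀ hna (by rw [h, mul_one])
  have hαn : ‖α‖ = 1 := by nlinarith
  have hβn : ‖β‖ = 1 := by nlinarith
  have hlb : ∀ x : ℂ, ‖x‖ = 1 → lam + b * x ≠ 0 := by
    intro x hx h
    have h2 : lam = - (b * x) := by linear_combination h
    rw [h2, norm_neg, norm_mul, hx, mul_one, hbn] at hlam
    linarith
  have hzne : ∀ z ∈ ball (0 : ℂ) 1, ∀ x : ℂ, ‖x‖ = 1 → z - x ≠ 0 := by
    intro z hz x hx h
    rw [sub_eq_zero.1 h, mem_ball_zero_iff, hx] at hz
    exact lt_irrefl _ hz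
  have hAα : ∀ x : ℂ, b * x ^ 2 + (lam - 1) * x - lam * a = 0 → ∀ z ∈ ball (0 : ℂ) 1,
      A z - x = (lam + b * x) * (z - x) / (1 - b * z) := by
    intro x hx z hz
    rw [hA z hz, eq_div_iff (hden z hz), sub_mul, div_mul_cancel₀ _ (hden z hz)]
    linear_combination hx
  by_cases hαβ : α = β
  · right
    have hl : 1 - b * α = lam + b * α := by
      rw [← hαβ] at hsum
      linear_combination -hsum
    have hlα := hlb α hαn
    refine ⟨α, - b / (lam + b * α), hαn, div_ne_zero (neg_ne_zero.2 hb0) hlα, fun z hz => ?_⟩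
    have hz1 := hzne z hz α hαn
    have hd1 := hden z hz
    rw [hAα α hrα z hz, one_div_div, div_eq_iff (mul_ne_zero hlα hz1)]
    rw [inv_aux hz1 hlα]
    linear_combination hl
  · left
    have hlα := hlb α hαn
    have hlβ := hlb β hβn
    refine ⟨α, β, (lam + b * α) / (lam + b * β), hαn, hβn, hαβ, ?_, fun z hz => ?_⟩
    · intro h
      rw [div_eq_one_iff_eq hlβ] at h
      exact hαβ (mul_left_cancel₀ hb0 (add_left_cancel h))
    · have hz1 := hzne z hz α hαn
      have hz2 := hzne z hz β hβn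
      have hd1 := hden z hz
      rw [hAα α hrα z hz, hAα β hrβ z hz, div_div_div_cancel_right₀ hd1, mul_div_mul_comm]

end Pool.Agent.MX018
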