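import Mathlib

/-!
# MX: linearization, hyperbolic case
-/

set_option autoImplicit false

open Topology Filter Set Metric

namespace Pool.Agent.MX018

private theorem AutHyp_iff (α β v : ℂ) (hα : ‖α‖ = 1) (hβ : ‖β‖ = 1) :
    ‖α - β * v‖ < ‖1 - v‖ ↔ 0 < (((starRingEnd ℂ) α * β - 1) * v).re := by
  have h1 : ‖α - β * v‖ < ‖1 - v‖ ↔ ‖α - β * v‖ ^ 2 < ‖1 - v‖ ^ 2 :=
    (pow_lt_pow_iff_left₀ (norm_nonneg _) (norm_nonneg _) two_ne_zero).symm
  have ha : α.re * α.re + α.im * α.im = 1 := by
    have := Complex.sq_norm α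
    rw [hα, Complex.normSq_apply] at this
    linarith
  have hb : β.re * β.re + β.im * β.im = 1 := by
    have := Complex.sq_norm β
    rw [hβ, Complex.normSq_apply] at this
    linarith
  rw [h1, Complex.sq_norm, Complex.sq_norm, Complex.normSq_apply, Complex.normSq_apply]
  simp only [Complex.sub_re, Complex.mul_re, Complex.sub_im, Complex.mul_im, Complex.one_re,
    Complex.one_im, Complex.conj_re, Complex.conj_im]
  have e : (1 - v.re) * (1 - v.re) + (0 - v.im) * (0 - v.im) -
      ((α.re - (β.re * v.re - β.im * v.im)) * (α.re - (β.re * v.re - β.im * v.im)) +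
      (α.im - (β.re * v.im + β.im * v.re)) * (α.im - (β.re * v.im + β.im * v.re))) =
      2 * ((α.re * β.re - -α.im * β.im - 1) * v.re - (α.re * β.im + -α.im * β.re - 0) * v.im) +
      (1 - (α.re * α.re + α.im * α.im)) +
      (v.re * v.re + v.im * v.im) * (1 - (β.re * β.re + β.im * β.im)) := by ring
  rw [ha, hb] at e
  constructor
  · intro h
    linarith
  · intro h
    linarith

/-- Linearization in the hyperbolic case.
PROOF. For `z` in the disc let `M z = κ * (z - α) / (z - β)` where `κ` is a number of modulus one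
such that `M` maps the disc bijectively onto the right half plane `{v | 0 < v.re}`: the map
`z ↦ (z - α) / (z - β)` is injective on the disc with inverse `v ↦ (α - β v) / (1 - v)`, and
`‖z‖ < 1` iff `‖α - β v‖ < ‖1 - v‖` iff `0 < Re (v * (conj α * β - 1))` (expand both sides, with
`‖α‖ = ‖β‖ = 1`; note that `v = 1` is not in this half plane, since
`Re (conj α * β - 1) ≤ 0`), so take
`κ = (conj α * β - 1) / ‖conj α * β - 1‖` (`α ≠ β`). By the hypothesis
`M (A z) = μ * M z`, so `μ` times the right half plane is the right half plane (bijectivity of `A`),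
which forces `μ` to be a positive real number (`μ v` has positive real part for all `v` with
positive real part, take `v = 1 + i y`, `y → ± ∞`; `μ ≠ 0` as `A z ≠ α`). Let `ℓ = log μ ≠ 0` be
the real logarithm (`μ ≠ 1`) and `Λ z = (2 π i / ℓ) * log (M z)` (principal logarithm, which maps
the right half plane bijectively onto the strip `|Im| < π / 2`, and `log (μ v) = ℓ + log v`). Then
`Λ (A z) = Λ z + 2 π i` and `Re (Λ z) = - (2 π / ℓ) * Im (log (M z))`, so the image is
`{v | v.re ∈ Ioo (-π^2/|ℓ|) (π^2/|ℓ|)}`. -/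
theorem aut_hyp (A : ℂ → ℂ) (hb : BijOn A (ball 0 1) (ball 0 1)) (α β μ : ℂ) (hα : ‖α‖ = 1)
    (hβ : ‖β‖ = 1) (hne : α ≠ β) (hμ : μ ≠ 1)
    (h : ∀ z ∈ ball (0 : ℂ) 1, (A z - α) / (A z - β) = μ * ((z - α) / (z - β))) :
    ∃ (Λ : ℂ → ℂ) (S : Set ℝ), DifferentiableOn ℂ Λ (ball 0 1) ∧ InjOn Λ (ball 0 1) ∧
      Λ '' ball 0 1 = {v | v.re ∈ S} ∧ IsOpen S ∧ S.OrdConnected ∧
      ∀ z ∈ ball (0 : ℂ) 1, Λ (A z) = Λ z + 2 * Real.pi * Complex.I := by
  set d : ℂ := (starRingEnd ℂ) α * β - 1 with hd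
  have hα0 : α ≠ 0 := by
    rintro rfl
    simp at hα
  have hαα : (starRingEnd ℂ) α * α = 1 := by
    rw [← Complex.normSq_eq_conj_mul_self, Complex.normSq_eq_norm_sq, hα]
    norm_num
  have hd0 : d ≠ 0 := by
    intro h1
    apply hne
    have h2 : (starRingEnd ℂ) α * β = (starRingEnd ℂ) α * α := by
      rw [hαα]
      exact sub_eq_zero.1 h1
    have h3 : (starRingEnd ℂ) α ≠ 0 := by
      intro h3
      rw [h3, zero_mul] at hαα
      exact zero_ne_one hαα
    exact (mul_left_cancel₀ h3 h2).symm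
  have hdre : d.re ≤ 0 := by
    have h1 : ((starRingEnd ℂ) α * β).re ≤ ‖(starRingEnd ℂ) α * β‖ := Complex.re_le_norm _
    rw [norm_mul, RCLike.norm_conj, hα, hβ] at h1
    simp only [hd, Complex.sub_re, Complex.one_re]
    linarith
  have hzα : ∀ z ∈ ball (0 : ℂ) 1, z - α ≠ 0 := by
    intro z hz h1
    rw [mem_ball_zero_iff, sub_eq_zero.1 h1, hα] at hz
    exact lt_irrefl _ hz
  have hzβ : ∀ z ∈ ball (0 : ℂ) 1, z - β ≠ 0 := by
    intro z hz h1
    rw [mem_ball_zero_iff, sub_eq_zero.1 h1, hβ] at hz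
    exact lt_irrefl _ hz
  let G : ℂ → ℂ := fun z => d * ((z - α) / (z - β))
  -- the map `G` is a bijection from the disc to the right half plane
  have hG1 : ∀ z ∈ ball (0 : ℂ) 1, 0 < (G z).re := by
    intro z hz
    have h1 := hzβ z hz
    have e1 : α - β * ((z - α) / (z - β)) = z * (1 - (z - α) / (z - β)) := by
      field_simp
      ring
    have e2 : 1 - (z - α) / (z - β) ≠ 0 := by
      intro h2
      have h3 : z - β = z - α := by
        have := sub_eq_zero.1 h2
        rw [eq_comm, div_eq_one_iff_eq h1] at this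
        exact this.symm
      exact hne (sub_right_inj.1 h3).symm
    refine (AutHyp_iff α β _ hα hβ).1 ?_
    rw [e1, norm_mul]
    have h3 : 0 < ‖1 - (z - α) / (z - β)‖ := norm_pos_iff.2 e2
    have h4 := mem_ball_zero_iff.1 hz
    nlinarith
  have hG2 : ∀ w : ℂ, 0 < w.re → ∃ z ∈ ball (0 : ℂ) 1, G z = w := by
    intro w hw
    set v := w / d with hv
    have h1 : d * v = w := mul_div_cancel₀ w hd0
    have h2 : v ≠ 1 := by
      intro h2
      rw [h2, mul_one] at h1
      rw [← h1] at hw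
      linarith
    have h3 : 1 - v ≠ 0 := fun h3 => h2 (sub_eq_zero.1 h3).symm
    have h4 : ‖α - β * v‖ < ‖1 - v‖ := (AutHyp_iff α β v hα hβ).2 (by rw [← hd, h1]; exact hw)
    have h5 : α - β ≠ 0 := sub_ne_zero.2 hne
    refine ⟨(α - β * v) / (1 - v), ?_, ?_⟩
    · rw [mem_ball_zero_iff, norm_div, div_lt_one (norm_pos_iff.2 h3)]
      exact h4
    · have e1 : (α - β * v) / (1 - v) - α = (α - β) * v / (1 - v) := by
        field_simp
        ring
      have e2 : (α - β * v) / (1 - v) - β = (α - β) / (1 - v) := by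
        field_simp
        ring
      simp only [G]
      rw [e1, e2, ← h1]
      field_simp
  have hG3 : InjOn G (ball 0 1) := by
    intro z hz w hw hzw
    have h1 := mul_left_cancel₀ hd0 hzw
    rw [div_eq_div_iff (hzβ z hz) (hzβ w hw)] at h1
    have h2 : (z - w) * (α - β) = 0 := by linear_combination h1
    rcases mul_eq_zero.1 h2 with h3 | h3
    · exact sub_eq_zero.1 h3
    · exact absurd (sub_eq_zero.1 h3) hne
  have hGA : ∀ z ∈ ball (0 : ℂ) 1, G (A z) = μ * G z := by
    intro z hz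
    simp only [G]
    rw [h z hz]
    ring
  have hμ1 : ∀ w : ℂ, 0 < w.re → 0 < (μ * w).re := by
    intro w hw
    obtain ⟨z, hz, rfl⟩ := hG2 w hw
    rw [← hGA z hz]
    exact hG1 _ (hb.mapsTo hz)
  have hμim : μ.im = 0 := by
    by_contra h1
    have h2 := hμ1 ⟨1, μ.re / μ.im⟩ one_pos
    simp only [Complex.mul_re] at h2
    rw [mul_div_cancel₀ _ h1] at h2
    linarith
  have hμre : 0 < μ.re := by
    have h2 := hμ1 1 (by simp)
    rwa [mul_one] at h2
  have hμr : μ = ((μ.re : ℝ) : ℂ) := Complex.ext (by simp) (by simp [hμim])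
  have hm1 : μ.re ≠ 1 := by
    intro h1
    apply hμ
    rw [hμr, h1]
    simp
  set ℓ := Real.log μ.re with hℓ
  have hℓ0 : ℓ ≠ 0 := Real.log_ne_zero_of_pos_of_ne_one hμre hm1
  have hℓc : (ℓ : ℂ) ≠ 0 := by exact_mod_cast hℓ0
  have hπ := Real.pi_pos
  have hπc : (Real.pi : ℂ) ≠ 0 := by exact_mod_cast hπ.ne'
  have hG0 : ∀ z ∈ ball (0 : ℂ) 1, G z ≠ 0 := by
    intro z hz h1
    have := hG1 z hz
    rw [h1] at this
    simp at this
  have hre : ∀ t : ℂ, (2 * Real.pi * Complex.I / ℓ * t).re = -(2 * Real.pi / ℓ * t.im) := by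
    intro t
    have : 2 * Real.pi * Complex.I / ℓ * t = ((2 * Real.pi / ℓ : ℝ) : ℂ) * (Complex.I * t) := by
      push_cast
      ring
    rw [this, Complex.re_ofReal_mul, Complex.I_mul_re]
    ring
  have habs : 0 < |ℓ| := abs_pos.2 hℓ0
  refine ⟨fun z => 2 * Real.pi * Complex.I / ℓ * Complex.log (G z),
    Ioo (-(Real.pi ^ 2 / |ℓ|)) (Real.pi ^ 2 / |ℓ|), ?_, ?_, ?_, isOpen_Ioo, ordConnected_Ioo, ?_⟩
  · intro z hz
    refine DifferentiableAt.differentiableWithinAt ?_
    refine DifferentiableAt.const_mul ?_ _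
    refine DifferentiableAt.clog ?_ (Or.inl (hG1 z hz))
    have e1 : DifferentiableAt ℂ (fun z : ℂ => z - α) z := differentiableAt_id.sub_const α
    have e2 : DifferentiableAt ℂ (fun z : ℂ => z - β) z := differentiableAt_id.sub_const β
    exact (e1.div e2 (hzβ z hz)).const_mul d
  · intro z hz w hw hzw
    simp only at hzw
    have h1 : (2 * Real.pi * Complex.I / ℓ : ℂ) ≠ 0 :=
      div_ne_zero (mul_ne_zero (mul_ne_zero two_ne_zero hπc) Complex.I_ne_zero) hℓc
    have h2 := mul_left_cancel₀ h1 hzw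
    refine hG3 hz hw ?_
    rw [← Complex.exp_log (hG0 z hz), h2, Complex.exp_log (hG0 w hw)]
  · ext v
    constructor
    · rintro ⟨z, hz, rfl⟩
      simp only [mem_ofPred_eq]
      rw [hre, Complex.log_im]
      have h1 : |(G z).arg| < Real.pi / 2 := Complex.abs_arg_lt_pi_div_two_iff.2 (Or.inl (hG1 z hz))
      have h2 : |-(2 * Real.pi / ℓ * (G z).arg)| < Real.pi ^ 2 / |ℓ| := by
        rw [abs_neg, abs_mul, abs_div, abs_of_pos (by positivity : 0 < 2 * Real.pi)]
        have h3 : 2 * Real.pi / |ℓ| * |(G z).arg| < 2 * Real.pi / |ℓ| * (Real.pi / 2) :=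
          mul_lt_mul_of_pos_left h1 (by positivity)
        refine h3.trans_eq ?_
        field_simp
      exact abs_lt.1 h2
    · intro hv
      simp only [mem_ofPred_eq] at hv
      have hv' : |v.re| < Real.pi ^ 2 / |ℓ| := abs_lt.2 hv
      set t : ℂ := ⟨v.im * ℓ / (2 * Real.pi), -(v.re * ℓ / (2 * Real.pi))⟩ with ht
      have ht1 : |t.im| < Real.pi / 2 := by
        simp only [ht]
        rw [abs_neg, abs_div, abs_mul, abs_of_pos (by positivity : 0 < 2 * Real.pi),
          div_lt_iff₀ (by positivity)]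
        have := mul_lt_mul_of_pos_right hv' habs
        rw [div_mul_cancel₀ _ habs.ne'] at this
        refine this.trans_eq ?_
        ring
      have ht2 : 0 < (Complex.exp t).re := by
        rw [Complex.exp_re]
        exact mul_pos (Real.exp_pos _) (Real.cos_pos_of_mem_Ioo (abs_lt.1 ht1))
      obtain ⟨z, hz, hzt⟩ := hG2 _ ht2
      refine ⟨z, hz, ?_⟩
      simp only
      rw [hzt, Complex.log_exp (by linarith [(abs_lt.1 ht1).1]) (by linarith [(abs_lt.1 ht1).2])]
      apply Complex.ext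
      · rw [hre]
        simp only [ht]
        field_simp
        try ring
      · have : 2 * Real.pi * Complex.I / ℓ * t =
            ((2 * Real.pi / ℓ : ℝ) : ℂ) * (Complex.I * t) := by
          push_cast
          ring
        rw [this, Complex.im_ofReal_mul, Complex.I_mul_im]
        simp only [ht]
        field_simp
        try ring
  · intro z hz
    simp only
    rw [hGA z hz, hμr, Complex.log_ofReal_mul hμre (hG0 z hz), ← hℓ]
    field_simp
    try ring

end Pool.Agent.MX018
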