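import Mathlib

/-!
# MX: linearization, parabolic case
-/

set_option autoImplicit false

open Topology Filter Set Metric

namespace Pool.Agent.MX018

private theorem AutPar_ne {α z : ℂ} (hα : ‖α‖ = 1) (hz : z ∈ ball (0 : ℂ) 1) : z - α ≠ 0 := by
  intro h
  rw [sub_eq_zero] at h
  rw [h, mem_ball_zero_iff, hα] at hz
  exact lt_irrefl _ hz

private theorem AutPar_iff {v : ℂ} (hv : v ≠ 0) : ‖1 + 1 / v‖ < 1 ↔ v.re < -1 / 2 := by
  have hv0 : 0 < ‖v‖ := norm_pos_iff.2 hv
  have e : 1 + 1 / v = (v + 1) / v := by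
    field_simp
  rw [e, norm_div, div_lt_one hv0]
  have h1 : ‖v + 1‖ ^ 2 = ‖v‖ ^ 2 + 2 * v.re + 1 := by
    rw [← Complex.normSq_eq_norm_sq, ← Complex.normSq_eq_norm_sq, Complex.normSq_apply,
      Complex.normSq_apply, Complex.add_re, Complex.add_im, Complex.one_re, Complex.one_im]
    ring
  constructor
  · intro h
    have h2 := pow_lt_pow_left₀ h (norm_nonneg _) two_ne_zero
    linarith
  · intro h
    refine lt_of_pow_lt_pow_left₀ 2 hv0.le ?_
    linarith

private theorem AutPar_mem {α z : ℂ} (hα : ‖α‖ = 1) (hz : z ∈ ball (0 : ℂ) 1) :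
    (α / (z - α)).re < -1 / 2 := by
  have hz0 := AutPar_ne hα hz
  have hα0 : α ≠ 0 := by
    rintro rfl
    rw [norm_zero] at hα
    exact zero_ne_one hα
  rw [← AutPar_iff (div_ne_zero hα0 hz0)]
  have e : 1 + 1 / (α / (z - α)) = z / α := by
    field_simp
    ring
  rw [e, norm_div, hα, div_one]
  exact mem_ball_zero_iff.1 hz

private theorem AutPar_surj {α v : ℂ} (hα : ‖α‖ = 1) (hv : v.re < -1 / 2) :
    ∃ z ∈ ball (0 : ℂ) 1, α / (z - α) = v := by
  have hα0 : α ≠ 0 := by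
    rintro rfl
    rw [norm_zero] at hα
    exact zero_ne_one hα
  have hv0 : v ≠ 0 := by
    rintro rfl
    rw [Complex.zero_re] at hv
    linarith
  refine ⟨α * (1 + 1 / v), ?_, ?_⟩
  · rw [mem_ball_zero_iff, norm_mul, hα, one_mul]
    exact (AutPar_iff hv0).2 hv
  · have e : α * (1 + 1 / v) - α = α / v := by
      ring
    rw [e, div_div_cancel₀ hα0]

/-- Linearization in the parabolic case.
PROOF. `L z = α / (z - α)` maps the disc bijectively onto `{v | v.re < - 1 / 2}` (inverse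
`v ↦ α + α / v`; `‖1 + 1 / v‖ < 1` iff `‖v + 1‖ < ‖v‖` iff `2 * v.re + 1 < 0`), and
`L (A z) = L z + α c`. As `A` is a bijection of the disc the half plane is mapped onto itself by
the translation by `α c ≠ 0`, so `Re (α c) = 0`, `α c = i s` with `s` real, `s ≠ 0`. Put
`Λ z = (2 π / s) * L z`: `Λ (A z) = Λ z + 2 π i`, and the image is
`{v | v.re ∈ S}` with `S = {x | x * s / (2 π) < - 1 / 2}`, an open half line. -/
theorem aut_par (A : ℂ → ℂ) (hb : BijOn A (ball 0 1) (ball 0 1)) (α c : ℂ) (hα : ‖α‖ = 1)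
    (hc : c ≠ 0) (h : ∀ z ∈ ball (0 : ℂ) 1, 1 / (A z - α) = 1 / (z - α) + c) :
    ∃ (Λ : ℂ → ℂ) (S : Set ℝ), DifferentiableOn ℂ Λ (ball 0 1) ∧ InjOn Λ (ball 0 1) ∧
      Λ '' ball 0 1 = {v | v.re ∈ S} ∧ IsOpen S ∧ S.OrdConnected ∧
      ∀ z ∈ ball (0 : ℂ) 1, Λ (A z) = Λ z + 2 * Real.pi * Complex.I := by
  have hα0 : α ≠ 0 := by
    rintro rfl
    rw [norm_zero] at hα
    exact zero_ne_one hα
  have hL : ∀ z ∈ ball (0 : ℂ) 1, α / (A z - α) = α / (z - α) + α * c := by
    intro z hz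
    have h1 := h z hz
    calc α / (A z - α) = α * (1 / (A z - α)) := by ring
      _ = α * (1 / (z - α) + c) := by rw [h1]
      _ = α / (z - α) + α * c := by ring
  have hτ1 : (α * c).re ≤ 0 := by
    by_contra hcon
    rw [not_le] at hcon
    obtain ⟨z, hz, hzv⟩ := AutPar_surj (v := ((-1 / 2 - (α * c).re / 2 : ℝ) : ℂ)) hα (by
      rw [Complex.ofReal_re]
      linarith)
    have h1 := AutPar_mem hα (hb.mapsTo hz)
    rw [hL z hz, hzv, Complex.add_re, Complex.ofReal_re] at h1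
    linarith
  have hτ2 : 0 ≤ (α * c).re := by
    by_contra hcon
    rw [not_le] at hcon
    obtain ⟨z, hz, hzv⟩ := AutPar_surj (v := ((-1 / 2 + (α * c).re / 2 : ℝ) : ℂ)) hα (by
      rw [Complex.ofReal_re]
      linarith)
    obtain ⟨z', hz', rfl⟩ := hb.surjOn hz
    have h1 := AutPar_mem hα hz'
    have h2 := congrArg Complex.re (hL z' hz')
    rw [hzv, Complex.add_re, Complex.ofReal_re] at h2
    linarith
  have hτ : (α * c).re = 0 := le_antisymm hτ1 hτ2
  obtain ⟨s, hs⟩ : ∃ s, s = (α * c).im := ⟨_, rfl⟩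
  have hαc : α * c = s * Complex.I := by
    refine Complex.ext ?_ ?_
    · simp [hτ]
    · simp [hs]
  have hs0 : s ≠ 0 := by
    rintro rfl
    rw [Complex.ofReal_zero, zero_mul] at hαc
    exact mul_ne_zero hα0 hc hαc
  have hpi := Real.pi_pos
  have hk0 : 2 * Real.pi / s ≠ 0 := div_ne_zero (by positivity) hs0
  have hkc : ((2 * Real.pi / s : ℝ) : ℂ) ≠ 0 := by exact_mod_cast hk0
  refine ⟨fun z => ((2 * Real.pi / s : ℝ) : ℂ) * (α / (z - α)),
    {x | (2 * Real.pi / s)⁻¹ * x < -1 / 2}, ?_, ?_, ?_, ?_, ?_, ?_⟩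
  · intro z hz
    have h1 : DifferentiableAt ℂ (fun z : ℂ => α / (z - α)) z :=
      (differentiableAt_const α).div (differentiableAt_id.sub_const α) (AutPar_ne hα hz)
    exact (h1.const_mul _).differentiableWithinAt
  · intro z hz w hw hzw
    have h1 : α / (z - α) = α / (w - α) := mul_left_cancel₀ hkc hzw
    have h2 := AutPar_ne hα hz
    have h3 := AutPar_ne hα hw
    rw [div_eq_div_iff h2 h3] at h1
    have h4 := mul_left_cancel₀ hα0 h1
    linear_combination -h4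
  · ext v
    constructor
    · rintro ⟨z, hz, rfl⟩
      show (2 * Real.pi / s)⁻¹ * (((2 * Real.pi / s : ℝ) : ℂ) * (α / (z - α))).re < -1 / 2
      rw [Complex.re_ofReal_mul, inv_mul_cancel_left₀ hk0]
      exact AutPar_mem hα hz
    · intro hv
      obtain ⟨z, hz, hzv⟩ := AutPar_surj (v := (((2 * Real.pi / s)⁻¹ : ℝ) : ℂ) * v) hα (by
        rw [Complex.re_ofReal_mul]
        exact hv)
      refine ⟨z, hz, ?_⟩
      show ((2 * Real.pi / s : ℝ) : ℂ) * (α / (z - α)) = v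
      rw [hzv, Complex.ofReal_inv, mul_inv_cancel_left₀ hkc]
  · exact isOpen_lt (by fun_prop) continuous_const
  · refine ⟨fun x hx y hy z hz => ?_⟩
    show (2 * Real.pi / s)⁻¹ * z < -1 / 2
    have hx' : (2 * Real.pi / s)⁻¹ * x < -1 / 2 := hx
    have hy' : (2 * Real.pi / s)⁻¹ * y < -1 / 2 := hy
    rcases le_total 0 (2 * Real.pi / s)⁻¹ with h1 | h1
    · exact lt_of_le_of_lt (mul_le_mul_of_nonneg_left hz.2 h1) hy'
    · exact lt_of_le_of_lt (mul_le_mul_of_nonpos_left hz.1 h1) hx'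
  · intro z hz
    show ((2 * Real.pi / s : ℝ) : ℂ) * (α / (A z - α)) =
      ((2 * Real.pi / s : ℝ) : ℂ) * (α / (z - α)) + 2 * Real.pi * Complex.I
    rw [hL z hz, hαc, mul_add]
    congr 1
    have hsc : (s : ℂ) ≠ 0 := by exact_mod_cast hs0
    push_cast
    field_simp

end Pool.Agent.MX018
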