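import Pool.Agent.Lib.MP_018119_an_MX.MTool
import Pool.Agent.Lib.MP_018119_an_MX.AutFix
import Pool.Agent.Lib.MP_018119_an_MX.AutHyp
import Pool.Agent.Lib.MP_018119_an_MX.AutPar

/-!
# MX: the periodic uniformization of a strip
-/

set_option autoImplicit false

open Topology Filter Set Metric

namespace Pool.Agent.MX018

/-- From the uniformization `φ` of the strip to an injective map `Λ` which commutes with the
translation by `2πi`, with image a vertical strip or a vertical half plane.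
PROOF. `T z = z + 2πi` maps `vst r` onto itself, and `φ ∘ T` is holomorphic for `m` on `vst r`
(`MHol.translate`). By `MHol.factor` there is `A`, differentiable on `φ '' vst r = ball 0 1`, with
`A (φ z) = φ (z + 2πi)` for `z ∈ vst r`. `A` maps the disc bijectively onto itself (inverse:
`φ z ↦ φ (z - 2πi)`) and has no fixed point (`φ` is injective). `aut_fix` and `aut_hyp` or
`aut_par` give `Λ₀` and `S`; take `Λ = Λ₀ ∘ φ` (`MHol.comp_analytic`; `Λ₀` is analytic on the
open disc). -/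
theorem strip_lam {m : MPl} (hm : m.Per) {r : ℝ} (hr : 0 < r) {φ : ℂ → ℂ}
    (h1 : ∀ z ∈ vst r, MHol m φ z) (h2 : InjOn φ (vst r)) (h3 : φ '' vst r = ball 0 1) :
    ∃ (Λ : ℂ → ℂ) (S : Set ℝ), (∀ z ∈ vst r, MHol m Λ z) ∧ InjOn Λ (vst r) ∧
      Λ '' vst r = {v | v.re ∈ S} ∧ IsOpen S ∧ S.OrdConnected ∧
      ∀ z ∈ vst r, Λ (z + 2 * Real.pi * Complex.I) = Λ z + 2 * Real.pi * Complex.I := by
  have hopen : IsOpen (vst r) := isOpen_lt (by fun_prop) continuous_const
  set c : ℂ := 2 * Real.pi * Complex.I with hc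
  have hcre : c.re = 0 := by simp [hc]
  have hc0 : c ≠ 0 := Complex.two_pi_I_ne_zero
  have hadd : ∀ z ∈ vst r, z + c ∈ vst r := by
    intro z hz
    change |(z + c).re| < r
    rw [Complex.add_re, hcre, add_zero]
    exact hz
  have hsub : ∀ z ∈ vst r, z - c ∈ vst r := by
    intro z hz
    change |(z - c).re| < r
    rw [Complex.sub_re, hcre, sub_zero]
    exact hz
  obtain ⟨A, hA1, hA2⟩ := MHol.factor hopen h1 h2 (f := fun x => φ (x + c))
    (fun z hz => MHol.translate hm (h1 _ (hadd z hz)))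
  rw [h3] at hA1
  have hb : BijOn A (ball 0 1) (ball 0 1) := by
    refine ⟨?_, ?_, ?_⟩
    · intro w hw
      rw [← h3] at hw
      obtain ⟨z, hz, rfl⟩ := hw
      rw [hA2 z hz, ← h3]
      exact mem_image_of_mem _ (hadd z hz)
    · intro w hw w' hw' he
      rw [← h3] at hw hw'
      obtain ⟨z, hz, rfl⟩ := hw
      obtain ⟨z', hz', rfl⟩ := hw'
      rw [hA2 z hz, hA2 z' hz'] at he
      have := h2 (hadd z hz) (hadd z' hz') he
      rw [add_right_cancel this]
    · intro w hw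
      rw [← h3] at hw
      obtain ⟨z, hz, rfl⟩ := hw
      refine ⟨φ (z - c), ?_, ?_⟩
      · rw [← h3]
        exact mem_image_of_mem _ (hsub z hz)
      · rw [hA2 _ (hsub z hz)]
        simp
  have hfix : ∀ z ∈ ball (0 : ℂ) 1, A z ≠ z := by
    intro w hw he
    rw [← h3] at hw
    obtain ⟨z, hz, rfl⟩ := hw
    rw [hA2 z hz] at he
    have := h2 (hadd z hz) hz he
    exact hc0 (by simpa using this)
  have hex : ∃ (Λ : ℂ → ℂ) (S : Set ℝ), DifferentiableOn ℂ Λ (ball 0 1) ∧ InjOn Λ (ball 0 1) ∧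
      Λ '' ball 0 1 = {v | v.re ∈ S} ∧ IsOpen S ∧ S.OrdConnected ∧
      ∀ z ∈ ball (0 : ℂ) 1, Λ (A z) = Λ z + 2 * Real.pi * Complex.I := by
    rcases aut_fix A hA1 hb hfix with ⟨α, β, μ, hα, hβ, hne, hμ, h⟩ | ⟨α, d, hα, hd, h⟩
    · exact aut_hyp A hb α β μ hα hβ hne hμ h
    · exact aut_par A hb α d hα hd h
  obtain ⟨Λ, S, hΛ1, hΛ2, hΛ3, hS1, hS2, hΛ4⟩ := hex
  have hmem : ∀ z ∈ vst r, φ z ∈ ball (0 : ℂ) 1 := by
    intro z hz
    rw [← h3]
    exact mem_image_of_mem _ hz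
  refine ⟨fun z => Λ (φ z), S, ?_, ?_, ?_, hS1, hS2, ?_⟩
  · intro z hz
    exact MHol.comp_analytic (hΛ1.analyticAt (isOpen_ball.mem_nhds (hmem z hz))) (h1 z hz)
  · intro z hz z' hz' he
    exact h2 hz hz' (hΛ2 (hmem z hz) (hmem z' hz') he)
  · rw [← hΛ3, ← h3, image_image]
  · intro z hz
    change Λ (φ (z + c)) = Λ (φ z) + c
    rw [← hA2 z hz]
    exact hΛ4 _ (hmem z hz)

end Pool.Agent.MX018
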