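import Mathlib

/-!
# MX: uniform separation from separation at the exceptional points
-/

set_option autoImplicit false

open Topology Filter Set Metric

namespace Pool.Agent.MX018

theorem usep_aux {F : ℂ → ℂ} {E : Set ℂ} (hfin : E.Finite) (hc : ContinuousOn F Eᶜ)
    (ho : ∀ U ⊆ Eᶜ, IsOpen U → IsOpen (F '' U)) (hi : InjOn F Eᶜ) {x y : ℕ → ℂ} {x0 y0 : ℂ}
    (hx : Tendsto x atTop (𝓝 x0)) (hy : Tendsto y atTop (𝓝 y0)) (hxE : ∀ k, x k ∉ E)
    (hyE : ∀ k, y k ∉ E) (hne : x0 ≠ y0) (hy0 : y0 ∉ E)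
    (hF : Tendsto (fun k => dist (F (x k)) (F (y k))) atTop (𝓝 0)) : False := by
  obtain ⟨t1, ht1, hb1⟩ := Metric.isOpen_iff.mp hfin.isClosed.isOpen_compl y0 hy0
  have hd : 0 < dist x0 y0 := dist_pos.mpr hne
  set t : ℝ := min t1 (dist x0 y0 / 2) with ht
  have ht0 : 0 < t := lt_min ht1 (by linarith)
  have htb : ball y0 t ⊆ Eᶜ := (ball_subset_ball (min_le_left _ _)).trans hb1
  have ht2 : t ≤ dist x0 y0 / 2 := min_le_right _ _
  have hop : IsOpen (F '' ball y0 t) := ho _ htb isOpen_ball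
  obtain ⟨ρ, hρ, hρb⟩ := Metric.isOpen_iff.mp hop (F y0)
    (mem_image_of_mem _ (mem_ball_self ht0))
  have hFy : Tendsto (fun k => F (y k)) atTop (𝓝 (F y0)) := by
    have h1 : Tendsto y atTop (𝓝[Eᶜ] y0) :=
      tendsto_nhdsWithin_iff.mpr ⟨hy, Eventually.of_forall hyE⟩
    exact (hc y0 hy0).tendsto.comp h1
  have e1 : ∀ᶠ k in atTop, dist (F (y k)) (F y0) < ρ / 2 :=
    (Metric.tendsto_nhds.mp hFy) _ (by linarith)
  have e2 : ∀ᶠ k in atTop, dist (F (x k)) (F (y k)) < ρ / 2 :=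
    hF.eventually_lt_const (by linarith)
  have e3 : ∀ᶠ k in atTop, dist (x k) x0 < t := (Metric.tendsto_nhds.mp hx) _ ht0
  obtain ⟨k, h1, h2, h3⟩ := (e1.and (e2.and e3)).exists
  have h4 : F (x k) ∈ ball (F y0) ρ := by
    rw [mem_ball]
    have := dist_triangle (F (x k)) (F (y k)) (F y0)
    linarith
  obtain ⟨z, hz, hzx⟩ := hρb h4
  have h5 : z = x k := hi (htb hz) (hxE k) hzx
  rw [h5, mem_ball] at hz
  have := dist_triangle_left x0 y0 (x k)
  linarith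

/-- Uniform separation.
PROOF. Suppose not: there are `η > 0` and sequences `x_k, y_k ∉ E`, `dist x_k y_k ≥ η`,
`dist (F x_k) (F y_k) → 0`. If `x_k` is unbounded then along a subsequence `‖x_k‖ → ∞`, and
`‖F x_k - x_k‖ → 0`; also `‖F y_k‖ → ∞`, so by the bound `B` `‖y_k‖ → ∞` and
`‖F y_k - y_k‖ → 0`; then `dist (F x_k) (F y_k) ≥ η - o(1)`, a contradiction. So `x_k`, and in the
same way `y_k`, are bounded; pass to a subsequence with `x_k → x`, `y_k → y`, `dist x y ≥ η`,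
`x ≠ y`. If `y ∉ E`: choose `t > 0` with `ball y t ⊆ Eᶜ` (`E` is finite, so closed) and
`x ∉ closedBall y t`; `F '' ball y t` is open and contains `F y`, so it contains `ball (F y) ρ`;
for large `k`: `x_k ∉ ball y t`, so by injectivity `F x_k ∉ ball (F y) ρ`, but
`F y_k → F y` (continuity) and `dist (F x_k) (F y_k) → 0`, a contradiction. The same if `x ∉ E`.
If `x, y ∈ E`: `hE`. -/
theorem usep {F : ℂ → ℂ} {E : Set ℂ} (hfin : E.Finite) (hc : ContinuousOn F Eᶜ)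
    (ho : ∀ U ⊆ Eᶜ, IsOpen U → IsOpen (F '' U)) (hi : InjOn F Eᶜ)
    (hinf : Tendsto (fun z => F z - z) (cocompact ℂ) (𝓝 0)) {B : ℝ}
    (hB : ∀ z ∉ E, ‖F z - z‖ ≤ B)
    (hE : ∀ e ∈ E, ∀ e' ∈ E, e ≠ e' → ∃ δ > 0, ∃ U ∈ 𝓝 e, ∃ U' ∈ 𝓝 e',
      ∀ x ∈ U, x ∉ E → ∀ y ∈ U', y ∉ E → δ ≤ dist (F x) (F y)) :
    ∀ η > 0, ∃ δ > 0, ∀ x ∉ E, ∀ y ∉ E, η ≤ dist x y → δ ≤ dist (F x) (F y) := by
  intro η hη
  by_contra hcon
  push Not at hcon
  -- far away
  obtain ⟨R, hR⟩ : ∃ R : ℝ, ∀ z : ℂ, R < ‖z‖ → ‖F z - z‖ < η / 4 := by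
    have h1 : ∀ᶠ z in cocompact ℂ, ‖F z - z‖ < η / 4 := by
      have := (Metric.tendsto_nhds.mp hinf) (η / 4) (by linarith)
      simpa [dist_zero_right] using this
    rw [← Metric.cobounded_eq_cocompact] at h1
    obtain ⟨R, hR⟩ := (Metric.hasBasis_cobounded_compl_closedBall (0 : ℂ)).eventually_iff.mp h1
    refine ⟨R, fun z hz => hR.2 ?_⟩
    simpa using hz
  have far : ∀ x ∉ E, ∀ y ∉ E, η ≤ dist x y → dist (F x) (F y) < min 1 (η / 2) →
      ‖x‖ ≤ R + 2 * B + 1 := by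
    intro x hx y hy hxy hF
    by_contra hcon
    push Not at hcon
    have h1 := hF.trans_le (min_le_left _ _)
    have h2 := hF.trans_le (min_le_right _ _)
    have hBx := hB x hx
    have hBy := hB y hy
    have hB0 : 0 ≤ B := (norm_nonneg _).trans hBx
    have h3 : ‖x‖ ≤ ‖F x - F y‖ + ‖F x - x‖ + ‖F y - y‖ + ‖y‖ := by
      have e : x = (F x - F y) - (F x - x) + (F y - y) + y := by ring
      calc ‖x‖ = ‖(F x - F y) - (F x - x) + (F y - y) + y‖ := by rw [← e]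
        _ ≤ ‖(F x - F y) - (F x - x) + (F y - y)‖ + ‖y‖ := norm_add_le _ _
        _ ≤ ‖(F x - F y) - (F x - x)‖ + ‖F y - y‖ + ‖y‖ := by gcongr; exact norm_add_le _ _
        _ ≤ _ := by gcongr; exact norm_sub_le _ _
    rw [← dist_eq_norm] at h3
    have h4 : R < ‖y‖ := by linarith
    have h5 : R < ‖x‖ := by linarith
    have h6 := hR x h5
    have h7 := hR y h4
    have h8 : dist x y ≤ dist (F x) (F y) + ‖F x - x‖ + ‖F y - y‖ := by
      rw [dist_eq_norm, dist_eq_norm]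
      have e : x - y = (F x - F y) - (F x - x) + (F y - y) := by ring
      calc ‖x - y‖ = ‖(F x - F y) - (F x - x) + (F y - y)‖ := by rw [← e]
        _ ≤ ‖(F x - F y) - (F x - x)‖ + ‖F y - y‖ := norm_add_le _ _
        _ ≤ _ := by gcongr; exact norm_sub_le _ _
    linarith
  have hm0 : (0 : ℝ) < min 1 (η / 2) := lt_min one_pos (by linarith)
  have hsel : ∀ k : ℕ, ∃ x y : ℂ, x ∉ E ∧ y ∉ E ∧ η ≤ dist x y ∧
      dist (F x) (F y) < min (min 1 (η / 2)) (1 / ((k : ℝ) + 1)) := by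
    intro k
    obtain ⟨x, hx, y, hy, h1, h2⟩ := hcon (min (min 1 (η / 2)) (1 / ((k : ℝ) + 1)))
      (lt_min hm0 (by positivity))
    exact ⟨x, y, hx, hy, h1, h2⟩
  choose x y hx hy hxy hF using hsel
  have hbx : ∀ k, x k ∈ closedBall (0 : ℂ) (R + 2 * B + 1) := by
    intro k
    rw [mem_closedBall_zero_iff]
    exact far _ (hx k) _ (hy k) (hxy k) ((hF k).trans_le (min_le_left _ _))
  have hby : ∀ k, y k ∈ closedBall (0 : ℂ) (R + 2 * B + 1) := by
    intro k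
    rw [mem_closedBall_zero_iff]
    refine far _ (hy k) _ (hx k) (by rw [dist_comm]; exact hxy k) ?_
    rw [dist_comm]
    exact (hF k).trans_le (min_le_left _ _)
  obtain ⟨x0, -, φ, hφ, hx0⟩ := (isCompact_closedBall (0 : ℂ) (R + 2 * B + 1)).tendsto_subseq hbx
  obtain ⟨y0, -, φ', hφ', hy0⟩ := (isCompact_closedBall (0 : ℂ) (R + 2 * B + 1)).tendsto_subseq
    (fun k => hby (φ k))
  have hx1 : Tendsto (fun k => x (φ (φ' k))) atTop (𝓝 x0) := hx0.comp hφ'.tendsto_atTop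
  have hy1 : Tendsto (fun k => y (φ (φ' k))) atTop (𝓝 y0) := hy0
  have hd : η ≤ dist x0 y0 :=
    ge_of_tendsto (hx1.dist hy1) (Eventually.of_forall fun k => hxy _)
  have hne : x0 ≠ y0 := by
    intro he
    rw [he, dist_self] at hd
    linarith
  have hF0 : Tendsto (fun k => dist (F (x k)) (F (y k))) atTop (𝓝 0) := by
    refine squeeze_zero (fun k => dist_nonneg) (fun k => ((hF k).trans_le (min_le_right _ _)).le) ?_
    exact tendsto_one_div_add_atTop_nhds_zero_nat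
  have hF1 : Tendsto (fun k => dist (F (x (φ (φ' k)))) (F (y (φ (φ' k))))) atTop (𝓝 0) :=
    hF0.comp ((hφ.comp hφ').tendsto_atTop)
  by_cases hyE : y0 ∈ E
  · by_cases hxE : x0 ∈ E
    · obtain ⟨δ, hδ, U, hU, U', hU', hsep⟩ := hE x0 hxE y0 hyE hne
      have e1 : ∀ᶠ k in atTop, x (φ (φ' k)) ∈ U := hx1 hU
      have e2 : ∀ᶠ k in atTop, y (φ (φ' k)) ∈ U' := hy1 hU'
      have e3 : ∀ᶠ k in atTop, dist (F (x (φ (φ' k)))) (F (y (φ (φ' k)))) < δ :=
        hF1.eventually_lt_const hδ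
      obtain ⟨k, h1, h2, h3⟩ := (e1.and (e2.and e3)).exists
      exact absurd (hsep _ h1 (hx _) _ h2 (hy _)) (not_le.mpr h3)
    · refine usep_aux hfin hc ho hi hy1 hx1 (fun k => hy _) (fun k => hx _) hne.symm hxE ?_
      simpa only [dist_comm] using hF1
  · exact usep_aux hfin hc ho hi hx1 hy1 (fun k => hx _) (fun k => hy _) hne hyE hF1

end Pool.Agent.MX018
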