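import Pool.Agent.Lib.MP_018119_an_MX.StripMap
import Pool.Agent.Lib.MP_018119_an_MX.StripLam
import Pool.Agent.Lib.MP_018119_an_MX.Nrm
import Pool.Agent.Lib.MP_018119_an_MX.LimCa
import Pool.Agent.Lib.MP_018119_an_MX.LimCb
import Pool.Agent.Lib.MP_018119_an_MX.LimDb
import Pool.Agent.Lib.MP_018119_an_MX.LimDc
import Pool.Agent.Lib.MP_018119_an_MX.LimF
import Pool.Agent.Lib.MP_018119_an_MX.USep

/-!
# MX: the gate lemma
-/

set_option autoImplicit false

open Topology Filter Set Metric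

namespace Pool.Agent.MX018

private theorem GateL_swap (p q w : ℂ) : lv p q w = -lv q p w := by
  unfold lv
  rw [← Real.log_inv, ← norm_inv, inv_div]

private theorem GateL_near {p q : ℂ} (hne : p ≠ q) :
    ∀ᶠ w in 𝓝 p, w ≠ p → lv p q w < -1 := by
  have h0 : p - q ≠ 0 := sub_ne_zero.2 hne
  have h1 : Tendsto (fun w : ℂ => ‖(w - p) / (w - q)‖) (𝓝 p) (𝓝 0) := by
    have h2 : ContinuousAt (fun w : ℂ => ‖(w - p) / (w - q)‖) p := by
      refine ContinuousAt.norm (ContinuousAt.div ?_ ?_ h0)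
      · fun_prop
      · fun_prop
    have h3 := h2.tendsto
    simpa using h3
  filter_upwards [h1.eventually_lt_const (Real.exp_pos (-1)), isOpen_ne.mem_nhds hne]
    with w hw hwq hwp
  have h4 : 0 < ‖(w - p) / (w - q)‖ := by
    rw [norm_pos_iff]
    exact div_ne_zero (sub_ne_zero.2 hwp) (sub_ne_zero.2 hwq)
  have h5 := Real.log_lt_log h4 hw
  rw [Real.log_exp] at h5
  exact h5

/-- approximate solutions -/
private theorem GateL_app {p q : ℂ} {J N : Set ℂ} {ψ : ℂ → ℂ} (hg : Gate p q J N ψ) (j : ℕ) :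
    ∃ r : ℝ, (j : ℝ) < r ∧ ∃ Φ : ℂ → ℂ, GApp p q J ψ r Φ := by
  obtain ⟨x₀, hx₀, hC⟩ := gateM_radius hg j
  have hr : 0 < x₀.re := lt_of_le_of_lt (Nat.cast_nonneg j) hx₀
  obtain ⟨φ, h1, h2, h3⟩ := strip_map (gateM hg) x₀.re hr x₀ rfl hC
  obtain ⟨Λ, S, k1, k2, k3, k4, k5, k6⟩ := strip_lam (gateM_per hg) hr h1 h2 h3
  obtain ⟨Ψ, v₀, hΨ⟩ := exists_pre hg hr k1 k2 k3 k4 k5 k6
  obtain ⟨Φ, hΦ⟩ := exists_app hg hr hΨ
  exact ⟨x₀.re, hx₀, Φ, hΦ⟩

/-- The gluing problem of a gate has a solution.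
PROOF (assembly). For every `M > 0` there is `x₀ ∉ (gateM hg).C` with `M < x₀.re`
(`gateM_radius`); `strip_map`, `strip_lam` (`gateM_per`), `exists_pre`, `exists_app` give
`Φ` with `GApp p q J ψ x₀.re Φ`. Choose a sequence `r j → ∞`, and let `σ`, `Φ'` be given by
`exists_limit`; replace the sequence by the subsequence. `limit_bound`, `limit_inj`, `limit_open`,
`WHol.continuousAt`, `limit_sep` (with `B = 10 (ρ + 1)`, `app_bound`). `sep` of `GMap` is `usep` with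
`E = {p, q}`: neighbourhoods `U = {lv < -1} ∪ {p}` of `p` (it contains a small ball around `p`
since `lv p q w → -∞` as `w → p`) and `U' = {1 < lv} ∪ {q}` of `q`. -/
theorem gate_map {p q : ℂ} {J N : Set ℂ} {ψ : ℂ → ℂ} (hg : Gate p q J N ψ) :
    ∃ Φ : ℂ → ℂ, GMap p q J ψ Φ := by
  choose r0 hr0 Φ0 hΦ0 using GateL_app hg
  have hr0t : Tendsto r0 atTop atTop :=
    tendsto_atTop_mono (fun j => (hr0 j).le) tendsto_natCast_atTop_atTop
  obtain ⟨σ, Φ', hσ, hu, hw⟩ := exists_limit hg hr0t hΦ0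
  have hr : Tendsto (fun j => r0 (σ j)) atTop atTop := hr0t.comp hσ.tendsto_atTop
  have h : ∀ j, GApp p q J ψ (r0 (σ j)) (Φ0 (σ j)) := fun j => hΦ0 (σ j)
  have hl : ∀ w, w ≠ p → w ≠ q → Tendsto (fun j => Φ0 (σ j) w) atTop (𝓝 (Φ' w)) := by
    intro w hp hq
    obtain ⟨U, hU, hUu⟩ := hu w hp hq
    exact hUu.tendsto_at (mem_of_mem_nhds hU)
  obtain ⟨hinf, hbd⟩ := limit_bound hg hr h hl
  have hi := limit_inj hg hr h hu hw hinf
  have ho : ∀ U ⊆ ({p, q}ᶜ : Set ℂ), IsOpen U → IsOpen (Φ' '' U) := fun U hU hUo =>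
    limit_open hg hw hi hU hUo
  have hmem : ∀ w : ℂ, w ∈ ({p, q}ᶜ : Set ℂ) → w ≠ p ∧ w ≠ q := by
    intro w hw'
    rw [mem_compl_iff, mem_insert_iff, mem_singleton_iff, not_or] at hw'
    exact hw'
  have hc : ContinuousOn Φ' ({p, q} : Set ℂ)ᶜ := by
    intro w hw'
    obtain ⟨h1, h2⟩ := hmem w hw'
    exact (WHol.continuousAt hg h1 h2 (hw w h1 h2)).continuousWithinAt
  obtain ⟨ρ, hρ⟩ := hg.cpt.isBounded.subset_closedBall (0 : ℂ)
  have hB : ∀ᶠ j in atTop, ∀ w ∈ ann p q (r0 (σ j)), ‖Φ0 (σ j) w - w‖ ≤ 10 * (ρ + 1) := by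
    filter_upwards [hr.eventually_gt_atTop (Real.log ((ρ + 1 + ρ) / (ρ + 1 - ρ)))] with j hj
    exact (app_bound hg (h j) hρ (lt_add_one ρ) hj).2.1
  obtain ⟨δ, hδ, hsep⟩ := limit_sep hg.ne hr h hu hc hi ho hB
  have hq' : ∀ᶠ w in 𝓝 q, w ≠ q → 1 < lv p q w := by
    filter_upwards [GateL_near hg.ne.symm] with w h1 h2
    have h3 := h1 h2
    rw [GateL_swap]
    linarith
  have hus := usep (F := Φ') (E := {p, q}) (Set.toFinite _) hc ho hi hinf (B := 10 * ρ)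
    (fun z hz => by
      obtain ⟨h1, h2⟩ := hmem z hz
      exact hbd 0 ρ hρ z h1 h2) (by
    intro e he e' he' hee
    rw [mem_insert_iff, mem_singleton_iff] at he he'
    rcases he with rfl | rfl
    · rcases he' with rfl | rfl
      · exact absurd rfl hee
      · refine ⟨δ, hδ, _, GateL_near hg.ne, _, hq', ?_⟩
        intro x hx hxE y hy hyE
        obtain ⟨x1, x2⟩ := hmem x hxE
        obtain ⟨y1, y2⟩ := hmem y hyE
        rw [dist_eq_norm]
        exact hsep x y x1 x2 y1 y2 (hx x1) (hy y2)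
    · rcases he' with rfl | rfl
      · refine ⟨δ, hδ, _, hq', _, GateL_near hg.ne, ?_⟩
        intro x hx hxE y hy hyE
        obtain ⟨x1, x2⟩ := hmem x hxE
        obtain ⟨y1, y2⟩ := hmem y hyE
        rw [dist_comm, dist_eq_norm]
        exact hsep y x y1 y2 x1 x2 (hy y1) (hx x2)
      · exact absurd rfl hee)
  exact ⟨Φ', hw, hc, ho, hus, hinf, hbd⟩

end Pool.Agent.MX018
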