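import Pool.Agent.Lib.MP_018119_an_MX.Defs

/-!
# MX: the gate data of a state
-/

set_option autoImplicit false

open Topology Filter Set Metric

namespace Pool.Agent.MX018

/-- PROOF. `sep`. -/
theorem St.injOn {F : ℂ → ℂ} {E K : Set ℂ} (h : St F E K) : InjOn F Eᶜ := by
  intro x hx y hy hxy
  by_contra hne
  obtain ⟨δ, hδ, h1⟩ := h.sep (dist x y) (dist_pos.2 hne)
  have h2 := h1 x hx y hy le_rfl
  rw [hxy, dist_self] at h2
  linarith

/-- The gate data of a state.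
PROOF. `V = (K \ G)ᶜ` is open (`GG.cl`), contains `G` and is disjoint from `E` (`E ⊆ K`, `E`
disjoint from `G`); let `ψ` be `Function.invFunOn F V` (left inverse of `F` on `V`, `F` is injective
off `E`, `St.injOn`). `J = F '' (G ∪ {p, q})` is compact (`F` is continuous on `Eᶜ`, which contains
the compact set `G ∪ {p, q}`); it has empty interior: otherwise `{z ∈ Eᶜ | F z ∈ interior J}` is an
open subset of `G ∪ {p, q}` (injectivity), nonempty. `N = F '' V` is open; `F p ∉ N`, since `p ∉ V`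
(`p ∈ K \ G`), `p ∉ E`. `J \ {F p, F q} = F '' G ⊆ N`. `ψ` is continuous on `N` and open (since `F` is
an open map and continuous, respectively, on `V`), injective. On `N \ J = F '' (V \ (G ∪ {p, q}))`
(note `V \ G ⊆ Kᶜ`) it is holomorphic: `F` is holomorphic and injective on the open set `Kᶜ`, with
nonvanishing derivative (`Pool.Agent.Lib.MP_1f4a82_an.deriv_ne_zero_of_injOn`), so its inverse is
holomorphic (`holAt_leftInverse` of Lib/MP_1f4a82_an/Basic.lean for the plane). -/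
theorem gate_of_st {F : ℂ → ℂ} {E K G : Set ℂ} {p q : ℂ} (hS : St F E K) (hG : GG E K G p q) :
    ∃ ψ : ℂ → ℂ, (∀ z ∈ (K \ G)ᶜ, ψ (F z) = z) ∧
      Gate (F p) (F q) (F '' (G ∪ {p, q})) (F '' (K \ G)ᶜ) ψ := by
  classical
  have hinj := hS.injOn
  have hGE : G ∪ {p, q} ⊆ Eᶜ := fun z hz hzE => disjoint_left.1 hG.dis hz hzE
  have hVo : IsOpen (K \ G)ᶜ := hG.cl.isOpen_compl
  have hVE : (K \ G)ᶜ ⊆ Eᶜ := by
    intro z hz hzE
    exact hz ⟨hS.sub hzE, fun hzG => hGE (Or.inl hzG) hzE⟩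
  have hEo : IsOpen Eᶜ := hS.fin.isClosed.isOpen_compl
  have hpE : p ∈ Eᶜ := hGE (Or.inr (Or.inl rfl))
  have hqE : q ∈ Eᶜ := hGE (Or.inr (Or.inr rfl))
  have hinjV : InjOn F (K \ G)ᶜ := hinj.mono hVE
  have hψ : ∀ z ∈ (K \ G)ᶜ, Function.invFunOn F (K \ G)ᶜ (F z) = z := fun z hz =>
    hinjV.leftInvOn_invFunOn hz
  refine ⟨Function.invFunOn F (K \ G)ᶜ, hψ, ?_⟩
  generalize Function.invFunOn F (K \ G)ᶜ = ψ at hψ
  have hNo : IsOpen (F '' (K \ G)ᶜ) := hS.opn _ hVE hVo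
  have hcont : ContinuousOn ψ (F '' (K \ G)ᶜ) := by
    rintro w ⟨z, hz, rfl⟩
    refine ContinuousAt.continuousWithinAt ?_
    rw [ContinuousAt, hψ z hz]
    intro U hU
    have h1 : U ∩ (K \ G)ᶜ ∈ 𝓝 z := inter_mem hU (hVo.mem_nhds hz)
    obtain ⟨O, hO, hOo, hzO⟩ := _root_.mem_nhds_iff.1 h1
    have h2 : IsOpen (F '' O) := hS.opn O (fun x hx => hVE (hO hx).2) hOo
    rw [mem_map]
    refine mem_of_superset (h2.mem_nhds ⟨z, hzO, rfl⟩) ?_
    rintro _ ⟨x, hx, rfl⟩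
    change ψ (F x) ∈ U
    rw [hψ x (hO hx).2]
    exact (hO hx).1
  refine
    { ne := fun h => hG.ne (hinj hpE hqE h)
      cpt := hG.cpt.image_of_continuousOn (hS.cont.mono hGE)
      pJ := ⟨p, Or.inr (Or.inl rfl), rfl⟩
      qJ := ⟨q, Or.inr (Or.inr rfl), rfl⟩
      int := ?_
      openN := hNo
      sub := ?_
      pN := ?_
      qN := ?_
      cont := hcont
      inj := ?_
      opn := ?_
      hol := ?_ }
  · have h1 : IsOpen (Eᶜ ∩ F ⁻¹' interior (F '' (G ∪ {p, q}))) :=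
      hS.cont.isOpen_inter_preimage hEo isOpen_interior
    have h2 : Eᶜ ∩ F ⁻¹' interior (F '' (G ∪ {p, q})) ⊆ G ∪ {p, q} := by
      rintro z ⟨hz, hz'⟩
      obtain ⟨w, hw, hwz⟩ := interior_subset hz'
      have h3 : w = z := hinj (hGE hw) hz hwz
      rw [← h3]
      exact hw
    have h4 : Eᶜ ∩ F ⁻¹' interior (F '' (G ∪ {p, q})) ⊆ interior (G ∪ {p, q}) :=
      interior_maximal h2 h1
    rw [hG.int] at h4
    rw [eq_empty_iff_forall_notMem]
    intro y hy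
    obtain ⟨w, hw, rfl⟩ := interior_subset hy
    exact h4 ⟨hGE hw, hy⟩
  · rintro _ ⟨⟨z, hz, rfl⟩, hne⟩
    rcases hz with hz | hz | hz
    · exact ⟨z, fun h => h.2 hz, rfl⟩
    · exact absurd (Or.inl (by rw [hz])) hne
    · exact absurd (Or.inr (by rw [hz]; rfl)) hne
  · rintro ⟨z, hz, hzp⟩
    have h1 : z = p := hinj (hVE hz) hpE hzp
    rw [h1] at hz
    exact hz ⟨hG.pK, hG.pG⟩
  · rintro ⟨z, hz, hzq⟩
    have h1 : z = q := hinj (hVE hz) hqE hzq
    rw [h1] at hz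
    exact hz ⟨hG.qK, hG.qG⟩
  · rintro _ ⟨z, hz, rfl⟩ _ ⟨z', hz', rfl⟩ h
    rw [hψ z hz, hψ z' hz'] at h
    rw [h]
  · intro U hU hUo
    have h1 : ψ '' U = (K \ G)ᶜ ∩ F ⁻¹' U := by
      ext z
      constructor
      · rintro ⟨y, hy, rfl⟩
        obtain ⟨x, hx, rfl⟩ := hU hy
        rw [hψ x hx]
        exact ⟨hx, hy⟩
      · rintro ⟨hz, hz'⟩
        exact ⟨F z, hz', hψ z hz⟩
    rw [h1]
    exact (hS.cont.mono hVE).isOpen_inter_preimage hVo hUo
  · rintro w ⟨hw, hwJ⟩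
    obtain ⟨z, hz, rfl⟩ := hw
    have hzK : z ∈ Kᶜ := by
      intro hzK
      refine hz ⟨hzK, fun hzG => hwJ ⟨z, Or.inl hzG, rfl⟩⟩
    have hKo : IsOpen Kᶜ := hS.cpt.isClosed.isOpen_compl
    have hKn : Kᶜ ∈ 𝓝 z := hKo.mem_nhds hzK
    have han : AnalyticAt ℂ F z := hS.hol.analyticAt hKn
    have hd : deriv F z ≠ 0 := Pool.Agent.Lib.MP_1f4a82_an.deriv_ne_zero_of_injOn han hKn
      (hinj.mono fun x hx hxE => hx (hS.sub hxE))
    have hwn : F '' (K \ G)ᶜ ∈ 𝓝 (F z) := hNo.mem_nhds ⟨z, hz, rfl⟩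
    refine (HasDerivAt.of_local_left_inverse (f := F) (f' := deriv F z)
      (hcont.continuousAt hwn) ?_ hd ?_).differentiableAt.differentiableWithinAt
    · rw [hψ z hz]
      exact han.differentiableAt.hasDerivAt
    · filter_upwards [hwn] with y hy
      obtain ⟨x, hx, rfl⟩ := hy
      rw [hψ x hx]

end Pool.Agent.MX018
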