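import Pool.Agent.Lib.MP_018119_an_MX.ArcInt

/-!
# MX: the limit of the tower
-/

set_option autoImplicit false

open Topology Filter Set Metric

namespace Pool.Agent.MX018

/-- PROOF. `ε (n + k) ≤ ε n / 2 ^ k`, geometric series. -/
theorem eps_sum {ε : ℕ → ℝ} (hpos : ∀ n, 0 < ε n) (hhalf : ∀ n, ε (n + 1) ≤ ε n / 2) :
    Summable ε ∧ ∀ n, ∑' k, ε (n + k) ≤ 2 * ε n := by
  have h1 : ∀ n k, ε (n + k) ≤ ε n * (1 / 2) ^ k := by
    intro n k
    induction k with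
    | zero => simp
    | succ k ih =>
      have h2 := hhalf (n + k)
      rw [← add_assoc, pow_succ]
      linarith
  have hg : ∀ n, Summable fun k : ℕ => ε n * (1 / 2 : ℝ) ^ k := fun n =>
    (summable_geometric_of_lt_one (by norm_num) (by norm_num)).mul_left _
  have hs : ∀ n, Summable fun k => ε (n + k) := fun n =>
    Summable.of_nonneg_of_le (fun k => (hpos _).le) (h1 n) (hg n)
  refine ⟨?_, fun n => ?_⟩
  · have h2 := hs 0
    simpa using h2
  · refine ((hs n).tsum_le_tsum (h1 n) (hg n)).trans (le_of_eq ?_)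
    rw [tsum_mul_left, tsum_geometric_of_lt_one (by norm_num) (by norm_num)]
    ring

private theorem tl_ends_mono (s t : ℕ → ℝ) (B : Set ℝ) {m n : ℕ} (h : m ≤ n) :
    ends s t B m ⊆ ends s t B n := by
  rintro x ⟨h1, k, hk, h2⟩
  exact ⟨h1, k, hk.trans_le h, h2⟩

private theorem tl_ends_sub (s t : ℕ → ℝ) (B : Set ℝ) (n : ℕ) :
    ends s t B n ⊆ endsI s t B := by
  rintro x ⟨h1, k, _, h2⟩
  exact ⟨h1, k, h2⟩

private theorem tl_gts_mono (s t : ℕ → ℝ) {m n : ℕ} (h : m ≤ n) : gts s t m ⊆ gts s t n := by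
  rintro x ⟨k, hk, h2⟩
  exact ⟨k, hk.trans_le h, h2⟩

private theorem tl_E_sub {γ : ℝ → ℂ} {Q B : Set ℝ} {F : ℕ → ℂ → ℂ} {s t ε : ℕ → ℝ} {ε₀ : ℝ}
    (h : Tower γ Q B F s t ε ε₀) (n : ℕ) :
    γ '' endsI s t B ⊆ γ '' (Icc 0 1 \ gts s t n) := by
  rintro _ ⟨x, ⟨h1, k, h2⟩, rfl⟩
  have h3 : γ x ∈ γ '' ends s t B (max (k + 1) n) :=
    ⟨x, ⟨h1, k, (Nat.lt_succ_self k).trans_le (le_max_left _ _), h2⟩, rfl⟩
  obtain ⟨y, ⟨h4, h5⟩, h6⟩ := (h.st _).sub h3
  exact ⟨y, ⟨h4, fun h7 => h5 (tl_gts_mono s t (le_max_right _ _) h7)⟩, h6⟩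

private theorem tl_exists {γ : ℝ → ℂ} (hγ : Crv γ) {s t : ℕ → ℝ} (hg : Gts s t) {z : ℂ}
    (hz : z ∉ γ '' (Icc 0 1 \ gtsI s t)) : ∃ n, z ∉ γ '' (Icc 0 1 \ gts s t n) := by
  by_cases h1 : z ∈ γ '' Icc 0 1
  · obtain ⟨x, hx, rfl⟩ := h1
    have h2 : x ∈ gtsI s t := by
      by_contra h3
      exact hz ⟨x, ⟨hx, h3⟩, rfl⟩
    obtain ⟨k, hk⟩ := h2
    refine ⟨k + 1, ?_⟩
    rintro ⟨y, ⟨hy, hy2⟩, hxy⟩
    have h3 := hg.lt k
    have h4 : x = y := crv_inj hγ ⟨h3.1.trans hk.1, hk.2.trans h3.2.2⟩ hy hxy.symm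
    rw [← h4] at hy2
    exact hy2 ⟨k, Nat.lt_succ_self k, hk⟩
  · exact ⟨0, fun h2 => h1 (image_mono sdiff_subset h2)⟩

private theorem tl_pt {γ : ℝ → ℂ} (hγ : Crv γ) {s t : ℕ → ℝ} (hg : Gts s t) (B : Set ℝ) (n : ℕ)
    {e : ℂ} (he : e = γ (s n) ∨ e = γ (t n)) : e ∉ γ '' ends s t B n := by
  rintro ⟨y, ⟨_, k, hk, h2⟩, hy⟩
  have h3 := hg.lt n
  have h4 := hg.lt k
  have h5 : y ∈ Icc (s k) (t k) := by
    rcases h2 with rfl | rfl
    · exact ⟨le_rfl, h4.2.1.le⟩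
    · exact ⟨h4.2.1.le, le_rfl⟩
  have h6 : y ∈ Icc (0 : ℝ) 1 := ⟨h4.1.le.trans h5.1, h5.2.trans h4.2.2.le⟩
  have h7 : y ∈ Icc (s n) (t n) := by
    rcases he with rfl | rfl
    · rw [← crv_inj hγ ⟨h3.1, h3.2.1.trans h3.2.2⟩ h6 hy.symm]
      exact ⟨le_rfl, h3.2.1.le⟩
    · rw [← crv_inj hγ ⟨h3.1.trans h3.2.1, h3.2.2⟩ h6 hy.symm]
      exact ⟨h3.2.1.le, le_rfl⟩
  exact (hg.dis k n hk).le_bot ⟨h5, h7⟩

/-- The limit of the tower.
PROOF. For `z ∉ γ '' endsI s t B` (so `z ∉ γ '' ends s t B n` for all `n`) the sequence `F n z` is a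
Cauchy sequence (`close`, `eps_sum`), let `G z` be its limit: `‖G z - F n z‖ ≤ 2 ε n`. `bound` is
this for `n = 0` with `zero`. `cont`: uniform limit on `(γ '' endsI s t B)ᶜ` of functions which are
continuous at its points. `sep`: given `η > 0` choose `n` with `1 / (n + 1) ≤ η`; if
`η ≤ dist x y` then `6 ε n ≤ dist (F n x) (F n y)`, so `2 ε n ≤ dist (G x) (G y)`. `hol`: let
`z ∉ γ '' (Icc 0 1 \ gtsI s t)`. Then `z ∉ γ '' (Icc 0 1 \ gts s t n)` for some `n`: otherwise, as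
these are decreasing compact sets..., precisely: if `z ∉ γ '' Icc 0 1` take `n = 0`; if `z = γ x`,
`x ∈ Icc 0 1`, then `x ∈ gtsI s t`, so `x ∈ gts s t n` for some `n`, and `γ y = γ x` with
`y ∈ Icc 0 1` implies `y = x` (`crv_inj`, `x ∈ Ioo 0 1`). The complement `O` of the compact set
`γ '' (Icc 0 1 \ gts s t n)` is an open neighbourhood of `z` on which all `F m`, `m ≥ n`, are
holomorphic (`gts` is increasing), `O` is disjoint from `γ '' endsI s t B`
(`St.sub` for all `m ≥ n`: `γ '' ends s t B m ⊆ γ '' (Icc 0 1 \ gts s t m)`), and the convergence is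
uniform: `TendstoLocallyUniformlyOn.differentiableOn`. `inf`: given `e > 0` choose `n` with
`2 ε n < e / 2`, `St.inf` for `F n`; the exceptional points are in the compact set
`γ '' Icc 0 1`, so eventually `z` is not one of them. `osc`: `F n` is continuous at `γ (s n)`, `γ (t n)` (these points
are not in the finite set `γ '' ends s t B n`, by `crv_inj` and the disjointness of the gates), so
near the point `‖F n x - F n y‖ ≤ 2 ε n`, and `‖G x - F n x‖ ≤ 2 ε n`. -/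
theorem tower_limit {γ : ℝ → ℂ} (hγ : Crv γ) {Q B : Set ℝ} {F : ℕ → ℂ → ℂ} {s t ε : ℕ → ℝ} {ε₀ : ℝ}
    (h : Tower γ Q B F s t ε ε₀) :
    ∃ G : ℂ → ℂ, ContinuousOn G (γ '' endsI s t B)ᶜ ∧
      (∀ η > 0, ∃ δ > 0, ∀ x ∉ γ '' endsI s t B, ∀ y ∉ γ '' endsI s t B, η ≤ dist x y →
        δ ≤ dist (G x) (G y)) ∧
      DifferentiableOn ℂ G (γ '' (Icc 0 1 \ gtsI s t))ᶜ ∧
      Tendsto (fun z => G z - z) (cocompact ℂ) (𝓝 0) ∧
      (∀ z ∉ γ '' endsI s t B, ‖G z - F 0 z‖ ≤ ε₀) ∧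
      ∀ n, ∀ e, (e = γ (s n) ∨ e = γ (t n)) → ∃ U ∈ 𝓝 e, ∀ x ∈ U, ∀ y ∈ U,
        x ∉ γ '' endsI s t B → y ∉ γ '' endsI s t B → dist (G x) (G y) ≤ 6 * ε n := by
  obtain ⟨hsum, htail⟩ := eps_sum h.pos h.half
  have hlim : ∀ z : ℂ, ∃ w : ℂ, z ∉ γ '' endsI s t B → ∀ n, dist (F n z) w ≤ 2 * ε n := by
    intro z
    by_cases hz : z ∈ γ '' endsI s t B
    · exact ⟨0, fun h1 => absurd hz h1⟩
    · have hd : ∀ n, dist (F n z) (F n.succ z) ≤ ε n := by
        intro n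
        rw [dist_comm, dist_eq_norm]
        exact h.close n z fun h1 => hz (image_mono (tl_ends_sub s t B (n + 1)) h1)
      obtain ⟨w, hw⟩ := cauchySeq_tendsto_of_complete (cauchySeq_of_dist_le_of_summable ε hd hsum)
      exact ⟨w, fun _ n => (dist_le_tsum_of_dist_le_of_tendsto ε hd hsum hw n).trans (htail n)⟩
  choose G hG using hlim
  have h0 : Tendsto ε atTop (𝓝 0) := hsum.tendsto_atTop_zero
  have hU : TendstoUniformlyOn F G atTop (γ '' endsI s t B)ᶜ := by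
    rw [Metric.tendstoUniformlyOn_iff]
    intro e he
    have h1 : ∀ᶠ n in atTop, ε n < e / 2 := h0.eventually (gt_mem_nhds (by linarith))
    filter_upwards [h1] with n hn z hz
    rw [dist_comm]
    have := hG z hz n
    linarith
  refine ⟨G, ?_, ?_, ?_, ?_, ?_, ?_⟩
  · refine hU.continuousOn (Filter.Eventually.frequently (Eventually.of_forall fun n => ?_))
    exact (h.st n).cont.mono (compl_subset_compl.2 (image_mono (tl_ends_sub s t B n)))
  · intro η hη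
    obtain ⟨n, hn⟩ := exists_nat_one_div_lt hη
    refine ⟨2 * ε n, by have := h.pos n; positivity, fun x hx y hy hxy => ?_⟩
    have h1 := h.sep n x (fun h1 => hx (image_mono (tl_ends_sub s t B n) h1)) y
      (fun h1 => hy (image_mono (tl_ends_sub s t B n) h1)) (hn.le.trans hxy)
    have h2 := hG x hx n
    have h3 := hG y hy n
    have h4 := dist_triangle4 (F n x) (G x) (G y) (F n y)
    rw [dist_comm (G y) (F n y)] at h4
    linarith
  · intro z hz
    obtain ⟨n, hn⟩ := tl_exists hγ h.g hz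
    have hO : IsOpen (γ '' (Icc 0 1 \ gts s t n))ᶜ := (h.st n).cpt.isClosed.isOpen_compl
    have hsub : (γ '' (Icc 0 1 \ gts s t n))ᶜ ⊆ (γ '' endsI s t B)ᶜ :=
      compl_subset_compl.2 (tl_E_sub h n)
    have hd : DifferentiableOn ℂ G (γ '' (Icc 0 1 \ gts s t n))ᶜ := by
      refine (hU.mono hsub).tendstoLocallyUniformlyOn.differentiableOn ?_ hO
      filter_upwards [eventually_ge_atTop n] with m hm
      exact (h.st m).hol.mono (compl_subset_compl.2
        (image_mono (sdiff_subset_sdiff_right (tl_gts_mono s t hm))))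
    exact (hd.differentiableAt (hO.mem_nhds hn)).differentiableWithinAt
  · rw [Metric.tendsto_nhds]
    intro e he
    obtain ⟨n, hn⟩ : ∃ n, ε n < e / 4 := (h0.eventually (gt_mem_nhds (by linarith))).exists
    have h1 := (Metric.tendsto_nhds.1 (h.st n).inf) (e / 2) (by linarith)
    have h2 : ∀ᶠ z in cocompact ℂ, z ∉ γ '' (Icc 0 1 \ gts s t n) :=
      (h.st n).cpt.compl_mem_cocompact
    filter_upwards [h1, h2] with z hz1 hz2
    have h3 := hG z (fun h4 => hz2 (tl_E_sub h n h4)) n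
    rw [dist_zero_right] at hz1 ⊢
    have h5 : G z - z = (G z - F n z) + (F n z - z) := by ring
    rw [h5]
    refine (norm_add_le _ _).trans_lt ?_
    rw [← dist_eq_norm, dist_comm]
    linarith
  · intro z hz
    have h1 := hG z hz 0
    have h2 := h.zero
    rw [← dist_eq_norm, dist_comm]
    linarith
  · intro n e he
    have h1 : ContinuousAt (F n) e :=
      (h.st n).cont.continuousAt ((h.st n).fin.isClosed.isOpen_compl.mem_nhds
        (tl_pt hγ h.g B n he))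
    refine ⟨F n ⁻¹' ball (F n e) (ε n), h1.preimage_mem_nhds (ball_mem_nhds _ (h.pos n)), ?_⟩
    intro x hx y hy hxE hyE
    have h2 : dist (F n x) (F n e) < ε n := hx
    have h3 : dist (F n y) (F n e) < ε n := hy
    have h4 := hG x hxE n
    have h5 := hG y hyE n
    have h6 := dist_triangle4 (G x) (F n x) (F n y) (G y)
    have h7 := dist_triangle_right (F n x) (F n y) (F n e)
    rw [dist_comm (G x) (F n x)] at h6
    linarith

end Pool.Agent.MX018
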