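import Pool.Agent.Lib.MP_018119_an_MX.Defs

/-!
# MX: parametrization of arcs and curves
-/

set_option autoImplicit false

open Topology Filter Set Metric

namespace Pool.Agent.MX018

/-- PROOF. First case: `Crv γ`, with `γ 1 ∉ γ '' Ico 0 1` by injectivity. Second case: compose with
`x ↦ Circle.exp (2 π x)` (a continuous bijection from `Ico 0 1` to the circle, `1 ↦ 1`). -/
theorem crv_of {C : Set ℂ}
    (hC : (∃ γ : ℝ → ℂ, ContinuousOn γ (Icc 0 1) ∧ InjOn γ (Icc 0 1) ∧ C = γ '' Icc 0 1) ∨
        (∃ γ : Circle → ℂ, Continuous γ ∧ Function.Injective γ ∧ C = range γ)) :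
    ∃ γ : ℝ → ℂ, Crv γ ∧ C = γ '' Icc 0 1 := by
  rcases hC with ⟨γ, hc, hi, rfl⟩ | ⟨γ, hc, hi, rfl⟩
  · refine ⟨γ, ⟨hc, hi.mono Ico_subset_Icc_self, Or.inr ?_⟩, rfl⟩
    rintro ⟨x, hx, he⟩
    have h1 := hi (Ico_subset_Icc_self hx) (right_mem_Icc.2 zero_le_one) he
    have h2 := hx.2
    rw [h1] at h2
    exact lt_irrefl _ h2
  · have hpi : (0 : ℝ) < 2 * Real.pi := by positivity
    refine ⟨fun x => γ (Circle.exp (2 * Real.pi * x)), ⟨?_, ?_, Or.inl ?_⟩, ?_⟩
    · exact (hc.comp (Circle.exp.continuous.comp (continuous_const.mul continuous_id))).continuousOn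
    · intro x hx y hy he
      obtain ⟨m, hm⟩ := Circle.exp_eq_exp.1 (hi he)
      have h1 : x = y + m := by
        have h2 : 2 * Real.pi * x = 2 * Real.pi * (y + m) := by linarith
        exact mul_left_cancel₀ hpi.ne' h2
      have h3 : (m : ℝ) < 1 := by linarith [hx.2, hy.1]
      have h4 : (-1 : ℝ) < m := by linarith [hx.1, hy.2]
      have h5 : m < 1 := by exact_mod_cast h3
      have h6 : -1 < m := by exact_mod_cast h4
      have h7 : m = 0 := by omega
      rw [h1, h7]
      simp
    · simp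
    · ext z
      constructor
      · rintro ⟨w, rfl⟩
        have h1 := Complex.neg_pi_lt_arg (w : ℂ)
        have h2 := Complex.arg_le_pi (w : ℂ)
        rcases le_or_gt 0 (Complex.arg (w : ℂ)) with h | h
        · refine ⟨Complex.arg (w : ℂ) / (2 * Real.pi), ⟨by positivity, ?_⟩, ?_⟩
          · rw [div_le_one hpi]
            linarith
          · change γ (Circle.exp (2 * Real.pi * (Complex.arg (w : ℂ) / (2 * Real.pi)))) = γ w
            rw [mul_div_cancel₀ _ hpi.ne', Circle.exp_arg]
        · refine ⟨Complex.arg (w : ℂ) / (2 * Real.pi) + 1, ⟨?_, ?_⟩, ?_⟩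
          · have h3 : -1 ≤ Complex.arg (w : ℂ) / (2 * Real.pi) := by
              rw [le_div_iff₀ hpi]
              linarith
            linarith
          · have h3 : Complex.arg (w : ℂ) / (2 * Real.pi) ≤ 0 :=
              div_nonpos_of_nonpos_of_nonneg h.le hpi.le
            linarith
          · change γ (Circle.exp (2 * Real.pi * (Complex.arg (w : ℂ) / (2 * Real.pi) + 1))) = γ w
            have h4 : 2 * Real.pi * (Complex.arg (w : ℂ) / (2 * Real.pi) + 1) =
                Complex.arg (w : ℂ) + 2 * Real.pi := by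
              field_simp
            rw [h4, Circle.exp_add, Circle.exp_arg, Circle.exp_two_pi, mul_one]
      · rintro ⟨x, -, rfl⟩
        exact ⟨_, rfl⟩

end Pool.Agent.MX018
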