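import Pool.Agent.Lib.MP_018119_an_MX.Defs

/-!
# MX: the initial state
-/

set_option autoImplicit false

open Topology Filter Set Metric

namespace Pool.Agent.MX018

/-- A homeomorphism of the plane which is holomorphic off a compact set is affine up to `o(1)`
at infinity.
PROOF. `‖f z‖ → ∞` as `‖z‖ → ∞` (homeomorphism). `k t = 1 / f (1 / t)` for small `t ≠ 0`, `k 0 = 0`:
continuous at `0`, holomorphic for small `t ≠ 0`, so holomorphic near `0` (removable singularity)
and injective near `0`, so `k' 0 ≠ 0` (`Pool.Agent.Lib.MP_1f4a82_an.deriv_ne_zero_of_injOn`). Write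
`k t = t * m t`, `m 0 = k' 0 ≠ 0`; then `f (1 / t) = (1 / m t) / t` and with `a = 1 / m 0`,
`1 / m t = a + a₁ t + o(t)`, `f z = a z + a₁ + o(1)`. -/
theorem homeo_norm (f : ℂ ≃ₜ ℂ) {C : Set ℂ} (hC : IsCompact C) (hf : DifferentiableOn ℂ f Cᶜ) :
    ∃ a b : ℂ, a ≠ 0 ∧ Tendsto (fun z => f z - (a * z + b)) (cocompact ℂ) (𝓝 0) := by
  have hto : Tendsto f (cocompact ℂ) (cocompact ℂ) := f.isClosedEmbedding.tendsto_cocompact
  have hinv0 : Tendsto (fun z : ℂ => z⁻¹) (cocompact ℂ) (𝓝 0) := by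
    rw [← Metric.cobounded_eq_cocompact]
    exact tendsto_inv₀_cobounded
  have hinv1 : Tendsto (fun t : ℂ => t⁻¹) (𝓝[≠] 0) (cocompact ℂ) := by
    rw [← Metric.cobounded_eq_cocompact]
    exact tendsto_inv₀_nhdsNE_zero
  obtain ⟨k, hk⟩ : ∃ k : ℂ → ℂ, k = fun t => if t = 0 then 0 else (f t⁻¹)⁻¹ := ⟨_, rfl⟩
  have hk0 : k 0 = 0 := by rw [hk]; simp
  have hk1 : ∀ t, t ≠ 0 → k t = (f t⁻¹)⁻¹ := by
    intro t ht
    rw [hk]
    simp only [if_neg ht]
  have h1 : ∀ᶠ t in 𝓝[≠] (0 : ℂ), t⁻¹ ∈ Cᶜ ∧ f t⁻¹ ≠ 0 := by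
    have e1 : ∀ᶠ t in 𝓝[≠] (0 : ℂ), t⁻¹ ∈ Cᶜ := hinv1.eventually hC.compl_mem_cocompact
    have e2 : ∀ᶠ t in 𝓝[≠] (0 : ℂ), f t⁻¹ ∈ ({0} : Set ℂ)ᶜ :=
      (hto.comp hinv1).eventually isCompact_singleton.compl_mem_cocompact
    exact e1.and e2
  rw [eventually_nhdsWithin_iff, Metric.eventually_nhds_iff_ball] at h1
  obtain ⟨ε, hε, h1⟩ := h1
  have hdiff : DifferentiableOn ℂ k (ball 0 ε \ {0}) := by
    rintro t ⟨ht, ht0⟩
    have ht0' : t ≠ 0 := ht0
    obtain ⟨h2, h3⟩ := h1 t ht ht0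
    have h4 : DifferentiableAt ℂ f t⁻¹ := hf.differentiableAt
      (hC.isClosed.isOpen_compl.mem_nhds h2)
    have h5 : DifferentiableAt ℂ (fun t => (f t⁻¹)⁻¹) t :=
      (h4.comp t (differentiableAt_inv ht0')).inv h3
    refine (h5.congr_of_eventuallyEq ?_).differentiableWithinAt
    filter_upwards [isOpen_ne.mem_nhds ht0'] with s hs
    exact hk1 s hs
  have hcont : ContinuousAt k 0 := by
    rw [continuousAt_iff_punctured_nhds, hk0]
    refine Tendsto.congr' ?_ (hinv0.comp (hto.comp hinv1))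
    filter_upwards [self_mem_nhdsWithin] with t ht
    exact (hk1 t ht).symm
  have hnb : ball (0 : ℂ) ε ∈ 𝓝 0 := ball_mem_nhds 0 hε
  have hkd : DifferentiableOn ℂ k (ball 0 ε) :=
    (Complex.differentiableOn_compl_singleton_and_continuousAt_iff hnb).1 ⟨hdiff, hcont⟩
  have hka : AnalyticAt ℂ k 0 := hkd.analyticAt hnb
  have hinj : InjOn k (ball 0 ε) := by
    have hz : ∀ t ∈ ball (0 : ℂ) ε, t ≠ 0 → k t ≠ 0 := by
      intro t ht ht0
      rw [hk1 t ht0]
      exact inv_ne_zero (h1 t ht ht0).2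
    intro t ht s hs hts
    by_cases ht0 : t = 0
    · by_cases hs0 : s = 0
      · rw [ht0, hs0]
      · rw [ht0, hk0] at hts
        exact absurd hts.symm (hz s hs hs0)
    · by_cases hs0 : s = 0
      · rw [hs0, hk0] at hts
        exact absurd hts (hz t ht ht0)
      · rw [hk1 t ht0, hk1 s hs0] at hts
        exact inv_injective (f.injective (inv_injective hts))
  have hder : deriv k 0 ≠ 0 :=
    Pool.Agent.Lib.MP_1f4a82_an.deriv_ne_zero_of_injOn hka hnb hinj
  obtain ⟨m, hm⟩ : ∃ m : ℂ → ℂ, m = dslope k 0 := ⟨_, rfl⟩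
  have hm0 : m 0 ≠ 0 := by
    rw [hm, dslope_same]
    exact hder
  have hma : AnalyticAt ℂ m 0 := by
    rw [hm]
    exact ((Complex.differentiableOn_dslope hnb).2 hkd).analyticAt hnb
  have hkm : ∀ t, k t = t * m t := by
    intro t
    have h2 := sub_smul_dslope k 0 t
    rw [sub_zero, hk0, sub_zero, smul_eq_mul] at h2
    rw [hm]
    exact h2.symm
  obtain ⟨n, hn⟩ : ∃ n : ℂ → ℂ, n = fun t => (m t)⁻¹ := ⟨_, rfl⟩
  have hna : AnalyticAt ℂ n 0 := by
    rw [hn]
    exact hma.inv hm0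
  have hn0 : n 0 ≠ 0 := by
    rw [hn]
    exact inv_ne_zero hm0
  have hnc : ContinuousAt (dslope n 0) 0 := continuousAt_dslope_same.2 hna.differentiableAt
  refine ⟨n 0, dslope n 0 0, hn0, ?_⟩
  have hlim : Tendsto (fun z : ℂ => dslope n 0 z⁻¹ - dslope n 0 0) (cocompact ℂ) (𝓝 0) := by
    have h2 : Tendsto (fun z : ℂ => dslope n 0 z⁻¹) (cocompact ℂ) (𝓝 (dslope n 0 0)) :=
      hnc.tendsto.comp hinv0
    have h3 := h2.sub_const (dslope n 0 0)
    rwa [sub_self] at h3
  refine Tendsto.congr' ?_ hlim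
  filter_upwards [(isCompact_singleton (x := (0 : ℂ))).compl_mem_cocompact] with z hz
  have hz0 : z ≠ 0 := hz
  have hzi : z⁻¹ ≠ 0 := inv_ne_zero hz0
  have h2 := sub_smul_dslope n 0 z⁻¹
  rw [sub_zero, smul_eq_mul] at h2
  have h3 : f z = z * n z⁻¹ := by
    have h4 := hk1 z⁻¹ hzi
    rw [inv_inv, hkm] at h4
    have h5 : f z = (z⁻¹ * m z⁻¹)⁻¹ := by rw [h4, inv_inv]
    rw [h5, mul_inv, inv_inv, hn]
  have h4 : dslope n 0 z⁻¹ = z * (n z⁻¹ - n 0) := by
    rw [← h2]
    field_simp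
  rw [h3, h4]
  ring

/-- The initial state.
PROOF. `F z = (f z - b) / a`. `opn`, `cont`: homeomorphism. `inf`: divide by `a`. `sep`: the inverse
homeomorphism `g` of `F` satisfies `g w - w → 0` at infinity (as `w = F (g w)`, and `g w → ∞`), so it
is uniformly continuous (the continuous function `g w - w` tends to `0` at infinity, so it is
uniformly continuous), and `dist (F x) (F y) < δ` implies `dist x y < η`. -/
theorem st_of_homeo (f : ℂ ≃ₜ ℂ) {C : Set ℂ} (hC : IsCompact C) (hf : DifferentiableOn ℂ f Cᶜ)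
    {a b : ℂ} (ha : a ≠ 0) (h : Tendsto (fun z => f z - (a * z + b)) (cocompact ℂ) (𝓝 0)) :
    St (fun z => (f z - b) / a) ∅ C := by
  obtain ⟨G, hG⟩ : ∃ G : ℂ ≃ₜ ℂ, ∀ z, G z = (f z - b) / a := by
    refine ⟨(f.trans (Homeomorph.subRight b)).trans
      (Homeomorph.mulRight₀ a⁻¹ (inv_ne_zero ha)), fun z => ?_⟩
    rw [div_eq_mul_inv]
    rfl
  have hFG : (fun z => (f z - b) / a) = G := funext fun z => (hG z).symm
  have hinf : Tendsto (fun z => (f z - b) / a - z) (cocompact ℂ) (𝓝 0) := by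
    have h1 := h.div_const a
    rw [zero_div] at h1
    refine h1.congr fun z => ?_
    field_simp
    ring
  refine ⟨Set.finite_empty, Set.empty_subset _, hC, ?_, ?_, ?_, ?_, hinf⟩
  · rw [hFG]
    exact G.continuous.continuousOn
  · intro U _ hU
    rw [hFG]
    exact G.isOpenMap U hU
  · have h1 : Tendsto (fun w => G.symm w - w) (cocompact ℂ) (𝓝 0) := by
      have h2 : Tendsto (fun w => -((f (G.symm w) - b) / a - G.symm w)) (cocompact ℂ)
          (𝓝 (-0)) := (hinf.comp G.symm.isClosedEmbedding.tendsto_cocompact).neg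
      rw [neg_zero] at h2
      refine h2.congr fun w => ?_
      rw [← hG, G.apply_symm_apply]
      ring
    have h2 : UniformContinuous fun w => G.symm w - w :=
      (G.symm.continuous.sub continuous_id).uniformContinuous_of_tendsto_cocompact h1
    have h3 : UniformContinuous G.symm := by
      have h4 := h2.add uniformContinuous_id
      have h5 : (fun w => (G.symm w - w) + id w) = G.symm := by
        funext w
        simp
      rw [← h5]
      exact h4
    intro η hη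
    obtain ⟨δ, hδ, h4⟩ := Metric.uniformContinuous_iff.1 h3 η hη
    refine ⟨δ, hδ, fun x _ y _ hxy => ?_⟩
    by_contra hcon
    push Not at hcon
    have h5 : dist (G x) (G y) < δ := by
      rw [hG, hG]
      exact hcon
    have h6 := h4 h5
    rw [G.symm_apply_apply, G.symm_apply_apply] at h6
    linarith
  · exact (hf.sub_const b).div_const a

end Pool.Agent.MX018
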