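import Mathlib

/-!
# MX: arcs have empty interior
-/

set_option autoImplicit false

open Topology Filter Set Metric

namespace Pool.Agent.MX018

private theorem aa_punct (c : ℂ) {r : ℝ} (hr : 0 < r) : IsPreconnected (ball c r \ {c}) := by
  have h1 : ball c r \ {c} = OpenPartialHomeomorph.univBall (E := ℂ) c r '' {0}ᶜ := by
    have hs : (OpenPartialHomeomorph.univBall (E := ℂ) c r).source = univ :=
      OpenPartialHomeomorph.univBall_source c r
    have ht : (OpenPartialHomeomorph.univBall (E := ℂ) c r).target = ball c r :=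
      OpenPartialHomeomorph.univBall_target c hr
    have h0 : OpenPartialHomeomorph.univBall (E := ℂ) c r 0 = c :=
      OpenPartialHomeomorph.univBall_apply_zero c r
    ext y
    constructor
    · rintro ⟨h2, h3⟩
      rw [← ht] at h2
      refine ⟨(OpenPartialHomeomorph.univBall (E := ℂ) c r).symm y, fun h4 => h3 ?_,
        (OpenPartialHomeomorph.univBall (E := ℂ) c r).right_inv h2⟩
      have h5 := (OpenPartialHomeomorph.univBall (E := ℂ) c r).right_inv h2
      rw [mem_singleton_iff.1 h4, h0] at h5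
      exact h5.symm
    · rintro ⟨x, hx, rfl⟩
      refine ⟨?_, fun h2 => hx ?_⟩
      · rw [← ht]
        exact (OpenPartialHomeomorph.univBall (E := ℂ) c r).map_source (by rw [hs]; trivial)
      · refine (OpenPartialHomeomorph.univBall (E := ℂ) c r).injOn (by rw [hs]; trivial)
          (by rw [hs]; trivial) ?_
        rw [h0]
        exact h2
  rw [h1]
  have h2 : IsConnected ({0}ᶜ : Set ℂ) := isConnected_compl_singleton_of_one_lt_rank
    (Module.one_lt_rank_of_one_lt_finrank (by rw [Complex.finrank_real_complex]; norm_num)) 0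
  exact h2.isPreconnected.image _ (OpenPartialHomeomorph.continuous_univBall c r).continuousOn

/-- A Jordan arc has empty interior.
PROOF. Suppose that `ball z₀ R ⊆ γ '' Icc s t`. The map `γ : Icc s t → γ '' Icc s t` is a
homeomorphism (compact to Hausdorff), so the set `T = {x ∈ Icc s t | γ x ∈ ball z₀ R}` is
preconnected (image of the connected ball under the continuous inverse), i.e. an interval, and
has more than two points; take `a < m < b` in `T`. The set `ball z₀ R \ {γ m}` is
preconnected (complement of a countable set in an open connected subset of the plane: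
`IsConnected`/`Set.Countable.isPathConnected_compl_of_one_lt_rank` or, directly, arcs avoiding a
point; for a ball `IsOpen.isConnected_compl_singleton_of_one_lt_rank`...), so `T \ {m}` is
preconnected, but it contains `a < m` and `b > m`: contradiction. -/
theorem interior_arc {γ : ℝ → ℂ} {s t : ℝ} (hc : ContinuousOn γ (Icc s t))
    (hi : InjOn γ (Icc s t)) : interior (γ '' Icc s t) = ∅ := by
  by_contra hne
  obtain ⟨z, hz⟩ := nonempty_iff_ne_empty.2 hne
  -- an interior point which is not an end of the arc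
  obtain ⟨w, hw, hws, hwt⟩ : ∃ w ∈ interior (γ '' Icc s t), w ≠ γ s ∧ w ≠ γ t := by
    have h1 : (interior (γ '' Icc s t)).Infinite :=
      infinite_of_mem_nhds z (isOpen_interior.mem_nhds hz)
    obtain ⟨w, hw, hw2⟩ := h1.exists_notMem_finset {γ s, γ t}
    simp only [Finset.mem_insert, Finset.mem_singleton, not_or] at hw2
    exact ⟨w, hw, hw2⟩
  obtain ⟨m, hm, rfl⟩ := interior_subset hw
  have hms : s < m := lt_of_le_of_ne hm.1 fun h1 => hws (by rw [h1])
  have hmt : m < t := lt_of_le_of_ne hm.2 fun h1 => hwt (by rw [h1])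
  obtain ⟨r, hr, hball⟩ := Metric.isOpen_iff.1 isOpen_interior (γ m) hw
  have hball2 : ball (γ m) r ⊆ γ '' Icc s t := hball.trans interior_subset
  have hcm : ContinuousAt γ m := hc.continuousAt (Icc_mem_nhds hms hmt)
  obtain ⟨δ, hδ, hδ2⟩ := Metric.mem_nhds_iff.1
    (Filter.inter_mem (hcm.preimage_mem_nhds (ball_mem_nhds _ hr)) (Icc_mem_nhds hms hmt))
  have ha : m - δ / 2 ∈ γ ⁻¹' ball (γ m) r ∩ Icc s t := hδ2 (by
    rw [mem_ball, Real.dist_eq, abs_lt]
    constructor <;> linarith)
  have hb : m + δ / 2 ∈ γ ⁻¹' ball (γ m) r ∩ Icc s t := hδ2 (by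
    rw [mem_ball, Real.dist_eq, abs_lt]
    constructor <;> linarith)
  -- the arc as a closed embedding
  have hg : Topology.IsClosedEmbedding (fun x : Icc s t => γ x) :=
    Continuous.isClosedEmbedding (continuousOn_iff_continuous_domRestrict.1 hc)
      (fun x y hxy => Subtype.ext (hi x.2 y.2 hxy))
  have himg : (fun x : Icc s t => γ x) '' ((fun x : Icc s t => γ x) ⁻¹' (ball (γ m) r \ {γ m})) =
      ball (γ m) r \ {γ m} := by
    refine image_preimage_eq_of_subset fun y hy => ?_
    obtain ⟨x, hx, hxy⟩ := hball2 hy.1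
    exact ⟨⟨x, hx⟩, hxy⟩
  have hpre : IsPreconnected ((fun x : Icc s t => γ x) ⁻¹' (ball (γ m) r \ {γ m})) := by
    rw [← hg.isInducing.isPreconnected_image, himg]
    exact aa_punct (γ m) hr
  have hpre2 := hpre.image Subtype.val continuous_subtype_val.continuousOn
  have ha2 : m - δ / 2 ∈ Subtype.val '' ((fun x : Icc s t => γ x) ⁻¹' (ball (γ m) r \ {γ m})) :=
    ⟨⟨m - δ / 2, ha.2⟩, ⟨ha.1, fun h1 => by
      have := hi ha.2 hm h1
      linarith⟩, rfl⟩
  have hb2 : m + δ / 2 ∈ Subtype.val '' ((fun x : Icc s t => γ x) ⁻¹' (ball (γ m) r \ {γ m})) :=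
    ⟨⟨m + δ / 2, hb.2⟩, ⟨hb.1, fun h1 => by
      have := hi hb.2 hm h1
      linarith⟩, rfl⟩
  have hmem : m ∈ Icc (m - δ / 2) (m + δ / 2) := ⟨by linarith, by linarith⟩
  obtain ⟨x, hx, hxm⟩ := hpre2.Icc_subset ha2 hb2 hmem
  refine hx.2 ?_
  change γ x = γ m
  rw [hxm]

end Pool.Agent.MX018
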