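import Pool.Agent.Lib.MP_018119_an_MX.Defs
import Pool.Agent.Lib.MP_018119_an_MX.ArcA

/-!
# MX: geometry of the gates
-/

set_option autoImplicit false

open Topology Filter Set Metric

namespace Pool.Agent.MX018

private theorem ArcInt_open (s t : ℕ → ℝ) (n : ℕ) : IsOpen (gts s t n) := by
  have h : gts s t n = ⋃ k, ⋃ (_ : k < n), Ioo (s k) (t k) := by
    ext x
    simp only [gts, mem_ofPred_eq, mem_iUnion, exists_prop]
  rw [h]
  exact isOpen_iUnion fun k => isOpen_iUnion fun _ => isOpen_Ioo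

private theorem ArcInt_succ (s t : ℕ → ℝ) (n : ℕ) (x : ℝ) :
    x ∈ gts s t (n + 1) ↔ x ∈ gts s t n ∨ x ∈ Ioo (s n) (t n) := by
  constructor
  · rintro ⟨k, hk, hx⟩
    rcases Nat.lt_succ_iff_lt_or_eq.1 hk with h | rfl
    · exact Or.inl ⟨k, h, hx⟩
    · exact Or.inr hx
  · rintro (⟨k, hk, hx⟩ | hx)
    · exact ⟨k, by omega, hx⟩
    · exact ⟨n, by omega, hx⟩

/-- PROOF. Compactness of `Icc 0 1 \ gts s t n` (closed in `Icc 0 1`) and continuity. -/
theorem crv_compact {γ : ℝ → ℂ} (hγ : Crv γ) (s t : ℕ → ℝ) (n : ℕ) :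
    IsCompact (γ '' (Icc 0 1 \ gts s t n)) := by
  have h1 : IsCompact (Icc (0 : ℝ) 1 \ gts s t n) := isCompact_Icc.diff (ArcInt_open s t n)
  exact h1.image_of_continuousOn (hγ.cont.mono sdiff_subset)

/-- The curve is injective up to the ends.
PROOF. `Crv.inj` and `Crv.fin`. -/
theorem crv_inj {γ : ℝ → ℂ} (hγ : Crv γ) {x y : ℝ} (hx : x ∈ Ioo (0 : ℝ) 1) (hy : y ∈ Icc (0 : ℝ) 1)
    (h : γ x = γ y) : x = y := by
  have hx' : x ∈ Ico (0 : ℝ) 1 := ⟨hx.1.le, hx.2⟩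
  rcases lt_or_eq_of_le hy.2 with h1 | rfl
  · exact hγ.inj hx' ⟨hy.1, h1⟩ h
  · rcases hγ.fin with h2 | h2
    · rw [h2] at h
      have h3 := hγ.inj hx' (left_mem_Ico.2 one_pos) h
      exact absurd h3 hx.1.ne'
    · exact absurd ⟨x, hx', h⟩ h2

/-- Geometry of the next gate.
PROOF. Everything follows from `crv_inj` (the gates have closures in `Ioo 0 1`), continuity and
compactness, and `interior_arc`; `γ '' Ioo s t ∪ {γ s, γ t} = γ '' Icc s t`. -/
theorem gg_next {γ : ℝ → ℂ} (hγ : Crv γ) {s t : ℕ → ℝ} (B : Set ℝ) {n : ℕ}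
    (hlt : ∀ k ≤ n, 0 < s k ∧ s k < t k ∧ t k < 1)
    (hdis : ∀ k < n, Disjoint (Icc (s k) (t k)) (Icc (s n) (t n))) :
    GG (γ '' ends s t B n) (γ '' (Icc 0 1 \ gts s t n)) (γ '' Ioo (s n) (t n)) (γ (s n)) (γ (t n)) ∧
      γ '' (Icc 0 1 \ gts s t n) \ γ '' Ioo (s n) (t n) = γ '' (Icc 0 1 \ gts s t (n + 1)) ∧
      γ '' ends s t B n ∪ γ '' (B ∩ {s n, t n}) = γ '' ends s t B (n + 1) := by
  obtain ⟨h0, h1, h2⟩ := hlt n le_rfl
  have hin : ∀ x ∈ Icc (s n) (t n), x ∈ Ioo (0 : ℝ) 1 := fun x hx =>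
    ⟨h0.trans_le hx.1, hx.2.trans_lt h2⟩
  have hin' : ∀ x ∈ Icc (s n) (t n), x ∈ Icc (0 : ℝ) 1 := fun x hx =>
    Ioo_subset_Icc_self (hin x hx)
  have hng : ∀ x ∈ Icc (s n) (t n), x ∉ gts s t n := by
    rintro x hx ⟨k, hk, hx'⟩
    exact disjoint_left.1 (hdis k hk) (Ioo_subset_Icc_self hx') hx
  have hA : ∀ x ∈ Icc (s n) (t n), x ∈ Icc (0 : ℝ) 1 \ gts s t n := fun x hx =>
    ⟨hin' x hx, hng x hx⟩
  have hS : s n ∈ Icc (s n) (t n) := left_mem_Icc.2 h1.le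
  have hT : t n ∈ Icc (s n) (t n) := right_mem_Icc.2 h1.le
  have hIcc : γ '' Ioo (s n) (t n) ∪ {γ (s n), γ (t n)} = γ '' Icc (s n) (t n) := by
    have : Icc (s n) (t n) = Ioo (s n) (t n) ∪ {s n, t n} := by
      ext x
      simp only [mem_Icc, mem_union, mem_Ioo, mem_insert_iff, mem_singleton_iff]
      constructor
      · rintro ⟨h3, h4⟩
        rcases h3.lt_or_eq with h5 | h5
        · rcases h4.lt_or_eq with h6 | h6
          · exact Or.inl ⟨h5, h6⟩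
          · exact Or.inr (Or.inr h6)
        · exact Or.inr (Or.inl h5.symm)
      · rintro (⟨h3, h4⟩ | rfl | rfl)
        · exact ⟨h3.le, h4.le⟩
        · exact ⟨le_rfl, h1.le⟩
        · exact ⟨h1.le, le_rfl⟩
    rw [this, image_union, image_pair]
  have hdiff : γ '' (Icc 0 1 \ gts s t n) \ γ '' Ioo (s n) (t n) =
      γ '' (Icc 0 1 \ gts s t (n + 1)) := by
    ext z
    constructor
    · rintro ⟨⟨x, ⟨hx1, hx2⟩, rfl⟩, hz⟩
      refine ⟨x, ⟨hx1, fun h => ?_⟩, rfl⟩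
      rcases (ArcInt_succ s t n x).1 h with h | h
      · exact hx2 h
      · exact hz ⟨x, h, rfl⟩
    · rintro ⟨x, ⟨hx1, hx2⟩, rfl⟩
      refine ⟨⟨x, ⟨hx1, fun h => hx2 ((ArcInt_succ s t n x).2 (Or.inl h))⟩, rfl⟩, ?_⟩
      rintro ⟨y, hy, hyx⟩
      have := crv_inj hγ (hin y (Ioo_subset_Icc_self hy)) hx1 hyx
      subst this
      exact hx2 ((ArcInt_succ s t n y).2 (Or.inr hy))
  have hcI : ContinuousOn γ (Icc (s n) (t n)) := hγ.cont.mono hin'
  refine ⟨?_, hdiff, ?_⟩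
  · refine
      { ne := fun h => h1.ne (crv_inj hγ (hin _ hS) (hin' _ hT) h)
        pK := ⟨_, hA _ hS, rfl⟩
        qK := ⟨_, hA _ hT, rfl⟩
        pG := ?_
        qG := ?_
        sub := image_mono fun x hx => hA x (Ioo_subset_Icc_self hx)
        dis := ?_
        cpt := ?_
        cl := ?_
        int := ?_ }
    · rintro ⟨x, hx, h⟩
      exact hx.1.ne' (crv_inj hγ (hin x (Ioo_subset_Icc_self hx)) (hin' _ hS) h)
    · rintro ⟨x, hx, h⟩
      exact hx.2.ne (crv_inj hγ (hin x (Ioo_subset_Icc_self hx)) (hin' _ hT) h)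
    · rw [hIcc, disjoint_left]
      rintro _ ⟨x, hx, rfl⟩ ⟨y, ⟨_, k, hk, hy⟩, h⟩
      obtain ⟨g0, g1, g2⟩ := hlt k hk.le
      have hyk : y ∈ Icc (s k) (t k) := by
        rcases hy with rfl | rfl
        · exact left_mem_Icc.2 g1.le
        · exact right_mem_Icc.2 g1.le
      have hy01 : y ∈ Icc (0 : ℝ) 1 := ⟨g0.le.trans hyk.1, hyk.2.trans g2.le⟩
      have := crv_inj hγ (hin x hx) hy01 h.symm
      subst this
      exact disjoint_left.1 (hdis k hk) hyk hx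
    · rw [hIcc]
      exact isCompact_Icc.image_of_continuousOn hcI
    · rw [hdiff]
      exact (crv_compact hγ s t (n + 1)).isClosed
    · rw [hIcc]
      exact interior_arc hcI fun x hx y hy h => crv_inj hγ (hin x hx) (hin' y hy) h
  · rw [← image_union]
    congr 1
    ext x
    simp only [ends, mem_union, mem_ofPred_eq, mem_inter_iff, mem_insert_iff, mem_singleton_iff]
    constructor
    · rintro (⟨hB, k, hk, hx⟩ | ⟨hB, hx⟩)
      · exact ⟨hB, k, by omega, hx⟩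
      · exact ⟨hB, n, by omega, hx⟩
    · rintro ⟨hB, k, hk, hx⟩
      rcases Nat.lt_succ_iff_lt_or_eq.1 hk with h | rfl
      · exact Or.inl ⟨hB, k, h, hx⟩
      · exact Or.inr ⟨hB, hx⟩

end Pool.Agent.MX018
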