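import Pool.Agent.Lib.MP_1f4a82_an.Basic

/-!
# MX: automorphisms of the disc
-/

set_option autoImplicit false

open Topology Filter Set Metric

namespace Pool.Agent.MX018

/-- Moebius map -/
noncomputable def mobT (a z : ℂ) : ℂ := (z - a) / (1 - (starRingEnd ℂ) a * z)

theorem mobT_den {a z : ℂ} (ha : ‖a‖ < 1) (hz : ‖z‖ < 1) : 1 - (starRingEnd ℂ) a * z ≠ 0 := by
  intro h
  have h1 : (starRingEnd ℂ) a * z = 1 := (sub_eq_zero.1 h).symm
  have h2 : ‖(starRingEnd ℂ) a * z‖ = 1 := by rw [h1, norm_one]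
  rw [norm_mul, RCLike.norm_conj] at h2
  nlinarith [norm_nonneg a, norm_nonneg z]

theorem mobT_mem {a z : ℂ} (ha : ‖a‖ < 1) (hz : ‖z‖ < 1) : ‖mobT a z‖ < 1 := by
  unfold mobT
  have hd := mobT_den ha hz
  rw [norm_div, div_lt_one (norm_pos_iff.2 hd)]
  have h1 : ‖z - a‖ ^ 2 < ‖1 - (starRingEnd ℂ) a * z‖ ^ 2 := by
    rw [← Complex.normSq_eq_norm_sq, ← Complex.normSq_eq_norm_sq]
    have h2 : Complex.normSq a < 1 := by
      rw [Complex.normSq_eq_norm_sq]; nlinarith [norm_nonneg a]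
    have h3 : Complex.normSq z < 1 := by
      rw [Complex.normSq_eq_norm_sq]; nlinarith [norm_nonneg z]
    have h4 : Complex.normSq (1 - (starRingEnd ℂ) a * z) - Complex.normSq (z - a) =
        (1 - Complex.normSq a) * (1 - Complex.normSq z) := by
      simp only [Complex.normSq_apply, Complex.sub_re, Complex.sub_im, Complex.mul_re,
        Complex.mul_im, Complex.conj_re, Complex.conj_im, Complex.one_re, Complex.one_im]
      ring
    nlinarith [mul_pos (sub_pos.2 h2) (sub_pos.2 h3)]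
  exact lt_of_pow_lt_pow_left₀ 2 (norm_nonneg _) h1

theorem mobT_inv {a z : ℂ} (ha : ‖a‖ < 1) (hz : ‖z‖ < 1) : mobT (-a) (mobT a z) = z := by
  have hd := mobT_den ha hz
  have hma := mobT_mem ha hz
  have ha' : ‖-a‖ < 1 := by rwa [norm_neg]
  have hd' := mobT_den ha' hma
  have haa : 1 - (starRingEnd ℂ) a * a ≠ 0 := mobT_den ha ha
  unfold mobT at hd' ⊢
  rw [div_eq_iff hd', map_neg]
  have h : (z - a) / (1 - (starRingEnd ℂ) a * z) * (1 - (starRingEnd ℂ) a * z) = z - a :=
    div_mul_cancel₀ _ hd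
  linear_combination h

theorem mobT_diff {a : ℂ} (ha : ‖a‖ < 1) : DifferentiableOn ℂ (mobT a) (ball 0 1) := by
  unfold mobT
  exact (differentiableOn_id.sub_const _).div
    ((differentiableOn_const _).sub (differentiableOn_id.const_mul _))
    fun z hz => mobT_den ha (mem_ball_zero_iff.1 hz)

/-- A holomorphic bijection of the unit disc is a Moebius transformation.
PROOF. Let `a` be the point of the disc with `A a = 0` and `M z = (z + a) / (1 + conj a * z)`, a
holomorphic bijection of the disc with `M 0 = a` and inverse `(z - a) / (1 - conj a * z)`. Then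
`B = A ∘ M` is a holomorphic bijection of the disc with `B 0 = 0`. By the Schwarz lemma for `B` and
for the inverse of `B` (holomorphic: inverse of an injective holomorphic function) `‖B z‖ = ‖z‖`,
so that `B z = lam * z` with `‖lam‖ = 1` (the quotient `B z / z`, extended by `dslope`, has
constant modulus; or the equality case of the Schwarz lemma in Mathlib,
`Complex.affine_of_mapsTo_ball_of_norm_dslope_eq_div`). Instead of the holomorphy of the inverse
one can use: `‖B' 0‖ ≤ 1`, and `B' 0 ≠ 0`. -/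
theorem aut_mob (A : ℂ → ℂ) (hd : DifferentiableOn ℂ A (ball 0 1))
    (hb : BijOn A (ball 0 1) (ball 0 1)) :
    ∃ a lam : ℂ, ‖a‖ < 1 ∧ ‖lam‖ = 1 ∧
      ∀ z ∈ ball (0 : ℂ) 1, A z = lam * (z - a) / (1 - (starRingEnd ℂ) a * z) := by
  obtain ⟨a, ha, hAa⟩ := hb.surjOn (mem_ball_self one_pos : (0 : ℂ) ∈ ball (0 : ℂ) 1)
  rw [mem_ball_zero_iff] at ha
  have ha' : ‖-a‖ < 1 := by rwa [norm_neg]
  set B : ℂ → ℂ := fun z => A (mobT (-a) z) with hB
  have hmm : MapsTo (mobT (-a)) (ball 0 1) (ball 0 1) := fun z hz =>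
    mem_ball_zero_iff.2 (mobT_mem ha' (mem_ball_zero_iff.1 hz))
  have hmm2 : MapsTo (mobT a) (ball 0 1) (ball 0 1) := fun z hz =>
    mem_ball_zero_iff.2 (mobT_mem ha (mem_ball_zero_iff.1 hz))
  have hBd : DifferentiableOn ℂ B (ball 0 1) := hd.comp (mobT_diff ha') hmm
  have hBm : MapsTo B (ball 0 1) (ball 0 1) := fun z hz => hb.mapsTo (hmm hz)
  have hB0 : B 0 = 0 := by simp [hB, mobT, hAa]
  -- the inverse
  set Ai : ℂ → ℂ := Function.invFunOn A (ball 0 1) with hAi
  have hleft : ∀ z ∈ ball (0 : ℂ) 1, Ai (A z) = z := fun z hz => hb.injOn.leftInvOn_invFunOn hz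
  have hAim : ∀ w ∈ ball (0 : ℂ) 1, Ai w ∈ ball (0 : ℂ) 1 := by
    intro w hw
    obtain ⟨z, hz, rfl⟩ := hb.surjOn hw
    rw [hleft z hz]; exact hz
  have hAid : DifferentiableOn ℂ Ai (ball 0 1) := by
    intro w hw
    obtain ⟨z, hz, rfl⟩ := hb.surjOn hw
    have h1 := Pool.Agent.Lib.MP_1f4a82_an.holAt_leftInverse (f := A) (g := Ai)
      (U := ball (0 : ℂ) 1) isOpen_ball
      (fun x hx => Pool.Agent.Lib.MP_1f4a82_an.holAt_iff_analyticAt.2
        (hd.analyticAt (isOpen_ball.mem_nhds hx))) hleft hz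
    exact (Pool.Agent.Lib.MP_1f4a82_an.holAt_iff_analyticAt.1
      h1).differentiableAt.differentiableWithinAt
  set C : ℂ → ℂ := fun w => mobT a (Ai w) with hC
  have hCd : DifferentiableOn ℂ C (ball 0 1) := (mobT_diff ha).comp hAid hAim
  have hCm : MapsTo C (ball 0 1) (ball 0 1) := fun w hw => hmm2 (hAim w hw)
  have hCB : ∀ z ∈ ball (0 : ℂ) 1, C (B z) = z := by
    intro z hz
    simp only [hC, hB]
    rw [hleft _ (hmm hz)]
    have := mobT_inv ha' (mem_ball_zero_iff.1 hz)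
    rwa [neg_neg] at this
  have hC0 : C 0 = 0 := by
    have := hCB 0 (mem_ball_self one_pos)
    rwa [hB0] at this
  have hle : ∀ z ∈ ball (0 : ℂ) 1, ‖B z‖ = ‖z‖ := by
    intro z hz
    apply le_antisymm
    · exact Complex.norm_le_norm_of_mapsTo_ball hBd
        (fun x hx => ball_subset_closedBall (hBm hx)) hB0 (mem_ball_zero_iff.1 hz)
    · have h1 := Complex.norm_le_norm_of_mapsTo_ball hCd
        (fun x hx => ball_subset_closedBall (hCm hx)) hC0 (mem_ball_zero_iff.1 (hBm hz))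
      rwa [hCB z hz] at h1
  have hhalf : ((1 / 2 : ℂ)) ∈ ball (0 : ℂ) 1 := by
    rw [mem_ball_zero_iff]; norm_num
  have hds : ‖dslope B 0 (1 / 2)‖ = 1 / 1 := by
    rw [dslope_of_ne _ (by norm_num), slope_def_field, norm_div, hB0, sub_zero, sub_zero,
      hle _ hhalf]
    norm_num
  obtain ⟨lam, hlam, hE⟩ := Complex.affine_of_mapsTo_ball_of_exists_norm_dslope_eq_div' hBd
    (by rw [hB0]; exact fun x hx => ball_subset_closedBall (hBm hx)) ⟨1 / 2, hhalf, hds⟩
  refine ⟨a, lam, ha, by rw [hlam]; norm_num, fun z hz => ?_⟩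
  have h1 := hE (hmm2 hz)
  simp only [hB0, zero_add, sub_zero, smul_eq_mul] at h1
  have h2 : B (mobT a z) = A z := by
    simp only [hB]
    rw [mobT_inv ha (mem_ball_zero_iff.1 hz)]
  rw [h2] at h1
  rw [h1, mobT]
  ring

end Pool.Agent.MX018
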