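import Pool.Agent.Lib.MP_018119_an_MX.ArcInt

/-!
# MX: the set which remains is perfect
-/

set_option autoImplicit false

open Topology Filter Set Metric

namespace Pool.Agent.MX018

theorem gtsI_isOpen (s t : ℕ → ℝ) : IsOpen (gtsI s t) := by
  have h : gtsI s t = ⋃ k, Ioo (s k) (t k) := by
    ext x
    simp [gtsI]
  rw [h]
  exact isOpen_iUnion fun _ => isOpen_Ioo

theorem Gts.dis' {s t : ℕ → ℝ} (h : Gts s t) {m n : ℕ} (hmn : m ≠ n) {z : ℝ}
    (hm : z ∈ Icc (s m) (t m)) (hn : z ∈ Icc (s n) (t n)) : False := by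
  rcases lt_or_gt_of_ne hmn with h1 | h1
  · exact Set.disjoint_left.mp (h.dis m n h1) hm hn
  · exact Set.disjoint_left.mp (h.dis n m h1) hn hm

theorem Gts.s_notMem {s t : ℕ → ℝ} (h : Gts s t) (n : ℕ) : s n ∉ gtsI s t := by
  rintro ⟨m, hm1, hm2⟩
  rcases eq_or_ne m n with rfl | hne
  · exact lt_irrefl _ hm1
  · exact h.dis' hne ⟨hm1.le, hm2.le⟩ ⟨le_rfl, (h.lt n).2.1.le⟩

theorem Gts.t_notMem {s t : ℕ → ℝ} (h : Gts s t) (n : ℕ) : t n ∉ gtsI s t := by
  rintro ⟨m, hm1, hm2⟩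
  rcases eq_or_ne m n with rfl | hne
  · exact lt_irrefl _ hm2
  · exact h.dis' hne ⟨hm1.le, hm2.le⟩ ⟨(h.lt n).2.1.le, le_rfl⟩

theorem Gts.exists_near {s t : ℕ → ℝ} (h : Gts s t) {x : ℝ} (hx : x ∈ Icc (0 : ℝ) 1 \ gtsI s t)
    {δ : ℝ} (hδ : 0 < δ) :
    ∃ y ∈ Icc (0 : ℝ) 1 \ gtsI s t, y ∈ Ioo (0 : ℝ) 1 ∧ y ≠ x ∧ |y - x| < δ := by
  by_contra hcon
  push Not at hcon
  have key : ∀ y ∈ Ioo (0 : ℝ) 1, y ≠ x → |y - x| < δ → y ∈ gtsI s t := by
    intro y hy hne hd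
    by_contra hn
    exact absurd (hcon y ⟨⟨hy.1.le, hy.2.le⟩, hn⟩ hy hne) (not_le.mpr hd)
  -- right side
  have hright : x < 1 → ∃ n, s n = x := by
    intro hx1
    set y₀ : ℝ := (x + min 1 (x + δ)) / 2 with hy₀
    have hm1 : min 1 (x + δ) ≤ 1 := min_le_left _ _
    have hm2 : min 1 (x + δ) ≤ x + δ := min_le_right _ _
    have hm3 : x < min 1 (x + δ) := lt_min hx1 (by linarith)
    have hxy : x < y₀ := by rw [hy₀]; linarith
    have hy1 : y₀ < min 1 (x + δ) := by rw [hy₀]; linarith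
    have hx0 : 0 ≤ x := hx.1.1
    have hall : ∀ y, x < y → y ≤ y₀ → y ∈ gtsI s t := by
      intro y h1 h2
      refine key y ⟨by linarith, by linarith⟩ h1.ne' ?_
      rw [abs_lt]
      constructor <;> linarith
    obtain ⟨n, hn1, hn2⟩ := hall y₀ hxy le_rfl
    refine ⟨n, ?_⟩
    rcases lt_trichotomy (s n) x with h1 | h1 | h1
    · exact absurd ⟨n, h1, by linarith⟩ hx.2
    · exact h1
    · exact absurd (hall (s n) h1 hn1.le) (h.s_notMem n)
  have hleft : 0 < x → ∃ n, t n = x := by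
    intro hx1
    set y₀ : ℝ := (x + max 0 (x - δ)) / 2 with hy₀
    have hm1 : 0 ≤ max 0 (x - δ) := le_max_left _ _
    have hm2 : x - δ ≤ max 0 (x - δ) := le_max_right _ _
    have hm3 : max 0 (x - δ) < x := max_lt hx1 (by linarith)
    have hxy : y₀ < x := by rw [hy₀]; linarith
    have hy1 : max 0 (x - δ) < y₀ := by rw [hy₀]; linarith
    have hx0 : x ≤ 1 := hx.1.2
    have hall : ∀ y, y < x → y₀ ≤ y → y ∈ gtsI s t := by
      intro y h1 h2
      refine key y ⟨by linarith, by linarith⟩ h1.ne ?_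
      rw [abs_lt]
      constructor <;> linarith
    obtain ⟨n, hn1, hn2⟩ := hall y₀ hxy le_rfl
    refine ⟨n, ?_⟩
    rcases lt_trichotomy (t n) x with h1 | h1 | h1
    · exact absurd (hall (t n) h1 hn2.le) (h.t_notMem n)
    · exact h1
    · exact absurd ⟨n, by linarith, h1⟩ hx.2
  rcases lt_or_ge x 1 with hx1 | hx1
  · obtain ⟨n, hn⟩ := hright hx1
    have hx0 : 0 < x := hn ▸ (h.lt n).1
    obtain ⟨m, hm⟩ := hleft hx0
    have hne : m ≠ n := by
      rintro rfl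
      have := (h.lt m).2.1
      linarith
    exact h.dis' (z := x) hne ⟨by have := (h.lt m).2.1; linarith, hm.ge⟩
      ⟨hn.le, by have := (h.lt n).2.1; linarith⟩
  · obtain ⟨m, hm⟩ := hleft (by linarith)
    have := (h.lt m).2.2
    linarith

/-- What remains of the curve after opening all gates is compact, perfect and nonempty.
PROOF. `Z = Icc 0 1 \ gtsI s t` is compact (`gtsI` is open), contains `0`, `1` and all `s n`, `t n`
(disjointness of the closed gates), and `K = γ '' Z` is compact and nonempty.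
No isolated points: let `x ∈ Z`. It suffices to find points of `Z ∩ Ioo 0 1`, different from `x`,
arbitrarily near `x`. Suppose `x < 1` and `Ioo x (x + δ) ⊆ gtsI s t` (`δ` small): the intervals
`Ioo (s n) (t n)` are open and disjoint, `Ioo x (x + δ)` is connected, so it is contained in one
`Ioo (s n) (t n)`, `s n ≤ x`, hence `s n = x` since `x ∉ gtsI`. Then `0 < x`, and if also
`Ioo (x - δ) x ⊆ gtsI s t` then `t m = x` for some `m`, so `x ∈ Icc (s m) (t m) ∩ Icc (s n) (t n)`,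
`m ≠ n`, a contradiction. So one side contains points of `Z` arbitrarily near `x`. If `x = 1`:
`Ioo (1 - δ) 1 ⊆ gtsI` would give `t m = 1`, impossible. The images under `γ` of these points
converge to `γ x` and are different from `γ x` (`crv_inj`). -/
theorem cantor_perf {γ : ℝ → ℂ} (hγ : Crv γ) {s t : ℕ → ℝ} (h : Gts s t) :
    IsCompact (γ '' (Icc 0 1 \ gtsI s t)) ∧ Perfect (γ '' (Icc 0 1 \ gtsI s t)) ∧
      (γ '' (Icc 0 1 \ gtsI s t)).Nonempty := by
  have hZ : IsCompact (Icc (0 : ℝ) 1 \ gtsI s t) := isCompact_Icc.diff (gtsI_isOpen s t)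
  have hK : IsCompact (γ '' (Icc (0 : ℝ) 1 \ gtsI s t)) :=
    hZ.image_of_continuousOn (hγ.cont.mono diff_subset)
  refine ⟨hK, ⟨hK.isClosed, ?_⟩, ?_⟩
  · rintro _ ⟨x, hx, rfl⟩
    rw [accPt_iff_frequently]
    rw [Filter.frequently_iff]
    intro U hU
    have h1 : ∀ᶠ y in 𝓝[Icc 0 1] x, γ y ∈ U := (hγ.cont x hx.1) hU
    rw [eventually_nhdsWithin_iff, Metric.eventually_nhds_iff] at h1
    obtain ⟨δ, hδ, h2⟩ := h1
    obtain ⟨y, hyZ, hyI, hne, hd⟩ := h.exists_near hx hδ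
    refine ⟨γ y, h2 (by rw [Real.dist_eq]; exact hd) hyZ.1, ?_, mem_image_of_mem _ hyZ⟩
    intro he
    exact hne (crv_inj hγ hyI hx.1 he)
  · refine ⟨γ 0, 0, ⟨⟨le_rfl, zero_le_one⟩, ?_⟩, rfl⟩
    rintro ⟨k, hk, -⟩
    exact absurd (h.lt k).1 (not_lt.mpr hk.le)

/-- PROOF. `s n, t n ∈ Icc 0 1`, and they are not in a gate, by disjointness. -/
theorem ends_sub {γ : ℝ → ℂ} {s t : ℕ → ℝ} (h : Gts s t) (B : Set ℝ) :
    γ '' endsI s t B ⊆ γ '' (Icc 0 1 \ gtsI s t) ∧ (γ '' endsI s t B).Countable := by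
  constructor
  · apply image_mono
    rintro x ⟨-, k, rfl | rfl⟩
    · exact ⟨⟨(h.lt k).1.le, ((h.lt k).2.1.trans (h.lt k).2.2).le⟩, h.s_notMem k⟩
    · exact ⟨⟨((h.lt k).1.trans (h.lt k).2.1).le, (h.lt k).2.2.le⟩, h.t_notMem k⟩
  · apply Countable.image
    apply Countable.mono (s₂ := range s ∪ range t)
    · rintro x ⟨-, k, rfl | rfl⟩
      · exact Or.inl ⟨k, rfl⟩
      · exact Or.inr ⟨k, rfl⟩
    · exact (countable_range s).union (countable_range t)

end Pool.Agent.MX018
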