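import Pool.Agent.Lib.MP_018119_an_MX.ArcInt

/-!
# MX: the set which remains is totally disconnected
-/

set_option autoImplicit false

open Topology Filter Set Metric

namespace Pool.Agent.MX018

theorem td_aux {γ : ℝ → ℂ} {Z P Q : Set ℝ} (hZ : IsCompact Z) (hc : ContinuousOn γ Z)
    (hP : IsClosed P) (hQ : IsClosed Q) (hcov : Z ⊆ P ∪ Q)
    (hd : ∀ x ∈ Z, x ∈ P → ∀ y ∈ Z, y ∈ Q → γ x ≠ γ y) {a b : ℝ} (haZ : a ∈ Z) (ha : a ∈ P)
    (hbZ : b ∈ Z) (hb : b ∈ Q) {T : Set ℂ} (hT : T ⊆ γ '' Z) (hcT : IsPreconnected T)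
    (h1 : γ a ∈ T) (h2 : γ b ∈ T) : False := by
  have hA : IsClosed (γ '' (Z ∩ P)) :=
    ((hZ.inter_right hP).image_of_continuousOn (hc.mono inter_subset_left)).isClosed
  have hB : IsClosed (γ '' (Z ∩ Q)) :=
    ((hZ.inter_right hQ).image_of_continuousOn (hc.mono inter_subset_left)).isClosed
  have hsub : T ⊆ γ '' (Z ∩ P) ∪ γ '' (Z ∩ Q) := by
    intro u hu
    obtain ⟨x, hx, rfl⟩ := hT hu
    rcases hcov hx with h | h
    · exact Or.inl ⟨x, ⟨hx, h⟩, rfl⟩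
    · exact Or.inr ⟨x, ⟨hx, h⟩, rfl⟩
  obtain ⟨u, -, ⟨x, hx, hxu⟩, ⟨y, hy, hyu⟩⟩ := isPreconnected_closed_iff.mp hcT _ _ hA hB hsub
    ⟨γ a, h1, a, ⟨haZ, ha⟩, rfl⟩ ⟨γ b, h2, b, ⟨hbZ, hb⟩, rfl⟩
  exact hd x hx.1 hx.2 y hy.1 hy.2 (hxu.trans hyu.symm)

theorem td_aux2 {γ : ℝ → ℂ} (hγ : Crv γ) {s t : ℕ → ℝ} (h : Gts s t) {a b : ℝ}
    (ha : a ∈ Icc (0 : ℝ) 1 \ gtsI s t) (hb : b ∈ Icc (0 : ℝ) 1 \ gtsI s t) (hab : a < b)
    (hne : γ a ≠ γ b) {T : Set ℂ} (hT : T ⊆ γ '' (Icc 0 1 \ gtsI s t)) (hcT : IsPreconnected T)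
    (h1 : γ a ∈ T) (h2 : γ b ∈ T) : False := by
  have hopen : IsOpen (gtsI s t) := by
    have h : gtsI s t = ⋃ k, Ioo (s k) (t k) := by
      ext x
      simp [gtsI]
    rw [h]
    exact isOpen_iUnion fun _ => isOpen_Ioo
  have hZ : IsCompact (Icc (0 : ℝ) 1 \ gtsI s t) := isCompact_Icc.diff hopen
  have hc : ContinuousOn γ (Icc (0 : ℝ) 1 \ gtsI s t) := hγ.cont.mono diff_subset
  have hout : ∀ x ∈ Icc (0 : ℝ) 1 \ gtsI s t, ∀ k, x ≤ s k ∨ t k ≤ x := by
    intro x hx k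
    by_contra hcon
    push Not at hcon
    exact hx.2 ⟨k, hcon.1, hcon.2⟩
  obtain ⟨n, c, ⟨hc1, hc2⟩, hc3, hc4⟩ := h.dense a b ha.1.1 hab hb.1.2
  have han : a ≤ s n := by
    rcases hout a ha n with h3 | h3
    · exact h3
    · linarith
  have hbn : t n ≤ b := by
    rcases hout b hb n with h3 | h3
    · linarith
    · exact h3
  obtain ⟨hn0, hn1, hn2⟩ := h.lt n
  by_cases h01 : γ 1 = γ 0
  · have hor : 0 < a ∨ b < 1 := by
      by_contra hcon
      push Not at hcon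
      have e1 : a = 0 := le_antisymm hcon.1 ha.1.1
      have e2 : b = 1 := le_antisymm hb.1.2 hcon.2
      rw [e1, e2] at hne
      exact hne h01.symm
    rcases hor with h0a | hb1
    · obtain ⟨m, d, ⟨hd1, hd2⟩, hd3, hd4⟩ := h.dense 0 a le_rfl h0a ha.1.2
      have ham : t m ≤ a := by
        rcases hout a ha m with h3 | h3
        · linarith
        · exact h3
      obtain ⟨hm0, hm1, hm2⟩ := h.lt m
      refine td_aux hZ hc (P := Icc (t m) (s n)) (Q := Icc 0 (s m) ∪ Icc (t n) 1) isClosed_Icc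
        (isClosed_Icc.union isClosed_Icc) ?_ ?_ ha ⟨ham, han⟩ hb (Or.inr ⟨hbn, hb.1.2⟩) hT hcT h1 h2
      · intro x hx
        rcases hout x hx m with h3 | h3
        · exact Or.inr (Or.inl ⟨hx.1.1, h3⟩)
        · rcases hout x hx n with h4 | h4
          · exact Or.inl ⟨h3, h4⟩
          · exact Or.inr (Or.inr ⟨h4, hx.1.2⟩)
      · intro x hx hxP y hy hyQ he
        have hxy : x = y := crv_inj hγ ⟨by linarith [hxP.1], by linarith [hxP.2]⟩ hy.1 he
        rcases hyQ with h3 | h3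
        · linarith [hxP.1, h3.2]
        · linarith [hxP.2, h3.1]
    · obtain ⟨m, d, ⟨hd1, hd2⟩, hd3, hd4⟩ := h.dense b 1 hb.1.1 hb1 le_rfl
      have hbm : b ≤ s m := by
        rcases hout b hb m with h3 | h3
        · exact h3
        · linarith
      obtain ⟨hm0, hm1, hm2⟩ := h.lt m
      refine td_aux hZ hc (P := Icc (t n) (s m)) (Q := Icc 0 (s n) ∪ Icc (t m) 1) isClosed_Icc
        (isClosed_Icc.union isClosed_Icc) ?_ ?_ hb ⟨hbn, hbm⟩ ha (Or.inl ⟨ha.1.1, han⟩) hT hcT h2 h1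
      · intro x hx
        rcases hout x hx n with h3 | h3
        · exact Or.inr (Or.inl ⟨hx.1.1, h3⟩)
        · rcases hout x hx m with h4 | h4
          · exact Or.inl ⟨h3, h4⟩
          · exact Or.inr (Or.inr ⟨h4, hx.1.2⟩)
      · intro x hx hxP y hy hyQ he
        have hxy : x = y := crv_inj hγ ⟨by linarith [hxP.1], by linarith [hxP.2]⟩ hy.1 he
        rcases hyQ with h3 | h3
        · linarith [hxP.1, h3.2]
        · linarith [hxP.2, h3.1]
  · refine td_aux hZ hc (P := Icc 0 (s n)) (Q := Icc (t n) 1) isClosed_Icc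
      isClosed_Icc ?_ ?_ ha ⟨ha.1.1, han⟩ hb ⟨hbn, hb.1.2⟩ hT hcT h1 h2
    · intro x hx
      rcases hout x hx n with h3 | h3
      · exact Or.inl ⟨hx.1.1, h3⟩
      · exact Or.inr ⟨h3, hx.1.2⟩
    · intro x hx hxP y hy hyQ he
      have hx1 : x < 1 := by linarith [hxP.2]
      have hy0 : 0 < y := by linarith [hyQ.1]
      rcases eq_or_lt_of_le hxP.1 with h3 | h3
      · rcases eq_or_lt_of_le hyQ.2 with h4 | h4
        · rw [← h3, h4] at he
          exact h01 he.symm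
        · have hxy : y = x := crv_inj hγ ⟨hy0, h4⟩ hx.1 he.symm
          linarith [hxP.2, hyQ.1]
      · have hxy : x = y := crv_inj hγ ⟨h3, hx1⟩ hy.1 he
        linarith [hxP.2, hyQ.1]

/-- What remains of the curve after opening all gates is totally disconnected.
PROOF. `Z = Icc 0 1 \ gtsI s t` is compact, `K = γ '' Z`. Let `u ≠ v` be points of `K`; it is enough
to find a subset of `K`, closed, with closed complement in `K`, containing `u` and not `v`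
(then no preconnected subset of `K` contains both). `u = γ a`, `v = γ b`, say
`a < b`, `a, b ∈ Z`, and not (`a = 0`, `b = 1` and `γ 0 = γ 1`). There is a gate
`Ioo (s n) (t n)` meeting `Ioo a b`, hence `a ≤ s n < t n ≤ b` (as `a`, `b` are not in the gate).
If `γ 1 ≠ γ 0` (`γ` is injective on `Icc 0 1`) the sets `γ '' (Z ∩ Icc 0 (s n))` and
`γ '' (Z ∩ Icc (t n) 1)` are compact, disjoint, with union `K`. If `γ 1 = γ 0`: either `0 < a` or
`b < 1`; if `0 < a` take another gate `Ioo (s m) (t m)` meeting `Ioo 0 a`, `t m ≤ a`: the sets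
`γ '' (Z ∩ Icc (t m) (s n))` and `γ '' (Z ∩ (Icc 0 (s m) ∪ Icc (t n) 1))` (disjoint by `crv_inj`,
because `0 < t m`, `s n < 1`). If `b < 1`: take a gate `Ioo (s m) (t m)` meeting `Ioo b 1`,
`b ≤ s m`: the sets `γ '' (Z ∩ Icc (t n) (s m)) ∋ v` and
`γ '' (Z ∩ (Icc 0 (s n) ∪ Icc (t m) 1)) ∋ u`. -/
theorem cantor_td {γ : ℝ → ℂ} (hγ : Crv γ) {s t : ℕ → ℝ} (h : Gts s t) :
    IsTotallyDisconnected (γ '' (Icc 0 1 \ gtsI s t)) := by
  intro T hT hcT u hu v hv
  by_contra huv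
  obtain ⟨a, ha, rfl⟩ := hT hu
  obtain ⟨b, hb, rfl⟩ := hT hv
  rcases lt_trichotomy a b with hab | hab | hab
  · exact td_aux2 hγ h ha hb hab huv hT hcT hu hv
  · exact huv (by rw [hab])
  · exact td_aux2 hγ h hb ha hab (Ne.symm huv) hT hcT hv hu

end Pool.Agent.MX018
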