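import Pool.Agent.Lib.MP_018119_an_MX.Defs

/-!
# MX: charts for the structure of a gate
-/

set_option autoImplicit false

open Topology Filter Set Metric

namespace Pool.Agent.MX018

open Pool.Agent.Lib.MP_1f4a82_an

/-- `χ` is a chart on `U` for the structure given by `ψ` along `J`. -/
structure ChW (J : Set ℂ) (ψ : ℂ → ℂ) (U : Set ℂ) (χ : ℂ → ℂ) : Prop where
  openU : IsOpen U
  cont : ContinuousOn χ U
  inj : InjOn χ U
  opn : ∀ V ⊆ U, IsOpen V → IsOpen (χ '' V)
  fac : ∀ (f : ℂ → ℂ) (V : Set ℂ), V ⊆ U → IsOpen V → (∀ x ∈ V, WHol J ψ f x) →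
    ∃ g : ℂ → ℂ, DifferentiableOn ℂ g (χ '' V) ∧ ∀ x ∈ V, f x = g (χ x)
  hol : ∀ (f g : ℂ → ℂ) (V : Set ℂ), V ⊆ U → IsOpen V → DifferentiableOn ℂ g (χ '' V) →
    (∀ x ∈ V, f x = g (χ x)) → ∀ x ∈ V, WHol J ψ f x

/-- Every point except `p`, `q` has a chart.
PROOF. If `w ∉ J`: `U = Jᶜ` (it does not contain `p`, `q`), `χ = id`: then `WHol` on `V ⊆ U` is
analyticity. If `w ∈ J`, `w ≠ p, q`: `U = N`, `χ = ψ`. `fac`: let `g` be `f ∘ (inverse of ψ on N)`
(`Function.invFunOn ψ N`); at `y = ψ x`, `x ∈ V`: if `x ∈ J` then `f = k ∘ ψ` near `x` with `k`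
analytic at `ψ x` and `g = k` near `y` (the points near `y` are `ψ x'` with `x'` near `x`, as `ψ` is
open and injective); if `x ∉ J` then `f` is analytic at `x`, `ψ` is analytic at `x` (`x ∈ N \ J`,
open) and injective, so the derivative of `ψ` at `x` is not zero
(`Pool.Agent.Lib.MP_1f4a82_an.deriv_ne_zero_of_injOn`) and the inverse of `ψ` is analytic at `y`
(`HasStrictDerivAt.to_localInverse` or `holAt_leftInverse` of Lib/MP_1f4a82_an/Basic.lean for the
plane). `hol`: for `x ∈ J` take `g` itself (differentiable on the open set `ψ '' V ∋ ψ x`); for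
`x ∉ J` compose `g` with `ψ`, analytic at `x`. -/
theorem exists_chW {p q : ℂ} {J N : Set ℂ} {ψ : ℂ → ℂ} (hg : Gate p q J N ψ) {w : ℂ} (hp : w ≠ p)
    (hq : w ≠ q) : ∃ (U : Set ℂ) (χ : ℂ → ℂ), w ∈ U ∧ U ⊆ ({p, q} : Set ℂ)ᶜ ∧ ChW J ψ U χ := by
  by_cases hw : w ∈ J
  · -- the chart `ψ`
    have hopen : IsOpen (N \ J) := hg.openN.sdiff hg.cpt.isClosed
    have hψa : ∀ x ∈ N, x ∉ J → AnalyticAt ℂ ψ x := fun x hx hxJ =>
      hg.hol.analyticAt (hopen.mem_nhds ⟨hx, hxJ⟩)
    have hinv : ∀ x ∈ N, Function.invFunOn ψ N (ψ x) = x := fun x hx =>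
      hg.inj.leftInvOn_invFunOn hx
    refine ⟨N, ψ, hg.sub ⟨hw, ?_⟩, ?_, ⟨hg.openN, hg.cont, hg.inj, hg.opn, ?_, ?_⟩⟩
    · rintro (h | h)
      · exact hp h
      · exact hq h
    · intro x hx hxp
      rcases hxp with h | h
      · rw [h] at hx
        exact hg.pN hx
      · have h' : x = q := h
        rw [h'] at hx
        exact hg.qN hx
    · intro f V hVN hV hf
      refine ⟨fun y => f (Function.invFunOn ψ N y), ?_, fun x hx =>
        (congrArg f (hinv x (hVN hx))).symm⟩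
      rintro _ ⟨x, hx, rfl⟩
      refine DifferentiableAt.differentiableWithinAt ?_
      by_cases hxJ : x ∈ J
      · obtain ⟨k, hk, hfk⟩ := (hf x hx).2 hxJ
        have h1 : ∀ᶠ x' in 𝓝 x, x' ∈ V ∧ f x' = k (ψ x') := by
          filter_upwards [hV.mem_nhds hx, hfk] with x' h3 h4
          exact ⟨h3, h4⟩
        obtain ⟨W, hW1, hW2, hW3⟩ := _root_.mem_nhds_iff.1 h1
        have hWo : IsOpen (ψ '' W) := hg.opn W (fun x' hx' => hVN (hW1 hx').1) hW2
        have h2 : (fun y => f (Function.invFunOn ψ N y)) =ᶠ[𝓝 (ψ x)] k := by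
          filter_upwards [hWo.mem_nhds ⟨x, hW3, rfl⟩] with y hy
          obtain ⟨x', hx', rfl⟩ := hy
          have h3 := hW1 hx'
          rw [hinv x' (hVN h3.1)]
          exact h3.2
        exact (hk.differentiableAt).congr_of_eventuallyEq h2
      · have h1 := (hf x hx).1 hxJ
        have h2 : AnalyticAt ℂ (Function.invFunOn ψ N) (ψ x) := by
          rw [← holAt_iff_analyticAt]
          exact holAt_leftInverse hopen
            (fun x' hx' => holAt_iff_analyticAt.2 (hψa x' hx'.1 hx'.2))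
            (fun x' hx' => hinv x' hx'.1) ⟨hVN hx, hxJ⟩
        have h3 : AnalyticAt ℂ f (Function.invFunOn ψ N (ψ x)) := by
          rwa [hinv x (hVN hx)]
        exact (h3.comp h2).differentiableAt
    · intro f g V hVN hV hgd hfg x hx
      have hVo : IsOpen (ψ '' V) := hg.opn V hVN hV
      have hga : AnalyticAt ℂ g (ψ x) := hgd.analyticAt (hVo.mem_nhds ⟨x, hx, rfl⟩)
      have hev : ∀ᶠ x' in 𝓝 x, f x' = g (ψ x') := by
        filter_upwards [hV.mem_nhds hx] with x' hx'
        exact hfg x' hx'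
      refine ⟨fun hxJ => ?_, fun _ => ⟨g, hga, hev⟩⟩
      have h1 : AnalyticAt ℂ (fun x' => g (ψ x')) x := hga.comp (hψa x (hVN hx) hxJ)
      exact h1.congr (hev.mono fun x' hx' => hx'.symm)
  · -- the standard chart
    refine ⟨Jᶜ, id, hw, ?_, ⟨hg.cpt.isClosed.isOpen_compl, continuousOn_id, injOn_id _, ?_,
      ?_, ?_⟩⟩
    · intro x hx hxp
      rcases hxp with h | h
      · exact hx (h ▸ hg.pJ)
      · have h' : x = q := h
        exact hx (h' ▸ hg.qJ)
    · intro V _ hV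
      rwa [image_id]
    · intro f V hVJ hV hf
      refine ⟨f, ?_, fun x _ => rfl⟩
      rw [image_id]
      intro x hx
      exact ((hf x hx).1 (hVJ hx)).differentiableAt.differentiableWithinAt
    · intro f g V hVJ hV hgd hfg x hx
      rw [image_id] at hgd
      refine ⟨fun _ => ?_, fun h => absurd h (hVJ hx)⟩
      have h1 : AnalyticAt ℂ g x := hgd.analyticAt (hV.mem_nhds hx)
      refine h1.congr ?_
      filter_upwards [hV.mem_nhds hx] with x' hx'
      exact (hfg x' hx').symm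

/-- PROOF. From `exists_chW` with `V` a neighbourhood of `w` on which `WHol` holds... or directly
from the definition: `w ∉ J` clear; `w ∈ J`: `g ∘ ψ` is continuous at `w`. -/
theorem WHol.continuousAt {p q : ℂ} {J N : Set ℂ} {ψ : ℂ → ℂ} (hg : Gate p q J N ψ) {f : ℂ → ℂ}
    {w : ℂ} (hp : w ≠ p) (hq : w ≠ q) (h : WHol J ψ f w) : ContinuousAt f w := by
  by_cases hw : w ∈ J
  · obtain ⟨g, hga, hev⟩ := h.2 hw
    have hwN : w ∈ N := hg.sub ⟨hw, by
      rintro (h | h)
      · exact hp h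
      · exact hq h⟩
    have h1 : ContinuousAt ψ w := hg.cont.continuousAt (hg.openN.mem_nhds hwN)
    have h2 : ContinuousAt (fun x => g (ψ x)) w :=
      ContinuousAt.comp (f := ψ) (g := g) hga.continuousAt h1
    exact h2.congr (hev.mono fun x hx => hx.symm)
  · exact (h.1 hw).continuousAt

end Pool.Agent.MX018
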