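import Pool.Agent.Lib.MP_018119_an_MX.Place

/-!
# MX: the sequence of gates
-/

set_option autoImplicit false

open Topology Filter Set Metric

namespace Pool.Agent.MX018

/-- Data of one stage of the recursion. -/
private structure ExTowDat where
  s : ℕ → ℝ
  t : ℕ → ℝ
  F : ℂ → ℂ
  e : ℝ

/-- Properties of the data of stage `n`. -/
private structure ExTowOk (γ : ℝ → ℂ) (Q B : Set ℝ) (n : ℕ) (X : ExTowDat) : Prop where
  lt : ∀ k < n, 0 < X.s k ∧ X.s k < X.t k ∧ X.t k < 1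
  mem : ∀ k < n, X.s k ∈ Q ∧ X.t k ∈ Q
  dis : ∀ k m, k < m → m < n → Disjoint (Icc (X.s k) (X.t k)) (Icc (X.s m) (X.t m))
  st : St X.F (γ '' ends X.s X.t B n) (γ '' (Icc 0 1 \ gts X.s X.t n))
  pos : 0 < X.e

/-- Relation of the data of the stages `n` and `n + 1`. -/
private structure ExTowRel (γ : ℝ → ℂ) (B : Set ℝ) (a b : ℝ) (n : ℕ) (X Y : ExTowDat) : Prop where
  eq : ∀ k < n, Y.s k = X.s k ∧ Y.t k = X.t k
  le : 2 * Y.e ≤ X.e
  sep : ∀ x ∉ γ '' ends X.s X.t B n, ∀ y ∉ γ '' ends X.s X.t B n, 1 / ((n : ℝ) + 1) ≤ dist x y →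
    6 * (2 * Y.e) ≤ dist (X.F x) (X.F y)
  close : ∀ z ∉ γ '' ends Y.s Y.t B (n + 1), ‖Y.F z - X.F z‖ ≤ 2 * Y.e
  hit : ∃ k < n + 1, (Ioo a b ∩ Ioo (Y.s k) (Y.t k)).Nonempty

private theorem extow_ends {s t s' t' : ℕ → ℝ} (B : Set ℝ) {n : ℕ}
    (h : ∀ k < n, s' k = s k ∧ t' k = t k) : ends s' t' B n = ends s t B n := by
  ext x
  constructor
  · rintro ⟨hB, k, hk, hx⟩
    refine ⟨hB, k, hk, ?_⟩
    rw [← (h k hk).1, ← (h k hk).2]
    exact hx
  · rintro ⟨hB, k, hk, hx⟩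
    refine ⟨hB, k, hk, ?_⟩
    rw [(h k hk).1, (h k hk).2]
    exact hx

private theorem extow_gts {s t s' t' : ℕ → ℝ} {n : ℕ}
    (h : ∀ k < n, s' k = s k ∧ t' k = t k) : gts s' t' n = gts s t n := by
  ext x
  constructor
  · rintro ⟨k, hk, hx⟩
    refine ⟨k, hk, ?_⟩
    rw [← (h k hk).1, ← (h k hk).2]
    exact hx
  · rintro ⟨k, hk, hx⟩
    refine ⟨k, hk, ?_⟩
    rw [(h k hk).1, (h k hk).2]
    exact hx

/-- One step of the recursion. -/
private theorem extow_step {γ : ℝ → ℂ} (hγ : Crv γ) {Q B : Set ℝ}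
    (hQ : ∀ a b : ℝ, 0 ≤ a → a < b → b ≤ 1 → ∃ x ∈ Q, a < x ∧ x < b) (hstep : Step γ Q B)
    {a b : ℝ} (ha : 0 ≤ a) (hab : a < b) (hb : b ≤ 1) (n : ℕ) (X : ExTowDat)
    (hX : ExTowOk γ Q B n X) : ∃ Y : ExTowDat, ExTowOk γ Q B (n + 1) Y ∧ ExTowRel γ B a b n X Y := by
  obtain ⟨δ, hδ, hsep⟩ := hX.st.sep (1 / ((n : ℝ) + 1)) (by positivity)
  have hε : 0 < min X.e (δ / 6) := lt_min hX.pos (by positivity)
  set ε := min X.e (δ / 6) with hεdef
  have hε1 : ε ≤ X.e := min_le_left _ _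
  have hε2 : ε ≤ δ / 6 := min_le_right _ _
  obtain ⟨s', t', hsQ, htQ, h0s, hst, ht1, hdisj, hhit, c, hc⟩ :=
    place hγ hQ (n := n) hX.lt hX.dis hX.st.cont ha hab hb (ρ := ε / 10) (by positivity)
  set S : ℕ → ℝ := Function.update X.s n s' with hS
  set T : ℕ → ℝ := Function.update X.t n t' with hT
  have hSn : S n = s' := by rw [hS, Function.update_self]
  have hTn : T n = t' := by rw [hT, Function.update_self]
  have heq : ∀ k < n, S k = X.s k ∧ T k = X.t k := by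
    intro k hk
    rw [hS, hT, Function.update_of_ne hk.ne, Function.update_of_ne hk.ne]
    exact ⟨rfl, rfl⟩
  have hltS : ∀ k ≤ n, 0 < S k ∧ S k < T k ∧ T k < 1 := by
    intro k hk
    rcases hk.lt_or_eq with hk | hk
    · rw [(heq k hk).1, (heq k hk).2]
      exact hX.lt k hk
    · rw [hk, hSn, hTn]
      exact ⟨h0s, hst, ht1⟩
  have hdisS : ∀ k < n, Disjoint (Icc (S k) (T k)) (Icc (S n) (T n)) := by
    intro k hk
    rw [(heq k hk).1, (heq k hk).2, hSn, hTn]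
    exact hdisj k hk
  obtain ⟨hgg, hK, hE⟩ := gg_next hγ B hltS hdisS
  have hst' : St X.F (γ '' ends S T B n) (γ '' (Icc 0 1 \ gts S T n)) := by
    rw [extow_ends B heq, extow_gts heq]
    exact hX.st
  obtain ⟨F', hF', hcl⟩ := hstep X.F _ _ (S n) (T n) hst' (by rw [hSn]; exact hsQ)
    (by rw [hTn]; exact htQ) (hltS n le_rfl).1 (hltS n le_rfl).2.1 (hltS n le_rfl).2.2
    (image_mono sdiff_subset) hgg
  rw [hK, hE] at hF'
  rw [hE] at hcl
  refine ⟨⟨S, T, F', ε / 2⟩, ⟨?_, ?_, ?_, hF', by positivity⟩, ⟨heq, ?_, ?_, ?_, ?_⟩⟩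
  · intro k hk
    exact hltS k (Nat.lt_succ_iff.mp hk)
  · intro k hk
    rcases (Nat.lt_succ_iff.mp hk).lt_or_eq with hk | hk
    · change S k ∈ Q ∧ T k ∈ Q
      rw [(heq k hk).1, (heq k hk).2]
      exact hX.mem k hk
    · change S k ∈ Q ∧ T k ∈ Q
      rw [hk, hSn, hTn]
      exact ⟨hsQ, htQ⟩
  · intro k m hkm hm
    change Disjoint (Icc (S k) (T k)) (Icc (S m) (T m))
    rcases (Nat.lt_succ_iff.mp hm).lt_or_eq with hm | hm
    · rw [(heq k (hkm.trans hm)).1, (heq k (hkm.trans hm)).2, (heq m hm).1, (heq m hm).2]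
      exact hX.dis k m hkm hm
    · rw [hm] at hkm ⊢
      exact hdisS k hkm
  · change 2 * (ε / 2) ≤ X.e
    linarith
  · intro x hx y hy hxy
    change 6 * (2 * (ε / 2)) ≤ dist (X.F x) (X.F y)
    have := hsep x hx y hy hxy
    linarith
  · intro z hz
    change ‖F' z - X.F z‖ ≤ 2 * (ε / 2)
    have := hcl c (ε / 10) (by rw [hSn, hTn]; exact hc) z hz
    linarith
  · rcases hhit with h | ⟨k, hk, h⟩
    · refine ⟨n, Nat.lt_succ_self n, ?_⟩
      change (Ioo a b ∩ Ioo (S n) (T n)).Nonempty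
      rw [hSn, hTn]
      exact h
    · refine ⟨k, Nat.lt_succ_of_lt hk, ?_⟩
      change (Ioo a b ∩ Ioo (S k) (T k)).Nonempty
      rw [(heq k hk).1, (heq k hk).2]
      exact h

/-- A sequence of intervals which is cofinal. -/
private theorem extow_int : ∃ I : ℕ → ℝ × ℝ, (∀ n, 0 ≤ (I n).1 ∧ (I n).1 < (I n).2 ∧ (I n).2 ≤ 1) ∧
    ∀ a b : ℝ, 0 ≤ a → a < b → b ≤ 1 → ∃ n, a ≤ (I n).1 ∧ (I n).2 ≤ b := by
  have hne : Nonempty {p : ℚ × ℚ // 0 ≤ p.1 ∧ p.1 < p.2 ∧ p.2 ≤ 1} := ⟨⟨(0, 1), by norm_num⟩⟩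
  obtain ⟨f, hf⟩ := exists_surjective_nat {p : ℚ × ℚ // 0 ≤ p.1 ∧ p.1 < p.2 ∧ p.2 ≤ 1}
  refine ⟨fun n => (((f n).1.1 : ℝ), ((f n).1.2 : ℝ)), ?_, ?_⟩
  · intro n
    obtain ⟨h1, h2, h3⟩ := (f n).2
    dsimp only
    refine ⟨?_, ?_, ?_⟩
    · exact_mod_cast h1
    · exact_mod_cast h2
    · exact_mod_cast h3
  · intro a b ha hab hb
    obtain ⟨q, hq1, hq2⟩ := exists_rat_btwn hab
    obtain ⟨r, hr1, hr2⟩ := exists_rat_btwn hq2
    have h1 : (0 : ℝ) ≤ q := ha.trans hq1.le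
    have h3 : (r : ℝ) ≤ 1 := hr2.le.trans hb
    obtain ⟨n, hn⟩ := hf ⟨(q, r), by exact_mod_cast h1, by exact_mod_cast hr1, by exact_mod_cast h3⟩
    refine ⟨n, ?_, ?_⟩
    · simp only [hn]
      exact hq1.le
    · simp only [hn]
      exact hr2.le

/-- Existence of the tower.
PROOF. Enumerate the intervals `Ioo a b` with rational ends `0 ≤ a < b ≤ 1` as `I n`. Construct
by recursion: given the gates `s k, t k` for `k < n`, the map `F n` with
`St (F n) (γ '' ends s t B n) (γ '' (Icc 0 1 \ gts s t n))`, and a budget `e n > 0`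
(`e 0 = ε₀ / 2`): let `δ > 0` be given by `St.sep` for `η = 1 / (n + 1)`, put
`ε n = min (e n) (δ / 6)`; by `place` with `ρ = ε n / 10` and the interval `I n` there is a gate
`s n, t n`; `gg_next` and `Step` give `F (n + 1)` with the new state and
`‖F (n + 1) z - F n z‖ ≤ 10 * ρ = ε n` off `γ '' ends s t B (n + 1)`; `e (n + 1) = ε n / 2`. The data
at stage `n` can be stored as a list of gates (or a pair of functions `ℕ → ℝ` of which only the
values at `k < n` matter) together with `F n` and `e n`; note that `ends s t B n` and `gts s t n`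
depend only on the values at `k < n`. Density: every `Ioo a b` contains some `I n`, which meets a
gate. -/
theorem exists_tower {γ : ℝ → ℂ} (hγ : Crv γ) {Q B : Set ℝ}
    (hQ : ∀ a b : ℝ, 0 ≤ a → a < b → b ≤ 1 → ∃ x ∈ Q, a < x ∧ x < b) (hstep : Step γ Q B)
    {F₀ : ℂ → ℂ} (h₀ : St F₀ ∅ (γ '' Icc 0 1)) {ε₀ : ℝ} (hε : 0 < ε₀) :
    ∃ (F : ℕ → ℂ → ℂ) (s t ε : ℕ → ℝ), F 0 = F₀ ∧ Tower γ Q B F s t ε ε₀ := by
  obtain ⟨I, hI, hIc⟩ := extow_int
  have hstep' : ∀ (n : ℕ) (X : {X : ExTowDat // ExTowOk γ Q B n X}),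
      ∃ Y : {Y : ExTowDat // ExTowOk γ Q B (n + 1) Y}, ExTowRel γ B (I n).1 (I n).2 n X.1 Y.1 := by
    intro n X
    obtain ⟨Y, h1, h2⟩ := extow_step hγ hQ hstep (hI n).1 (hI n).2.1 (hI n).2.2 n X.1 X.2
    exact ⟨⟨Y, h1⟩, h2⟩
  choose nxt hnxt using hstep'
  have hends0 : ends (fun _ => (0 : ℝ)) (fun _ => 0) B 0 = ∅ := by
    ext x
    simp [ends]
  have hgts0 : gts (fun _ => (0 : ℝ)) (fun _ => 0) 0 = ∅ := by
    ext x
    simp [gts]
  have hX0 : ExTowOk γ Q B 0 ⟨fun _ => 0, fun _ => 0, F₀, ε₀ / 2⟩ := by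
    refine ⟨fun k hk => absurd hk (Nat.not_lt_zero k), fun k hk => absurd hk (Nat.not_lt_zero k),
      fun k m _ hm => absurd hm (Nat.not_lt_zero m), ?_, ?_⟩
    · change St F₀ (γ '' ends (fun _ => (0 : ℝ)) (fun _ => 0) B 0)
        (γ '' (Icc 0 1 \ gts (fun _ => (0 : ℝ)) (fun _ => 0) 0))
      rw [hends0, hgts0, image_empty, sdiff_empty]
      exact h₀
    · change 0 < ε₀ / 2
      positivity
  let X : (n : ℕ) → {X : ExTowDat // ExTowOk γ Q B n X} :=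
    fun n => Nat.rec ⟨⟨fun _ => 0, fun _ => 0, F₀, ε₀ / 2⟩, hX0⟩ (fun n x => nxt n x) n
  have hXs : ∀ n, ExTowRel γ B (I n).1 (I n).2 n (X n).1 (X (n + 1)).1 := fun n => hnxt n (X n)
  set s : ℕ → ℝ := fun k => (X (k + 1)).1.s k with hs
  set t : ℕ → ℝ := fun k => (X (k + 1)).1.t k with ht
  have hst : ∀ n, ∀ k < n, s k = (X n).1.s k ∧ t k = (X n).1.t k := by
    intro n
    induction n with
    | zero => intro k hk; exact absurd hk (Nat.not_lt_zero k)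
    | succ n ih =>
      intro k hk
      rcases (Nat.lt_succ_iff.mp hk).lt_or_eq with hk | hk
      · rw [((hXs n).eq k hk).1, ((hXs n).eq k hk).2]
        exact ih k hk
      · subst hk
        exact ⟨rfl, rfl⟩
  have hE : ∀ n, ends s t B n = ends (X n).1.s (X n).1.t B n := fun n => extow_ends B (hst n)
  have hG : ∀ n, gts s t n = gts (X n).1.s (X n).1.t n := fun n => extow_gts (hst n)
  have hlt : ∀ n, 0 < s n ∧ s n < t n ∧ t n < 1 := fun n =>
    (X (n + 1)).2.lt n (Nat.lt_succ_self n)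
  refine ⟨fun n => (X n).1.F, s, t, fun n => 2 * (X (n + 1)).1.e, rfl, ?_⟩
  refine ⟨⟨hlt, ?_, ?_⟩, ?_, ?_, ?_, ?_, ?_, ?_, ?_⟩
  · intro m n hmn
    have h1 := hst (n + 1) m (hmn.trans (Nat.lt_succ_self n))
    have h2 := hst (n + 1) n (Nat.lt_succ_self n)
    rw [h1.1, h1.2, h2.1, h2.2]
    exact (X (n + 1)).2.dis m n hmn (Nat.lt_succ_self n)
  · intro a b ha hab hb
    obtain ⟨n, hn1, hn2⟩ := hIc a b ha hab hb
    obtain ⟨k, hk, x, hx1, hx2⟩ := (hXs n).hit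
    refine ⟨k, x, ⟨hn1.trans_lt hx1.1, hx1.2.trans_le hn2⟩, ?_⟩
    have h1 := hst (n + 1) k hk
    rw [h1.1, h1.2]
    exact hx2
  · intro n
    exact (X (n + 1)).2.mem n (Nat.lt_succ_self n)
  · intro n
    rw [hE n, hG n]
    exact (X n).2.st
  · intro n z hz
    rw [hE (n + 1)] at hz
    exact (hXs n).close z hz
  · intro n
    have := (X (n + 1)).2.pos
    positivity
  · intro n
    have := (hXs (n + 1)).le
    change 2 * (X (n + 1 + 1)).1.e ≤ 2 * (X (n + 1)).1.e / 2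
    linarith
  · have := (hXs 0).le
    exact this
  · intro n x hx y hy hxy
    rw [hE n] at hx hy
    exact (hXs n).sep x hx y hy hxy

end Pool.Agent.MX018
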