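import Pool.Agent.Lib.MP_018119_an_MX.Defs

/-!
# MX: the logarithmic coordinate of a gate
-/

set_option autoImplicit false

open Topology Filter Set Metric

namespace Pool.Agent.MX018

/-- The covering map of the sphere without `p`, `q`: `(w - p) / (w - q) = exp z`. -/
noncomputable def Wm (p q z : ℂ) : ℂ := (p - q * Complex.exp z) / (1 - Complex.exp z)

theorem GateM_strict (p q z : ℂ) (hz : Complex.exp z ≠ 1) :
    HasStrictDerivAt (Wm p q) ((Complex.exp z * (p - q)) / (1 - Complex.exp z) ^ 2) z := by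
  have h1 : (1 : ℂ) - Complex.exp z ≠ 0 := sub_ne_zero.2 (Ne.symm hz)
  have he := Complex.hasStrictDerivAt_exp z
  have hn : HasStrictDerivAt (fun z => p - q * Complex.exp z) (-(q * Complex.exp z)) z := by
    have := (he.const_mul q).const_sub p
    simpa using this
  have hd : HasStrictDerivAt (fun z => (1 : ℂ) - Complex.exp z) (-(Complex.exp z)) z := by
    simpa using he.const_sub 1
  have := hn.div hd h1
  refine this.congr_deriv ?_
  congr 1
  ring

theorem GateM_cont (p q z : ℂ) (hz : Complex.exp z ≠ 1) : ContinuousAt (Wm p q) z :=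
  (GateM_strict p q z hz).hasDerivAt.continuousAt

theorem GateM_isOpen_ne : IsOpen {z : ℂ | Complex.exp z ≠ 1} :=
  isOpen_ne_fun Complex.continuous_exp continuous_const

theorem GateM_image_open {p q : ℂ} (hpq : p ≠ q) {U : Set ℂ} (hU : IsOpen U)
    (h : ∀ z ∈ U, Complex.exp z ≠ 1) : IsOpen (Wm p q '' U) := by
  rw [isOpen_iff_mem_nhds]
  rintro _ ⟨z, hz, rfl⟩
  have h1 : (1 : ℂ) - Complex.exp z ≠ 0 := sub_ne_zero.2 (Ne.symm (h z hz))
  have hs := GateM_strict p q z (h z hz)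
  have hne : (Complex.exp z * (p - q)) / (1 - Complex.exp z) ^ 2 ≠ 0 :=
    div_ne_zero (mul_ne_zero (Complex.exp_ne_zero z) (sub_ne_zero.2 hpq)) (pow_ne_zero 2 h1)
  rw [← hs.map_nhds_eq hne]
  exact image_mem_map (hU.mem_nhds hz)

theorem GateM_ne_p {p q : ℂ} (hpq : p ≠ q) {z : ℂ} (hz : Complex.exp z ≠ 1) : Wm p q z ≠ p := by
  have h1 : (1 : ℂ) - Complex.exp z ≠ 0 := sub_ne_zero.2 (Ne.symm hz)
  intro h
  unfold Wm at h
  rw [div_eq_iff h1] at h
  have : (p - q) * Complex.exp z = 0 := by linear_combination h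
  rcases mul_eq_zero.1 this with h2 | h2
  · exact hpq (sub_eq_zero.1 h2)
  · exact Complex.exp_ne_zero z h2

theorem GateM_ne_q {p q : ℂ} (hpq : p ≠ q) {z : ℂ} (hz : Complex.exp z ≠ 1) : Wm p q z ≠ q := by
  have h1 : (1 : ℂ) - Complex.exp z ≠ 0 := sub_ne_zero.2 (Ne.symm hz)
  intro h
  unfold Wm at h
  rw [div_eq_iff h1] at h
  exact hpq (by linear_combination h)

theorem GateM_exp {p q : ℂ} (hpq : p ≠ q) {z z' : ℂ} (hz : Complex.exp z ≠ 1)
    (hz' : Complex.exp z' ≠ 1) (h : Wm p q z = Wm p q z') : Complex.exp z = Complex.exp z' := by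
  have h1 : (1 : ℂ) - Complex.exp z ≠ 0 := sub_ne_zero.2 (Ne.symm hz)
  have h2 : (1 : ℂ) - Complex.exp z' ≠ 0 := sub_ne_zero.2 (Ne.symm hz')
  unfold Wm at h
  rw [div_eq_div_iff h1 h2] at h
  have : (p - q) * (Complex.exp z - Complex.exp z') = 0 := by linear_combination h
  rcases mul_eq_zero.1 this with h3 | h3
  · exact absurd (sub_eq_zero.1 h3) hpq
  · exact sub_eq_zero.1 h3

theorem GateM_close {z z' : ℂ} (h : Complex.exp z = Complex.exp z')
    (hd : ‖z - z'‖ < 2 * Real.pi) : z = z' := by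
  obtain ⟨n, hn⟩ := Complex.exp_eq_exp_iff_exists_int.1 h
  have h1 : z - z' = n * (2 * Real.pi * Complex.I) := by rw [hn]; ring
  rw [h1] at hd
  have h2 : ‖((n : ℂ) * (2 * Real.pi * Complex.I))‖ = |(n : ℝ)| * (2 * Real.pi) := by
    rw [norm_mul, norm_mul, norm_mul]
    simp [abs_of_pos Real.pi_pos]
  rw [h2] at hd
  have hp : 0 < 2 * Real.pi := by positivity
  have h3 : |(n : ℝ)| < 1 := by
    by_contra hcon
    push Not at hcon
    nlinarith
  have h4 : n = 0 := by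
    have : |n| < 1 := by exact_mod_cast h3
    exact Int.abs_lt_one_iff.1 this
  rw [h4] at h1
  simpa [sub_eq_zero] using h1

theorem GateM_per_exp (z : ℂ) : Complex.exp (z + 2 * Real.pi * Complex.I) = Complex.exp z :=
  Complex.exp_periodic z

theorem GateM_per_W (p q z : ℂ) : Wm p q (z + 2 * Real.pi * Complex.I) = Wm p q z := by
  unfold Wm
  rw [GateM_per_exp]

/-- Near a point with `exp z = 1` the map `Wm` is large. -/
theorem GateM_large {p q : ℂ} (hpq : p ≠ q) {z : ℂ} (hz : Complex.exp z = 1) (R : ℝ) :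
    ∀ᶠ x in 𝓝 z, Complex.exp x ≠ 1 → R < ‖Wm p q x‖ := by
  have hpq' : 0 < ‖p - q‖ := norm_pos_iff.2 (sub_ne_zero.2 hpq)
  have hn : Tendsto (fun x => ‖p - q * Complex.exp x‖) (𝓝 z) (𝓝 ‖p - q‖) := by
    have h : ContinuousAt (fun x => ‖p - q * Complex.exp x‖) z := by fun_prop
    have h2 := h.tendsto
    simpa [hz] using h2
  have hd : Tendsto (fun x => ‖1 - Complex.exp x‖) (𝓝 z) (𝓝 0) := by
    have h : ContinuousAt (fun x => ‖1 - Complex.exp x‖) z := by fun_prop
    have h2 := h.tendsto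
    simpa [hz] using h2
  have e1 : ∀ᶠ x in 𝓝 z, ‖p - q‖ / 2 < ‖p - q * Complex.exp x‖ :=
    hn.eventually (lt_mem_nhds (by linarith))
  have hε : 0 < ‖p - q‖ / (2 * (|R| + 1)) := by positivity
  have e2 : ∀ᶠ x in 𝓝 z, ‖1 - Complex.exp x‖ < ‖p - q‖ / (2 * (|R| + 1)) :=
    hd.eventually (gt_mem_nhds hε)
  filter_upwards [e1, e2] with x h1 h2 hx
  have h3 : 0 < ‖1 - Complex.exp x‖ := norm_pos_iff.2 (sub_ne_zero.2 (Ne.symm hx))
  unfold Wm
  rw [norm_div, lt_div_iff₀ h3]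
  have h4 : ‖1 - Complex.exp x‖ * (2 * (|R| + 1)) < ‖p - q‖ := by
    rwa [lt_div_iff₀ (by positivity)] at h2
  have h5 : R ≤ |R| := le_abs_self R
  nlinarith [abs_nonneg R]

/-- The structure of a gate in the logarithmic coordinate.
PROOF of the fields. `Wm p q` is analytic on the open set `{exp z ≠ 1}`, it does not take the values
`p`, `q` there, and `Wm p q z = Wm p q z'` iff `exp z = exp z'`; it is locally injective and (being
analytic and locally injective, or locally non constant) open on `{exp z ≠ 1}`. `closedC`: let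
`z_n → z`, `z_n ∈ C`; if `exp z = 1` then `‖Wm p q z_n‖ → ∞` (numerator `→ p - q ≠ 0`), but `J` is
bounded; so `exp z ≠ 1`, and `Wm p q z_n → Wm p q z ∈ J`. `sub`: `Wm p q z ∈ J` and
`Wm p q z ≠ p, q`, so it is in `N`. `hol`: at a point of `N \ C`, `Wm p q z ∈ N \ J`. -/
noncomputable def gateM {p q : ℂ} {J N : Set ℂ} {ψ : ℂ → ℂ} (hg : Gate p q J N ψ) : MPl where
  C := {z | Complex.exp z ≠ 1 ∧ Wm p q z ∈ J}
  N := {z | Complex.exp z ≠ 1 ∧ Wm p q z ∈ N}
  ψ := fun z => ψ (Wm p q z)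
  closedC := by
    rw [← isOpen_compl_iff, isOpen_iff_mem_nhds]
    intro z hz
    by_cases h1 : Complex.exp z = 1
    · obtain ⟨R, hR⟩ := hg.cpt.isBounded.exists_norm_le
      filter_upwards [GateM_large hg.ne h1 R] with x hx
      rintro ⟨hx1, hx2⟩
      exact absurd (hR _ hx2) (not_le.2 (hx hx1))
    · have h2 : Wm p q z ∉ J := fun h => hz ⟨h1, h⟩
      have h3 := (GateM_cont p q z h1).preimage_mem_nhds
        (hg.cpt.isClosed.isOpen_compl.mem_nhds h2)
      filter_upwards [h3] with x hx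
      rintro ⟨-, hx2⟩
      exact hx hx2
  openN := by
    rw [isOpen_iff_mem_nhds]
    rintro z ⟨h1, h2⟩
    filter_upwards [GateM_isOpen_ne.mem_nhds h1,
      (GateM_cont p q z h1).preimage_mem_nhds (hg.openN.mem_nhds h2)] with x hx hx2
    exact ⟨hx, hx2⟩
  sub := by
    rintro z ⟨h1, h2⟩
    refine ⟨h1, hg.sub ⟨h2, ?_⟩⟩
    rintro (h | h)
    · exact GateM_ne_p hg.ne h1 h
    · exact GateM_ne_q hg.ne h1 h
  cont := by
    rintro z ⟨h1, h2⟩
    have h3 : ContinuousAt ψ (Wm p q z) := hg.cont.continuousAt (hg.openN.mem_nhds h2)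
    exact (ContinuousAt.comp (f := Wm p q) (g := ψ) h3 (GateM_cont p q z h1)).continuousWithinAt
  opn := by
    intro U hU hUo
    have h1 : IsOpen (Wm p q '' U) := GateM_image_open hg.ne hUo fun z hz => (hU hz).1
    have h2 : IsOpen (ψ '' (Wm p q '' U)) := by
      refine hg.opn _ ?_ h1
      rintro _ ⟨z, hz, rfl⟩
      exact (hU hz).2
    rwa [image_image] at h2
  locinj := by
    rintro z ⟨h1, h2⟩
    refine ⟨ball z Real.pi ∩ {z | Complex.exp z ≠ 1 ∧ Wm p q z ∈ N}, ?_, ?_⟩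
    · refine inter_mem (ball_mem_nhds z Real.pi_pos) ?_
      filter_upwards [GateM_isOpen_ne.mem_nhds h1,
        (GateM_cont p q z h1).preimage_mem_nhds (hg.openN.mem_nhds h2)] with x hx hx2
      exact ⟨hx, hx2⟩
    · rintro x ⟨hx, hx1, hx2⟩ y ⟨hy, hy1, hy2⟩ hxy
      have h3 : Wm p q x = Wm p q y := hg.inj hx2 hy2 hxy
      refine GateM_close (GateM_exp hg.ne hx1 hy1 h3) ?_
      rw [← dist_eq_norm]
      have h4 := dist_triangle_right x y z
      rw [mem_ball] at hx hy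
      linarith
  hol := by
    rintro z ⟨⟨h1, h2⟩, h3⟩
    have h4 : Wm p q z ∉ J := fun h => h3 ⟨h1, h⟩
    have h5 : IsOpen (N \ J) := hg.openN.sdiff hg.cpt.isClosed
    have h6 : DifferentiableAt ℂ ψ (Wm p q z) :=
      hg.hol.differentiableAt (h5.mem_nhds ⟨h2, h4⟩)
    exact (DifferentiableAt.comp z h6
      (GateM_strict p q z h1).hasDerivAt.differentiableAt).differentiableWithinAt

theorem gateM_per {p q : ℂ} {J N : Set ℂ} {ψ : ℂ → ℂ} (hg : Gate p q J N ψ) : (gateM hg).Per := by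
  refine ⟨fun z => ?_, fun z => ?_, fun z _ => ?_⟩
  · show (Complex.exp (z + 2 * Real.pi * Complex.I) ≠ 1 ∧
      Wm p q (z + 2 * Real.pi * Complex.I) ∈ J) ↔ (Complex.exp z ≠ 1 ∧ Wm p q z ∈ J)
    rw [GateM_per_exp, GateM_per_W]
  · show (Complex.exp (z + 2 * Real.pi * Complex.I) ≠ 1 ∧
      Wm p q (z + 2 * Real.pi * Complex.I) ∈ N) ↔ (Complex.exp z ≠ 1 ∧ Wm p q z ∈ N)
    rw [GateM_per_exp, GateM_per_W]
  · show ψ (Wm p q (z + 2 * Real.pi * Complex.I)) = ψ (Wm p q z)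
    rw [GateM_per_W]

/-- PROOF. `C` has empty interior (`Wm p q` is open and `J` has empty interior), so the nonempty
open set `{M < Re z < M + 1}` is not contained in `C`. -/
theorem gateM_radius {p q : ℂ} {J N : Set ℂ} {ψ : ℂ → ℂ} (hg : Gate p q J N ψ) (M : ℝ) :
    ∃ x₀ : ℂ, M < x₀.re ∧ x₀ ∉ (gateM hg).C := by
  by_contra hcon
  push Not at hcon
  set U : Set ℂ := {x : ℂ | M < x.re} with hUdef
  have hU : IsOpen U := isOpen_lt continuous_const Complex.continuous_re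
  have hUC : ∀ x ∈ U, Complex.exp x ≠ 1 ∧ Wm p q x ∈ J := fun x hx => hcon x hx
  have h1 : IsOpen (Wm p q '' U) := GateM_image_open hg.ne hU fun z hz => (hUC z hz).1
  have h2 : Wm p q '' U ⊆ J := by
    rintro _ ⟨z, hz, rfl⟩
    exact (hUC z hz).2
  have h3 : Wm p q '' U ⊆ interior J := interior_maximal h2 h1
  rw [hg.int] at h3
  have h4 : ((M + 1 : ℝ) : ℂ) ∈ U := by
    show M < ((M + 1 : ℝ) : ℂ).re
    rw [Complex.ofReal_re]
    linarith
  exact h3 ⟨_, h4, rfl⟩

end Pool.Agent.MX018
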