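import Pool.Agent.Lib.MP_018119_an_MX.Defs
import Pool.Agent.Lib.MP_1f4a82_an.GreenMap

/-!
# MX: the holomorphic function with modulus `exp (- G)`
-/

set_option autoImplicit false

open Topology Filter Set Metric

namespace Pool.Agent.MX018

open Pool.Agent.Lib.MP_1f4a82_an

section Sub

variable {X : Type} [TopologicalSpace X] [RS X]

/-- An open subset of a Riemann surface is a Riemann surface. -/
@[reducible] private noncomputable def GlueY_rs {U : Set X} (hU : IsOpen U) [Nonempty U] :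
    RS U where
  atlas := (fun e => (hU.isOpenEmbedding_subtypeVal.toOpenPartialHomeomorph Subtype.val).trans e) ''
    RS.atlas (X := X)
  exists_chart := fun p => by
    obtain ⟨e, he, hp⟩ := RS.exists_chart (p : X)
    exact ⟨_, ⟨e, he, rfl⟩, by simp [hp]⟩
  compat := by
    rintro _ ⟨e, he, rfl⟩ _ ⟨e', he', rfl⟩ z hz hz'
    simp only [OpenPartialHomeomorph.trans_target, mem_inter_iff, mem_preimage] at hz
    obtain ⟨hz1, hz2⟩ := hz
    have h3 : e.symm z ∈ U := by simpa using hz2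
    have h4 : (hU.isOpenEmbedding_subtypeVal.toOpenPartialHomeomorph Subtype.val)
        ((hU.isOpenEmbedding_subtypeVal.toOpenPartialHomeomorph Subtype.val).symm (e.symm z))
        = e.symm z :=
      OpenPartialHomeomorph.right_inv _ hz2
    have h5 : e.symm z ∈ e'.source := by
      have h6 : (hU.isOpenEmbedding_subtypeVal.toOpenPartialHomeomorph Subtype.val)
        ((hU.isOpenEmbedding_subtypeVal.toOpenPartialHomeomorph Subtype.val).symm (e.symm z))
         ∈ e'.source := by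
        simpa using hz'
      rwa [h4] at h6
    refine (RS.compat e he e' he' z hz1 h5).congr ?_
    have h7 : ∀ᶠ w in 𝓝 z, e.symm w ∈ U := by
      exact (e.continuousAt_symm hz1).eventually_mem (hU.mem_nhds h3)
    filter_upwards [h7] with w hw
    have hw2 : e.symm w ∈ (hU.isOpenEmbedding_subtypeVal.toOpenPartialHomeomorph
      (Subtype.val : U → X)).target := by simpa using hw
    have h8 : (hU.isOpenEmbedding_subtypeVal.toOpenPartialHomeomorph Subtype.val)
        ((hU.isOpenEmbedding_subtypeVal.toOpenPartialHomeomorph Subtype.val).symm (e.symm w))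
        = e.symm w :=
      OpenPartialHomeomorph.right_inv _ hw2
    simp only [OpenPartialHomeomorph.coe_trans, OpenPartialHomeomorph.trans_symm_eq_symm_trans_symm,
      Function.comp_apply]
    rw [h8]

private theorem GlueY_symm {U : Set X} (hU : IsOpen U) [Nonempty U] (p : U)
    {e : OpenPartialHomeomorph X ℂ} (hp : (p : X) ∈ e.source) :
    ∀ᶠ w in 𝓝 (e p), (((hU.isOpenEmbedding_subtypeVal.toOpenPartialHomeomorph
    Subtype.val).trans e).symm w : U).1 = e.symm w ∧ w ∈ e.target := by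
  have h7 : ∀ᶠ w in 𝓝 (e p), e.symm w ∈ U := by
    refine (e.continuousAt_symm (e.map_source hp)).eventually_mem (hU.mem_nhds ?_)
    rw [e.left_inv hp]; exact p.2
  filter_upwards [h7, e.open_target.mem_nhds (e.map_source hp)] with w hw hwt
  have hw2 : e.symm w ∈ (hU.isOpenEmbedding_subtypeVal.toOpenPartialHomeomorph
      (Subtype.val : U → X)).target := by simpa using hw
  have h8 : (hU.isOpenEmbedding_subtypeVal.toOpenPartialHomeomorph Subtype.val)
        ((hU.isOpenEmbedding_subtypeVal.toOpenPartialHomeomorph Subtype.val).symm (e.symm w))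
        = e.symm w :=
      OpenPartialHomeomorph.right_inv _ hw2
  exact ⟨h8, hwt⟩

private theorem GlueY_val {U : Set X} (hU : IsOpen U) [Nonempty U] (p : U) :
    @HolAt U X _ _ (GlueY_rs hU) _ Subtype.val p := by
  let _ := GlueY_rs hU
  obtain ⟨e, he, hp⟩ := RS.exists_chart (p : X)
  refine HolAt.of_charts (e := (hU.isOpenEmbedding_subtypeVal.toOpenPartialHomeomorph
    Subtype.val).trans e) continuous_subtype_val.continuousAt ⟨e, he, rfl⟩ he (by simp [hp]) hp ?_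
  refine analyticAt_id.congr ?_
  have h1 : (((hU.isOpenEmbedding_subtypeVal.toOpenPartialHomeomorph
    Subtype.val).trans e) p) = e p := rfl
  rw [h1]
  filter_upwards [GlueY_symm hU p hp] with w hw
  rw [hw.1, e.right_inv hw.2]; rfl

/-- A function is holomorphic if its restriction to an open set is so. -/
private theorem GlueY_of_val {U : Set X} (hU : IsOpen U) [Nonempty U] (p : U) {f : X → ℂ}
    (h : @HolAt U ℂ _ _ (GlueY_rs hU) _ (fun x => f x.1) p) : HolAt f p.1 := by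
  let _ := GlueY_rs hU
  obtain ⟨e, he, hp⟩ := RS.exists_chart (p : X)
  rw [holAt_iff_of_chart he hp]
  have hmem : (hU.isOpenEmbedding_subtypeVal.toOpenPartialHomeomorph
      (Subtype.val : U → X)).trans e ∈ RS.atlas (X := U) := ⟨e, he, rfl⟩
  have h2 := (holAt_iff_of_chart (X := U) hmem (by simp [hp])).1 h
  have h1 : (((hU.isOpenEmbedding_subtypeVal.toOpenPartialHomeomorph
    Subtype.val).trans e) p) = e p := rfl
  rw [h1] at h2
  refine h2.congr ?_
  filter_upwards [GlueY_symm hU p hp] with w hw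
  rw [hw.1]

private theorem GlueY_loc {Y : Set X} (hYo : IsOpen Y) [T2Space X] {q p : X} (hp : p ∈ Y)
    (hpq : p ≠ q) {G : X → ℝ} (h1 : HarmAt G p) :
    ∃ (U : Set X) (s : X → ℂ), IsOpen U ∧ p ∈ U ∧ U ⊆ Y ∧ q ∉ U ∧ (∀ x ∈ U, HolAt s x) ∧
      ∀ x ∈ U, ‖s x‖ = Real.exp (- G x) := by
  obtain ⟨F, hF1, hF2⟩ := h1
  have h1 : ∀ᶠ x in 𝓝 p, HolAt F x ∧ G x = (F x).re ∧ x ≠ q ∧ x ∈ Y := by
    filter_upwards [hF1.eventually, hF2, isOpen_ne.mem_nhds hpq, hYo.mem_nhds hp]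
      with x h1 h2 h3 h4 using ⟨h1, h2, h3, h4⟩
  obtain ⟨U, hU1, hU2, hU3⟩ := eventually_nhds_iff.mp h1
  refine ⟨U, fun x => Complex.exp (- F x), hU2, hU3, fun x hx => (hU1 x hx).2.2.2,
    fun h => (hU1 q h).2.2.1 rfl, fun x hx => (hU1 x hx).1.neg.cexp, fun x hx => ?_⟩
  rw [Complex.norm_exp, Complex.neg_re, (hU1 x hx).2.1]

private theorem GlueY_locq {Y : Set X} (hYo : IsOpen Y) {q : X} (hq : q ∈ Y) {G : X → ℝ}
    (h3 : ∀ e ∈ RS.atlas (X := X), q ∈ e.source → ∃ H : X → ℝ, HarmAt H q ∧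
        ∀ᶠ p in 𝓝[≠] q, G p = H p - Real.log ‖e p - e q‖) :
    ∃ (U : Set X) (s : X → ℂ), IsOpen U ∧ q ∈ U ∧ U ⊆ Y ∧ (∀ x ∈ U, HolAt s x) ∧
      (∀ x ∈ U, x ≠ q → ‖s x‖ = Real.exp (- G x)) ∧ s q = 0 := by
  obtain ⟨e, he, hqe⟩ := RS.exists_chart q
  obtain ⟨H, hH1, hH2⟩ := h3 e he hqe
  obtain ⟨Fq, hFq1, hFq2⟩ := hH1
  have h1 : ∀ᶠ x in 𝓝 q, x ∈ Y ∧ x ∈ e.source ∧ HolAt Fq x ∧ H x = (Fq x).re ∧
      (x ≠ q → G x = H x - Real.log ‖e x - e q‖) := by
    filter_upwards [hYo.mem_nhds hq, e.open_source.mem_nhds hqe, hFq1.eventually, hFq2,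
      eventually_nhdsWithin_iff.mp hH2] with x h1 h2 h3 h4 h5
    exact ⟨h1, h2, h3, h4, h5⟩
  obtain ⟨W, hW, hWo, hqW⟩ := eventually_nhds_iff.mp h1
  refine ⟨W, fun x => (e x - e q) * Complex.exp (- Fq x), hWo, hqW, fun x hx => (hW x hx).1,
    fun x hx => ?_, fun x hx hxq => ?_, by simp⟩
  · obtain ⟨h1, h2, h3, h4, h5⟩ := hW x hx
    exact ((holAt_chart he h2).sub (holAt_const _ _)).mul (h3.neg.cexp)
  · obtain ⟨h1, h2, h3, h4, h5⟩ := hW x hx
    have hne : e x - e q ≠ 0 := sub_ne_zero.mpr fun h => hxq (e.injOn h2 hqe h)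
    rw [norm_mul, Complex.norm_exp, Complex.neg_re, ← h4, h5 hxq,
      neg_sub, Real.exp_sub, Real.exp_log (norm_pos_iff.mpr hne), Real.exp_neg, div_eq_mul_inv]

private theorem GlueY_glue [T2Space X] (Y : Set X) (hYo : IsOpen Y)
    (hsc : SimplyConnectedSpace ↥Y) (q : X) (hq : q ∈ Y) (G : X → ℝ)
    (h1 : ∀ p ∈ Y, p ≠ q → HarmAt G p)
    (h3 : ∀ e ∈ RS.atlas (X := X), q ∈ e.source → ∃ H : X → ℝ, HarmAt H q ∧
        ∀ᶠ p in 𝓝[≠] q, G p = H p - Real.log ‖e p - e q‖) :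
    ∃ φ : X → ℂ, (∀ p ∈ Y, HolAt φ p) ∧ φ q = 0 ∧
      ∀ p ∈ Y, p ≠ q → ‖φ p‖ = Real.exp (- G p) := by
  classical
  have key : ∀ p : Y, ∃ (U : Set X) (s : X → ℂ), IsOpen U ∧ p.1 ∈ U ∧ (∀ x ∈ U, HolAt s x) ∧
      (∀ x ∈ U, x ≠ q → ‖s x‖ = Real.exp (- G x)) ∧ (q ∈ U → p.1 = q) ∧
      (p.1 = q → s q = 0) := by
    rintro ⟨p, hp⟩
    by_cases hpq : p = q
    · obtain ⟨U, s, a1, a2, a3, a4, a5, a6⟩ := GlueY_locq hYo hq h3
      exact ⟨U, s, a1, (show p ∈ U by rw [hpq]; exact a2), a4, a5, fun _ => hpq, fun _ => a6⟩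
    · obtain ⟨U, s, a1, a2, a3, a4, a5, a6⟩ := GlueY_loc hYo hp hpq (h1 p hp hpq)
      exact ⟨U, s, a1, a2, a5, fun x hx _ => a6 x hx, fun h => absurd h a4, fun h => absurd h hpq⟩
  choose U s k1 k2 k3 k4 k5 k6 using key
  have hne : Nonempty Y := ⟨⟨q, hq⟩⟩
  let _ := GlueY_rs hYo
  obtain ⟨φ, hφ1, hφ2⟩ := exists_glue (X := Y) (fun x => G x.1) ⟨q, hq⟩ ⟨q, hq⟩
    (fun p => Subtype.val ⁻¹' (U p)) (fun p x => ((s p x.1 : ℂ) : P))
    (fun p => (k1 p).preimage continuous_subtype_val) (fun p => k2 p)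
    (fun p x hx => by
      have h := HolAt.comp (g := s p) (f := Subtype.val) (k3 p x.1 hx) (GlueY_val hYo x)
      exact h.coe)
    (fun p x hx hx1 _ => by
      refine ⟨OnePoint.coe_ne_infty _, ?_⟩
      rw [valP_coe]
      exact k4 p x.1 hx (fun h => hx1 (Subtype.ext h)))
    (fun p h => Subtype.ext (k5 p h)) (fun p h => Subtype.ext (k5 p h))
  have hval : ∀ x : Y, φ x ≠ OnePoint.infty ∧ ∃ u : ℂ, ‖u‖ = 1 ∧
      valP (φ x) = u * s x x.1 := by
    intro x
    obtain ⟨u, hu, h⟩ := hφ2 x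
    have h' : φ x = affP u 0 ((s x x.1 : ℂ) : P) := h
    rw [affP_coe] at h'
    rw [h']
    refine ⟨OnePoint.coe_ne_infty _, u, hu, ?_⟩
    rw [valP_coe, add_zero]
  refine ⟨fun x => if h : x ∈ Y then valP (φ ⟨x, h⟩) else 0, ?_, ?_, ?_⟩
  · intro p hp
    refine GlueY_of_val hYo ⟨p, hp⟩ ?_
    have h4 : (fun x : Y => (fun x : X => if h : x ∈ Y then valP (φ ⟨x, h⟩) else 0) x.1) =
        fun x => valP (φ x) := by
      funext x
      exact dif_pos x.2
    rw [h4]
    exact (hφ1 ⟨p, hp⟩).valP (hval _).1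
  · simp only [dif_pos hq]
    obtain ⟨-, u, hu, h⟩ := hval ⟨q, hq⟩
    rw [h, k6 ⟨q, hq⟩ rfl, mul_zero]
  · intro p hp hpq
    simp only [dif_pos hp]
    obtain ⟨-, u, hu, h⟩ := hval ⟨p, hp⟩
    rw [h, norm_mul, hu, one_mul]
    exact k4 ⟨p, hp⟩ p (k2 _) hpq

end Sub

/-- From a Green function of a simply connected open set `Y` to a holomorphic function `φ` on `Y`
with `‖φ‖ = exp (- G)`.
PROOF. Give the subtype `↥Y` the Riemann surface structure whose atlas consists of the restrictions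
of the charts (`rsOfOpen` in `Lib/MP_1f4a82_an/GermSurface.lean`, private there: copy it together
with `holAt_val`; it is used as a local instance), it is Hausdorff and simply connected. Apply
`exists_glue` (`Lib/MP_1f4a82_an/GreenMap.lean`) with `X := ↥Y`, `D := G` restricted,
`q₀ = q₁ = ⟨q, hq⟩` and the local functions: near `p ≠ q` (in a neighbourhood which does not contain
`q`) write `G = Re F` (definition of `HarmAt`) and take `s = exp (- F)` (as a map to the sphere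
`P = OnePoint ℂ`, `HolAt.coe`); near `q` take a chart `e ∈ atlas` at `q`, `G = H - log ‖e p - e q‖`
with `H = Re F` near `q`, and `s = exp (- F) * (e · - e q)`. The result `φ' : ↥Y → P` has finite
values (`φ' x = affP u 0 (s x x)` with `‖u‖ = 1`); put `φ x = valP (φ' x)` for `x ∈ Y` and `0`
elsewhere. Then `φ` is holomorphic at the points of `Y` (charts of `↥Y` are restrictions),
`‖φ p‖ = exp (- G p)` for `p ≠ q` and `φ q = 0`; so `ne`, `lt` (`G > 0`) and `max` are clear, and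
`simple`: near `q` (and `p ≠ q`) `‖φ p‖ = exp (- H p) * ‖e p - e q‖`, with `H` continuous at `q`. -/
theorem exists_GF {X : Type} [TopologicalSpace X] [T2Space X] [RS X] (Y : Set X) (hYo : IsOpen Y)
    (hsc : SimplyConnectedSpace ↥Y) (q : X) (hq : q ∈ Y) (G : X → ℝ)
    (h1 : ∀ p ∈ Y, p ≠ q → HarmAt G p) (h2 : ∀ p ∈ Y, p ≠ q → 0 < G p)
    (h3 : ∀ e ∈ RS.atlas (X := X), q ∈ e.source → ∃ H : X → ℝ, HarmAt H q ∧
        ∀ᶠ p in 𝓝[≠] q, G p = H p - Real.log ‖e p - e q‖)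
    (h4 : ∀ b : X → ℂ, (∀ p ∈ Y, HolAt b p) → (∀ p ∈ Y, ‖b p‖ < 1) → b q = 0 →
        ∀ p ∈ Y, p ≠ q → ‖b p‖ ≤ Real.exp (- G p)) :
    ∃ φ : X → ℂ, GF Y q φ := by
  obtain ⟨φ, hφ1, hφ2, hφ3⟩ := GlueY_glue Y hYo hsc q hq G h1 h3
  refine ⟨φ, hφ1, hφ2, ?_, ?_, ?_, ?_⟩
  · intro p hp hpq h
    have h5 := hφ3 p hp hpq
    rw [h, norm_zero] at h5
    exact (Real.exp_pos _).ne h5
  · intro p hp
    by_cases hpq : p = q
    · rw [hpq, hφ2, norm_zero]
      exact one_pos
    · rw [hφ3 p hp hpq, Real.exp_lt_one_iff]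
      have := h2 p hp hpq
      linarith
  · intro e he hqe
    obtain ⟨H, hH1, hH2⟩ := h3 e he hqe
    refine ⟨Real.exp (- (H q + 1)), Real.exp_pos _, ?_⟩
    have hc : ∀ᶠ p in 𝓝 q, H p < H q + 1 :=
      hH1.continuousAt.eventually_lt_const (by linarith)
    filter_upwards [hc, hYo.mem_nhds hq, e.open_source.mem_nhds hqe,
      eventually_nhdsWithin_iff.mp hH2] with p hp1 hp2 hp3 hp4
    by_cases hpq : p = q
    · rw [hpq, sub_self, norm_zero, mul_zero]
      exact norm_nonneg _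
    · have hne : e p - e q ≠ 0 := sub_ne_zero.mpr fun h => hpq (e.injOn hp3 hqe h)
      rw [hφ3 p hp2 hpq, hp4 hpq, neg_sub, Real.exp_sub, Real.exp_log (norm_pos_iff.mpr hne),
        div_eq_mul_inv, ← Real.exp_neg, mul_comm]
      refine mul_le_mul_of_nonneg_left (Real.exp_le_exp.2 ?_) (norm_nonneg _)
      linarith
  · intro b hb1 hb2 hb3 p hp
    by_cases hpq : p = q
    · rw [hpq, hb3, norm_zero]
      exact norm_nonneg _
    · rw [hφ3 p hp hpq]
      exact h4 b hb1 hb2 hb3 p hp hpq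

end Pool.Agent.MX018
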