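import Pool.Agent.Lib.MP_018119_an_MX.Defs

/-!
# MX: the Green function when only one frontier point is known to be regular
-/

set_option autoImplicit false

open Topology Filter Set Metric

namespace Pool.Agent.MX018

open Pool.Agent.Lib.MP_1f4a82_an

/-- Green function of an open connected set `Y` with one good frontier point.
PROOF. This is `exists_green` of `Lib/MP_1f4a82_an/Green.lean` (lines 841 to the end) with the
hypothesis on the frontier made only at the point `x₀`, and without the statement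
`Tendsto G (𝓝[Y] x) (𝓝 0)`: copy that proof (about 300 lines). The frontier hypothesis is used
there only (1) at the place where `θ` is obtained (`obtain ⟨x₀, hx₀⟩ := hne; obtain ... := hbd x₀ hx₀`),
which needs one point, and (2) in the fourth item of the conclusion, which is dropped. `Y ≠ univ`
follows from `x₀ ∈ frontier Y`. -/
theorem exists_green_one {X : Type} [TopologicalSpace X] [T2Space X] [PreconnectedSpace X] [RS X]
    (Y : Set X) (hYo : IsOpen Y) (hYc : IsConnected Y) (x₀ : X) (hx₀ : x₀ ∈ frontier Y)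
    (hbd : ∃ β : ℂ → X, ∃ r > 0, (∀ s ∈ ball (0 : ℂ) r, HolAt β s) ∧
      InjOn β (ball 0 r) ∧ β 0 = x₀ ∧ ∀ s ∈ ball (0 : ℂ) r, (β s ∈ Y ↔ 0 < s.im))
    (q : X) (hq : q ∈ Y) :
    ∃ G : X → ℝ, (∀ p ∈ Y, p ≠ q → HarmAt G p) ∧ (∀ p ∈ Y, p ≠ q → 0 < G p) ∧
      (∀ e ∈ RS.atlas (X := X), q ∈ e.source → ∃ H : X → ℝ, HarmAt H q ∧
        ∀ᶠ p in 𝓝[≠] q, G p = H p - Real.log ‖e p - e q‖) ∧
      (∀ b : X → ℂ, (∀ p ∈ Y, HolAt b p) → (∀ p ∈ Y, ‖b p‖ < 1) → b q = 0 →
        ∀ p ∈ Y, p ≠ q → ‖b p‖ ≤ Real.exp (- G p)) := by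
  obtain ⟨e, he, hqs⟩ := RS.exists_chart q
  obtain ⟨r₀, hr₀, hT, hDY, -, -⟩ := exists_disc (hYo.mem_nhds hq) hqs
  have hYn : Y ≠ univ := by
    rintro rfl
    simp at hx₀
  set c := e q with hc
  set r₁ := r₀ / 2 with hr₁def
  have hr₁ : 0 < r₁ := by positivity
  have hr₁₀ : r₁ < r₀ := by linarith
  have hT1 : Metric.closedBall c r₁ ⊆ e.target :=
    (Metric.closedBall_subset_closedBall hr₁₀.le).trans hT
  set D : Set X := e.symm '' Metric.closedBall c r₁ with hD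
  have hDc : IsCompact D :=
    (isCompact_closedBall _ r₁).image_of_continuousOn (e.continuousOn_symm.mono hT1)
  have hqD : q ∈ D := ⟨c, Metric.mem_closedBall_self hr₁.le, e.left_inv hqs⟩
  have hTb : Metric.ball c r₀ ⊆ e.target := Metric.ball_subset_closedBall.trans hT
  have hopen0 : IsOpen (e.symm '' Metric.ball c r₀) :=
    e.symm.isOpen_image_of_subset_source Metric.isOpen_ball hTb
  have hqB : q ∈ e.symm '' Metric.ball c r₀ := ⟨c, Metric.mem_ball_self hr₀, e.left_inv hqs⟩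
  have hDY1 : D ⊆ Y := (image_mono (Metric.closedBall_subset_closedBall hr₁₀.le)).trans hDY
  have hconn : IsPreconnected (Y \ D) := by
    refine isPreconnected_diff_disc hYc.isPreconnected hDc.isClosed hopen0
      (image_mono (Metric.closedBall_subset_ball hr₁₀))
      ((image_mono Metric.ball_subset_closedBall).trans hDY) ?_ ⟨q, hqD⟩
    have hinj : InjOn e.symm (Metric.closedBall c r₀) := e.symm.injOn.mono hT
    have heq : e.symm '' Metric.ball c r₀ \ D =
        e.symm '' (Metric.ball c r₀ \ Metric.closedBall c r₁) := by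
      ext x
      constructor
      · rintro ⟨⟨z, hz, rfl⟩, hx⟩
        exact ⟨z, ⟨hz, fun h => hx ⟨z, h, rfl⟩⟩, rfl⟩
      · rintro ⟨z, ⟨hz, hz'⟩, rfl⟩
        refine ⟨⟨z, hz, rfl⟩, ?_⟩
        rintro ⟨z', hz'', hzz⟩
        have := hinj (Metric.closedBall_subset_closedBall hr₁₀.le hz'')
          (Metric.ball_subset_closedBall hz) hzz
        exact hz' (this ▸ hz'')
    rw [heq]
    exact (isPreconnected_ring c hr₁ r₀).image _
      ((e.continuousOn_symm.mono hTb).mono sdiff_subset)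
  -- the sphere of radius r₀
  set S : Set X := e.symm '' Metric.sphere c r₀ with hS
  have hSc : IsCompact S := (isCompact_sphere c r₀).image_of_continuousOn
    (e.continuousOn_symm.mono (Metric.sphere_subset_closedBall.trans hT))
  have hSY : S ⊆ Y \ D := by
    rintro _ ⟨z, hz, rfl⟩
    refine ⟨hDY ⟨z, Metric.sphere_subset_closedBall hz, rfl⟩, ?_⟩
    intro h
    have h1 := ((mem_closedDisc hT1).mp h).2
    rw [e.right_inv (hT (Metric.sphere_subset_closedBall hz)), ← dist_eq_norm,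
      Metric.mem_sphere.mp hz] at h1
    linarith
  have hfr : ∀ x ∈ frontier Y, x ∉ Y ∧ x ∉ D ∧ x ∈ closure Y := by
    intro x hx
    have h1 : x ∉ Y := by
      intro h
      exact hx.2 (by rwa [hYo.interior_eq])
    exact ⟨h1, fun h => h1 (hDY1 h), hx.1⟩
  -- theta
  obtain ⟨θ, hθ0, hθ1, hθ⟩ : ∃ θ : ℝ, 0 ≤ θ ∧ θ < 1 ∧ ∀ w : X → ℝ, SubOn w (Y \ D) →
      (∀ x ∈ Y \ D, 0 ≤ w x) → (∀ x ∈ Y \ D, w x ≤ 1) →
      (∃ K, IsCompact K ∧ K ⊆ Y ∧ ∀ y ∉ K, w y = 0) → ∀ x ∈ S, w x ≤ θ := by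
    obtain ⟨β, r, hr, hβ1, hβ2, hβ3, hβ4⟩ := hbd
    obtain ⟨b, hb1, hb2⟩ := exists_barrier hYo hr hβ1 hβ2 hβ3 hβ4 hDc.isClosed (hfr x₀ hx₀).2.1
    exact exists_theta hYo hDc.isClosed ⟨q, hqD⟩ hconn hSc hSY (hfr x₀ hx₀).2.2
      (hfr x₀ hx₀).2.1 hb1 hb2
  set L : ℝ := Real.log r₀ - Real.log r₁ with hL
  have hLpos : 0 < L := sub_pos.mpr (Real.log_lt_log hr₁ hr₁₀)
  set M₀ : ℝ := L / (1 - θ) with hM₀
  have hM₀pos : 0 ≤ M₀ := div_nonneg hLpos.le (by linarith)
  have hDqsub : Y \ D ⊆ Y \ {q} := by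
    rintro x ⟨hx, hx'⟩
    refine ⟨hx, ?_⟩
    rintro rfl
    exact hx' hqD
  -- bounds
  have hkey : ∀ v : X → ℝ, GFam Y q e v → (∀ x ∈ Y \ D, v x ≤ M₀) ∧
      ∀ x ∈ e.source, ‖e x - e q‖ ≤ r₀ → x ≠ q →
        v x ≤ θ * M₀ + (Real.log r₀ - Real.log ‖e x - e q‖) := by
    intro v hv
    have hS1c : IsCompact (e.symm '' Metric.sphere c r₁) :=
      (isCompact_sphere c r₁).image_of_continuousOn
        (e.continuousOn_symm.mono (Metric.sphere_subset_closedBall.trans hT1))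
    have hS1n : (e.symm '' Metric.sphere c r₁).Nonempty :=
      (NormedSpace.sphere_nonempty.mpr hr₁.le).image _
    have hS1Y : e.symm '' Metric.sphere c r₁ ⊆ Y \ {q} := by
      rintro _ ⟨z, hz, rfl⟩
      refine ⟨hDY1 ⟨z, Metric.sphere_subset_closedBall hz, rfl⟩, ?_⟩
      intro h
      rw [mem_singleton_iff] at h
      have h2 : z = c := by
        rw [← e.right_inv (hT1 (Metric.sphere_subset_closedBall hz)), h]
      rw [h2, Metric.mem_sphere, dist_self] at hz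
      exact hr₁.ne hz
    obtain ⟨m, hm, hmax⟩ := hS1c.exists_isMaxOn hS1n (hv.sub.cont.mono hS1Y)
    have hM0 : 0 ≤ v m := hv.nonneg m (hS1Y hm)
    have hMs : ∀ x ∈ e.source, ‖e x - e q‖ = r₁ → v x ≤ v m := by
      intro x hx hxr
      refine hmax ⟨e x, ?_, e.left_inv hx⟩
      rw [Metric.mem_sphere, dist_eq_norm]
      exact hxr
    have hout := hv.le_out hYo hqs hr₁ hT1 hM0 hMs
    have hSle : ∀ x ∈ e.source, ‖e x - e q‖ = r₀ → v x ≤ θ * v m := by
      intro x hx hxr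
      have hxS : x ∈ S := by
        refine ⟨e x, ?_, e.left_inv hx⟩
        rw [Metric.mem_sphere, dist_eq_norm]
        exact hxr
      rcases hM0.eq_or_lt with h0 | h0
      · rw [← h0, mul_zero]
        have := hout x (hSY hxS)
        rwa [← h0] at this
      · have h1 := hθ (fun x => (v m)⁻¹ * v x)
          (subOn_constMul (hv.sub.mono hDqsub) (inv_nonneg.mpr hM0))
          (fun y hy => mul_nonneg (inv_nonneg.mpr hM0) (hv.nonneg y (hDqsub hy)))
          (fun y hy => by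
            rw [inv_mul_le_iff₀ h0, mul_one]
            exact hout y hy)
          (by
            obtain ⟨K, h1, h2, h3⟩ := hv.supp
            exact ⟨K, h1, h2, fun y hy => by rw [h3 y hy, mul_zero]⟩) x hxS
        rw [inv_mul_le_iff₀ h0] at h1
        linarith
    have hdisc := hv.le_disc hYo hYn he hqs hr₀ hT hDY hSle
    obtain ⟨hms, hmr⟩ : m ∈ e.source ∧ ‖e m - e q‖ = r₁ := by
      obtain ⟨z, hz, rfl⟩ := hm
      refine ⟨e.map_target (hT1 (Metric.sphere_subset_closedBall hz)), ?_⟩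
      rw [e.right_inv (hT1 (Metric.sphere_subset_closedBall hz)), ← dist_eq_norm]
      exact hz
    have h2 := hdisc m hms (by rw [hmr]; exact hr₁₀.le) (hS1Y hm).2
    rw [hmr] at h2
    have hmM : v m ≤ M₀ := by
      rw [hM₀, le_div_iff₀ (by linarith)]
      have : L = Real.log r₀ - Real.log r₁ := rfl
      nlinarith
    refine ⟨fun x hx => (hout x hx).trans hmM, fun x hx hxr hxq => ?_⟩
    have h3 := hdisc x hx hxr hxq
    have h4 : θ * v m ≤ θ * M₀ := mul_le_mul_of_nonneg_left hmM hθ0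
    linarith
  obtain ⟨v₀, hv₀, hv₀e⟩ := GFam.exists_base he hqs hr₀ hT hDY
  set 𝓥 : Set (X → ℝ) := {v | GFam Y q e v} with h𝓥
  have hne𝓥 : 𝓥.Nonempty := ⟨v₀, hv₀⟩
  set G : X → ℝ := fun x => sSup ((fun v : X → ℝ => v x) '' 𝓥) with hG
  have hWo : IsOpen (Y \ {q}) := hYo.sdiff isClosed_singleton
  have hzpos : ∀ x ∈ e.source, x ≠ q → 0 < ‖e x - e q‖ := fun x hx hxq =>
    norm_pos_iff.mpr (sub_ne_zero.mpr fun h => hxq (e.injOn hx hqs h))
  have hlocbd : ∀ p ∈ Y \ {q}, ∃ U ∈ 𝓝 p, ∃ M : ℝ, ∀ v ∈ 𝓥, ∀ x ∈ U, v x ≤ M := by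
    intro p hp
    by_cases hpD : p ∈ D
    · obtain ⟨hps, hpr⟩ := (mem_closedDisc hT1).mp hpD
      have hzp := hzpos p hps hp.2
      have h1 : ∀ᶠ x in 𝓝 p, ‖e p - e q‖ / 2 < ‖e x - e q‖ := by
        have h2 : ContinuousAt (fun x => ‖e x - e q‖) p :=
          ((e.continuousAt hps).sub continuousAt_const).norm
        exact h2.eventually_const_lt (by linarith)
      have h2 : ∀ᶠ x in 𝓝 p, x ∈ e.symm '' Metric.ball c r₀ := by
        refine hopen0.mem_nhds ?_
        exact (mem_openDisc hTb).mpr ⟨hps, lt_of_le_of_lt hpr hr₁₀⟩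
      refine ⟨_, h1.and h2, θ * M₀ + (Real.log r₀ - Real.log (‖e p - e q‖ / 2)), ?_⟩
      rintro v hv x ⟨hx1, hx2⟩
      obtain ⟨hxs, hxr⟩ := (mem_openDisc hTb).mp hx2
      have hxq : x ≠ q := by
        rintro rfl
        rw [sub_self, norm_zero] at hx1
        linarith
      have h3 := (hkey v hv).2 x hxs hxr.le hxq
      have h4 : Real.log (‖e p - e q‖ / 2) ≤ Real.log ‖e x - e q‖ :=
        Real.log_le_log (by positivity) hx1.le
      linarith
    · exact ⟨Y \ D, (hYo.sdiff hDc.isClosed).mem_nhds ⟨hp.1, hpD⟩, M₀,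
        fun v hv x hx => (hkey v hv).1 x hx⟩
  have hbdd : ∀ x ∈ Y \ {q}, BddAbove ((fun v : X → ℝ => v x) '' 𝓥) := by
    intro x hx
    obtain ⟨U, hU, M, hM⟩ := hlocbd x hx
    refine ⟨M, ?_⟩
    rintro _ ⟨v, hv, rfl⟩
    exact hM v hv x (mem_of_mem_nhds hU)
  have hleG : ∀ v ∈ 𝓥, ∀ x ∈ Y \ {q}, v x ≤ G x := fun v hv x hx =>
    le_csSup (hbdd x hx) ⟨v, hv, rfl⟩
  have hGle : ∀ x : X, ∀ M : ℝ, (∀ v ∈ 𝓥, v x ≤ M) → G x ≤ M := by
    intro x M h
    refine csSup_le ⟨_, v₀, hv₀, rfl⟩ ?_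
    rintro _ ⟨v, hv, rfl⟩
    exact h v hv
  have hGh : ∀ p ∈ Y \ {q}, HarmAt G p := by
    refine perron hWo 𝓥 hne𝓥 (fun v hv => hv.sub) (fun u hu v hv => hu.sup hYo hv) ?_ hlocbd
    intro v hv e' he' c' r' hr' h1 h2 v' hv' hge hoff hharm
    exact GFam.poisson hv h1 h2 hv' hge hoff
  have hG0 : ∀ x ∈ Y \ {q}, 0 ≤ G x := fun x hx => (hv₀.nonneg x hx).trans (hleG v₀ hv₀ x hx)
  have hpreY : IsPreconnected (Y \ {q}) := isPreconnected_diff_singleton hYo hYc.isPreconnected q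
  have hGpos : ∀ p ∈ Y \ {q}, 0 < G p := by
    intro p hp
    by_contra hcon
    have h0 : G p = 0 := le_antisymm (not_lt.mp hcon) (hG0 p hp)
    have h1 := HarmAt.eqOn_of_max hpreY hWo (fun x hx => (hGh x hx).neg) hp (fun x hx => by
      rw [h0, neg_zero]; exact neg_nonpos.mpr (hG0 x hx))
    have h2 : ∀ᶠ x in 𝓝[≠] q, x ∈ e.symm '' Metric.ball c r₀ :=
      nhdsWithin_le_nhds (hopen0.mem_nhds hqB)
    have h3 : ∀ᶠ x in 𝓝[≠] q, x ∈ Y := nhdsWithin_le_nhds (hYo.mem_nhds hq)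
    have h4 : ∀ᶠ x in 𝓝[≠] q, x ≠ q := self_mem_nhdsWithin
    obtain ⟨x, hx2, hx3, hx4⟩ := (h2.and (h3.and h4)).exists
    obtain ⟨hxs, hxr⟩ := (mem_openDisc hTb).mp hx2
    have h5 := hleG v₀ hv₀ x ⟨hx3, hx4⟩
    rw [hv₀e x hxs hxr.le] at h5
    have h6 := Real.log_lt_log (hzpos x hxs hx4) hxr
    have h7 := h1 x ⟨hx3, hx4⟩
    rw [h0] at h7
    simp only [neg_zero, neg_eq_zero] at h7
    rw [h7] at h5
    linarith
  -- the singularity in the chart e
  obtain ⟨H, hH, hHe⟩ : ∃ H : X → ℝ, HarmAt H q ∧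
      ∀ᶠ p in 𝓝[≠] q, G p = H p - Real.log ‖e p - e q‖ := by
    set u : ℂ → ℝ := fun z => G (e.symm z) + Real.log ‖e (e.symm z) - e q‖ with hu
    have hzY : ∀ z ∈ Metric.ball c r₀, z ≠ c → e.symm z ∈ Y \ {q} ∧ e.symm z ∈ e.source ∧
        e (e.symm z) = z := by
      intro z hz hzc
      have h1 := e.right_inv (hTb hz)
      refine ⟨⟨hDY ⟨z, Metric.ball_subset_closedBall hz, rfl⟩, ?_⟩, e.map_target (hTb hz), h1⟩
      intro h
      rw [mem_singleton_iff] at h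
      apply hzc
      rw [← h1, h]
    obtain ⟨vv, hvv1, hvv2⟩ := harmonic_removable (u := u) (c := c) hr₀ (by
      intro z hz hzc
      obtain ⟨h1, h2, h3⟩ := hzY z hz hzc
      have h4 : HarmAt (fun x => G x + Real.log ‖e x - e q‖) (e.symm z) :=
        (hGh _ h1).add (harmAt_log_chart he hqs h2 h1.2)
      have h5 := (harmAt_iff_chart he h2).mp h4
      rwa [h3] at h5) (by
      refine ⟨|Real.log r₀| + θ * M₀, fun z hz hzc => ?_⟩
      obtain ⟨h1, h2, h3⟩ := hzY z hz hzc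
      have hn : ‖e (e.symm z) - e q‖ ≤ r₀ := by
        rw [h3, ← dist_eq_norm]
        exact (Metric.mem_ball.mp hz).le
      have h4 := hleG v₀ hv₀ _ h1
      rw [hv₀e _ h2 hn] at h4
      have h5 : G (e.symm z) ≤ θ * M₀ + (Real.log r₀ - Real.log ‖e (e.symm z) - e q‖) :=
        hGle _ _ fun v hv => (hkey v hv).2 _ h2 hn h1.2
      have h6 : 0 ≤ θ * M₀ := mul_nonneg hθ0 hM₀pos
      show |G (e.symm z) + Real.log ‖e (e.symm z) - e q‖| ≤ |Real.log r₀| + θ * M₀
      rw [abs_le]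
      constructor
      · have := neg_abs_le (Real.log r₀)
        linarith
      · have := le_abs_self (Real.log r₀)
        linarith)
    refine ⟨fun x => vv (e x), ?_, ?_⟩
    · have h1 : HarmAt vv (e q) := by
        rw [harmAt_iff_chart (X := ℂ) (e := OpenPartialHomeomorph.refl ℂ) rfl (by simp)]
        exact hvv1 c (Metric.mem_ball_self hr₀)
      exact h1.comp (holAt_chart he hqs)
    · have h2 : ∀ᶠ x in 𝓝[≠] q, x ∈ e.symm '' Metric.ball c r₀ :=
        nhdsWithin_le_nhds (hopen0.mem_nhds hqB)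
      filter_upwards [h2, self_mem_nhdsWithin] with x hx2 hxq
      obtain ⟨hxs, hxr⟩ := (mem_openDisc hTb).mp hx2
      have h3 := hvv2 (e x) (by rw [Metric.mem_ball, dist_eq_norm]; exact hxr)
        (fun h => hxq (e.injOn hxs hqs h))
      show G x = vv (e x) - Real.log ‖e x - e q‖
      rw [h3, hu]
      simp only [e.left_inv hxs]
      ring
  refine ⟨G, fun p hp hpq => hGh p ⟨hp, hpq⟩, fun p hp hpq => hGpos p ⟨hp, hpq⟩, ?_, ?_⟩
  · intro e' he' hq'
    obtain ⟨h, hh1, hh2, hh3⟩ := exists_chart_quotient he he' hqs hq'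
    refine ⟨fun x => H x + Real.log ‖h x‖, hH.add (harmAt_log_norm hh1 hh2), ?_⟩
    have h4 : ∀ᶠ x in 𝓝 q, h x ≠ 0 := hh1.1.eventually_ne hh2
    filter_upwards [hHe, nhdsWithin_le_nhds hh3, nhdsWithin_le_nhds h4,
      nhdsWithin_le_nhds (e.open_source.mem_nhds hqs), self_mem_nhdsWithin] with x hx1 hx2 hx3 hx4
      hx5
    rw [hx1, hx2, norm_mul, Real.log_mul (hzpos x hx4 hx5).ne' (norm_ne_zero_iff.mpr hx3)]
    ring
  · intro b hb hb1 hbq p hp hpq
    by_cases hbp : b p = 0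
    · rw [hbp, norm_zero]; exact (Real.exp_pos _).le
    · have h1 : G p ≤ - Real.log ‖b p‖ :=
        hGle p _ fun v hv => GFam.le_log hYo hYn he hqs hv hb hb1 hbq hq hp hpq hbp
      rw [← Real.exp_log (norm_pos_iff.mpr hbp)]
      exact Real.exp_le_exp.mpr (by linarith)

end Pool.Agent.MX018
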