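import Pool.Agent.Lib.MP_ae5b4e_an_UT.Bieb
import Pool.Agent.Lib.MP_018119_an_MX.KoeC

/-!
# MX: omitted values
-/

set_option autoImplicit false

open Topology Filter Set Metric

namespace Pool.Agent.MX018

open Pool.Agent.Lib.MP_ae5b4e_an_UT

theorem div_inj_aux {r x y : ℂ} (hr : r ≠ 0) (h : r / x = r / y) : x = y := by
  rw [div_eq_mul_inv, div_eq_mul_inv] at h
  exact inv_injective (mul_left_cancel₀ hr h)

/-- Omitted values. If `f` is injective on `U ⊇ {ρ < ‖w - c‖}`, holomorphic on `{ρ < ‖w - c‖}`,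
`f w - w → 0`, then two values of `f` at points of `U` in `closedBall c ρ` differ by at most `4ρ`.
PROOF. For `u₁, u₂ ∈ U ∩ closedBall c ρ` with `a = f u₁ ≠ b = f u₂`: the function
`F z = ρ / (f (c + ρ / z) - a)` for `z ≠ 0`, `F 0 = 0`, is holomorphic and injective in the unit disc
with `F' 0 = 1` (`Sch F` of `Lib/MP_ae5b4e_an_UT/Bieb.lean`; at `0`: it is continuous, `F z / z → 1`
since `f w = w + o(1)`, removable singularity), and `F z ≠ ρ / (b - a)` for all `z` in the disc. By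
`Sch.omitted`, `1 / 4 ≤ ‖ρ / (b - a)‖`. -/
theorem koe_omit {f : ℂ → ℂ} {U : Set ℂ} {c : ℂ} {ρ : ℝ} (hρ : 0 < ρ)
    (hU : {w | ρ < ‖w - c‖} ⊆ U) (hi : InjOn f U) (hd : DifferentiableOn ℂ f {w | ρ < ‖w - c‖})
    (hinf : Tendsto (fun w => f w - w) (cocompact ℂ) (𝓝 0)) {u₁ u₂ : ℂ} (h1 : u₁ ∈ U)
    (h1' : ‖u₁ - c‖ ≤ ρ) (h2 : u₂ ∈ U) (h2' : ‖u₂ - c‖ ≤ ρ) : ‖f u₁ - f u₂‖ ≤ 4 * ρ := by
  rcases eq_or_ne (f u₁) (f u₂) with hab | hab
  · rw [hab, sub_self, norm_zero]; positivity
  have hρC : (ρ : ℂ) ≠ 0 := by exact_mod_cast hρ.ne'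
  -- values in the exterior are different from those at `u₁`, `u₂`
  have hval : ∀ u ∈ U, ‖u - c‖ ≤ ρ → ∀ w, ρ < ‖w - c‖ → f w ≠ f u := by
    intro u hu hu' w hw h
    have := hi (hU hw) hu h
    rw [this] at hw
    linarith
  have hk := disc_diff (h := fun w => f w - w) (c := c) hρ (hd.sub differentiableOn_id) hinf
  set k : ℂ → ℂ := fun ζ : ℂ => if ζ = 0 then 0 else (fun w => f w - w) (c + ρ / ζ) with hkd
  have hk0 : k 0 = 0 := by simp [hkd]
  set P : ℂ → ℂ := fun z => z * k z + z * (c - f u₁) + ρ with hP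
  have hPd : DifferentiableOn ℂ P (ball 0 1) :=
    ((differentiableOn_id.mul hk).add (differentiableOn_id.mul_const _)).add_const _
  have hP0 : P 0 = ρ := by simp [hP]
  have hPz : ∀ z : ℂ, z ≠ 0 → P z = z * (f (c + ρ / z) - f u₁) := by
    intro z hz
    simp only [hP, hkd]
    rw [if_neg hz]
    field_simp
    ring
  have hPne : ∀ z ∈ ball (0 : ℂ) 1, P z ≠ 0 := by
    intro z hz
    rcases eq_or_ne z 0 with h | h
    · rw [h, hP0]; exact hρC
    · rw [hPz z h]
      exact mul_ne_zero h (sub_ne_zero.2 (hval u₁ h1 h1' _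
        (shift_mem c hρ h (mem_ball_zero_iff.1 hz))))
  set F : ℂ → ℂ := fun z => ρ * z / P z with hF
  have hFz : ∀ z ∈ ball (0 : ℂ) 1, z ≠ 0 → F z = ρ / (f (c + ρ / z) - f u₁) := by
    intro z hz h
    have h3 : f (c + ρ / z) - f u₁ ≠ 0 := sub_ne_zero.2 (hval u₁ h1 h1' _
        (shift_mem c hρ h (mem_ball_zero_iff.1 hz)))
    simp only [hF]
    rw [hPz z h, mul_comm z, mul_div_mul_right _ _ h]
  have hF0 : F 0 = 0 := by simp [hF]
  have hFne : ∀ z ∈ ball (0 : ℂ) 1, z ≠ 0 → F z ≠ 0 := by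
    intro z hz h
    exact div_ne_zero (mul_ne_zero hρC h) (hPne z hz)
  have hS : Sch F := by
    constructor
    · exact ((differentiableOn_const _).mul differentiableOn_id).div hPd hPne
    · intro x hx y hy hxy
      rcases eq_or_ne x 0 with h | h
      · by_contra hne
        have hy0 : y ≠ 0 := fun h' => hne (h.trans h'.symm)
        rw [h, hF0] at hxy
        exact hFne y hy hy0 hxy.symm
      · rcases eq_or_ne y 0 with h' | h'
        · rw [h', hF0] at hxy
          exact absurd hxy (hFne x hx h)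
        · rw [hFz x hx h, hFz y hy h'] at hxy
          have hx1 := shift_mem c hρ h (mem_ball_zero_iff.1 hx)
          have hy1 := shift_mem c hρ h' (mem_ball_zero_iff.1 hy)
          have a1 : f (c + ρ / x) - f u₁ ≠ 0 := sub_ne_zero.2 (hval u₁ h1 h1' _ hx1)
          have a2 : f (c + ρ / y) - f u₁ ≠ 0 := sub_ne_zero.2 (hval u₁ h1 h1' _ hy1)
          have a3 : f (c + ρ / x) = f (c + ρ / y) := by
            have := div_inj_aux hρC hxy
            exact sub_left_injective this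
          have a4 := hi (hU hx1) (hU hy1) a3
          have a5 : (ρ : ℂ) / x = ρ / y := add_left_cancel a4
          exact div_inj_aux hρC a5
    · exact hF0
    · have hPa : DifferentiableAt ℂ P 0 :=
        hPd.differentiableAt (ball_mem_nhds 0 one_pos)
      have e1 : HasDerivAt (fun z : ℂ => (ρ : ℂ) * z) (ρ * 1) 0 :=
        (hasDerivAt_id (0 : ℂ)).const_mul _
      have e2 := e1.div hPa.hasDerivAt (by rw [hP0]; exact hρC)
      have e3 := e2.deriv
      have e4 : deriv F 0 = ((ρ : ℂ) * 1 * P 0 - ρ * 0 * deriv P 0) / P 0 ^ 2 := e3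
      rw [e4, hP0]
      field_simp
      simp
  have hba : f u₂ - f u₁ ≠ 0 := sub_ne_zero.2 hab.symm
  have hom := hS.omitted (w := ρ / (f u₂ - f u₁)) (by
    intro z hz h
    rcases eq_or_ne z 0 with h' | h'
    · rw [h', hF0] at h
      exact div_ne_zero hρC hba h.symm
    · rw [hFz z hz h'] at h
      have hz1 := shift_mem c hρ h' (mem_ball_zero_iff.1 hz)
      have := div_inj_aux hρC h
      exact hval u₂ h2 h2' _ hz1 (sub_left_injective this))
  have hpos : 0 < ‖f u₂ - f u₁‖ := norm_pos_iff.2 hba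
  rw [norm_div, Complex.norm_real, Real.norm_eq_abs, abs_of_pos hρ,
    div_le_div_iff₀ (by norm_num) hpos] at hom
  rw [norm_sub_rev]
  linarith

end Pool.Agent.MX018
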