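import Pool.Agent.Lib.MP_018119_an_MX.KoeA

/-!
# MX: a univalent map which is close to the identity at infinity is close to the identity
-/

set_option autoImplicit false

open Topology Filter Set Metric

namespace Pool.Agent.MX018

open Pool.Agent.Lib.MP_ae5b4e_an_UT

/-- PROOF. Let `u₁` be a point of `U` with `‖u₁ - c‖ ≤ ρ` and `a = f u₁`. For every `s > ρ` the
lemma `koe_omit` with `s` instead of `ρ` gives `‖f w - a‖ ≤ 4 s` for all `w ∈ U` with
`‖w - c‖ ≤ s`. The function `h w = f w - w` is holomorphic on `{ρ < ‖w - c‖}` and tends to `0` at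
infinity, on the circle `‖w - c‖ = s` one has `‖h w - (a - c)‖ ≤ ‖f w - a‖ + ‖w - c‖ ≤ 5 s`, so by
the maximum principle in `{s ≤ ‖w - c‖ ≤ R}`, `R → ∞` (at infinity the bound is `‖a - c‖ + o(1)`;
it is better to use the variable `ζ = s / (w - c)` in the closed unit disc, with the value
`h = 0` at `ζ = 0`, removable singularity), `‖h w - (a - c)‖ ≤ 5 s` for `‖w - c‖ ≥ s` and
`‖a - c‖ ≤ 5 s`. So `‖h w‖ ≤ 10 s` for `‖w - c‖ ≥ s`; let `s → ρ` (`s ≤ ‖w - c‖`). For
`w ∈ U` with `‖w - c‖ ≤ ρ`: `‖f w - w‖ ≤ ‖f w - a‖ + ‖a - c‖ + ‖c - w‖ ≤ 4 ρ + 5 ρ + ρ`. -/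
theorem koe_bound {f : ℂ → ℂ} {U : Set ℂ} {c : ℂ} {ρ : ℝ} (hρ : 0 < ρ)
    (hU : {w | ρ < ‖w - c‖} ⊆ U) (hi : InjOn f U) (hd : DifferentiableOn ℂ f {w | ρ < ‖w - c‖})
    (hinf : Tendsto (fun w => f w - w) (cocompact ℂ) (𝓝 0)) {u₁ : ℂ} (h1 : u₁ ∈ U)
    (h1' : ‖u₁ - c‖ ≤ ρ) : ∀ w ∈ U, ‖f w - w‖ ≤ 10 * ρ := by
  have hρC : (ρ : ℂ) ≠ 0 := by exact_mod_cast hρ.ne'
  have hk := disc_diff (h := fun w => f w - w) (c := c) hρ (hd.sub differentiableOn_id) hinf
  set k : ℂ → ℂ := fun ζ : ℂ => if ζ = 0 then 0 else (fun w => f w - w) (c + ρ / ζ) with hkd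
  have hk0 : k 0 = 0 := by simp [hkd]
  have hkw : ∀ w : ℂ, w ≠ c → k (ρ / (w - c)) = f w - w := by
    intro w hw
    have h0 : w - c ≠ 0 := sub_ne_zero.2 hw
    simp only [hkd]
    rw [if_neg (div_ne_zero hρC h0)]
    have h3 : c + (ρ : ℂ) / (ρ / (w - c)) = w := by
      rw [div_div_cancel₀ hρC, add_sub_cancel]
    rw [h3]
  -- the maximum principle
  have hmax : ∀ s : ℝ, ρ < s → ∀ ζ ∈ closedBall (0 : ℂ) (ρ / s), ‖k ζ - (f u₁ - c)‖ ≤ 5 * s := by
    intro s hs ζ hζ
    have hs0 : 0 < s := hρ.trans hs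
    have hr1 : ρ / s < 1 := (div_lt_one hs0).2 hs
    have hr0 : 0 < ρ / s := by positivity
    have hsub : closedBall (0 : ℂ) (ρ / s) ⊆ ball 0 1 := closedBall_subset_ball hr1
    have hdc : DiffContOnCl ℂ (fun ζ => k ζ - (f u₁ - c)) (ball 0 (ρ / s)) := by
      constructor
      · exact (hk.mono (ball_subset_closedBall.trans hsub)).sub_const _
      · rw [closure_ball _ hr0.ne']
        exact (hk.mono hsub).continuousOn.sub continuousOn_const
    refine Complex.norm_le_of_forall_mem_frontier_norm_le isBounded_ball hdc ?_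
      (by rw [closure_ball _ hr0.ne']; exact hζ)
    intro x hx
    rw [frontier_ball _ hr0.ne', mem_sphere_zero_iff_norm] at hx
    have hx0 : x ≠ 0 := by
      intro h
      rw [h, norm_zero] at hx
      linarith
    have hx1 : ‖x‖ < 1 := by rw [hx]; exact hr1
    have hmem := shift_mem c hρ hx0 hx1
    have hws : ‖(c + ρ / x) - c‖ = s := by
      rw [add_sub_cancel_left, norm_div, Complex.norm_real, Real.norm_eq_abs, abs_of_pos hρ, hx]
      field_simp
    have hom := koe_omit (f := f) (U := U) (c := c) (ρ := s) hs0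
      (fun w hw => hU (hs.trans hw)) hi (hd.mono fun w hw => hs.trans hw) hinf (hU hmem)
      hws.le h1 (h1'.trans hs.le)
    have hkx : k x = f (c + ρ / x) - (c + ρ / x) := by
      simp only [hkd]
      rw [if_neg hx0]
    rw [hkx]
    have e1 : f (c + ρ / x) - (c + ρ / x) - (f u₁ - c) =
        (f (c + ρ / x) - f u₁) - ((c + ρ / x) - c) := by ring
    rw [e1]
    refine (norm_sub_le _ _).trans ?_
    rw [hws]
    linarith
  have hac : ∀ s : ℝ, ρ < s → ‖f u₁ - c‖ ≤ 5 * s := by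
    intro s hs
    have := hmax s hs 0 (mem_closedBall_self (by have := hρ.trans hs; positivity))
    rwa [hk0, zero_sub, norm_neg] at this
  have hext : ∀ s : ℝ, ρ < s → ∀ w, s ≤ ‖w - c‖ → ‖f w - w‖ ≤ 10 * s := by
    intro s hs w hw
    have hs0 : 0 < s := hρ.trans hs
    have hwc : 0 < ‖w - c‖ := hs0.trans_le hw
    have hwne : w ≠ c := sub_ne_zero.1 (norm_pos_iff.1 hwc)
    have h3 := hmax s hs (ρ / (w - c)) (by
      rw [mem_closedBall_zero_iff, norm_div, Complex.norm_real, Real.norm_eq_abs, abs_of_pos hρ]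
      exact div_le_div_of_nonneg_left hρ.le hs0 hw)
    rw [hkw w hwne] at h3
    have h4 := hac s hs
    have h5 := norm_add_le (f w - w - (f u₁ - c)) (f u₁ - c)
    rw [sub_add_cancel] at h5
    linarith
  intro w hw
  rcases lt_or_ge ρ ‖w - c‖ with h | h
  · have h6 : ∀ s, ρ < s → s ≤ ‖w - c‖ → ‖f w - w‖ ≤ 10 * s := fun s hs hs' => hext s hs w hs'
    by_contra hcon
    push Not at hcon
    set s : ℝ := min ‖w - c‖ ((ρ + ‖f w - w‖ / 10) / 2) with hsd
    have hs1 : ρ < s := lt_min h (by linarith)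
    have h7 := h6 s hs1 (min_le_left _ _)
    have h8 : s ≤ (ρ + ‖f w - w‖ / 10) / 2 := min_le_right _ _
    linarith
  · have h6 : ‖f u₁ - c‖ ≤ 5 * ρ := by
      by_contra hcon
      push Not at hcon
      have h7 := hac ((ρ + ‖f u₁ - c‖ / 5) / 2) (by linarith)
      linarith
    have h7 := koe_omit hρ hU hi hd hinf hw h h1 h1'
    have e1 : f w - w = (f w - f u₁) + (f u₁ - c) - (w - c) := by ring
    rw [e1]
    refine (norm_sub_le _ _).trans ?_
    have := norm_add_le (f w - f u₁) (f u₁ - c)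
    linarith

end Pool.Agent.MX018
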