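import Pool.Agent.Lib.MP_018119_an_MX.PlRS

/-!
# MX: tools for holomorphic functions on the modified plane
-/

set_option autoImplicit false

open Topology Filter Set Metric

namespace Pool.Agent.MX018

open Pool.Agent.Lib.MP_1f4a82_an

/-- PROOF. `holAt_pl_iff` and `HolAt.continuousAt`, or directly from the definition. -/
theorem MHol.continuousAt {m : MPl} {f : ℂ → ℂ} {z : ℂ} (h : MHol m f z) : ContinuousAt f z := by
  by_cases hz : z ∈ m.C
  · obtain ⟨g, hg, hev⟩ := h.2 hz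
    have hψ : ContinuousAt m.ψ z := m.cont.continuousAt (m.openN.mem_nhds (m.sub hz))
    have h1 : ContinuousAt (fun x => g (m.ψ x)) z :=
      ContinuousAt.comp (f := m.ψ) (g := g) hg.continuousAt hψ
    have h2 : f =ᶠ[𝓝 z] fun x => g (m.ψ x) := hev
    exact h1.congr h2.symm
  · exact (h.1 hz).continuousAt

/-- PROOF. Directly from the definition (compose `g` with `k`), or `HolAt.comp_analyticAt`. -/
theorem MHol.comp_analytic {m : MPl} {f k : ℂ → ℂ} {z : ℂ} (hk : AnalyticAt ℂ k (f z))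
    (h : MHol m f z) : MHol m (fun x => k (f x)) z := by
  refine ⟨fun hz => ?_, fun hz => ?_⟩
  · exact AnalyticAt.fun_comp hk (h.1 hz)
  · obtain ⟨g, hg, hev⟩ := h.2 hz
    have h1 : f z = g (m.ψ z) := hev.self_of_nhds
    rw [h1] at hk
    refine ⟨fun w => k (g w), AnalyticAt.fun_comp hk hg, hev.mono fun x hx => ?_⟩
    exact congrArg k hx

/-- PROOF. `isOpen_image_of_injOn` (Lib/MP_1f4a82_an/Basic.lean) for `X = Pl m`. -/
theorem MHol.isOpen_image {m : MPl} {f : ℂ → ℂ} {U : Set ℂ} (hU : IsOpen U)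
    (hf : ∀ z ∈ U, MHol m f z) (hi : InjOn f U) {V : Set ℂ} (hV : IsOpen V) (hVU : V ⊆ U) :
    IsOpen (f '' V) := by
  have hU' : @IsOpen (Pl m) _ U := hU
  have hV' : @IsOpen (Pl m) _ V := hV
  exact isOpen_image_of_injOn (X := Pl m) (Y := ℂ) (f := f) (U := U) hU'
    (fun x hx => (holAt_pl_iff m f x).2 (hf x hx)) hi hV' hVU

/-- A function of `φ`: if `φ` is an injective holomorphic function on `U` then every other
holomorphic function on `U` is a holomorphic function of `φ`.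
PROOF. `A = f ∘ g`, where `g : ℂ → Pl m` is a left inverse of `φ` on `U`
(`Function.invFunOn φ U`), holomorphic at the points of `φ '' U` by `holAt_leftInverse`, and
`HolAt.comp`, `holAt_iff_analyticAt`. -/
theorem MHol.factor {m : MPl} {φ f : ℂ → ℂ} {U : Set ℂ} (hU : IsOpen U)
    (hφ : ∀ z ∈ U, MHol m φ z) (hi : InjOn φ U) (hf : ∀ z ∈ U, MHol m f z) :
    ∃ A : ℂ → ℂ, DifferentiableOn ℂ A (φ '' U) ∧ ∀ z ∈ U, A (φ z) = f z := by
  obtain ⟨g, hg⟩ : ∃ g : ℂ → ℂ, ∀ z ∈ U, g (φ z) = z :=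
    ⟨Function.invFunOn φ U, fun z hz => hi.leftInvOn_invFunOn hz⟩
  refine ⟨fun w => f (g w), ?_, fun z hz => congrArg f (hg z hz)⟩
  rintro _ ⟨z, hz, rfl⟩
  have hU' : @IsOpen (Pl m) _ U := hU
  have h1 : @HolAt ℂ (Pl m) _ _ _ _ g (φ z) :=
    holAt_leftInverse (X := Pl m) (Y := ℂ) (f := φ) (g := g) (U := U) hU'
      (fun x hx => (holAt_pl_iff m φ x).2 (hφ x hx)) hg hz
  have h2 : @HolAt (Pl m) ℂ _ _ _ _ f (g (φ z)) := by
    rw [hg z hz]
    exact (holAt_pl_iff m f z).2 (hf z hz)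
  have h3 : HolAt (fun w : ℂ => f (g w)) (φ z) :=
    HolAt.comp (X := ℂ) (Y := Pl m) (Z := ℂ) h2 h1
  exact (holAt_iff_analyticAt.1 h3).differentiableAt.differentiableWithinAt

/-- Translation of a holomorphic function on a periodic structure.
PROOF. Off `C`: `z + 2πi ∉ C`, compose with the translation. For `z ∈ C`: `z + 2πi ∈ C`,
`f (x + 2πi) = g (ψ (x + 2πi)) = g (ψ x)` for `x` near `z` (`x ∈ N`). -/
theorem MHol.translate {m : MPl} (hm : m.Per) {f : ℂ → ℂ} {z : ℂ}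
    (h : MHol m f (z + 2 * Real.pi * Complex.I)) :
    MHol m (fun x => f (x + 2 * Real.pi * Complex.I)) z := by
  refine ⟨fun hz => ?_, fun hz => ?_⟩
  · have h1 : AnalyticAt ℂ f (z + 2 * Real.pi * Complex.I) :=
      h.1 fun h2 => hz ((hm.C z).1 h2)
    have h2 : AnalyticAt ℂ (fun x : ℂ => x + 2 * Real.pi * Complex.I) z := by fun_prop
    exact AnalyticAt.fun_comp h1 h2
  · obtain ⟨g, hg, hev⟩ := h.2 ((hm.C z).2 hz)
    have hN : z ∈ m.N := m.sub hz
    rw [hm.ψ z hN] at hg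
    refine ⟨g, hg, ?_⟩
    have ht : Tendsto (fun x : ℂ => x + 2 * Real.pi * Complex.I) (𝓝 z)
        (𝓝 (z + 2 * Real.pi * Complex.I)) := by
      have h3 : Continuous (fun x : ℂ => x + 2 * Real.pi * Complex.I) := by fun_prop
      exact h3.tendsto z
    filter_upwards [ht.eventually hev, m.openN.mem_nhds hN] with x hx hxN
    rw [hx, hm.ψ x hxN]

end Pool.Agent.MX018
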