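import Pool.Agent.Lib.MP_018119_an_MX.StepL
import Pool.Agent.Lib.MP_018119_an_MX.ExTow
import Pool.Agent.Lib.MP_018119_an_MX.TowLim
import Pool.Agent.Lib.MP_018119_an_MX.CantA
import Pool.Agent.Lib.MP_018119_an_MX.CantB
import Pool.Agent.Lib.MP_018119_an_MX.HomSt
import Pool.Agent.Lib.MP_018119_an_MX.CrvOf

/-!
# MX: every nonremovable curve contains a Cantor set which is nonremovable up to countably many
points
-/

set_option autoImplicit false

open Topology Filter Set Metric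

namespace Pool.Agent.MX018

/-- Parameters of the gate ends. -/
theorem main_aux {γ : ℝ → ℂ} (hγ : Crv γ) {F₀ : ℂ → ℂ} (h₀ : St F₀ ∅ (γ '' Icc 0 1)) {ε : ℝ}
    (hε : 0 < ε) :
    ∃ (K E : Set ℂ) (G : ℂ → ℂ) (ω : ℂ → ℝ), K ⊆ γ '' Icc 0 1 ∧ IsCompact K ∧ Perfect K ∧
      IsTotallyDisconnected K ∧ K.Nonempty ∧ E ⊆ K ∧ E.Countable ∧ ContinuousOn G Eᶜ ∧
      (∀ η > 0, ∃ δ > 0, ∀ x ∉ E, ∀ y ∉ E, η ≤ dist x y → δ ≤ dist (G x) (G y)) ∧
      DifferentiableOn ℂ G Kᶜ ∧ Tendsto (fun z => G z - z) (cocompact ℂ) (𝓝 0) ∧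
      (∀ z ∉ E, ‖G z - F₀ z‖ ≤ ε) ∧
      (∀ e ∈ E, ∃ U ∈ 𝓝 e, ∀ x ∈ U, ∀ y ∈ U, x ∉ E → y ∉ E → dist (G x) (G y) ≤ ω e) ∧
      (∀ e, 0 ≤ ω e) ∧ ∀ S : Finset ℂ, (S : Set ℂ) ⊆ E → ∑ e ∈ S, ω e ≤ ε := by
  classical
  obtain ⟨F, s, t, e, hF0, hT⟩ := exists_tower hγ (Q := univ) (B := univ)
    (fun a b _ hab _ => by
      obtain ⟨x, hx⟩ := exists_between hab
      exact ⟨x, mem_univ _, hx.1, hx.2⟩) (step_univ γ) h₀ (ε₀ := ε / 24) (by positivity)
  obtain ⟨G, hG1, hG2, hG3, hG4, hG5, hG6⟩ := tower_limit hγ hT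
  obtain ⟨hK1, hK2, hK3⟩ := cantor_perf hγ hT.g
  have hK4 := cantor_td hγ hT.g
  obtain ⟨hE1, hE2⟩ := ends_sub (γ := γ) hT.g univ
  obtain ⟨hsum, hsum2⟩ := eps_sum hT.pos hT.half
  set E : Set ℂ := γ '' endsI s t univ with hE
  -- the index of an end
  have hidx : ∀ z ∈ E, ∃ n, z = γ (s n) ∨ z = γ (t n) := by
    rintro _ ⟨x, ⟨-, n, hn⟩, rfl⟩
    rcases hn with h | h
    · exact ⟨n, Or.inl (by rw [h])⟩
    · exact ⟨n, Or.inr (by rw [h])⟩
  choose! idx hidx using hidx
  refine ⟨γ '' (Icc 0 1 \ gtsI s t), E, G, fun z => if z ∈ E then 6 * e (idx z) else 0, ?_, hK1, hK2,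
    hK4, hK3, hE1, hE2, hG1, hG2, hG3, hG4, ?_, ?_, ?_, ?_⟩
  · exact image_mono sdiff_subset
  · intro z hz
    have h1 := hG5 z hz
    rw [hF0] at h1
    linarith
  · intro z hz
    dsimp only
    rw [if_pos hz]
    exact hG6 (idx z) z (hidx z hz)
  · intro z
    dsimp only
    split_ifs
    · have := hT.pos (idx z)
      positivity
    · exact le_rfl
  · intro S hS
    have h1 : ∑ z ∈ S, (if z ∈ E then 6 * e (idx z) else 0) = ∑ z ∈ S, 6 * e (idx z) :=
      Finset.sum_congr rfl fun z hz => if_pos (hS hz)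
    rw [h1]
    -- each index is used at most twice
    have h2 : ∑ z ∈ S, 6 * e (idx z) ≤ ∑ n ∈ S.image idx, 2 * (6 * e n) := by
      rw [← Finset.sum_fiberwise_of_maps_to (fun z hz => Finset.mem_image_of_mem idx hz)]
      refine Finset.sum_le_sum fun n _ => ?_
      have h3 : ∑ z ∈ S with idx z = n, 6 * e (idx z) = ∑ z ∈ S with idx z = n, 6 * e n :=
        Finset.sum_congr rfl fun z hz => by rw [(Finset.mem_filter.1 hz).2]
      rw [h3, Finset.sum_const, nsmul_eq_mul]
      have h4 : (Finset.filter (fun z => idx z = n) S).card ≤ 2 := by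
        refine (Finset.card_le_card (t := {γ (s n), γ (t n)}) ?_).trans Finset.card_le_two
        intro z hz
        obtain ⟨hz1, hz2⟩ := Finset.mem_filter.1 hz
        have := hidx z (hS hz1)
        rw [hz2] at this
        simpa using this
      have h5 : ((Finset.filter (fun z => idx z = n) S).card : ℝ) ≤ 2 := by exact_mod_cast h4
      exact mul_le_mul_of_nonneg_right h5 (by have := hT.pos n; positivity)
    refine h2.trans ?_
    have h6 : ∑ n ∈ S.image idx, 2 * (6 * e n) = 12 * ∑ n ∈ S.image idx, e n := by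
      rw [Finset.mul_sum]
      exact Finset.sum_congr rfl fun n _ => by ring
    rw [h6]
    have h7 : ∑ n ∈ S.image idx, e n ≤ ∑' n, e n :=
      hsum.sum_le_tsum _ fun n _ => (hT.pos n).le
    have h8 := hsum2 0
    simp only [zero_add] at h8
    have h9 := hT.zero
    linarith

/-- Main theorem. -/
theorem main_T1 {C : Set ℂ}
    (hC : (∃ γ : ℝ → ℂ, ContinuousOn γ (Icc 0 1) ∧ InjOn γ (Icc 0 1) ∧ C = γ '' Icc 0 1) ∨
        (∃ γ : Circle → ℂ, Continuous γ ∧ Function.Injective γ ∧ C = range γ))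
    (f : ℂ ≃ₜ ℂ) (hf : DifferentiableOn ℂ f Cᶜ) (hna : ¬ ∃ a b : ℂ, ∀ z, f z = a * z + b)
    {ε : ℝ} (hε : 0 < ε) :
    ∃ (K E : Set ℂ) (F : ℂ → ℂ) (ω : ℂ → ℝ), K ⊆ C ∧ IsCompact K ∧ Perfect K ∧
      IsTotallyDisconnected K ∧ K.Nonempty ∧ E ⊆ K ∧ E.Countable ∧ ContinuousOn F Eᶜ ∧
      (∀ η > 0, ∃ δ > 0, ∀ x ∉ E, ∀ y ∉ E, η ≤ dist x y → δ ≤ dist (F x) (F y)) ∧
      DifferentiableOn ℂ F Kᶜ ∧ (¬ ∃ a b : ℂ, ∀ z ∉ K, F z = a * z + b) ∧
      (∀ z ∉ E, ‖F z - f z‖ ≤ ε) ∧
      (∀ e ∈ E, ∃ U ∈ 𝓝 e, ∀ x ∈ U, ∀ y ∈ U, x ∉ E → y ∉ E → dist (F x) (F y) ≤ ω e) ∧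
      (∀ e, 0 ≤ ω e) ∧ ∀ S : Finset ℂ, (S : Set ℂ) ⊆ E → ∑ e ∈ S, ω e ≤ ε := by
  classical
  obtain ⟨γ, hγ, rfl⟩ := crv_of hC
  have hCc : IsCompact (γ '' Icc 0 1) := isCompact_Icc.image_of_continuousOn hγ.cont
  obtain ⟨a, b, ha, hab⟩ := homeo_norm f hCc hf
  have h₀ := st_of_homeo f hCc hf ha hab
  -- the initial map is not the identity
  have hne : ∃ z₀ : ℂ, (f z₀ - b) / a ≠ z₀ := by
    by_contra hcon
    push Not at hcon
    apply hna
    refine ⟨a, b, fun z => ?_⟩
    have := hcon z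
    rw [div_eq_iff ha] at this
    linear_combination this
  obtain ⟨z₀, hz₀⟩ := hne
  set d : ℝ := ‖(f z₀ - b) / a - z₀‖ with hd
  have hdpos : 0 < d := norm_pos_iff.2 (sub_ne_zero.2 hz₀)
  have han : 0 < ‖a‖ := norm_pos_iff.2 ha
  set ε' : ℝ := min (ε / ‖a‖) (d / 4) with hε'
  have hε'pos : 0 < ε' := lt_min (by positivity) (by positivity)
  obtain ⟨K, E, G, ω, h1, h2, h3, h4, h5, h6, h7, h8, h9, h10, h11, h12, h13, h14, h15⟩ :=
    main_aux hγ h₀ hε'pos
  have hmul : ‖a‖ * ε' ≤ ε := by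
    calc ‖a‖ * ε' ≤ ‖a‖ * (ε / ‖a‖) := by gcongr; exact min_le_left _ _
      _ = ε := by field_simp
  refine ⟨K, E, fun z => a * G z + b, fun z => ‖a‖ * ω z, h1, h2, h3, h4, h5, h6, h7, ?_, ?_, ?_, ?_,
    ?_, ?_, ?_, ?_⟩
  · exact (continuousOn_const.mul h8).add continuousOn_const
  · intro η hη
    obtain ⟨δ, hδ, h⟩ := h9 η hη
    refine ⟨‖a‖ * δ, by positivity, fun x hx y hy hxy => ?_⟩
    have := h x hx y hy hxy
    rw [dist_eq_norm] at this ⊢
    have e1 : a * G x + b - (a * G y + b) = a * (G x - G y) := by ring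
    rw [e1, norm_mul]
    gcongr
  · exact (h10.const_mul a).add_const b
  · rintro ⟨a', b', hab'⟩
    -- G is the identity off K
    have hK0 : ∀ z ∉ K, G z = z := by
      have h16 : ∀ᶠ z in cocompact ℂ, z ∉ K := h2.compl_mem_cocompact
      have h17 : Tendsto (fun z => (a' - a) * z + (b' - b)) (cocompact ℂ) (𝓝 0) := by
        have h18 : Tendsto (fun z => a * (G z - z)) (cocompact ℂ) (𝓝 0) := by
          simpa using h11.const_mul a
        refine h18.congr' ?_
        filter_upwards [h16] with z hz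
        have := hab' z hz
        linear_combination this
      have h19 : a' = a := by
        by_contra hne
        have h20 : Tendsto (fun z : ℂ => ‖(a' - a) * z + (b' - b)‖) (cocompact ℂ) atTop := by
          have h21 : 0 < ‖a' - a‖ := norm_pos_iff.2 (sub_ne_zero.2 hne)
          have h22 : Tendsto (fun z : ℂ => ‖a' - a‖ * ‖z‖ - ‖b' - b‖) (cocompact ℂ) atTop :=
            tendsto_atTop_add_const_right _ _
              ((tendsto_norm_cocompact_atTop).const_mul_atTop h21)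
          refine tendsto_atTop_mono (fun z => ?_) h22
          have h23 := norm_sub_le ((a' - a) * z + (b' - b)) (b' - b)
          rw [add_sub_cancel_right, norm_mul] at h23
          linarith
        exact not_tendsto_nhds_of_tendsto_atTop h20 _ h17.norm
      have h24 : b' = b := by
        rw [h19] at h17
        simp only [sub_self, zero_mul, zero_add] at h17
        have := tendsto_nhds_unique h17 tendsto_const_nhds
        exact sub_eq_zero.1 this.symm
      intro z hz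
      have := hab' z hz
      rw [h19, h24] at this
      have h25 : a * G z = a * z := by linear_combination this
      exact mul_left_cancel₀ ha h25
    -- near z₀ there is a point off K (K has empty interior); use continuity of f
    have hdense : z₀ ∈ closure Kᶜ := by
      by_contra hcl
      rw [closure_compl, mem_compl_iff, not_not] at hcl
      -- an interior point of a totally disconnected set
      obtain ⟨R, hR, hball⟩ := Metric.isOpen_iff.1 isOpen_interior z₀ hcl
      have h26 : (ball z₀ R).Subsingleton :=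
        h4 _ (hball.trans interior_subset) (convex_ball z₀ R).isPreconnected
      have h27 : z₀ + ((R / 2 : ℝ) : ℂ) ∈ ball z₀ R := by
        rw [mem_ball, dist_eq_norm, add_sub_cancel_left, Complex.norm_real, Real.norm_of_nonneg
          (by positivity)]
        linarith
      have h28 := h26 (mem_ball_self hR) h27
      have h29 : ((R / 2 : ℝ) : ℂ) = 0 := by linear_combination -h28
      have h30 : R / 2 = 0 := by exact_mod_cast h29
      linarith
    have hcont : ContinuousAt (fun z => ‖(f z - b) / a - z‖) z₀ :=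
      (((f.continuous.sub continuous_const).div_const a).sub continuous_id).norm.continuousAt
    have h31 : ∀ᶠ z in 𝓝 z₀, d / 2 < ‖(f z - b) / a - z‖ :=
      hcont.eventually_const_lt (by show d / 2 < d; linarith)
    obtain ⟨z, hz1, hz2⟩ := mem_closure_iff_nhds.1 hdense _ h31
    have h32 := h12 z (fun h => hz2 (h6 h))
    rw [hK0 z hz2] at h32
    have h33 : ε' ≤ d / 4 := min_le_right _ _
    have h34 : ‖(f z - b) / a - z‖ ≤ ε' := by
      rw [norm_sub_rev]; exact h32
    have h35 : d / 2 < ‖(f z - b) / a - z‖ := hz1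
    linarith
  · intro z hz
    have h16 := h12 z hz
    have e1 : a * G z + b - f z = a * (G z - (f z - b) / a) := by field_simp; ring
    rw [e1, norm_mul]
    exact (mul_le_mul_of_nonneg_left h16 (norm_nonneg _)).trans hmul
  · intro e he
    obtain ⟨U, hU, h⟩ := h13 e he
    refine ⟨U, hU, fun x hx y hy hxE hyE => ?_⟩
    have := h x hx y hy hxE hyE
    rw [dist_eq_norm] at this ⊢
    have e1 : a * G x + b - (a * G y + b) = a * (G x - G y) := by ring
    rw [e1, norm_mul]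
    exact mul_le_mul_of_nonneg_left this (norm_nonneg _)
  · intro e
    exact mul_nonneg (norm_nonneg _) (h14 e)
  · intro S hS
    rw [← Finset.mul_sum]
    exact (mul_le_mul_of_nonneg_left (h15 S hS) (norm_nonneg _)).trans hmul

end Pool.Agent.MX018
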