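import Pool.Agent.Lib.MP_018119_an_MX.Defs

/-!
# MX: the Green maps are onto the disc
-/

set_option autoImplicit false

open Topology Filter Set Metric

namespace Pool.Agent.MX018

open Pool.Agent.Lib.MP_1f4a82_an

private theorem OntoL_sq (z b : ℂ) : ‖1 - (starRingEnd ℂ) b * z‖ ^ 2 - ‖z - b‖ ^ 2 =
    (1 - ‖z‖ ^ 2) * (1 - ‖b‖ ^ 2) := by
  simp only [← Complex.normSq_eq_norm_sq, Complex.normSq_apply, Complex.sub_re, Complex.sub_im,
    Complex.mul_re, Complex.mul_im, Complex.one_re, Complex.one_im, Complex.conj_re,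
    Complex.conj_im]
  ring

private theorem OntoL_lt {z b : ℂ} (hz : ‖z‖ < 1) (hb : ‖b‖ < 1) :
    ‖z - b‖ < ‖1 - (starRingEnd ℂ) b * z‖ := by
  have h := OntoL_sq z b
  have h1 : 0 < (1 - ‖z‖ ^ 2) * (1 - ‖b‖ ^ 2) := by
    have h2 : ‖z‖ ^ 2 < 1 := by nlinarith [norm_nonneg z]
    have h3 : ‖b‖ ^ 2 < 1 := by nlinarith [norm_nonneg b]
    exact mul_pos (by linarith) (by linarith)
  exact lt_of_pow_lt_pow_left₀ 2 (norm_nonneg _) (by linarith)

private theorem OntoL_ne {z b : ℂ} (hz : ‖z‖ < 1) (hb : ‖b‖ < 1) :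
    1 - (starRingEnd ℂ) b * z ≠ 0 :=
  norm_pos_iff.1 ((norm_nonneg _).trans_lt (OntoL_lt hz hb))

private theorem OntoL_M {z b : ℂ} (hz : ‖z‖ < 1) (hb : ‖b‖ < 1) :
    ‖(z - b) / (1 - (starRingEnd ℂ) b * z)‖ < 1 := by
  rw [norm_div, div_lt_one (norm_pos_iff.2 (OntoL_ne hz hb))]
  exact OntoL_lt hz hb

private theorem OntoL_an {z b : ℂ} (hz : ‖z‖ < 1) (hb : ‖b‖ < 1) :
    AnalyticAt ℂ (fun z => (z - b) / (1 - (starRingEnd ℂ) b * z)) z :=
  (analyticAt_id.sub analyticAt_const).div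
    (analyticAt_const.sub (analyticAt_const.mul analyticAt_id)) (OntoL_ne hz hb)

/-- Riemann surfaces have no isolated points. -/
private theorem OntoL_iso {X : Type} [TopologicalSpace X] [RS X] {Y : Set X} (hYo : IsOpen Y)
    {q : X} (hq : q ∈ Y) : ∃ p ∈ Y, p ≠ q := by
  by_contra hc
  push Not at hc
  obtain ⟨e, he, hp⟩ := RS.exists_chart q
  have h1 : ∀ᶠ w in 𝓝 (e q), e.symm w ∈ Y := by
    apply (e.continuousAt_symm (e.map_source hp)).eventually_mem
    rw [e.left_inv hp]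
    exact hYo.mem_nhds hq
  have h2 : ∀ᶠ w in 𝓝[≠] (e q), False := by
    filter_upwards [h1.filter_mono nhdsWithin_le_nhds, nhdsWithin_le_nhds
      (e.open_target.mem_nhds (e.map_source hp)), self_mem_nhdsWithin] with w hw1 hw2 hw3
    apply hw3
    rw [← hc _ hw1]
    exact (e.right_inv hw2).symm
  rw [eventually_false_iff_eq_bot] at h2
  exact NeBot.ne inferInstance h2

/-- The Green maps are onto the disc, when square roots exist on `Y`.
PROOF (Koebe). `φ '' Y ⊆ ball 0 1` is `GF.lt`. Suppose that `a ∈ ball 0 1` is not a value on `Y`;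
`a ≠ 0` because `φ q = 0`. Write `M a z = (z - a) / (1 - conj a * z)`. The function `M a ∘ φ` is
holomorphic on `Y` without zeros, of modulus `< 1`; let `g` be its square root on `Y` (`hsq`),
`‖g‖ < 1`, `b = g q` and `k = M b ∘ g`; `k` is holomorphic on `Y`, `‖k‖ < 1`, `k q = 0`, so
`‖k‖ ≤ ‖φ‖` on `Y` by `max`. On the other hand `φ = Ψ ∘ k` with
`Ψ z = M (-a) ((M (-b) z) ^ 2)`, a holomorphic function from the disc to the disc with `Ψ 0 = 0`
(as `φ q = 0`) which is not injective (`b ^ 2 = M a 0 = -a ≠ 0`, so `b ≠ 0`; the points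
`M b w` and `M b (-w)` have the same image for all `w` in the disc), hence
not a rotation, so by the Schwarz lemma `‖Ψ z‖ < ‖z‖` for `z ≠ 0` (or: compute
`‖Ψ' 0‖ = 2 ‖b‖ (1 - ‖b‖^2) / (1 - ‖b‖^4) = 2 ‖b‖ / (1 + ‖b‖^2) < 1`, and equality in the Schwarz
lemma at one point `z ≠ 0` would force modulus one of the derivative). Since `φ` is injective and
`Y` is open and nonempty there is `x ∈ Y` with `φ x ≠ 0` (a point of `Y` near `q` and different from
`q`: the neighbourhoods of `q` are infinite, use a chart), then `k x ≠ 0` and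
`‖φ x‖ = ‖Ψ (k x)‖ < ‖k x‖ ≤ ‖φ x‖`, a contradiction. -/
theorem GF_onto {X : Type} [TopologicalSpace X] [T2Space X] [RS X] {Y : Set X} (hYo : IsOpen Y)
    (hsq : ∀ h : X → ℂ, (∀ p ∈ Y, HolAt h p) → (∀ p ∈ Y, h p ≠ 0) →
      ∃ g : X → ℂ, (∀ p ∈ Y, HolAt g p) ∧ ∀ p ∈ Y, g p ^ 2 = h p)
    {q : X} (hq : q ∈ Y) {φ : X → ℂ} (h : GF Y q φ) (hinj : InjOn φ Y) :
    φ '' Y = ball 0 1 := by
  apply subset_antisymm
  · rintro _ ⟨p, hp, rfl⟩
    rw [mem_ball_zero_iff]
    exact h.lt p hp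
  · intro a ha
    rw [mem_ball_zero_iff] at ha
    by_contra hna
    obtain ⟨g, hg, hg2⟩ := hsq (fun p => (φ p - a) / (1 - (starRingEnd ℂ) a * φ p))
      (fun p hp => (holAt_iff_analyticAt.2 (OntoL_an (h.lt p hp) ha)).comp (h.hol p hp))
      (fun p hp => div_ne_zero (fun h0 => hna ⟨p, hp, sub_eq_zero.1 h0⟩)
        (OntoL_ne (h.lt p hp) ha))
    have hg1 : ∀ p ∈ Y, ‖g p‖ < 1 := by
      intro p hp
      have h1 : ‖g p‖ ^ 2 < 1 := by
        rw [← norm_pow, hg2 p hp]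
        exact OntoL_M (h.lt p hp) ha
      exact lt_of_pow_lt_pow_left₀ 2 zero_le_one (by rw [one_pow]; exact h1)
    have hba : g q ^ 2 = -a := by
      rw [hg2 q hq, h.zero]
      simp
    have hk := h.max (fun p => (g p - g q) / (1 - (starRingEnd ℂ) (g q) * g p))
      (fun p hp => (holAt_iff_analyticAt.2 (OntoL_an (hg1 p hp) (hg1 q hq))).comp (hg p hp))
      (fun p hp => OntoL_M (hg1 p hp) (hg1 q hq)) (by simp)
    obtain ⟨p, hp, hpq⟩ := OntoL_iso hYo hq
    have h1 := hk p hp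
    have h2 := h.ne p hp hpq
    have hb' : ‖-g q‖ < 1 := by
      rw [norm_neg]
      exact hg1 q hq
    have h3 : φ p = (g p - g q) / (1 - (starRingEnd ℂ) (g q) * g p) *
        ((g p - (-g q)) / (1 - (starRingEnd ℂ) (-g q) * g p)) := by
      have d1 := OntoL_ne (hg1 p hp) (hg1 q hq)
      have d2 := OntoL_ne (hg1 p hp) hb'
      have d3 := OntoL_ne (h.lt p hp) ha
      have e1 : g p ^ 2 * (1 - (starRingEnd ℂ) a * φ p) = φ p - a := by
        rw [hg2 p hp, div_mul_cancel₀ _ d3]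
      have e2 : (starRingEnd ℂ) (g q) ^ 2 = -(starRingEnd ℂ) a := by
        rw [← map_pow, hba, map_neg]
      rw [div_mul_div_comm, eq_div_iff (mul_ne_zero d1 d2)]
      rw [map_neg]
      linear_combination (-1 : ℂ) * e1 + hba - φ p * g p ^ 2 * e2
    have h4 := OntoL_M (hg1 p hp) hb'
    have h5 : ‖φ p‖ = ‖(g p - g q) / (1 - (starRingEnd ℂ) (g q) * g p)‖ *
        ‖(g p - (-g q)) / (1 - (starRingEnd ℂ) (-g q) * g p)‖ := by
      rw [← norm_mul, ← h3]
    have h6 : 0 < ‖φ p‖ := norm_pos_iff.2 h2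
    have h7 := mul_le_mul_of_nonneg_right h1
      (norm_nonneg ((g p - (-g q)) / (1 - (starRingEnd ℂ) (-g q) * g p)))
    have h8 := mul_lt_mul_of_pos_left h4 h6
    linarith

end Pool.Agent.MX018
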