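import Pool.Agent.Lib.MP_018119_an_MX.Defs

/-!
# MX: the plane with a modified structure as a Riemann surface
-/

set_option autoImplicit false

open Topology Filter Set Metric

namespace Pool.Agent.MX018

open Pool.Agent.Lib.MP_1f4a82_an

private theorem PlRS_c1 (m : MPl) {z : ℂ} (hz : z ∉ m.C) : ∃ e : OpenPartialHomeomorph ℂ ℂ,
    (∀ z ∈ e.source, z ∉ m.C ∧ e z = z) ∧ z ∈ e.source :=
  ⟨OpenPartialHomeomorph.ofSet m.Cᶜ m.closedC.isOpen_compl, fun _ hx => ⟨hx, rfl⟩, hz⟩

private theorem PlRS_c2 (m : MPl) {z : ℂ} (hz : z ∈ m.N) : ∃ e : OpenPartialHomeomorph ℂ ℂ,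
    (∀ z ∈ e.source, z ∈ m.N ∧ e z = m.ψ z) ∧ z ∈ e.source := by
  obtain ⟨U, hU, hinj⟩ := m.locinj z hz
  have hVo : IsOpen (interior U ∩ m.N) := isOpen_interior.inter m.openN
  have hi : InjOn m.ψ (interior U ∩ m.N) := hinj.mono (inter_subset_left.trans interior_subset)
  refine ⟨OpenPartialHomeomorph.ofContinuousOpenRestrict (hi.toPartialEquiv m.ψ _)
    (m.cont.mono inter_subset_right) ?_ hVo, fun x hx => ⟨hx.2, rfl⟩,
    ⟨mem_interior_iff_mem_nhds.mpr hU, hz⟩⟩
  intro W hW
  have h1 : IsOpen (Subtype.val '' W) := hVo.isOpenMap_subtype_val W hW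
  have h2 : Subtype.val '' W ⊆ m.N := by
    rintro _ ⟨x, _, rfl⟩
    exact x.2.2
  have h3 := m.opn _ h2 h1
  rw [image_image] at h3
  exact h3

private theorem PlRS_an (m : MPl) {x : ℂ} (hx : x ∉ m.C) (hN : x ∈ m.N) : AnalyticAt ℂ m.ψ x :=
  m.hol.analyticAt ((m.openN.sdiff m.closedC).mem_nhds ⟨hN, hx⟩)

private theorem PlRS_cp (m : MPl) (e e' : OpenPartialHomeomorph ℂ ℂ)
    (he : (∀ z ∈ e.source, z ∉ m.C ∧ e z = z) ∨ (∀ z ∈ e.source, z ∈ m.N ∧ e z = m.ψ z))
    (he' : (∀ z ∈ e'.source, z ∉ m.C ∧ e' z = z) ∨ (∀ z ∈ e'.source, z ∈ m.N ∧ e' z = m.ψ z))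
    (z : ℂ) (hz : z ∈ e.target) (hz' : e.symm z ∈ e'.source) :
    AnalyticAt ℂ (fun w => e' (e.symm w)) z := by
  have hev : ∀ᶠ w in 𝓝 z, w ∈ e.target ∧ e.symm w ∈ e'.source :=
    (e.open_target.eventually_mem hz).and
      ((e.continuousAt_symm hz).eventually_mem (e'.open_source.mem_nhds hz'))
  rcases he with he | he <;> rcases he' with he' | he'
  · refine analyticAt_id.congr ?_
    filter_upwards [hev] with w hw
    rw [(he' _ hw.2).2, ← (he _ (e.map_target hw.1)).2, e.right_inv hw.1]
    rfl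
  · have h1 : e.symm z = z := by
      rw [← (he _ (e.map_target hz)).2, e.right_inv hz]
    have h2 := PlRS_an m (he _ (e.map_target hz)).1 (he' _ hz').1
    rw [h1] at h2
    refine h2.congr ?_
    filter_upwards [hev] with w hw
    rw [(he' _ hw.2).2, ← (he _ (e.map_target hw.1)).2, e.right_inv hw.1]
  · have hU : IsOpen (e.source ∩ m.Cᶜ) := e.open_source.inter m.closedC.isOpen_compl
    have h1 := holAt_leftInverse (X := ℂ) (Y := ℂ) (f := m.ψ) (g := e.symm) hU
      (fun x hx => holAt_iff_analyticAt.mpr (PlRS_an m hx.2 (he x hx.1).1))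
      (fun x hx => by rw [← (he x hx.1).2, e.left_inv hx.1]) (p := e.symm z)
      ⟨e.map_target hz, (he' _ hz').1⟩
    rw [← (he _ (e.map_target hz)).2, e.right_inv hz, holAt_iff_analyticAt] at h1
    refine h1.congr ?_
    filter_upwards [hev] with w hw
    rw [(he' _ hw.2).2]
  · refine analyticAt_id.congr ?_
    filter_upwards [hev] with w hw
    rw [(he' _ hw.2).2, ← (he _ (e.map_target hw.1)).2, e.right_inv hw.1]
    rfl

/-- The plane, carrying the structure `m`. -/
def Pl (_ : MPl) : Type := ℂ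

instance (m : MPl) : TopologicalSpace (Pl m) := inferInstanceAs (TopologicalSpace ℂ)
instance (m : MPl) : T2Space (Pl m) := inferInstanceAs (T2Space ℂ)
instance (m : MPl) : PreconnectedSpace (Pl m) := inferInstanceAs (PreconnectedSpace ℂ)
instance (m : MPl) : LocallyPathConnectedSpace (Pl m) :=
  inferInstanceAs (LocallyPathConnectedSpace ℂ)

/-- The Riemann surface `Pl m`: the charts are the open partial homeomorphisms which coincide with
the identity and have source in the complement of `C`, and those which coincide with `ψ` and have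
source in `N`.
PROOF of `exists_chart`: for `z ∉ C` restrict the identity to the open set `Cᶜ`; for `z ∈ C ⊆ N`
restrict `ψ` to an open neighbourhood `U ⊆ N` of `z` on which it is injective (`locinj`): it is
continuous, injective and open on `U`.
PROOF of `compat`: at `z ∈ e.target` with `x = e.symm z ∈ e'.source`: if both charts are of the same
kind, then `e' (e.symm w) = w` for `w` near `z` (as `e (e.symm w) = w`); if `e` is of the first kind
and `e'` of the second, then `e' (e.symm w) = ψ w` near `z = x ∉ C`, analytic by `hol` (`N \ C` is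
open); if `e` is of the second kind and `e'` of the first, then `e' (e.symm w) = e.symm w` near
`z`, the local inverse of `ψ` at the point `x ∈ N \ C`, where `ψ` is analytic and injective, so
that the derivative is not zero (`deriv_ne_zero_of_injOn`) and the inverse is analytic (or:
`holAt_leftInverse` of `Lib/MP_1f4a82_an/Basic.lean` for the plane). -/
noncomputable instance instRSPl (m : MPl) : RS (Pl m) where
  atlas := {e : OpenPartialHomeomorph (Pl m) ℂ |
    (∀ z ∈ e.source, (show ℂ from z) ∉ m.C ∧ e z = (show ℂ from z)) ∨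
    (∀ z ∈ e.source, (show ℂ from z) ∈ m.N ∧ e z = m.ψ (show ℂ from z))}
  exists_chart := by
    intro p
    by_cases hp : (show ℂ from p) ∈ m.C
    · obtain ⟨e, he, h⟩ := PlRS_c2 m (m.sub hp)
      exact ⟨e, Or.inr he, h⟩
    · obtain ⟨e, he, h⟩ := PlRS_c1 m hp
      exact ⟨e, Or.inl he, h⟩
  compat := by
    intro e he e' he' z hz hz'
    exact PlRS_cp m e e' he he' z hz hz'

/-- Holomorphic functions on `Pl m`.
PROOF. Use `holAt_iff_of_chart` with a chart of the first kind at `z ∉ C` (then
`f (e.symm w) = f w` near `z`), and with a chart of the second kind `e = ψ` near `z` at `z ∈ C`: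
if `g w := f (e.symm w)` is analytic at `ψ z` then `f x = g (ψ x)` near `z`; conversely if
`f x = g (ψ x)` near `z` then `f (e.symm w) = g w` near `ψ z = e z` (continuity of `e.symm`). -/
theorem holAt_pl_iff (m : MPl) (f : ℂ → ℂ) (z : ℂ) :
    @HolAt (Pl m) ℂ _ _ _ _ f z ↔ MHol m f z := by
  by_cases hz : z ∈ m.C
  · obtain ⟨e, he, h⟩ := PlRS_c2 m (m.sub hz)
    have h1 := @holAt_iff_of_chart (Pl m) _ (instRSPl m) f z e (Or.inr he) h
    refine h1.trans ?_
    have hs : e.symm (e z) = z := e.left_inv h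
    constructor
    · intro h2
      refine ⟨fun h3 => absurd hz h3, fun _ => ⟨fun w => f (e.symm w), ?_, ?_⟩⟩
      · rw [← (he z h).2]
        exact h2
      · filter_upwards [e.open_source.mem_nhds h] with x hx
        rw [← (he x hx).2, e.left_inv hx]
    · rintro ⟨-, h2⟩
      obtain ⟨g, hg, hev⟩ := h2 hz
      rw [← (he z h).2] at hg
      refine hg.congr ?_
      have ht : Tendsto e.symm (𝓝 (e z)) (𝓝 z) := by
        have h3 := e.continuousAt_symm (e.map_source h)
        rw [ContinuousAt, hs] at h3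
        exact h3
      filter_upwards [ht.eventually hev, e.open_target.mem_nhds (e.map_source h)] with w hw hw2
      have h4 : m.ψ (e.symm w) = w := by
        rw [← (he _ (e.map_target hw2)).2, e.right_inv hw2]
      rw [h4] at hw
      exact hw.symm
  · have h1 := @holAt_iff_of_chart (Pl m) _ (instRSPl m) f z
      (OpenPartialHomeomorph.ofSet m.Cᶜ m.closedC.isOpen_compl)
      (Or.inl fun _ hx => ⟨hx, rfl⟩) hz
    refine h1.trans ?_
    exact ⟨fun h2 => ⟨fun _ => h2, fun h3 => absurd h3 hz⟩, fun h2 => h2.1 hz⟩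

/-- At points off `C` holomorphic curves into `Pl m` are the usual ones.
PROOF. `holAt_iff_of_chart'` with a chart of the first kind. -/
theorem holAt_to_pl (m : MPl) (f : ℂ → ℂ) (z : ℂ) (hz : f z ∉ m.C) (hf : AnalyticAt ℂ f z) :
    @HolAt ℂ (Pl m) _ _ _ _ f z :=
  (@holAt_iff_of_chart' (Pl m) _ (instRSPl m) f z hf.continuousAt
    (OpenPartialHomeomorph.ofSet m.Cᶜ m.closedC.isOpen_compl)
    (Or.inl fun _ hx => ⟨hx, rfl⟩) hz).mpr hf

end Pool.Agent.MX018
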