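import Pool.Agent.Lib.MP_018119_an_MX.ArcInt

/-!
# MX: a place for a gate
-/

set_option autoImplicit false

open Topology Filter Set Metric

namespace Pool.Agent.MX018

/-- A place for a small gate.
PROOF. `D = ⋃ k < n, Icc (s k) (t k)` is a finite union of pairwise disjoint closed intervals in
`Ioo 0 1`. If `Ioo a b` meets `Ioo (s k) (t k)` for some `k < n` then any small gate near a point
`x ∈ Ioo 0 1 \ D` will do (such points exist: `0` is not in the closed set `D`, so small positive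
numbers). Otherwise `Ioo a b` does not meet the open intervals, and it is not contained in the
finite set of their ends, so choose `x ∈ Ioo a b \ D`. The set `Ioo 0 1 \ D` is an open
neighbourhood of `x` (intersected with `Ioo a b` in the second case) and `F ∘ γ` is continuous at
`x` (`γ x ∉ γ '' ends`, by `crv_inj`; `F` is continuous off `γ '' ends`, a closed set), so there is
`τ > 0` with `F (γ y) ∈ closedBall (F (γ x)) ρ` for `|y - x| < τ`. As `Q` is dense there are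
`s' < x < t'` in `Q` within the neighbourhood. -/
theorem place {γ : ℝ → ℂ} (hγ : Crv γ) {Q B : Set ℝ}
    (hQ : ∀ a b : ℝ, 0 ≤ a → a < b → b ≤ 1 → ∃ x ∈ Q, a < x ∧ x < b) {F : ℂ → ℂ} {s t : ℕ → ℝ} {n : ℕ}
    (hlt : ∀ k < n, 0 < s k ∧ s k < t k ∧ t k < 1)
    (hdis : ∀ k m, k < m → m < n → Disjoint (Icc (s k) (t k)) (Icc (s m) (t m)))
    (hF : ContinuousOn F (γ '' ends s t B n)ᶜ) {a b : ℝ} (ha : 0 ≤ a) (hab : a < b) (hb : b ≤ 1)
    {ρ : ℝ} (hρ : 0 < ρ) :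
    ∃ s' t' : ℝ, s' ∈ Q ∧ t' ∈ Q ∧ 0 < s' ∧ s' < t' ∧ t' < 1 ∧
      (∀ k < n, Disjoint (Icc (s k) (t k)) (Icc s' t')) ∧
      ((Ioo a b ∩ Ioo s' t').Nonempty ∨ ∃ k < n, (Ioo a b ∩ Ioo (s k) (t k)).Nonempty) ∧
      ∃ c : ℂ, F '' (γ '' Icc s' t') ⊆ closedBall c ρ := by
  obtain ⟨D, hD⟩ : ∃ D : Set ℝ, D = ⋃ k ∈ {k : ℕ | k < n}, Icc (s k) (t k) := ⟨_, rfl⟩
  have hDm : ∀ y, y ∈ D ↔ ∃ k < n, y ∈ Icc (s k) (t k) := by
    intro y
    rw [hD]
    simp only [mem_iUnion, exists_prop]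
    rfl
  have hDc : IsClosed D := by
    rw [hD]
    exact (Set.finite_lt_nat n).isClosed_biUnion fun k _ => isClosed_Icc
  -- the point
  obtain ⟨x, hx0, hx1, hxD, hx⟩ : ∃ x : ℝ, 0 < x ∧ x < 1 ∧ x ∉ D ∧
      (x ∈ Ioo a b ∨ ∃ k < n, (Ioo a b ∩ Ioo (s k) (t k)).Nonempty) := by
    by_cases hk : ∃ k < n, (Ioo a b ∩ Ioo (s k) (t k)).Nonempty
    · have h0 : (0 : ℝ) ∈ Dᶜ := by
        intro h
        obtain ⟨k, hkn, h⟩ := (hDm 0).1 h
        exact absurd h.1 (not_le.2 (hlt k hkn).1)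
      obtain ⟨δ, hδ, hδD⟩ := Metric.isOpen_iff.1 hDc.isOpen_compl 0 h0
      refine ⟨min (δ / 2) (1 / 2), lt_min (by linarith) (by norm_num),
        (min_le_right _ _).trans_lt (by norm_num), ?_, Or.inr hk⟩
      refine hδD ?_
      rw [mem_ball, dist_zero_right, Real.norm_eq_abs, abs_of_pos
        (lt_min (by linarith) (by norm_num))]
      exact (min_le_left _ _).trans_lt (by linarith)
    · push Not at hk
      have hfin : ({y : ℝ | ∃ k < n, y = s k ∨ y = t k}).Finite := by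
        have h1 : {y : ℝ | ∃ k < n, y = s k ∨ y = t k} ⊆
            (s '' {k | k < n}) ∪ (t '' {k | k < n}) := by
          rintro y ⟨k, hk, h | h⟩
          · exact Or.inl ⟨k, hk, h.symm⟩
          · exact Or.inr ⟨k, hk, h.symm⟩
        exact (((Set.finite_lt_nat n).image s).union ((Set.finite_lt_nat n).image t)).subset h1
      obtain ⟨x, hx, hxT⟩ := (Ioo_infinite hab).exists_notMem_finite hfin
      refine ⟨x, ha.trans_lt hx.1, hx.2.trans_le hb, ?_, Or.inl hx⟩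
      intro h
      obtain ⟨k, hkn, h⟩ := (hDm x).1 h
      have h1 : x ∈ Ioo (s k) (t k) := by
        refine ⟨lt_of_le_of_ne h.1 fun e => hxT ⟨k, hkn, Or.inl e.symm⟩,
          lt_of_le_of_ne h.2 fun e => hxT ⟨k, hkn, Or.inr e⟩⟩
      have h2 := hk k hkn
      have h3 : x ∈ Ioo a b ∩ Ioo (s k) (t k) := ⟨hx, h1⟩
      rw [h2] at h3
      exact h3
  -- continuity
  have hfe : (γ '' ends s t B n).Finite := by
    refine Set.Finite.image _ ?_
    have h1 : ends s t B n ⊆ (s '' {k | k < n}) ∪ (t '' {k | k < n}) := by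
      rintro y ⟨_, k, hk, h | h⟩
      · exact Or.inl ⟨k, hk, h.symm⟩
      · exact Or.inr ⟨k, hk, h.symm⟩
    exact (((Set.finite_lt_nat n).image s).union ((Set.finite_lt_nat n).image t)).subset h1
  have hγx : γ x ∉ γ '' ends s t B n := by
    rintro ⟨y, ⟨_, k, hk, hy⟩, hyx⟩
    obtain ⟨h1, h2, h3⟩ := hlt k hk
    have h4 : y ∈ Icc (s k) (t k) := by
      rcases hy with rfl | rfl
      · exact ⟨le_refl _, h2.le⟩
      · exact ⟨h2.le, le_refl _⟩
    have h5 : x = y := crv_inj hγ ⟨hx0, hx1⟩ ⟨h1.le.trans h4.1, h4.2.trans h3.le⟩ hyx.symm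
    exact hxD ((hDm x).2 ⟨k, hk, h5 ▸ h4⟩)
  have hc1 : ContinuousAt γ x := hγ.cont.continuousAt (Icc_mem_nhds hx0 hx1)
  have hc2 : ContinuousAt F (γ x) :=
    hF.continuousAt (hfe.isClosed.isOpen_compl.mem_nhds hγx)
  have hc3 : ContinuousAt (fun y => F (γ y)) x := ContinuousAt.comp (f := γ) hc2 hc1
  have hev : ∀ᶠ y in 𝓝 x, dist (F (γ y)) (F (γ x)) < ρ ∧ y ∉ D :=
    (hc3.eventually (Metric.ball_mem_nhds _ hρ)).and (hDc.isOpen_compl.mem_nhds hxD)
  obtain ⟨τ, hτ, hball⟩ := Metric.eventually_nhds_iff.1 hev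
  obtain ⟨s', hs'Q, hs'1, hs'2⟩ := hQ (max 0 (x - τ / 2)) x (le_max_left _ _)
    (max_lt hx0 (by linarith)) hx1.le
  obtain ⟨t', ht'Q, ht'1, ht'2⟩ := hQ x (min 1 (x + τ / 2)) hx0.le
    (lt_min hx1 (by linarith)) (min_le_left _ _)
  have hs0 : 0 < s' := (le_max_left _ _).trans_lt hs'1
  have hs1 : x - τ / 2 < s' := (le_max_right _ _).trans_lt hs'1
  have ht1 : t' < 1 := ht'2.trans_le (min_le_left _ _)
  have ht2 : t' < x + τ / 2 := ht'2.trans_le (min_le_right _ _)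
  have hI : ∀ y ∈ Icc s' t', dist y x < τ := by
    intro y hy
    rw [Real.dist_eq, abs_lt]
    constructor
    · linarith [hy.1]
    · linarith [hy.2]
  refine ⟨s', t', hs'Q, ht'Q, hs0, hs'2.trans ht'1, ht1, ?_, ?_, F (γ x), ?_⟩
  · intro k hk
    rw [Set.disjoint_left]
    intro y hy hy'
    exact (hball (hI y hy')).2 ((hDm y).2 ⟨k, hk, hy⟩)
  · rcases hx with hx | hx
    · exact Or.inl ⟨x, hx, hs'2, ht'1⟩
    · exact Or.inr hx
  · rintro _ ⟨_, ⟨y, hy, rfl⟩, rfl⟩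
    exact (hball (hI y hy)).1.le

end Pool.Agent.MX018
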