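import Pool.Agent.Lib.MP_018119_an_MX.Defs

/-!
# MX: the image of the middle line separates
-/

set_option autoImplicit false

open Topology Filter Set Metric

namespace Pool.Agent.MX018

/-- The image of the line `Re z = 0` separates the images of the two halves of the strip.
PROOF. Write `c = 2πi`. The restriction of `Λ` to `vst r` is a homeomorphism onto
`D = {v | v.re ∈ S}` (continuous, injective, open) which commutes with the translation by `c` (and
so by all multiples of `c`). The image of the line is the union of the translates of the compact set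
`Λ '' {z | z.re = 0 ∧ 0 ≤ z.im ≤ 2π}`, so there are `a ≤ b` in `S` with `(Λ z).re ∈ Icc a b`
for `z.re = 0`. Put `P = Λ '' {-r < Re < 0}`, `Q = Λ '' {0 < Re < r}`: disjoint open sets, and
`D` is the disjoint union of `P`, `Q` and the image of the line. The set
`D ∩ {v.re < a}` is convex, hence preconnected, and does not meet the image of the line, so it is
contained in `P` or in `Q`; the same for `D ∩ {b < v.re}`. They are not both contained in `P`:
otherwise `Q ⊆ {a ≤ v.re ≤ b}`, and the set `{a ≤ v.re ≤ b ∧ 0 ≤ v.im ≤ 2π}` is a compact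
subset of `D`, its inverse image in `vst r` is compact, so it is contained in `{|Re| ≤ r'}`,
`r' < r`, and by periodicity the whole inverse image of `{a ≤ v.re ≤ b}` is contained in
`{|Re| ≤ r'}`, which contradicts the existence of points of `{0 < Re < r}` with real part `> r'`.
In the same way they are not both contained in `Q`. Case 1: the left tail is in `P`, the right
tail in `Q`: take `V = P ∪ {v.re < a}`, `W = Q ∪ {b < v.re}` (all `v ∈ ℂ`); they are open,
disjoint (a point of `P` with `b < v.re` would be in `D`, hence in `Q`), invariant under the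
translation by `c`, and a point outside both is in `D` (`v.re ∈ Icc a b ⊆ S`) and hence in the
image of the line. Case 2: exchange the tails. `M = max |a| |b|`. -/
theorem sep_strip {Λ : ℂ → ℂ} {S : Set ℝ} {r : ℝ} (hr : 0 < r) (hc : ContinuousOn Λ (vst r))
    (ho : ∀ U ⊆ vst r, IsOpen U → IsOpen (Λ '' U)) (hi : InjOn Λ (vst r))
    (himg : Λ '' vst r = {v | v.re ∈ S}) (hS : IsOpen S) (hS' : S.OrdConnected)
    (hper : ∀ z ∈ vst r, Λ (z + 2 * Real.pi * Complex.I) = Λ z + 2 * Real.pi * Complex.I) :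
    ∃ V W : Set ℂ, IsOpen V ∧ IsOpen W ∧ Disjoint V W ∧
      (∀ v, v + 2 * Real.pi * Complex.I ∈ V ↔ v ∈ V) ∧
      (∀ v, v + 2 * Real.pi * Complex.I ∈ W ↔ v ∈ W) ∧
      (∀ z ∈ vst r, z.re < 0 → Λ z ∈ V) ∧ (∀ z ∈ vst r, 0 < z.re → Λ z ∈ W) ∧
      (∀ v, v ∉ V → v ∉ W → ∃ z : ℂ, z.re = 0 ∧ Λ z = v) ∧
      (∀ z : ℂ, z.re = 0 → Λ z ∉ V ∧ Λ z ∉ W) ∧
      ∃ M : ℝ, ((∀ v : ℂ, v.re < -M → v ∈ V) ∧ (∀ v : ℂ, M < v.re → v ∈ W)) ∨
        ((∀ v : ℂ, v.re < -M → v ∈ W) ∧ (∀ v : ℂ, M < v.re → v ∈ V)) := by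
  obtain ⟨c, hcdef⟩ : ∃ c : ℂ, c = 2 * Real.pi * Complex.I := ⟨_, rfl⟩
  simp only [← hcdef] at hper ⊢
  have hcre : c.re = 0 := by rw [hcdef]; simp
  have hcim : c.im = 2 * Real.pi := by rw [hcdef]; simp
  have hpi := Real.pi_pos
  have hmem : ∀ (ρ : ℝ) (z : ℂ), z ∈ vst ρ ↔ |z.re| < ρ := fun ρ z => Iff.rfl
  have hvo : ∀ ρ : ℝ, IsOpen (vst ρ) := fun ρ =>
    isOpen_lt (continuous_abs.comp Complex.continuous_re) continuous_const
  have hren : ∀ (n : ℤ) (z : ℂ), (z + n * c).re = z.re := by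
    intro n z
    simp [hcre]
  have himn : ∀ (n : ℤ) (z : ℂ), (z + n * c).im = z.im + n * (2 * Real.pi) := by
    intro n z
    simp [hcre, hcim]
  have hmc : ∀ z, z ∈ vst r → z + c ∈ vst r := by
    intro z hz
    rw [hmem] at hz ⊢
    rw [Complex.add_re, hcre, add_zero]
    exact hz
  have hmc' : ∀ z, z ∈ vst r → z - c ∈ vst r := by
    intro z hz
    rw [hmem] at hz ⊢
    rw [Complex.sub_re, hcre, sub_zero]
    exact hz
  have hmn : ∀ (n : ℤ) (z : ℂ), z ∈ vst r → z + n * c ∈ vst r := by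
    intro n z hz
    rw [hmem] at hz ⊢
    rw [hren]
    exact hz
  have hper' : ∀ z ∈ vst r, Λ (z - c) = Λ z - c := by
    intro z hz
    have h1 := hper (z - c) (hmc' z hz)
    rw [sub_add_cancel] at h1
    rw [h1]
    ring
  have hpern : ∀ (n : ℤ) (z : ℂ), z ∈ vst r → Λ (z + n * c) = Λ z + n * c := by
    intro n
    induction n using Int.induction_on with
    | zero => intro z _; simp
    | succ n ih =>
      intro z hz
      have h1 := hper (z + n * c) (hmn n z hz)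
      have h2 := ih z hz
      push_cast at h1 h2 ⊢
      have h3 : z + ((n : ℂ) + 1) * c = z + n * c + c := by ring
      rw [h3, h1, h2]
      ring
    | pred n ih =>
      intro z hz
      have h1 := hper' (z + ((-(n : ℤ) : ℤ) : ℂ) * c) (hmn _ z hz)
      have h2 := ih z hz
      push_cast at h1 h2 ⊢
      have h3 : z + (-(n : ℂ) - 1) * c = z + -(n : ℂ) * c - c := by ring
      rw [h3, h1, h2]
      ring
  have hred : ∀ v : ℂ, ∃ n : ℤ, 0 ≤ (v + n * c).im ∧ (v + n * c).im ≤ 2 * Real.pi := by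
    intro v
    refine ⟨-⌊v.im / (2 * Real.pi)⌋, ?_⟩
    have h1 := Int.floor_le (v.im / (2 * Real.pi))
    have h2 := Int.lt_floor_add_one (v.im / (2 * Real.pi))
    rw [le_div_iff₀ (by positivity)] at h1
    rw [div_lt_iff₀ (by positivity)] at h2
    rw [himn]
    push_cast
    constructor <;> nlinarith
  -- the image of the line
  obtain ⟨a, b, ha, hb, hline⟩ : ∃ a b : ℝ, a ∈ S ∧ b ∈ S ∧
      ∀ z : ℂ, z.re = 0 → a ≤ (Λ z).re ∧ (Λ z).re ≤ b := by
    have hK : IsCompact (({0} : Set ℝ) ×ℂ Icc 0 (2 * Real.pi)) :=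
      isCompact_singleton.reProdIm isCompact_Icc
    have hKv : (({0} : Set ℝ) ×ℂ Icc 0 (2 * Real.pi)) ⊆ vst r := by
      intro z hz
      have h1 : z.re = 0 := (Complex.mem_reProdIm.1 hz).1
      rw [hmem, h1, abs_zero]
      exact hr
    have hne : (({0} : Set ℝ) ×ℂ Icc 0 (2 * Real.pi)).Nonempty :=
      ⟨0, Complex.mem_reProdIm.2 ⟨rfl, le_rfl, by simp; positivity⟩⟩
    have hcont : ContinuousOn (fun z => (Λ z).re) (({0} : Set ℝ) ×ℂ Icc 0 (2 * Real.pi)) :=
      Complex.continuous_re.comp_continuousOn (hc.mono hKv)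
    obtain ⟨z₀, hz₀, hmin⟩ := hK.exists_isMinOn hne hcont
    obtain ⟨z₁, hz₁, hmax⟩ := hK.exists_isMaxOn hne hcont
    have hS : ∀ z ∈ vst r, (Λ z).re ∈ S := by
      intro z hz
      have h1 : Λ z ∈ Λ '' vst r := mem_image_of_mem Λ hz
      rw [himg] at h1
      exact h1
    refine ⟨(Λ z₀).re, (Λ z₁).re, hS _ (hKv hz₀), hS _ (hKv hz₁), ?_⟩
    intro z hz
    obtain ⟨n, h1, h2⟩ := hred z
    have hzv : z ∈ vst r := by
      rw [hmem, hz, abs_zero]
      exact hr
    have h3 : z + n * c ∈ ({0} : Set ℝ) ×ℂ Icc 0 (2 * Real.pi) := by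
      refine Complex.mem_reProdIm.2 ⟨?_, h1, h2⟩
      rw [hren, hz]
      rfl
    have h4 : (Λ (z + n * c)).re = (Λ z).re := by rw [hpern n z hzv, hren]
    have h5 : (Λ z₀).re ≤ (Λ (z + n * c)).re := hmin h3
    have h6 : (Λ (z + n * c)).re ≤ (Λ z₁).re := hmax h3
    rw [h4] at h5 h6
    exact ⟨h5, h6⟩
  have hab : a ≤ b := (hline 0 rfl).1.trans (hline 0 rfl).2
  have hIcc : Icc a b ⊆ S := hS'.out ha hb
  -- the inverse image of `a ≤ re ≤ b`
  obtain ⟨x, hx0, hxr, hx⟩ : ∃ x : ℝ, 0 < x ∧ x < r ∧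
      ∀ z : ℂ, |z.re| = x → ¬ (a ≤ (Λ z).re ∧ (Λ z).re ≤ b) := by
    have hB : IsCompact (Icc a b ×ℂ Icc 0 (2 * Real.pi)) :=
      isCompact_Icc.reProdIm isCompact_Icc
    have hne : Nonempty (Iio r) := ⟨⟨r - 1, by
      show r - 1 < r
      linarith⟩⟩
    obtain ⟨⟨ρ, hρ⟩, hcov⟩ := hB.elim_directed_cover (fun i : Iio r => Λ '' vst i.1)
      (fun i => ho _ (fun z hz => by
        rw [hmem] at hz ⊢
        exact hz.trans i.2) (hvo _)) (by
        intro v hv
        have h1 : v ∈ Λ '' vst r := by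
          rw [himg]
          exact hIcc (Complex.mem_reProdIm.1 hv).1
        obtain ⟨z, hz, rfl⟩ := h1
        rw [hmem] at hz
        refine mem_iUnion.2 ⟨⟨(|z.re| + r) / 2, ?_⟩, mem_image_of_mem Λ ?_⟩
        · show (|z.re| + r) / 2 < r
          linarith
        · rw [hmem]
          show |z.re| < (|z.re| + r) / 2
          linarith) (by
        refine Monotone.directed_le fun i j hij => ?_
        refine image_mono fun z hz => ?_
        rw [hmem] at hz ⊢
        exact hz.trans_le hij)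
    have hρ' : ρ < r := hρ
    refine ⟨(max ρ 0 + r) / 2, ?_, ?_, ?_⟩
    · have := le_max_right ρ 0
      linarith
    · have : max ρ 0 < r := max_lt hρ' hr
      linarith
    · rintro z hz ⟨h1, h2⟩
      have hmr : max ρ 0 < r := max_lt hρ' hr
      have hzv : z ∈ vst r := by
        rw [hmem, hz]
        linarith
      obtain ⟨n, h3, h4⟩ := hred (Λ z)
      have h5 : Λ z + n * c ∈ Icc a b ×ℂ Icc 0 (2 * Real.pi) := by
        refine Complex.mem_reProdIm.2 ⟨?_, h3, h4⟩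
        rw [hren]
        exact ⟨h1, h2⟩
      obtain ⟨z', hz', h6⟩ := hcov h5
      have hz'' : |z'.re| < ρ := hz'
      rw [← hpern n z hzv] at h6
      have h7 := hi (show z' ∈ vst r from hz''.trans hρ') (hmn n z hzv) h6
      rw [h7, hren, hz] at hz''
      have := le_max_left ρ 0
      linarith
  -- the two sides
  obtain ⟨P, hP⟩ : ∃ P : Set ℂ, P = Λ '' {z | z ∈ vst r ∧ z.re < 0} := ⟨_, rfl⟩
  obtain ⟨Q, hQ⟩ : ∃ Q : Set ℂ, Q = Λ '' {z | z ∈ vst r ∧ 0 < z.re} := ⟨_, rfl⟩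
  have hPo : IsOpen P := by
    rw [hP]
    exact ho _ (fun z hz => hz.1) ((hvo r).inter (isOpen_lt Complex.continuous_re
      continuous_const))
  have hQo : IsOpen Q := by
    rw [hQ]
    exact ho _ (fun z hz => hz.1) ((hvo r).inter (isOpen_lt continuous_const
      Complex.continuous_re))
  have hPmem : ∀ z ∈ vst r, Λ z ∈ P ↔ z.re < 0 := by
    intro z hz
    rw [hP]
    constructor
    · rintro ⟨z', hz', h1⟩
      rw [← hi hz'.1 hz h1]
      exact hz'.2
    · intro h1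
      exact ⟨z, ⟨hz, h1⟩, rfl⟩
  have hQmem : ∀ z ∈ vst r, Λ z ∈ Q ↔ 0 < z.re := by
    intro z hz
    rw [hQ]
    constructor
    · rintro ⟨z', hz', h1⟩
      rw [← hi hz'.1 hz h1]
      exact hz'.2
    · intro h1
      exact ⟨z, ⟨hz, h1⟩, rfl⟩
  have hPD : ∀ v ∈ P, v.re ∈ S := by
    intro v hv
    rw [hP] at hv
    obtain ⟨z, hz, rfl⟩ := hv
    have h1 : Λ z ∈ Λ '' vst r := mem_image_of_mem Λ hz.1
    rw [himg] at h1
    exact h1
  have hQD : ∀ v ∈ Q, v.re ∈ S := by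
    intro v hv
    rw [hQ] at hv
    obtain ⟨z, hz, rfl⟩ := hv
    have h1 : Λ z ∈ Λ '' vst r := mem_image_of_mem Λ hz.1
    rw [himg] at h1
    exact h1
  have hPQ : Disjoint P Q := by
    rw [Set.disjoint_left]
    intro v hv hv'
    rw [hP] at hv
    obtain ⟨z, hz, rfl⟩ := hv
    rw [hQmem z hz.1] at hv'
    exact absurd hz.2 (not_lt.2 hv'.le)
  have hPc : ∀ v, v + c ∈ P ↔ v ∈ P := by
    intro v
    rw [hP]
    constructor
    · rintro ⟨z, hz, h1⟩
      refine ⟨z - c, ⟨hmc' z hz.1, ?_⟩, ?_⟩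
      · rw [Complex.sub_re, hcre, sub_zero]
        exact hz.2
      · rw [hper' z hz.1, h1]
        ring
    · rintro ⟨z, hz, rfl⟩
      refine ⟨z + c, ⟨hmc z hz.1, ?_⟩, hper z hz.1⟩
      rw [Complex.add_re, hcre, add_zero]
      exact hz.2
  have hQc : ∀ v, v + c ∈ Q ↔ v ∈ Q := by
    intro v
    rw [hQ]
    constructor
    · rintro ⟨z, hz, h1⟩
      refine ⟨z - c, ⟨hmc' z hz.1, ?_⟩, ?_⟩
      · rw [Complex.sub_re, hcre, sub_zero]
        exact hz.2
      · rw [hper' z hz.1, h1]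
        ring
    · rintro ⟨z, hz, rfl⟩
      refine ⟨z + c, ⟨hmc z hz.1, ?_⟩, hper z hz.1⟩
      rw [Complex.add_re, hcre, add_zero]
      exact hz.2
  have hcover : ∀ v : ℂ, v.re ∈ S → v ∈ P ∨ v ∈ Q ∨ ∃ z : ℂ, z.re = 0 ∧ Λ z = v := by
    intro v hv
    have h1 : v ∈ Λ '' vst r := by
      rw [himg]
      exact hv
    obtain ⟨z, hz, rfl⟩ := h1
    rcases lt_trichotomy z.re 0 with h2 | h2 | h2
    · exact Or.inl ((hPmem z hz).2 h2)
    · exact Or.inr (Or.inr ⟨z, h2, rfl⟩)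
    · exact Or.inr (Or.inl ((hQmem z hz).2 h2))
  -- the tails
  have htail : ∀ T : Set ℝ, T.OrdConnected → (∀ t ∈ T, t < a ∨ b < t) →
      {v : ℂ | v.re ∈ S ∧ v.re ∈ T} ⊆ P ∨ {v : ℂ | v.re ∈ S ∧ v.re ∈ T} ⊆ Q := by
    intro T hT hTab
    have hconv : Convex ℝ {v : ℂ | v.re ∈ S ∧ v.re ∈ T} :=
      ((hS'.inter hT).convex).linear_preimage Complex.reLm
    refine hconv.isPreconnected.subset_or_subset hPo hQo hPQ ?_
    rintro v ⟨h1, h2⟩
    rcases hcover v h1 with h3 | h3 | ⟨z, hz, h3⟩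
    · exact Or.inl h3
    · exact Or.inr h3
    · exfalso
      obtain ⟨h4, h5⟩ := hline z hz
      rw [h3] at h4 h5
      rcases hTab _ h2 with h6 | h6 <;> linarith
  have hL := htail (Iio a) ordConnected_Iio (fun t ht => Or.inl ht)
  have hR := htail (Ioi b) ordConnected_Ioi (fun t ht => Or.inr ht)
  -- the conclusion for given tails
  have key : ∀ T1 T2 : Set ℂ, IsOpen T1 → IsOpen T2 → (∀ v, v + c ∈ T1 ↔ v ∈ T1) →
      (∀ v, v + c ∈ T2 ↔ v ∈ T2) → Disjoint T1 T2 → (∀ v ∈ T1, v.re ∈ S → v ∈ P) →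
      (∀ v ∈ T2, v.re ∈ S → v ∈ Q) → (∀ v, v ∉ T1 → v ∉ T2 → a ≤ v.re ∧ v.re ≤ b) →
      (∀ v ∈ T1, v.re < a ∨ b < v.re) → (∀ v ∈ T2, v.re < a ∨ b < v.re) →
      IsOpen (P ∪ T1) ∧ IsOpen (Q ∪ T2) ∧ Disjoint (P ∪ T1) (Q ∪ T2) ∧
      (∀ v, v + c ∈ P ∪ T1 ↔ v ∈ P ∪ T1) ∧ (∀ v, v + c ∈ Q ∪ T2 ↔ v ∈ Q ∪ T2) ∧
      (∀ z ∈ vst r, z.re < 0 → Λ z ∈ P ∪ T1) ∧ (∀ z ∈ vst r, 0 < z.re → Λ z ∈ Q ∪ T2) ∧
      (∀ v, v ∉ P ∪ T1 → v ∉ Q ∪ T2 → ∃ z : ℂ, z.re = 0 ∧ Λ z = v) ∧
      (∀ z : ℂ, z.re = 0 → Λ z ∉ P ∪ T1 ∧ Λ z ∉ Q ∪ T2) := by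
    intro T1 T2 o1 o2 c1 c2 d12 t1 t2 hm b1 b2
    refine ⟨hPo.union o1, hQo.union o2, ?_, ?_, ?_, ?_, ?_, ?_, ?_⟩
    · rw [Set.disjoint_left]
      rintro v (h1 | h1) (h2 | h2)
      · exact Set.disjoint_left.1 hPQ h1 h2
      · exact Set.disjoint_left.1 hPQ h1 (t2 v h2 (hPD v h1))
      · exact Set.disjoint_left.1 hPQ (t1 v h1 (hQD v h2)) h2
      · exact Set.disjoint_left.1 d12 h1 h2
    · intro v
      exact or_congr (hPc v) (c1 v)
    · intro v
      exact or_congr (hQc v) (c2 v)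
    · intro z hz h1
      exact Or.inl ((hPmem z hz).2 h1)
    · intro z hz h1
      exact Or.inl ((hQmem z hz).2 h1)
    · intro v h1 h2
      have h3 := hm v (fun h => h1 (Or.inr h)) (fun h => h2 (Or.inr h))
      rcases hcover v (hIcc h3) with h4 | h4 | h4
      · exact absurd (Or.inl h4) h1
      · exact absurd (Or.inl h4) h2
      · exact h4
    · intro z hz
      have hzv : z ∈ vst r := by
        rw [hmem, hz, abs_zero]
        exact hr
      obtain ⟨h3, h4⟩ := hline z hz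
      constructor
      · rintro (h1 | h1)
        · rw [hPmem z hzv, hz] at h1
          exact lt_irrefl _ h1
        · rcases b1 _ h1 with h5 | h5 <;> linarith
      · rintro (h1 | h1)
        · rw [hQmem z hzv, hz] at h1
          exact lt_irrefl _ h1
        · rcases b2 _ h1 with h5 | h5 <;> linarith
  have oL : IsOpen {v : ℂ | v.re < a} := isOpen_lt Complex.continuous_re continuous_const
  have oR : IsOpen {v : ℂ | b < v.re} := isOpen_lt continuous_const Complex.continuous_re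
  have cL : ∀ v : ℂ, v + c ∈ {v : ℂ | v.re < a} ↔ v ∈ {v : ℂ | v.re < a} := by
    intro v
    show (v + c).re < a ↔ v.re < a
    rw [Complex.add_re, hcre, add_zero]
  have cR : ∀ v : ℂ, v + c ∈ {v : ℂ | b < v.re} ↔ v ∈ {v : ℂ | b < v.re} := by
    intro v
    show b < (v + c).re ↔ b < v.re
    rw [Complex.add_re, hcre, add_zero]
  have dLR : Disjoint {v : ℂ | v.re < a} {v : ℂ | b < v.re} := by
    rw [Set.disjoint_left]
    intro v h1 h2
    have h1' : v.re < a := h1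
    have h2' : b < v.re := h2
    linarith
  have hM1 : ∀ v : ℂ, v.re < -(max |a| |b|) → v.re < a := by
    intro v hv
    have h1 := le_max_left |a| |b|
    have h2 := neg_abs_le a
    linarith
  have hM2 : ∀ v : ℂ, max |a| |b| < v.re → b < v.re := by
    intro v hv
    have h1 := le_max_right |a| |b|
    have h2 := le_abs_self b
    linarith
  -- a point far to the right and a point far to the left
  have hfar : ∀ y : ℝ, |y| = x → ((y : ℂ) ∈ vst r) ∧ (Λ y).re ∈ S ∧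
      ((Λ y).re < a ∨ b < (Λ y).re) := by
    intro y hy
    have h1 : (y : ℂ) ∈ vst r := by
      rw [hmem, Complex.ofReal_re, hy]
      exact hxr
    refine ⟨h1, ?_, ?_⟩
    · have h2 : Λ y ∈ Λ '' vst r := mem_image_of_mem Λ h1
      rw [himg] at h2
      exact h2
    · have h2 := hx y (by rw [Complex.ofReal_re]; exact hy)
      by_contra hcon
      push Not at hcon
      exact h2 hcon
  obtain ⟨p1, p2, p3⟩ := hfar x (abs_of_pos hx0)
  obtain ⟨q1, q2, q3⟩ := hfar (-x) (by rw [abs_neg]; exact abs_of_pos hx0)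
  have hpQ : Λ x ∈ Q := (hQmem _ p1).2 (by rw [Complex.ofReal_re]; exact hx0)
  have hqP : Λ ((-x : ℝ) : ℂ) ∈ P := (hPmem _ q1).2 (by rw [Complex.ofReal_re]; linarith)
  rcases hL with hL | hL
  · rcases hR with hR | hR
    · exfalso
      rcases p3 with h1 | h1
      · exact Set.disjoint_left.1 hPQ (hL ⟨p2, h1⟩) hpQ
      · exact Set.disjoint_left.1 hPQ (hR ⟨p2, h1⟩) hpQ
    · obtain ⟨k1, k2, k3, k4, k5, k6, k7, k8, k9⟩ := key {v | v.re < a} {v | b < v.re} oL oR
        cL cR dLR (fun v h1 h2 => hL ⟨h2, h1⟩) (fun v h1 h2 => hR ⟨h2, h1⟩)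
        (fun v h1 h2 => ⟨not_lt.1 h1, not_lt.1 h2⟩) (fun v h1 => Or.inl h1)
        (fun v h1 => Or.inr h1)
      exact ⟨_, _, k1, k2, k3, k4, k5, k6, k7, k8, k9, max |a| |b|,
        Or.inl ⟨fun v hv => Or.inr (hM1 v hv), fun v hv => Or.inr (hM2 v hv)⟩⟩
  · rcases hR with hR | hR
    · obtain ⟨k1, k2, k3, k4, k5, k6, k7, k8, k9⟩ := key {v | b < v.re} {v | v.re < a} oR oL
        cR cL dLR.symm (fun v h1 h2 => hR ⟨h2, h1⟩) (fun v h1 h2 => hL ⟨h2, h1⟩)
        (fun v h1 h2 => ⟨not_lt.1 h2, not_lt.1 h1⟩) (fun v h1 => Or.inr h1)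
        (fun v h1 => Or.inl h1)
      exact ⟨_, _, k1, k2, k3, k4, k5, k6, k7, k8, k9, max |a| |b|,
        Or.inr ⟨fun v hv => Or.inr (hM1 v hv), fun v hv => Or.inr (hM2 v hv)⟩⟩
    · exfalso
      rcases q3 with h1 | h1
      · exact Set.disjoint_left.1 hPQ hqP (hL ⟨q2, h1⟩)
      · exact Set.disjoint_left.1 hPQ hqP (hR ⟨q2, h1⟩)

end Pool.Agent.MX018
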