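import Pool.Agent.Lib.MP_018119_an_MX.ToW
import Pool.Agent.Lib.MP_018119_an_MX.SepStrip
import Pool.Agent.Lib.MP_018119_an_MX.MTool

/-!
# MX: the map with values in `ℂ \ {0}`
-/

set_option autoImplicit false

open Topology Filter Set Metric

namespace Pool.Agent.MX018

/-- Approximate solution before the normalization at infinity; `v₀` is its value at infinity. -/
structure GPre (p q : ℂ) (J : Set ℂ) (ψ : ℂ → ℂ) (r : ℝ) (Ψ : ℂ → ℂ) (v₀ : ℂ) : Prop where
  hol : ∀ w ∈ ann p q r, WHol J ψ Ψ w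
  inj : InjOn Ψ (ann p q r)
  nev : ∀ w ∈ ann p q r, Ψ w ≠ v₀
  inf : ∃ h : ℂ → ℂ, AnalyticAt ℂ h 0 ∧ h 0 = v₀ ∧ deriv h 0 ≠ 0 ∧
    ∀ᶠ w in cocompact ℂ, Ψ w = h (1 / w)
  sep : ∃ V W : Set ℂ, IsOpen V ∧ IsOpen W ∧ Disjoint V W ∧ v₀ ∉ V ∧ v₀ ∉ W ∧
    (∀ w ∈ ann p q r, lv p q w < 0 → Ψ w ∈ V) ∧ (∀ w ∈ ann p q r, 0 < lv p q w → Ψ w ∈ W) ∧
    (∀ v, v ≠ v₀ → v ∉ V → v ∉ W → ∃ w, w ≠ p ∧ w ≠ q ∧ lv p q w = 0 ∧ Ψ w = v) ∧
    ∃ R : ℝ, (∀ v : ℂ, R < ‖v‖ → v ∈ V) ∨ (∀ v : ℂ, R < ‖v‖ → v ∈ W)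

/-! ### auxiliary statements -/

private theorem PreM_per {Λ : ℂ → ℂ} {r : ℝ}
    (h6 : ∀ z ∈ vst r, Λ (z + 2 * Real.pi * Complex.I) = Λ z + 2 * Real.pi * Complex.I)
    {z : ℂ} (hz : z ∈ vst r) (n : ℤ) :
    z + n * (2 * Real.pi * Complex.I) ∈ vst r ∧
      Λ (z + n * (2 * Real.pi * Complex.I)) = Λ z + n * (2 * Real.pi * Complex.I) := by
  have hv : ∀ m : ℤ, z + m * (2 * Real.pi * Complex.I) ∈ vst r := by
    intro m
    have h1 : (z + m * (2 * Real.pi * Complex.I)).re = z.re := by simp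
    change |(z + m * (2 * Real.pi * Complex.I)).re| < r
    rw [h1]
    exact hz
  refine ⟨hv n, ?_⟩
  induction n using Int.induction_on with
  | zero => simp
  | succ i ih =>
    have h1 := h6 _ (hv (i : ℤ))
    rw [ih] at h1
    push_cast at h1 ⊢
    have h2 : z + ((i : ℂ) + 1) * (2 * Real.pi * Complex.I) =
        z + (i : ℂ) * (2 * Real.pi * Complex.I) + 2 * Real.pi * Complex.I := by ring
    rw [h2, h1]
    ring
  | pred i ih =>
    have h1 := h6 _ (hv (-(i : ℤ) - 1))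
    push_cast at h1 ih ⊢
    have h2 : z + (-(i : ℂ) - 1) * (2 * Real.pi * Complex.I) + 2 * Real.pi * Complex.I =
        z + -(i : ℂ) * (2 * Real.pi * Complex.I) := by ring
    rw [h2, ih] at h1
    have h3 : Λ (z + (-(i : ℂ) - 1) * (2 * Real.pi * Complex.I)) =
        Λ z + -(i : ℂ) * (2 * Real.pi * Complex.I) - 2 * Real.pi * Complex.I :=
      eq_sub_of_add_eq h1.symm
    rw [h3]
    ring

private theorem PreM_exp {Λ : ℂ → ℂ} {r : ℝ} (h2 : InjOn Λ (vst r))
    (h6 : ∀ z ∈ vst r, Λ (z + 2 * Real.pi * Complex.I) = Λ z + 2 * Real.pi * Complex.I)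
    {z z' : ℂ} (hz : z ∈ vst r) (hz' : z' ∈ vst r) :
    Complex.exp (Λ z) = Complex.exp (Λ z') ↔ Complex.exp z = Complex.exp z' := by
  rw [Complex.exp_eq_exp_iff_exists_int, Complex.exp_eq_exp_iff_exists_int]
  constructor
  · rintro ⟨n, hn⟩
    obtain ⟨h3, h4⟩ := PreM_per h6 hz' n
    rw [← h4] at hn
    exact ⟨n, h2 hz h3 hn⟩
  · rintro ⟨n, rfl⟩
    exact ⟨n, (PreM_per h6 hz' n).2⟩

private theorem PreM_mem {A : Set ℂ} (hA : ∀ v, v + 2 * Real.pi * Complex.I ∈ A ↔ v ∈ A) (v : ℂ)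
    (n : ℤ) : v + n * (2 * Real.pi * Complex.I) ∈ A ↔ v ∈ A := by
  induction n using Int.induction_on with
  | zero => simp
  | succ i ih =>
    rw [← ih, ← hA (v + ((i : ℤ) : ℂ) * (2 * Real.pi * Complex.I))]
    push_cast
    have h2 : v + ((i : ℂ) + 1) * (2 * Real.pi * Complex.I) =
        v + (i : ℂ) * (2 * Real.pi * Complex.I) + 2 * Real.pi * Complex.I := by ring
    rw [h2]
  | pred i ih =>
    rw [← ih, ← hA (v + ((-(i : ℤ) - 1 : ℤ) : ℂ) * (2 * Real.pi * Complex.I))]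
    push_cast
    have h2 : v + (-(i : ℂ) - 1) * (2 * Real.pi * Complex.I) + 2 * Real.pi * Complex.I =
        v + -(i : ℂ) * (2 * Real.pi * Complex.I) := by ring
    rw [h2]

private theorem PreM_img {A : Set ℂ} (hA : ∀ v, v + 2 * Real.pi * Complex.I ∈ A ↔ v ∈ A) (v : ℂ) :
    Complex.exp v ∈ Complex.exp '' A ↔ v ∈ A := by
  constructor
  · rintro ⟨w, hw, he⟩
    obtain ⟨n, hn⟩ := Complex.exp_eq_exp_iff_exists_int.1 he
    rw [hn, PreM_mem hA] at hw
    exact hw
  · exact fun h => ⟨v, h, rfl⟩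

private theorem PreM_zero (A : Set ℂ) : (0 : ℂ) ∉ Complex.exp '' A := by
  rintro ⟨w, -, hw⟩
  exact Complex.exp_ne_zero w hw

/-- adding the point `0` -/
private theorem PreM_open {A : Set ℂ} (hA : IsOpen A) {M : ℝ} (hM : ∀ v : ℂ, v.re < -M → v ∈ A) :
    IsOpen (insert 0 (Complex.exp '' A)) := by
  have h1 : insert 0 (Complex.exp '' A) =
      Complex.exp '' A ∪ ball (0 : ℂ) (Real.exp (-M)) := by
    ext v
    constructor
    · rintro (rfl | h)
      · exact Or.inr (mem_ball_self (Real.exp_pos _))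
      · exact Or.inl h
    · rintro (h | h)
      · exact Or.inr h
      · by_cases hv : v = 0
        · exact Or.inl hv
        · refine Or.inr ⟨Complex.log v, hM _ ?_, Complex.exp_log hv⟩
          rw [mem_ball_zero_iff] at h
          rw [Complex.log_re, ← Real.log_exp (-M)]
          exact Real.log_lt_log (norm_pos_iff.2 hv) h
  rw [h1]
  exact (Complex.isOpenMap_exp A hA).union isOpen_ball

/-- a neighbourhood of infinity -/
private theorem PreM_inf {A : Set ℂ} {M : ℝ} (hM : ∀ v : ℂ, M < v.re → v ∈ A) (v : ℂ)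
    (hv : Real.exp M < ‖v‖) : v ∈ Complex.exp '' A := by
  have h0 : v ≠ 0 := by
    rintro rfl
    rw [norm_zero] at hv
    exact absurd hv (not_lt.2 (Real.exp_pos M).le)
  refine ⟨Complex.log v, hM _ ?_, Complex.exp_log h0⟩
  rw [Complex.log_re, ← Real.log_exp M]
  exact Real.log_lt_log (Real.exp_pos M) hv

private theorem PreM_lg {p q : ℂ} (hpq : p ≠ q) {r : ℝ} {w : ℂ} (hw : w ∈ ann p q r) :
    lg p q w ∈ vst r := by
  change |(lg p q w).re| < r
  rw [(Wm_lg hpq hw.1 hw.2.1).2.2.2]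
  exact hw.2.2

private theorem PreM_Wm {p q z z' : ℂ} (h : Complex.exp z = Complex.exp z') :
    Wm p q z = Wm p q z' := by
  unfold Wm
  rw [h]

/-- the point with given coordinate -/
private theorem PreM_W {p q z : ℂ} (hpq : p ≠ q) (hz : Complex.exp z ≠ 1) :
    Wm p q z ≠ p ∧ Wm p q z ≠ q ∧ (Wm p q z - p) / (Wm p q z - q) = Complex.exp z := by
  have h1 : (1 : ℂ) - Complex.exp z ≠ 0 := sub_ne_zero.2 hz.symm
  have h2 : Wm p q z - p = Complex.exp z * (p - q) / (1 - Complex.exp z) := by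
    unfold Wm
    field_simp
    ring
  have h3 : Wm p q z - q = (p - q) / (1 - Complex.exp z) := by
    unfold Wm
    field_simp
    ring
  have h4 : p - q ≠ 0 := sub_ne_zero.2 hpq
  have h5 := Complex.exp_ne_zero z
  refine ⟨?_, ?_, ?_⟩
  · rw [← sub_ne_zero, h2]
    exact div_ne_zero (mul_ne_zero h5 h4) h1
  · rw [← sub_ne_zero, h3]
    exact div_ne_zero h4 h1
  · rw [h2, h3]
    field_simp

/-- the expansion at infinity -/
private theorem PreM_h {Λ : ℂ → ℂ} (hΛ : AnalyticAt ℂ Λ 0) (hd : deriv Λ 0 ≠ 0) {p q : ℂ}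
    (hpq : p ≠ q) : ∃ h : ℂ → ℂ, AnalyticAt ℂ h 0 ∧ h 0 = Complex.exp (Λ 0) ∧ deriv h 0 ≠ 0 ∧
      ∀ᶠ w in cocompact ℂ, Complex.exp (Λ (lg p q w)) = h (1 / w) := by
  let F : ℂ → ℂ := fun t => (1 - p * t) / (1 - q * t)
  have hF0 : F 0 = 1 := by simp [F]
  have hden : (1 : ℂ) - q * 0 ≠ 0 := by simp
  have hFa : AnalyticAt ℂ F 0 := by
    refine AnalyticAt.div ?_ ?_ hden
    · exact analyticAt_const.sub (analyticAt_const.mul analyticAt_id)
    · exact analyticAt_const.sub (analyticAt_const.mul analyticAt_id)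
  have hFd : HasDerivAt F (q - p) 0 := by
    have h1 : HasDerivAt (fun t : ℂ => 1 - p * t) (-p) 0 := by
      have := ((hasDerivAt_id (0 : ℂ)).const_mul p).const_sub 1
      simpa using this
    have h2 : HasDerivAt (fun t : ℂ => 1 - q * t) (-q) 0 := by
      have := ((hasDerivAt_id (0 : ℂ)).const_mul q).const_sub 1
      simpa using this
    have h3 := h1.div h2 hden
    have h4 : (-p * (1 - q * 0) - (1 - p * 0) * -q) / (1 - q * 0) ^ 2 = q - p := by
      simp
      ring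
    rw [h4] at h3
    exact h3
  have hsl : F 0 ∈ Complex.slitPlane := by
    rw [hF0]
    exact Complex.one_mem_slitPlane
  let L : ℂ → ℂ := fun t => Complex.log (F t)
  have hL0 : L 0 = 0 := by
    change Complex.log (F 0) = 0
    rw [hF0, Complex.log_one]
  have hLa : AnalyticAt ℂ L 0 := hFa.clog hsl
  have hLd : HasDerivAt L (q - p) 0 := by
    have h1 := hFd.clog hsl
    rw [hF0, div_one] at h1
    exact h1
  have hΛ' : AnalyticAt ℂ Λ (L 0) := by rwa [hL0]
  have hΛd : HasDerivAt Λ (deriv Λ 0) (L 0) := by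
    rw [hL0]
    exact hΛ.differentiableAt.hasDerivAt
  refine ⟨fun t => Complex.exp (Λ (L t)), ?_, ?_, ?_, ?_⟩
  · exact (hΛ'.comp hLa).cexp
  · change Complex.exp (Λ (L 0)) = _
    rw [hL0]
  · have h1 := (hΛd.comp 0 hLd).cexp
    have h2 : deriv (fun t => Complex.exp (Λ (L t))) 0 =
        Complex.exp (Λ (L 0)) * (deriv Λ 0 * (q - p)) := h1.deriv
    rw [h2]
    exact mul_ne_zero (Complex.exp_ne_zero _) (mul_ne_zero hd (sub_ne_zero.2 hpq.symm))
  · have h1 : ∀ᶠ w : ℂ in cocompact ℂ, w ≠ 0 := isCompact_singleton.compl_mem_cocompact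
    filter_upwards [h1] with w hw
    have h2 : lg p q w = L (1 / w) := by
      change Complex.log ((w - p) / (w - q)) =
        Complex.log ((1 - p * (1 / w)) / (1 - q * (1 / w)))
      have h3 : w - p = (1 - p * (1 / w)) * w := by field_simp
      have h4 : w - q = (1 - q * (1 / w)) * w := by field_simp
      rw [h3, h4, mul_div_mul_right _ _ hw]
    rw [h2]

/-- PROOF. `Ψ w = exp (Λ (lg p q w))`, `v₀ = exp (Λ 0)`. The function `E z = exp (Λ z)` is
holomorphic for the structure `gateM hg` on `vst r`, `2πi`-periodic, and for `z, z' ∈ vst r`: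
`E z = E z'` iff `Λ z = Λ z' + 2πi k = Λ (z' + 2πi k)` for an integer `k` iff
`z = z' + 2πi k` iff `exp z = exp z'`. `hol` is `whol_of_mhol`; `inj`, `nev`: `exp (lg p q w)
= (w - p) / (w - q)`, which determines `w` and is not `1 = exp 0`. `inf`: `0 ∉ C` (as `exp 0 = 1`),
so `Λ` is analytic at `0`, `Λ' 0 ≠ 0` as `Λ` is injective near `0`, and for large `w`
`(w - p) / (w - q) = (1 - p t) / (1 - q t)`, `t = 1 / w`: take
`h t = exp (Λ (Complex.log ((1 - p t) / (1 - q t))))`, `h' 0 = exp (Λ 0) * Λ' 0 * (q - p) ≠ 0`.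
`sep`: let `V', W', M` be as in `sep_strip` (continuity: `MHol.continuousAt`; open:
`MHol.isOpen_image`); put `V = exp '' V'`, `W = exp '' W'` and add the point `0` to the one of
them whose primed set contains the left half plane `v.re < -M`; they are open (`exp` is open; a
neighbourhood of `0` without `0` is in `exp '' {v.re < -M}`), disjoint by periodicity of `V'`,
`W'`; `v₀ = exp (Λ 0)` is in neither, since `Λ 0 + 2πi k` is in neither; the set with the right
half plane contains all `v` with `‖v‖ > exp M`. If `v ∉ V`, `v ∉ W` then `v ≠ 0`, `v = exp v'`,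
`v' ∉ V'`, `v' ∉ W'`, so `v' = Λ z`, `z.re = 0`; if `v ≠ v₀` then `exp z ≠ 1` (otherwise `z` is a
multiple of `2πi`, `exp (Λ z) = v₀`) and `w = Wm p q z` satisfies `(w - p) / (w - q) = exp z`,
`lv p q w = z.re = 0`, `Ψ w = exp (Λ (lg p q w)) = exp (Λ z)`, as `lg p q w - z` is a
multiple of `2πi`. -/
theorem exists_pre {p q : ℂ} {J N : Set ℂ} {ψ : ℂ → ℂ} (hg : Gate p q J N ψ) {r : ℝ} (hr : 0 < r)
    {Λ : ℂ → ℂ} {S : Set ℝ} (h1 : ∀ z ∈ vst r, MHol (gateM hg) Λ z) (h2 : InjOn Λ (vst r))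
    (h3 : Λ '' vst r = {v | v.re ∈ S}) (h4 : IsOpen S) (h5 : S.OrdConnected)
    (h6 : ∀ z ∈ vst r, Λ (z + 2 * Real.pi * Complex.I) = Λ z + 2 * Real.pi * Complex.I) :
    ∃ (Ψ : ℂ → ℂ) (v₀ : ℂ), GPre p q J ψ r Ψ v₀ := by
  have hpq := hg.ne
  have h0 : (0 : ℂ) ∈ vst r := by
    change |(0 : ℂ).re| < r
    rw [Complex.zero_re, abs_zero]
    exact hr
  have hopen : IsOpen (vst r) := isOpen_lt (Complex.continuous_re.abs) continuous_const
  have h0C : (0 : ℂ) ∉ (gateM hg).C := fun h => h.1 Complex.exp_zero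
  have hΛ0 : AnalyticAt ℂ Λ 0 := (h1 0 h0).1 h0C
  have hd0 : deriv Λ 0 ≠ 0 :=
    Pool.Agent.Lib.MP_1f4a82_an.deriv_ne_zero_of_injOn hΛ0 (hopen.mem_nhds h0) h2
  refine ⟨fun w => Complex.exp (Λ (lg p q w)), Complex.exp (Λ 0), ?_, ?_, ?_,
    PreM_h hΛ0 hd0 hpq, ?_⟩
  · intro w hw
    refine whol_of_mhol hg (Ψ := fun z => Complex.exp (Λ z)) (fun z hz => ?_) (fun z hz => ?_) hw
    · exact MHol.comp_analytic (k := Complex.exp) (analyticAt_id.cexp) (h1 z hz)
    · rw [h6 z hz, Complex.exp_add, Complex.exp_two_pi_mul_I, mul_one]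
  · intro w hw w' hw' he
    have h7 := (PreM_exp h2 h6 (PreM_lg hpq hw) (PreM_lg hpq hw')).1 he
    have h8 : Wm p q (lg p q w) = Wm p q (lg p q w') := PreM_Wm h7
    rwa [(Wm_lg hpq hw.1 hw.2.1).2.2.1, (Wm_lg hpq hw'.1 hw'.2.1).2.2.1] at h8
  · intro w hw he
    have h7 := (PreM_exp h2 h6 (PreM_lg hpq hw) h0).1 he
    rw [Complex.exp_zero] at h7
    exact (Wm_lg hpq hw.1 hw.2.1).2.1 h7
  · obtain ⟨V', W', hV, hW, hdis, hVp, hWp, hVl, hWr, hout, hmid, M, hM⟩ :=
      sep_strip hr (fun z hz => (h1 z hz).continuousAt.continuousWithinAt)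
        (fun U hU hUo => MHol.isOpen_image hopen h1 h2 hUo hU) h2 h3 h4 h5 h6
    -- disjointness
    have hd : Disjoint (Complex.exp '' V') (Complex.exp '' W') := by
      rw [Set.disjoint_left]
      rintro _ ⟨v, hv, rfl⟩ hw
      rw [PreM_img hWp] at hw
      exact Set.disjoint_left.1 hdis hv hw
    have hvV : Complex.exp (Λ 0) ∉ Complex.exp '' V' := by
      rw [PreM_img hVp]
      exact (hmid 0 Complex.zero_re).1
    have hvW : Complex.exp (Λ 0) ∉ Complex.exp '' W' := by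
      rw [PreM_img hWp]
      exact (hmid 0 Complex.zero_re).2
    have hl : ∀ w ∈ ann p q r, lv p q w < 0 → Complex.exp (Λ (lg p q w)) ∈ Complex.exp '' V' := by
      intro w hw hlw
      refine ⟨_, hVl _ (PreM_lg hpq hw) ?_, rfl⟩
      rwa [(Wm_lg hpq hw.1 hw.2.1).2.2.2]
    have hr' : ∀ w ∈ ann p q r, 0 < lv p q w → Complex.exp (Λ (lg p q w)) ∈ Complex.exp '' W' := by
      intro w hw hlw
      refine ⟨_, hWr _ (PreM_lg hpq hw) ?_, rfl⟩
      rwa [(Wm_lg hpq hw.1 hw.2.1).2.2.2]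
    have hrest : ∀ v, v ≠ 0 → v ≠ Complex.exp (Λ 0) → v ∉ Complex.exp '' V' →
        v ∉ Complex.exp '' W' →
        ∃ w, w ≠ p ∧ w ≠ q ∧ lv p q w = 0 ∧ Complex.exp (Λ (lg p q w)) = v := by
      intro v hv0 hv hvV' hvW'
      obtain ⟨z, hz, hzv⟩ := hout (Complex.log v)
        (fun h => hvV' ⟨_, h, Complex.exp_log hv0⟩) (fun h => hvW' ⟨_, h, Complex.exp_log hv0⟩)
      have hzs : z ∈ vst r := by
        change |z.re| < r
        rw [hz, abs_zero]
        exact hr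
      have he : Complex.exp (Λ z) = v := by rw [hzv, Complex.exp_log hv0]
      have hne : Complex.exp z ≠ 1 := by
        intro h
        apply hv
        rw [← he]
        refine (PreM_exp h2 h6 hzs h0).2 ?_
        rw [h, Complex.exp_zero]
      obtain ⟨hp, hq, hW1⟩ := PreM_W hpq hne
      have hlv : lv p q (Wm p q z) = 0 := by
        unfold lv
        rw [hW1, Complex.norm_exp, hz, Real.exp_zero, Real.log_one]
      have hwa : Wm p q z ∈ ann p q r := ⟨hp, hq, by rw [hlv, abs_zero]; exact hr⟩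
      refine ⟨Wm p q z, hp, hq, hlv, ?_⟩
      rw [← he]
      refine (PreM_exp h2 h6 (PreM_lg hpq hwa) hzs).2 ?_
      rw [(Wm_lg hpq hp hq).1, hW1]
    rcases hM with ⟨hM1, hM2⟩ | ⟨hM1, hM2⟩
    · refine ⟨insert 0 (Complex.exp '' V'), Complex.exp '' W', PreM_open hV hM1,
        Complex.isOpenMap_exp W' hW, ?_, ?_, hvW, ?_, hr', ?_, Real.exp M,
        Or.inr fun v hv => PreM_inf hM2 v hv⟩
      · rw [Set.disjoint_insert_left]
        exact ⟨PreM_zero W', hd⟩
      · rintro (h | h)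
        · exact Complex.exp_ne_zero _ h
        · exact hvV h
      · exact fun w hw hlw => Or.inr (hl w hw hlw)
      · intro v hv hvV' hvW'
        exact hrest v (fun h => hvV' (Or.inl h)) hv (fun h => hvV' (Or.inr h)) hvW'
    · refine ⟨Complex.exp '' V', insert 0 (Complex.exp '' W'), Complex.isOpenMap_exp V' hV,
        PreM_open hW hM1, ?_, hvV, ?_, hl, ?_, ?_, Real.exp M,
        Or.inl fun v hv => PreM_inf hM2 v hv⟩
      · rw [Set.disjoint_insert_right]
        exact ⟨PreM_zero V', hd⟩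
      · rintro (h | h)
        · exact Complex.exp_ne_zero _ h
        · exact hvW h
      · exact fun w hw hlw => Or.inr (hr' w hw hlw)
      · intro v hv hvV' hvW'
        exact hrest v (fun h => hvW' (Or.inl h)) hv hvV' (fun h => hvW' (Or.inr h))

end Pool.Agent.MX018
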