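import Pool.Agent.Lib.MP_018119_an_MX.Defs

/-!
# MX: holomorphic square roots on simply connected open sets
-/

set_option autoImplicit false

open Topology Filter Set Metric

namespace Pool.Agent.MX018

open Pool.Agent.Lib.MP_1f4a82_an

/-- Holomorphic square roots.
PROOF. A continuous square root `g` on `Y` exists by
`Complex.exists_continuousOn_pow_eq` (Mathlib, Analysis/Complex/BranchLogRoot.lean). It is
holomorphic: at `p ∈ Y` choose a square root of a nonzero number locally holomorphic, i.e. near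
`p` one has `g x = g p * s x` where `s x = exp (log (h x / h p) / 2)` (`h x / h p` is near `1`, in
the slit plane): both sides are continuous near `p`, have the same square and the same value at
`p`, so `(g x / (g p * s x))` is continuous near `p` with values `±1` and equals `1` at `p`, hence
`1` near `p`. Then use `HolAt.clog`, `HolAt.cexp`, `HolAt.congr`. -/
theorem exists_sqrt {X : Type} [TopologicalSpace X] [LocallyPathConnectedSpace X] [RS X]
    (Y : Set X) (hYo : IsOpen Y) (hsc : IsSimplyConnected Y) (h : X → ℂ)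
    (hh : ∀ p ∈ Y, HolAt h p) (h0 : ∀ p ∈ Y, h p ≠ 0) :
    ∃ g : X → ℂ, (∀ p ∈ Y, HolAt g p) ∧ ∀ p ∈ Y, g p ^ 2 = h p := by
  obtain ⟨g, hg, hg2⟩ := Complex.exists_continuousOn_pow_eq (n := 2) hsc hYo (g := h)
    (fun p hp => (hh p hp).continuousAt.continuousWithinAt)
    (by
      rintro ⟨p, hp, h1⟩
      exact h0 p hp h1) two_ne_zero
  refine ⟨g, fun p hp => ?_, fun p _ => hg2 p⟩
  have hgp : g p ≠ 0 := fun h1 => h0 p hp (by rw [← hg2, h1]; simp)
  have hcg : ContinuousAt g p := hg.continuousAt (hYo.mem_nhds hp)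
  have hq : HolAt (fun x => h x / h p) p := HolAt.div (hh p hp) (holAt_const (h p) p) (h0 p hp)
  have hlog : HolAt (fun x => Complex.log (h x / h p)) p :=
    hq.clog (by rw [div_self (h0 p hp)]; exact Complex.one_mem_slitPlane)
  have hT : HolAt (fun x => g p * Complex.exp (Complex.log (h x / h p) / 2)) p :=
    HolAt.mul (holAt_const (g p) p)
      (HolAt.cexp (HolAt.div hlog (holAt_const (2 : ℂ) p) two_ne_zero))
  refine HolAt.congr hT ?_
  have hTp : g p * Complex.exp (Complex.log (h p / h p) / 2) = g p := by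
    rw [div_self (h0 p hp)]
    simp
  have h1 : ∀ᶠ x in 𝓝 p, h x ≠ 0 := (hh p hp).continuousAt.eventually_ne (h0 p hp)
  have h2 : ∀ᶠ x in 𝓝 p, ‖g x - g p‖ < ‖g p‖ := by
    have h3 : Tendsto (fun x => ‖g x - g p‖) (𝓝 p) (𝓝 ‖g p - g p‖) :=
      (hcg.sub continuousAt_const).norm
    rw [sub_self, norm_zero] at h3
    exact h3.eventually (gt_mem_nhds (norm_pos_iff.2 hgp))
  have h4 : ∀ᶠ x in 𝓝 p,
      ‖g p * Complex.exp (Complex.log (h x / h p) / 2) - g p‖ < ‖g p‖ := by
    have h3 : Tendsto (fun x => ‖g p * Complex.exp (Complex.log (h x / h p) / 2) - g p‖) (𝓝 p)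
        (𝓝 ‖g p * Complex.exp (Complex.log (h p / h p) / 2) - g p‖) :=
      (hT.continuousAt.sub continuousAt_const).norm
    rw [hTp, sub_self, norm_zero] at h3
    exact h3.eventually (gt_mem_nhds (norm_pos_iff.2 hgp))
  filter_upwards [h1, h2, h4] with x e1 e2 e3
  have e4 : (g p * Complex.exp (Complex.log (h x / h p) / 2)) ^ 2 = g x ^ 2 := by
    rw [hg2, mul_pow, ← Complex.exp_nat_mul, hg2]
    have e5 : ((2 : ℕ) : ℂ) * (Complex.log (h x / h p) / 2) = Complex.log (h x / h p) := by
      push_cast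
      ring
    rw [e5, Complex.exp_log (div_ne_zero e1 (h0 p hp))]
    field_simp [h0 p hp]
  rcases sq_eq_sq_iff_eq_or_eq_neg.1 e4 with e5 | e5
  · exact e5
  · exfalso
    rw [e5] at e3
    have e6 : ‖(g x - g p) + (-g x - g p)‖ ≤ ‖g x - g p‖ + ‖-g x - g p‖ := norm_add_le _ _
    have e7 : (g x - g p) + (-g x - g p) = -(2 * g p) := by ring
    rw [e7, norm_neg, norm_mul] at e6
    have e8 : ‖(2 : ℂ)‖ = 2 := by norm_num
    rw [e8] at e6
    linarith

end Pool.Agent.MX018
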