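import Pool.Agent.Lib.MP_018119_an_MX.Defs

/-!
# MX: the Green maps are injective
-/

set_option autoImplicit false

open Topology Filter Set Metric

namespace Pool.Agent.MX018

open Pool.Agent.Lib.MP_1f4a82_an

private theorem UnivL_mob {a w : ℂ} (ha : ‖a‖ < 1) (hw : ‖w‖ < 1) :
    1 - (starRingEnd ℂ) a * w ≠ 0 ∧ ‖(w - a) / (1 - (starRingEnd ℂ) a * w)‖ < 1 := by
  have h1 : Complex.normSq (1 - (starRingEnd ℂ) a * w) - Complex.normSq (w - a) =
      (1 - Complex.normSq a) * (1 - Complex.normSq w) := by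
    simp only [Complex.normSq_apply, Complex.sub_re, Complex.sub_im, Complex.mul_re,
      Complex.mul_im, Complex.one_re, Complex.one_im, Complex.conj_re, Complex.conj_im]
    ring
  have h2 : Complex.normSq a < 1 := by
    rw [Complex.normSq_eq_norm_sq]
    nlinarith [norm_nonneg a]
  have h3 : Complex.normSq w < 1 := by
    rw [Complex.normSq_eq_norm_sq]
    nlinarith [norm_nonneg w]
  have h4 : Complex.normSq (w - a) < Complex.normSq (1 - (starRingEnd ℂ) a * w) := by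
    have h5 := mul_pos (sub_pos.2 h2) (sub_pos.2 h3)
    linarith
  have h5 : ‖w - a‖ < ‖1 - (starRingEnd ℂ) a * w‖ := by
    rw [Complex.normSq_eq_norm_sq, Complex.normSq_eq_norm_sq] at h4
    exact lt_of_pow_lt_pow_left₀ 2 (norm_nonneg _) h4
  have h6 : 0 < ‖1 - (starRingEnd ℂ) a * w‖ := lt_of_le_of_lt (norm_nonneg _) h5
  refine ⟨norm_pos_iff.1 h6, ?_⟩
  rw [norm_div, div_lt_one h6]
  exact h5

/-- The comparison of two Green maps. -/
private theorem UnivL_cmp {X : Type} [TopologicalSpace X] [RS X] {Y : Set X} {p q : X}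
    {φ ψ : X → ℂ} (h : GF Y q φ) (h' : GF Y p ψ) (hp : p ∈ Y) :
    (∀ x ∈ Y, HolAt (fun x => (φ x - φ p) / (1 - (starRingEnd ℂ) (φ p) * φ x)) x) ∧
    ∀ x ∈ Y, ‖(φ x - φ p) / (1 - (starRingEnd ℂ) (φ p) * φ x)‖ ≤ ‖ψ x‖ := by
  have h1 : ∀ x ∈ Y, HolAt (fun x => (φ x - φ p) / (1 - (starRingEnd ℂ) (φ p) * φ x)) x :=
    fun x hx => ((h.hol x hx).sub (holAt_const _ _)).div
      ((holAt_const _ _).sub ((holAt_const _ _).mul (h.hol x hx)))
      (UnivL_mob (h.lt p hp) (h.lt x hx)).1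
  exact ⟨h1, h'.max _ h1 (fun x hx => (UnivL_mob (h.lt p hp) (h.lt x hx)).2)
    (by rw [sub_self, zero_div])⟩

private theorem UnivL_le {X : Type} [TopologicalSpace X] [RS X] {Y : Set X} {p q : X}
    {φ ψ : X → ℂ} (h : GF Y q φ) (h' : GF Y p ψ) (hp : p ∈ Y) (hq : q ∈ Y) :
    ‖φ p‖ ≤ ‖ψ q‖ := by
  have h1 := (UnivL_cmp h h' hp).2 q hq
  rw [h.zero, mul_zero, sub_zero, div_one, zero_sub, norm_neg] at h1
  exact h1

/-- The Green maps are injective.
PROOF (Ahlfors). Let `φ` be the Green map with pole `q`, let `p ∈ Y`, `p ≠ q`, and let `φp` be a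
Green map with pole `p`. Put `a = φ p` (`‖a‖ < 1`) and `b x = (φ x - a) / (1 - conj a * φ x)`:
holomorphic on `Y`, `‖b‖ < 1`, `b p = 0`. By `max` for `φp`: `‖b x‖ ≤ ‖φp x‖` on `Y`; at `x = q`:
`‖φ p‖ = ‖b q‖ ≤ ‖φp q‖`. Exchanging the roles of `p` and `q`: `‖φp q‖ ≤ ‖φ p‖`. So
`‖b q‖ = ‖φp q‖`. The quotient `b / φp` is holomorphic on `Y \ {p}`, bounded by `1` in modulus there
and has modulus `1` at `q ∈ Y \ {p}`; `Y \ {p}` is open and preconnected
(`isPreconnected_diff_singleton`), so it is constant there (`HolAt.eqOn_of_norm_max`), a constant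
`c` with `‖c‖ = 1`. If now `φ x = φ p` with `x ∈ Y`, `x ≠ p`, then `b x = 0`, but
`b x = c * φp x ≠ 0` (`GF.ne`). (If one of the two points with equal values is `q`, then
`φ x = 0` and `GF.ne` gives `x = q`.) -/
theorem GF_injOn {X : Type} [TopologicalSpace X] [T2Space X] [RS X] {Y : Set X} (hYo : IsOpen Y)
    (hYc : IsPreconnected Y) (hall : ∀ q ∈ Y, ∃ φ : X → ℂ, GF Y q φ) {q : X} (hq : q ∈ Y)
    {φ : X → ℂ} (h : GF Y q φ) : InjOn φ Y := by
  intro x hx y hy hxy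
  by_cases hyq : y = q
  · by_contra hne
    have h1 : x ≠ q := fun h2 => hne (h2.trans hyq.symm)
    refine h.ne x hx h1 ?_
    rw [hxy, hyq, h.zero]
  · by_contra hne
    obtain ⟨ψ, hψ⟩ := hall y hy
    obtain ⟨h1, h2⟩ := UnivL_cmp h hψ hy
    have h3 : ‖φ y‖ = ‖ψ q‖ := le_antisymm (UnivL_le h hψ hy hq) (UnivL_le hψ h hq hy)
    have hqy : q ∈ Y \ {y} := ⟨hq, fun h4 => hyq h4.symm⟩
    have hxy' : x ∈ Y \ {y} := ⟨hx, hne⟩
    have h4 : ‖(φ q - φ y) / (1 - (starRingEnd ℂ) (φ y) * φ q) / ψ q‖ = 1 := by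
      rw [h.zero, mul_zero, sub_zero, div_one, zero_sub, norm_div, norm_neg, h3]
      exact div_self (norm_ne_zero_iff.2 (hψ.ne q hq hqy.2))
    have h5 := HolAt.eqOn_of_norm_max (hYo.sdiff isClosed_singleton)
      (isPreconnected_diff_singleton hYo hYc y)
      (f := fun x => (φ x - φ y) / (1 - (starRingEnd ℂ) (φ y) * φ x) / ψ x)
      (fun z hz => (h1 z hz.1).div (hψ.hol z hz.1) (hψ.ne z hz.1 hz.2)) hqy
      (fun z hz => by
        rw [h4, norm_div]
        exact div_le_one_of_le₀ (h2 z hz.1) (norm_nonneg _)) x hxy'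
    have h6 : (φ x - φ y) / (1 - (starRingEnd ℂ) (φ y) * φ x) / ψ x = 0 := by
      rw [hxy, sub_self, zero_div, zero_div]
    have h7 : (φ q - φ y) / (1 - (starRingEnd ℂ) (φ y) * φ q) / ψ q = 0 := by
      rw [← h6]
      exact h5.symm
    rw [h7, norm_zero] at h4
    exact zero_ne_one h4

end Pool.Agent.MX018
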