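import Pool.Agent.Lib.MP_018119_an_MX.Green1
import Pool.Agent.Lib.MP_018119_an_MX.GlueY
import Pool.Agent.Lib.MP_018119_an_MX.UnivL
import Pool.Agent.Lib.MP_018119_an_MX.OntoL
import Pool.Agent.Lib.MP_018119_an_MX.SqrtL
import Pool.Agent.Lib.MP_018119_an_MX.PlRS

/-!
# MX: uniformization of a strip with modified structure
-/

set_option autoImplicit false

open Topology Filter Set Metric

namespace Pool.Agent.MX018

open Pool.Agent.Lib.MP_1f4a82_an

private theorem StripMap_open (r : ℝ) : IsOpen (vst r) := by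
  unfold vst
  exact isOpen_lt (continuous_abs.comp Complex.continuous_re) continuous_const

private theorem StripMap_convex (r : ℝ) : Convex ℝ (vst r) := by
  have h : vst r = Complex.reCLM ⁻¹' (Metric.ball (0 : ℝ) r) := by
    ext z
    simp [vst]
  rw [h]
  exact (convex_ball (0 : ℝ) r).is_linear_preimage Complex.reCLM.isLinear

private theorem StripMap_nonempty {r : ℝ} (hr : 0 < r) : (vst r).Nonempty :=
  ⟨0, by simpa [vst] using hr⟩

private theorem StripMap_sc {r : ℝ} (hr : 0 < r) : IsSimplyConnected (vst r) := by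
  have := (StripMap_convex r).contractibleSpace (StripMap_nonempty hr)
  exact SimplyConnectedSpace.ofContractible _

private theorem StripMap_frontier {r : ℝ} (hr : 0 < r) {x₀ : ℂ} (hx₀ : x₀.re = r) :
    x₀ ∈ frontier (vst r) := by
  rw [(StripMap_open r).frontier_eq]
  refine ⟨?_, ?_⟩
  · rw [Metric.mem_closure_iff]
    intro ε hε
    obtain ⟨t, ht0, ht⟩ : ∃ t : ℝ, 0 < t ∧ t < min ε r := by
      exact ⟨min ε r / 2, by positivity, half_lt_self (by positivity)⟩
    have ht1 : t < ε := ht.trans_le (min_le_left _ _)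
    have ht2 : t < r := ht.trans_le (min_le_right _ _)
    refine ⟨x₀ - (t : ℂ), ?_, ?_⟩
    · show |(x₀ - (t : ℂ)).re| < r
      rw [Complex.sub_re, hx₀, Complex.ofReal_re, abs_lt]
      constructor <;> linarith
    · rw [dist_eq_norm, sub_sub_cancel, Complex.norm_real, Real.norm_eq_abs, abs_of_pos ht0]
      exact ht1
  · intro h
    have h1 : |x₀.re| < r := h
    rw [hx₀, abs_of_pos hr] at h1
    exact lt_irrefl _ h1

/-- The strip `|Re z| < r`, with the structure `m`, is mapped onto the unit disc.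
PROOF. Work in the Riemann surface `X = Pl m` with `Y = vst r`: open, convex (so connected, and
simply connected as a subtype: `Convex` nonempty implies contractible). The frontier point `x₀`
is good: with `β s = x₀ + I * s` and a small radius (`< r`, and such that the ball around `x₀` is
disjoint from the closed set `C`) one has `(β s).re = r - s.im`, so `β s ∈ Y ↔ 0 < s.im`, and `β`
is holomorphic into `Pl m` (`holAt_to_pl`). So `exists_green_one` and `exists_GF` give a Green map
`GF Y q φ` for every `q ∈ Y`; `GF_injOn`, `GF_onto` (with `exists_sqrt`) give that the one for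
`q = 0` is injective and onto, and `holAt_pl_iff` translates holomorphy. -/
theorem strip_map (m : MPl) (r : ℝ) (hr : 0 < r) (x₀ : ℂ) (hx₀ : x₀.re = r) (hC : x₀ ∉ m.C) :
    ∃ φ : ℂ → ℂ, (∀ z ∈ vst r, MHol m φ z) ∧ InjOn φ (vst r) ∧ φ '' vst r = ball 0 1 := by
  -- the good frontier point
  have hCo : IsOpen (m.Cᶜ) := m.closedC.isOpen_compl
  obtain ⟨ρ₀, hρ₀, hball⟩ := Metric.isOpen_iff.1 hCo x₀ hC
  obtain ⟨ρ, hρ, hρ1, hρ2⟩ : ∃ ρ : ℝ, 0 < ρ ∧ ρ ≤ ρ₀ ∧ ρ ≤ r :=
    ⟨min ρ₀ r, by positivity, min_le_left _ _, min_le_right _ _⟩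
  have hβC : ∀ s ∈ ball (0 : ℂ) ρ, x₀ + Complex.I * s ∉ m.C := by
    intro s hs
    have h1 : x₀ + Complex.I * s ∈ ball x₀ ρ₀ := by
      rw [mem_ball_iff_norm, add_sub_cancel_left, norm_mul, Complex.norm_I, one_mul]
      exact (mem_ball_zero_iff.1 hs).trans_le hρ1
    exact hball h1
  have hbd : ∃ β : ℂ → Pl m, ∃ ρ > 0, (∀ s ∈ ball (0 : ℂ) ρ, HolAt β s) ∧
      InjOn β (ball 0 ρ) ∧ β 0 = (show Pl m from x₀) ∧
      ∀ s ∈ ball (0 : ℂ) ρ, (β s ∈ (show Set (Pl m) from vst r) ↔ 0 < s.im) := by
    refine ⟨fun s => x₀ + Complex.I * s, ρ, hρ, ?_, ?_, ?_, ?_⟩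
    · intro s hs
      refine holAt_to_pl m (fun s => x₀ + Complex.I * s) s (hβC s hs) ?_
      exact analyticAt_const.add (analyticAt_const.mul analyticAt_id)
    · intro s _ t _ hst
      have h1 : x₀ + Complex.I * s = x₀ + Complex.I * t := hst
      exact mul_left_cancel₀ Complex.I_ne_zero (add_left_cancel h1)
    · show x₀ + Complex.I * 0 = x₀
      rw [mul_zero, add_zero]
    · intro s hs
      show |(x₀ + Complex.I * s).re| < r ↔ 0 < s.im
      have h1 : |s.im| < ρ := (Complex.abs_im_le_norm s).trans_lt (mem_ball_zero_iff.1 hs)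
      have h2 : (x₀ + Complex.I * s).re = r - s.im := by
        rw [Complex.add_re, Complex.mul_re, Complex.I_re, Complex.I_im, hx₀]
        ring
      rw [h2, abs_lt]
      rw [abs_lt] at h1
      constructor
      · intro h
        linarith [h.2]
      · intro h
        constructor <;> linarith [h1.1, h1.2]
  have hYo : IsOpen (show Set (Pl m) from vst r) := StripMap_open r
  have hYc : IsConnected (show Set (Pl m) from vst r) :=
    ⟨StripMap_nonempty hr, (StripMap_convex r).isPreconnected⟩
  have hsc : IsSimplyConnected (show Set (Pl m) from vst r) := StripMap_sc hr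
  have hall : ∀ q ∈ (show Set (Pl m) from vst r), ∃ φ : Pl m → ℂ,
      GF (show Set (Pl m) from vst r) q φ := by
    intro q hq
    obtain ⟨G, h1, h2, h3, h4⟩ := exists_green_one (show Set (Pl m) from vst r) hYo hYc
      (show Pl m from x₀) (StripMap_frontier hr hx₀) hbd q hq
    exact exists_GF _ hYo hsc q hq G h1 h2 h3 h4
  have hq0 : (show Pl m from (0 : ℂ)) ∈ (show Set (Pl m) from vst r) := by
    show |(0 : ℂ).re| < r
    simpa using hr
  obtain ⟨φ, hφ⟩ := hall _ hq0
  have hinj := GF_injOn hYo hYc.isPreconnected hall hq0 hφ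
  have honto := GF_onto hYo (fun h hh h0 => exists_sqrt _ hYo hsc h hh h0) hq0 hφ hinj
  exact ⟨φ, fun z hz => (holAt_pl_iff m φ z).1 (hφ.hol z hz), hinj, honto⟩

end Pool.Agent.MX018
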