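import Pool.Agent.Lib.MP_018119_an_MX.GateM

/-!
# MX: back from the logarithmic coordinate
-/

set_option autoImplicit false

open Topology Filter Set Metric

namespace Pool.Agent.MX018

/-- The principal logarithmic coordinate. -/
noncomputable def lg (p q w : ℂ) : ℂ := Complex.log ((w - p) / (w - q))

/-- PROOF. `(w - p) / (w - q)` is not `0` and not `1`; `Complex.exp_log`, and solve for `w`. -/
theorem Wm_lg {p q w : ℂ} (hpq : p ≠ q) (hp : w ≠ p) (hq : w ≠ q) :
    Complex.exp (lg p q w) = (w - p) / (w - q) ∧ Complex.exp (lg p q w) ≠ 1 ∧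
      Wm p q (lg p q w) = w ∧ (lg p q w).re = lv p q w := by
  have h1 : w - p ≠ 0 := sub_ne_zero.mpr hp
  have h2 : w - q ≠ 0 := sub_ne_zero.mpr hq
  have hu : (w - p) / (w - q) ≠ 0 := div_ne_zero h1 h2
  have he : Complex.exp (lg p q w) = (w - p) / (w - q) := Complex.exp_log hu
  have hne1 : (w - p) / (w - q) ≠ 1 := by
    intro h
    rw [div_eq_one_iff_eq h2] at h
    exact hpq (by linear_combination -h)
  refine ⟨he, by rw [he]; exact hne1, ?_, ?_⟩
  · have h3 : p - q ≠ 0 := sub_ne_zero.mpr hpq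
    rw [Wm, he]
    have h4 : 1 - (w - p) / (w - q) = (p - q) / (w - q) := by
      field_simp
      ring
    have h5 : p - q * ((w - p) / (w - q)) = w * (p - q) / (w - q) := by
      field_simp
      ring
    rw [h4, h5]
    field_simp
  · exact Complex.log_re _

/-- Holomorphy in the `w`-plane.
PROOF. Let `u₀ = (w - p) / (w - q)` and `ℓ x = lg p q w + Complex.log (((x - p) / (x - q)) / u₀)`,
analytic near `w`, with `ℓ w = lg p q w` and `exp (ℓ x) = (x - p) / (x - q)` near `w`. So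
`ℓ x - lg p q x` is an integer multiple of `2πi`, and `(lg p q x).re = lv p q x` has modulus `< r`
near `w` (also `(ℓ x).re`), so by periodicity (iterate `hper`, forwards and backwards)
`Ψ (lg p q x) = Ψ (ℓ x)` near `w`. If `w ∉ J` then `lg p q w ∉ C` (`Wm_lg`), `Ψ` is analytic at
`lg p q w` and the composition `Ψ ∘ ℓ` is analytic at `w`. If `w ∈ J` then `lg p q w ∈ C`,
`Ψ z = g (ψ (Wm p q z))` near `lg p q w` with `g` analytic at `ψ w`, and `Wm p q (ℓ x) = x`, so that
`Ψ (ℓ x) = g (ψ x)` near `w`. -/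
theorem whol_of_mhol {p q : ℂ} {J N : Set ℂ} {ψ : ℂ → ℂ} (hg : Gate p q J N ψ) {r : ℝ}
    {Ψ : ℂ → ℂ} (hΨ : ∀ z ∈ vst r, MHol (gateM hg) Ψ z)
    (hper : ∀ z ∈ vst r, Ψ (z + 2 * Real.pi * Complex.I) = Ψ z) {w : ℂ} (hw : w ∈ ann p q r) :
    WHol J ψ (fun x => Ψ (lg p q x)) w := by
  obtain ⟨hp, hq, hlv⟩ := hw
  have hpq := hg.ne
  obtain ⟨he, he1, hWm, hre⟩ := Wm_lg hpq hp hq
  set u₀ : ℂ := (w - p) / (w - q) with hu₀
  have hu0 : u₀ ≠ 0 := div_ne_zero (sub_ne_zero.mpr hp) (sub_ne_zero.mpr hq)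
  set ℓ : ℂ → ℂ := fun x => lg p q w + Complex.log (((x - p) / (x - q)) / u₀) with hℓ
  have hℓw : ℓ w = lg p q w := by
    simp only [hℓ]
    rw [← hu₀, div_self hu0, Complex.log_one, add_zero]
  have hℓa : AnalyticAt ℂ ℓ w := by
    have h1 : AnalyticAt ℂ (fun x : ℂ => ((x - p) / (x - q)) / u₀) w := by
      have h2 : w - q ≠ 0 := sub_ne_zero.mpr hq
      exact ((analyticAt_id.sub analyticAt_const).div (analyticAt_id.sub analyticAt_const)
        h2).div analyticAt_const hu0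
    have h3 : ((w - p) / (w - q)) / u₀ ∈ Complex.slitPlane := by
      rw [← hu₀, div_self hu0]
      exact Complex.one_mem_slitPlane
    exact analyticAt_const.add (h1.clog h3)
  have hℓc : Tendsto ℓ (𝓝 w) (𝓝 (lg p q w)) := hℓw ▸ hℓa.continuousAt
  have hvo : IsOpen (vst r) := isOpen_lt (by fun_prop) continuous_const
  have hmemw : lg p q w ∈ vst r := by
    change |(lg p q w).re| < r
    rw [hre]
    exact hlv
  have hper' : ∀ (n : ℕ), ∀ z ∈ vst r, Ψ (z + n * (2 * Real.pi * Complex.I)) = Ψ z := by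
    intro n
    induction n with
    | zero => intro z _; simp
    | succ n ih =>
      intro z hz
      have hz' : z + n * (2 * Real.pi * Complex.I) ∈ vst r := by
        change |(z + n * (2 * Real.pi * Complex.I)).re| < r
        have : (z + n * (2 * Real.pi * Complex.I)).re = z.re := by simp
        rw [this]
        exact hz
      rw [← ih z hz, ← hper _ hz']
      congr 1
      push_cast
      ring
  have hperZ : ∀ (n : ℤ), ∀ z ∈ vst r, Ψ (z + n * (2 * Real.pi * Complex.I)) = Ψ z := by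
    intro n z hz
    obtain ⟨k, rfl | rfl⟩ := n.eq_nat_or_neg
    · exact_mod_cast hper' k z hz
    · have hz' : z + ((-(k : ℤ) : ℤ) : ℂ) * (2 * Real.pi * Complex.I) ∈ vst r := by
        change |(z + ((-(k : ℤ) : ℤ) : ℂ) * (2 * Real.pi * Complex.I)).re| < r
        have : (z + ((-(k : ℤ) : ℤ) : ℂ) * (2 * Real.pi * Complex.I)).re = z.re := by simp
        rw [this]
        exact hz
      rw [← hper' k _ hz']
      congr 1
      push_cast
      ring
  have hexp : ∀ᶠ x in 𝓝 w, Complex.exp (ℓ x) = Complex.exp (lg p q x) ∧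
      Wm p q (ℓ x) = x ∧ Ψ (lg p q x) = Ψ (ℓ x) := by
    have e1 : ∀ᶠ x in 𝓝 w, x ≠ p := isOpen_ne.mem_nhds hp
    have e2 : ∀ᶠ x in 𝓝 w, x ≠ q := isOpen_ne.mem_nhds hq
    have e3 : ∀ᶠ x in 𝓝 w, ℓ x ∈ vst r := hℓc (hvo.mem_nhds hmemw)
    filter_upwards [e1, e2, e3] with x h1 h2 h3
    have hx0 : (x - p) / (x - q) ≠ 0 := div_ne_zero (sub_ne_zero.mpr h1) (sub_ne_zero.mpr h2)
    have h4 : Complex.exp (ℓ x) = Complex.exp (lg p q x) := by
      rw [(Wm_lg hpq h1 h2).1]
      simp only [hℓ]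
      rw [Complex.exp_add, he, Complex.exp_log (div_ne_zero hx0 hu0)]
      field_simp
    refine ⟨h4, ?_, ?_⟩
    · have h5 := (Wm_lg hpq h1 h2).2.2.1
      rw [Wm] at h5 ⊢
      rw [h4, h5]
    · obtain ⟨n, hn⟩ := Complex.exp_eq_exp_iff_exists_int.mp h4.symm
      rw [hn]
      exact hperZ n _ h3
  constructor
  · intro hwJ
    have hC : lg p q w ∉ (gateM hg).C := by
      intro hmem
      have h5 : Wm p q (lg p q w) ∈ J := hmem.2
      rw [hWm] at h5
      exact hwJ h5
    have h6 : AnalyticAt ℂ Ψ (ℓ w) := by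
      rw [hℓw]
      exact (hΨ _ hmemw).1 hC
    have h7 : AnalyticAt ℂ (fun x => Ψ (ℓ x)) w := h6.comp hℓa
    refine h7.congr ?_
    filter_upwards [hexp] with x hx
    exact hx.2.2.symm
  · intro hwJ
    have hC : lg p q w ∈ (gateM hg).C := by
      refine ⟨he1, ?_⟩
      rw [hWm]
      exact hwJ
    obtain ⟨g, hga, hge⟩ := (hΨ _ hmemw).2 hC
    refine ⟨g, ?_, ?_⟩
    · have h8 : (gateM hg).ψ (lg p q w) = ψ w := by
        change ψ (Wm p q (lg p q w)) = ψ w
        rw [hWm]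
      rw [← h8]
      exact hga
    · have h9 : ∀ᶠ x in 𝓝 w, Ψ (ℓ x) = g ((gateM hg).ψ (ℓ x)) := hℓc hge
      filter_upwards [h9, hexp] with x h10 h11
      change Ψ (lg p q x) = g (ψ x)
      rw [h11.2.2, h10]
      change g (ψ (Wm p q (ℓ x))) = g (ψ x)
      rw [h11.2.1]

end Pool.Agent.MX018
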